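import Pool.Agent.Helper31.Sk.Mat

/-! Pairings of orientation tensors. -/

set_option autoImplicit false

namespace Pool.Agent.Helper31.Sk

/-- sum over the lists of length `m` -/
def pz : ℕ → (List Bool → ℤ) → (List Bool → ℤ) → ℤ
  | 0, ψ, φ => ψ [] * φ []
  | m + 1, ψ, φ => pz m (fun l => ψ (false :: l)) (fun l => φ (false :: l)) +
      pz m (fun l => ψ (true :: l)) (fun l => φ (true :: l))

theorem pz_add_right (m : ℕ) (χ φ ψ : List Bool → ℤ) :
    pz m χ (fun l => φ l + ψ l) = pz m χ φ + pz m χ ψ := by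
  induction m generalizing χ φ ψ with
  | zero => simp only [pz]; ring
  | succ m ih =>
    simp only [pz]
    rw [ih, ih]; ring

theorem pz_add_left (m : ℕ) (χ φ ψ : List Bool → ℤ) :
    pz m (fun l => φ l + ψ l) χ = pz m φ χ + pz m ψ χ := by
  induction m generalizing χ φ ψ with
  | zero => simp only [pz]; ring
  | succ m ih =>
    simp only [pz]
    rw [ih, ih]; ring

theorem pz_zero_left (m : ℕ) (χ : List Bool → ℤ) : pz m (fun _ => 0) χ = 0 := by
  induction m generalizing χ with
  | zero => simp [pz]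
  | succ m ih => simp only [pz, ih]; ring

theorem pz_zero_right (m : ℕ) (χ : List Bool → ℤ) : pz m χ (fun _ => 0) = 0 := by
  induction m generalizing χ with
  | zero => simp [pz]
  | succ m ih => simp only [pz, ih]; ring

theorem pz_congr (m : ℕ) (ψ ψ' φ φ' : List Bool → ℤ)
    (h : ∀ l : List Bool, l.length = m → ψ l * φ l = ψ' l * φ' l) : pz m ψ φ = pz m ψ' φ' := by
  induction m generalizing ψ ψ' φ φ' with
  | zero => exact h [] rfl
  | succ m ih =>
    simp only [pz]
    rw [ih _ (fun l => ψ' (false :: l)) _ (fun l => φ' (false :: l)) fun l hl => h _ (by simp [hl]),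
      ih _ (fun l => ψ' (true :: l)) _ (fun l => φ' (true :: l)) fun l hl => h _ (by simp [hl])]

theorem pz_smul_left (m : ℕ) (c : ℤ) (ψ φ : List Bool → ℤ) :
    pz m (fun l => c * ψ l) φ = c * pz m ψ φ := by
  induction m generalizing ψ φ with
  | zero => simp only [pz]; ring
  | succ m ih =>
    simp only [pz]
    rw [ih, ih]; ring

theorem pz_finset (m : ℕ) (ψ φ : List Bool → ℤ) :
    pz m ψ φ = ∑ v : Fin m → Bool, ψ (List.ofFn v) * φ (List.ofFn v) := by
  induction m generalizing ψ φ with
  | zero => simp [pz]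
  | succ m ih =>
    simp only [pz]
    rw [ih, ih]
    rw [← (Fin.consEquiv (fun _ : Fin (m + 1) => Bool)).sum_comp, Fintype.sum_prod_type]
    rw [Fintype.sum_bool, add_comm]
    congr 1
    · refine Finset.sum_congr rfl fun v _ => ?_
      simp [Fin.consEquiv, List.ofFn_succ]
    · refine Finset.sum_congr rfl fun v _ => ?_
      simp [Fin.consEquiv, List.ofFn_succ]

theorem or_act_cup_fun (φ : List Bool → ℤ) : act (Or ℤ) 0 .cup φ =
    fun l => φ (false :: true :: l) + φ (true :: false :: l) := by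
  funext l
  simp [act0, S2, Or]

theorem adj_or (i : ℕ) (g : Gen) (m m' : ℕ) (ψ φ : List Bool → ℤ) (hi : i + g.src ≤ m)
    (hm : m' = m - g.src + g.tgt) :
    pz m ψ (act (Or ℤ) i g φ) = pz m' (act (Or ℤ) i g.dag ψ) φ := by
  induction i generalizing m m' ψ φ with
  | zero =>
    rcases g with _ | _ | _ | _
    · simp only [Gen.src, Gen.tgt, Nat.sub_zero] at hi hm
      subst hm
      rw [or_act_cup_fun, pz_add_right]
      simp only [pz, Gen.dag, act_zero, act0, Or, zero_mul, one_mul, if_true, reduceCtorEq, if_false,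
        pz_zero_left]
      ring
    · obtain ⟨m1, rfl⟩ : ∃ m1, m = m1 + 2 := ⟨m - 2, by simp only [Gen.src] at hi; omega⟩
      simp only [Gen.src, Gen.tgt] at hi hm
      have hm' : m' = m1 := by omega
      subst hm'
      have e0 : act (Or ℤ) 0 Gen.cap.dag ψ = act (Or ℤ) 0 .cup ψ := rfl
      rw [e0, or_act_cup_fun, pz_add_left]
      simp only [pz, act_zero, act0, Or, zero_mul, one_mul, if_true, reduceCtorEq, if_false,
        pz_zero_right]
      ring
    · obtain ⟨m1, rfl⟩ : ∃ m1, m = m1 + 2 := ⟨m - 2, by simp only [Gen.src] at hi; omega⟩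
      simp only [Gen.src, Gen.tgt] at hi hm
      have hm' : m' = m1 + 2 := by omega
      subst hm'
      simp [pz, Gen.dag, act0, Or, S2]
      ring
    · obtain ⟨m1, rfl⟩ : ∃ m1, m = m1 + 2 := ⟨m - 2, by simp only [Gen.src] at hi; omega⟩
      simp only [Gen.src, Gen.tgt] at hi hm
      have hm' : m' = m1 + 2 := by omega
      subst hm'
      simp [pz, Gen.dag, act0, Or, S2]
      ring
  | succ i ih =>
    obtain ⟨m1, rfl⟩ : ∃ m1, m = m1 + 1 := ⟨m - 1, by omega⟩
    obtain ⟨m2, rfl⟩ : ∃ m2, m' = m2 + 1 := ⟨m' - 1, by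
      rcases g with _ | _ | _ | _ <;> simp only [Gen.src, Gen.tgt] at hi hm <;> omega⟩
    have hm2 : m2 = m1 - g.src + g.tgt := by omega
    simp only [pz, act_succ]
    rw [ih m1 m2 _ _ (by omega) hm2, ih m1 m2 _ _ (by omega) hm2]

theorem adj_or_val (w : Word) : ∀ (m n : ℕ) (ψ φ : List Bool → ℤ), Legal m w n →
    pz m ψ (val (Or ℤ) w φ) = pz n (val (Or ℤ) (dag w) ψ) φ := by
  induction w with
  | nil =>
    intro m n ψ φ h
    simp only [Legal] at h
    subst h
    rfl
  | cons s w ih =>
    intro m n ψ φ h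
    obtain ⟨i, g⟩ := s
    obtain ⟨h1, h2⟩ := h
    have e : val (Or ℤ) ((i, g) :: w) φ = act (Or ℤ) i g (val (Or ℤ) w φ) := rfl
    rw [e, adj_or i g m _ ψ _ h1 rfl, ih _ n _ _ h2, dag_cons, val_append]
    rfl

/-- the number of orientations as a function of the directions at the bottom -/
def oF (C : Word) : List Bool → ℤ := val (Or ℤ) C (fun _ => 1)

theorem oF_cons (i : ℕ) (g : Gen) (C : Word) : oF ((i, g) :: C) = act (Or ℤ) i g (oF C) := rfl

theorem oF_append (u v : Word) : oF (u ++ v) = val (Or ℤ) u (oF v) := by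
  unfold oF
  rw [val_append]

theorem oF_eq (C : Word) (l : List Bool) : oF C l = (orients C l : ℤ) := by
  rw [orients_val (R := ℤ)]
  rfl

theorem oF_nonneg (C : Word) (l : List Bool) : 0 ≤ oF C l := by
  rw [oF_eq]
  positivity

/-- the tensor of a tangle -/
theorem tensor_or {m : ℕ} {S : Word} (hS : Legal 0 S m) (φ : List Bool → ℤ) :
    val (Or ℤ) S φ [] = pz m (oF (dag S)) φ := by
  have := adj_or_val S 0 m (fun _ => 1) φ hS
  simp only [pz, one_mul] at this
  exact this

/-- exchange of all the directions -/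
theorem or_not (i : ℕ) (g : Gen) (φ : List Bool → ℤ) (l : List Bool) :
    act (Or ℤ) i g φ (l.map not) = act (Or ℤ) i g (fun l => φ (l.map not)) l := by
  induction i generalizing φ l with
  | zero =>
    rcases g with _ | _ | _ | _
    · simp [act0, S2, Or]
      ring
    · rcases l with _ | ⟨x, _ | ⟨y, l⟩⟩
      · simp [act0]
      · simp [act0]
      · cases x <;> cases y <;> simp [act0, Or]
    · rcases l with _ | ⟨x, _ | ⟨y, l⟩⟩
      · simp [act0]
      · simp [act0]
      · cases x <;> cases y <;> simp [act0, Or, S2]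
    · rcases l with _ | ⟨x, _ | ⟨y, l⟩⟩
      · simp [act0]
      · simp [act0]
      · cases x <;> cases y <;> simp [act0, Or, S2]
  | succ i ih =>
    rcases l with _ | ⟨x, l⟩
    · simp [act]
    · simp only [List.map_cons, act_succ]
      exact ih _ _

theorem or_not_val (w : Word) (φ : List Bool → ℤ) (l : List Bool) :
    val (Or ℤ) w φ (l.map not) = val (Or ℤ) w (fun l => φ (l.map not)) l := by
  induction w generalizing l with
  | nil => rfl
  | cons s w ih =>
    obtain ⟨i, g⟩ := s
    simp only [val_cons]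
    rw [or_not]
    congr 1
    funext l'
    exact ih l'

theorem oF_not (C : Word) (l : List Bool) : oF C (l.map not) = oF C l := by
  unfold oF
  rw [or_not_val]

theorem pz_not (m : ℕ) (ψ φ : List Bool → ℤ) :
    pz m (fun l => ψ (l.map not)) (fun l => φ (l.map not)) = pz m ψ φ := by
  induction m generalizing ψ φ with
  | zero => rfl
  | succ m ih =>
    simp only [pz, List.map_cons, Bool.not_false, Bool.not_true]
    rw [ih (fun l => ψ (true :: l)) (fun l => φ (true :: l)),
      ih (fun l => ψ (false :: l)) (fun l => φ (false :: l))]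
    ring

/-- the pairing of two symmetric tensors is even -/
theorem pz_even (m : ℕ) (ψ φ : List Bool → ℤ)
    (h : ∀ l : List Bool, l.length = m + 1 → ψ (l.map not) * φ (l.map not) = ψ l * φ l) :
    Even (pz (m + 1) ψ φ) := by
  simp only [pz]
  have e := pz_not m (fun l => ψ (true :: l)) (fun l => φ (true :: l))
  have e2 : pz m (fun l => ψ (true :: l.map not)) (fun l => φ (true :: l.map not)) =
      pz m (fun l => ψ (false :: l)) (fun l => φ (false :: l)) :=
    pz_congr m _ _ _ _ fun l hl => by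
      have := h (false :: l) (by simp [hl])
      simpa using this
  rw [← e, e2]
  exact ⟨_, rfl⟩

theorem pz_nonneg (m : ℕ) (ψ φ : List Bool → ℤ)
    (h : ∀ l : List Bool, l.length = m → 0 ≤ ψ l * φ l) : 0 ≤ pz m ψ φ := by
  induction m generalizing ψ φ with
  | zero => exact h [] rfl
  | succ m ih =>
    exact add_nonneg (ih _ _ fun l hl => h _ (by simp [hl])) (ih _ _ fun l hl => h _ (by simp [hl]))

theorem pz_pos (m : ℕ) (ψ φ : List Bool → ℤ) (h : 0 < pz m ψ φ) :
    ∃ l : List Bool, l.length = m ∧ 0 < ψ l * φ l := by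
  by_contra hcon
  push Not at hcon
  have h1 : 0 ≤ pz m (fun l => -1 * ψ l) φ := pz_nonneg m _ _ fun l hl => by
    have := hcon l hl
    linarith
  rw [pz_smul_left] at h1
  linarith

/-- a nonnegative term of the pairing is at most the pairing -/
theorem pz_le (m : ℕ) (ψ φ : List Bool → ℤ)
    (h : ∀ l : List Bool, l.length = m → 0 ≤ ψ l * φ l) (l : List Bool) (hl : l.length = m) :
    ψ l * φ l ≤ pz m ψ φ := by
  induction m generalizing ψ φ l with
  | zero =>
    obtain rfl : l = [] := List.length_eq_zero_iff.1 hl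
    exact le_refl _
  | succ m ih =>
    rcases l with _ | ⟨x, l⟩
    · simp at hl
    · simp only [List.length_cons, Nat.add_right_cancel_iff] at hl
      have h1 := pz_nonneg m (fun l => ψ (false :: l)) (fun l => φ (false :: l))
        fun l hl => h _ (by simp [hl])
      have h2 := pz_nonneg m (fun l => ψ (true :: l)) (fun l => φ (true :: l))
        fun l hl => h _ (by simp [hl])
      simp only [pz]
      cases x
      · have := ih (fun l => ψ (false :: l)) (fun l => φ (false :: l))
          (fun l hl => h _ (by simp [hl])) l hl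
        linarith
      · have := ih (fun l => ψ (true :: l)) (fun l => φ (true :: l))
          (fun l hl => h _ (by simp [hl])) l hl
        linarith

/-- three different positive terms -/
theorem pz_three (m : ℕ) (ψ φ : List Bool → ℤ)
    (h : ∀ l : List Bool, l.length = m → 0 ≤ ψ l * φ l) (l1 l2 l3 : List Bool)
    (hl1 : l1.length = m) (hl2 : l2.length = m) (hl3 : l3.length = m) (h12 : l1 ≠ l2)
    (h13 : l1 ≠ l3) (h23 : l2 ≠ l3) (p1 : 1 ≤ ψ l1 * φ l1) (p2 : 1 ≤ ψ l2 * φ l2)
    (p3 : 1 ≤ ψ l3 * φ l3) : 3 ≤ pz m ψ φ := by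
  classical
  rw [pz_finset]
  subst hl1
  obtain ⟨v1, hv1⟩ : ∃ v : Fin l1.length → Bool, List.ofFn v = l1 := ⟨l1.get, List.ofFn_get l1⟩
  obtain ⟨v2, hv2⟩ : ∃ v : Fin l1.length → Bool, List.ofFn v = l2 := by
    rw [← hl2]; exact ⟨l2.get, List.ofFn_get l2⟩
  obtain ⟨v3, hv3⟩ : ∃ v : Fin l1.length → Bool, List.ofFn v = l3 := by
    rw [← hl3]; exact ⟨l3.get, List.ofFn_get l3⟩
  have n12 : v1 ≠ v2 := fun e => h12 (by rw [← hv1, ← hv2, e])
  have n13 : v1 ≠ v3 := fun e => h13 (by rw [← hv1, ← hv3, e])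
  have n23 : v2 ≠ v3 := fun e => h23 (by rw [← hv2, ← hv3, e])
  have hs : ∑ v ∈ ({v1, v2, v3} : Finset (Fin l1.length → Bool)),
      ψ (List.ofFn v) * φ (List.ofFn v) ≤ ∑ v : Fin l1.length → Bool,
      ψ (List.ofFn v) * φ (List.ofFn v) :=
    Finset.sum_le_sum_of_subset_of_nonneg (Finset.subset_univ _) fun v _ _ =>
      h _ (by simp)
  rw [Finset.sum_insert (by simp [n12, n13]), Finset.sum_insert (by simp [n23]),
    Finset.sum_singleton, hv1, hv2, hv3] at hs
  linarith

end Pool.Agent.Helper31.Sk
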