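import Pool.Agent.Helper31.Sk.Fun

/-! The bracket functor and the orientation functor. -/

set_option autoImplicit false

namespace Pool.Agent.Helper31.Sk

universe u

variable {R : Type u} [CommRing R]

def Mw (a b : R) : Bool → Bool → R
  | false, true => a
  | true, false => b
  | _, _ => 0

/-- the bracket rule -/
def Br (a b : R) : Rule R where
  cup c d := Mw a b c d
  cap x y := Mw a b x y
  pos x y c d := a * (if x = c ∧ y = d then 1 else 0) - b * (Mw a b x y * Mw a b c d)
  neg x y c d := b * (if x = c ∧ y = d then 1 else 0) - a * (Mw a b x y * Mw a b c d)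

/-- the factors -/
def IsU (a b c : R) : Prop := ∃ s i j : ℕ, c = (-1) ^ s * a ^ (3 * i) * b ^ (3 * j)

theorem isU_one (a b : R) : IsU a b 1 := ⟨0, 0, 0, by simp⟩

theorem isU_neg_one (a b : R) : IsU a b (-1) := ⟨1, 0, 0, by simp⟩

theorem isU_na (a b : R) : IsU a b (-a ^ 3) := ⟨1, 1, 0, by simp⟩

theorem isU_nb (a b : R) : IsU a b (-b ^ 3) := ⟨1, 0, 1, by simp⟩

theorem isU_mul {a b c d : R} (hc : IsU a b c) (hd : IsU a b d) : IsU a b (c * d) := by
  obtain ⟨s, i, j, rfl⟩ := hc
  obtain ⟨s', i', j', rfl⟩ := hd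
  exact ⟨s + s', i + i', j + j', by ring⟩

theorem isU_inv {a b : R} (hab : a * b = 1) {c : R} (hc : IsU a b c) :
    ∃ d, IsU a b d ∧ c * d = 1 := by
  obtain ⟨s, i, j, rfl⟩ := hc
  refine ⟨(-1) ^ s * a ^ (3 * j) * b ^ (3 * i), ⟨s, j, i, rfl⟩, ?_⟩
  have e1 : ((-1 : R) ^ s * a ^ (3 * i) * b ^ (3 * j)) * ((-1) ^ s * a ^ (3 * j) * b ^ (3 * i)) =
      ((-1) ^ s * (-1) ^ s) * ((a * b) ^ (3 * i) * (a * b) ^ (3 * j)) := by
    rw [mul_pow, mul_pow]
    ring
  rw [e1, hab, one_pow, one_pow, ← mul_pow]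
  simp

theorem good_br (a b : R) (hab : a * b = 1) : Good (Br a b) (IsU a b) where
  one := isU_one a b
  mul _ _ h h' := isU_mul h h'
  inv _ h := isU_inv hab h
  zig := by
    refine ⟨1, isU_one a b, fun φ l hl => ?_⟩
    rcases l with _ | ⟨x, l⟩
    · simp at hl
    · cases x <;> simp [act0, S2, Br, Mw] <;> grind
  zag := by
    refine ⟨1, isU_one a b, fun φ l hl => ?_⟩
    rcases l with _ | ⟨x, l⟩
    · simp at hl
    · cases x <;> simp [act0, S2, Br, Mw] <;> grind
  capP := by
    refine ⟨-1, isU_neg_one a b, fun φ l hl => ?_⟩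
    rcases l with _ | ⟨x, _ | ⟨y, _ | ⟨z, l⟩⟩⟩
    · simp at hl
    · simp at hl
    · simp at hl
    · cases x <;> cases y <;> cases z <;> simp [act0, S2, Br, Mw] <;> grind
  capN := by
    refine ⟨-1, isU_neg_one a b, fun φ l hl => ?_⟩
    rcases l with _ | ⟨x, _ | ⟨y, _ | ⟨z, l⟩⟩⟩
    · simp at hl
    · simp at hl
    · simp at hl
    · cases x <;> cases y <;> cases z <;> simp [act0, S2, Br, Mw] <;> grind
  cupP := by
    refine ⟨-1, isU_neg_one a b, fun φ l hl => ?_⟩
    rcases l with _ | ⟨x, l⟩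
    · simp at hl
    · cases x <;> simp [act0, S2, Br, Mw] <;> grind
  cupN := by
    refine ⟨-1, isU_neg_one a b, fun φ l hl => ?_⟩
    rcases l with _ | ⟨x, l⟩
    · simp at hl
    · cases x <;> simp [act0, S2, Br, Mw] <;> grind
  r1cupP := by
    refine ⟨-b ^ 3, isU_nb a b, fun φ l hl => ?_⟩
    simp [act0, S2, Br, Mw]
    grind
  r1cupN := by
    refine ⟨-a ^ 3, isU_na a b, fun φ l hl => ?_⟩
    simp [act0, S2, Br, Mw]
    grind
  r1capP := by
    refine ⟨-b ^ 3, isU_nb a b, fun φ l hl => ?_⟩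
    rcases l with _ | ⟨x, _ | ⟨y, l⟩⟩
    · simp at hl
    · simp at hl
    · cases x <;> cases y <;> simp [act0, S2, Br, Mw] <;> grind
  r1capN := by
    refine ⟨-a ^ 3, isU_na a b, fun φ l hl => ?_⟩
    rcases l with _ | ⟨x, _ | ⟨y, l⟩⟩
    · simp at hl
    · simp at hl
    · cases x <;> cases y <;> simp [act0, S2, Br, Mw] <;> grind
  r2P := by
    refine ⟨1, isU_one a b, fun φ l hl => ?_⟩
    rcases l with _ | ⟨x, _ | ⟨y, l⟩⟩
    · simp at hl
    · simp at hl
    · cases x <;> cases y <;> simp [act0, S2, Br, Mw] <;> grind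
  r2N := by
    refine ⟨1, isU_one a b, fun φ l hl => ?_⟩
    rcases l with _ | ⟨x, _ | ⟨y, l⟩⟩
    · simp at hl
    · simp at hl
    · cases x <;> cases y <;> simp [act0, S2, Br, Mw] <;> grind
  r3P := by
    refine ⟨1, isU_one a b, fun φ l hl => ?_⟩
    rcases l with _ | ⟨x, _ | ⟨y, _ | ⟨z, l⟩⟩⟩
    · simp at hl
    · simp at hl
    · simp at hl
    · cases x <;> cases y <;> cases z <;> simp [act0, S2, Br, Mw] <;> grind
  r3N := by
    refine ⟨1, isU_one a b, fun φ l hl => ?_⟩
    rcases l with _ | ⟨x, _ | ⟨y, _ | ⟨z, l⟩⟩⟩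
    · simp at hl
    · simp at hl
    · simp at hl
    · cases x <;> cases y <;> cases z <;> simp [act0, S2, Br, Mw] <;> grind

/-- the orientation rule -/
def Or (R : Type u) [CommRing R] : Rule R where
  cup c d := if c = d then 0 else 1
  cap x y := if x = y then 0 else 1
  pos x y c d := if x = d ∧ y = c then 1 else 0
  neg x y c d := if x = d ∧ y = c then 1 else 0

theorem good_or : Good (Or R) (fun c => c = 1) where
  one := rfl
  mul _ _ h h' := by rw [h, h', one_mul]
  inv _ h := ⟨1, rfl, by rw [h, one_mul]⟩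
  zig := by
    refine ⟨1, rfl, fun φ l hl => ?_⟩
    rcases l with _ | ⟨x, l⟩
    · simp at hl
    · cases x <;> simp [act0, S2, Or]
  zag := by
    refine ⟨1, rfl, fun φ l hl => ?_⟩
    rcases l with _ | ⟨x, l⟩
    · simp at hl
    · cases x <;> simp [act0, S2, Or]
  capP := by
    refine ⟨1, rfl, fun φ l hl => ?_⟩
    rcases l with _ | ⟨x, _ | ⟨y, _ | ⟨z, l⟩⟩⟩
    · simp at hl
    · simp at hl
    · simp at hl
    · cases x <;> cases y <;> cases z <;> simp [act0, S2, Or]
  capN := by
    refine ⟨1, rfl, fun φ l hl => ?_⟩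
    rcases l with _ | ⟨x, _ | ⟨y, _ | ⟨z, l⟩⟩⟩
    · simp at hl
    · simp at hl
    · simp at hl
    · cases x <;> cases y <;> cases z <;> simp [act0, S2, Or]
  cupP := by
    refine ⟨1, rfl, fun φ l hl => ?_⟩
    rcases l with _ | ⟨x, l⟩
    · simp at hl
    · cases x <;> simp [act0, S2, Or]
  cupN := by
    refine ⟨1, rfl, fun φ l hl => ?_⟩
    rcases l with _ | ⟨x, l⟩
    · simp at hl
    · cases x <;> simp [act0, S2, Or]
  r1cupP := by
    refine ⟨1, rfl, fun φ l hl => ?_⟩
    simp [act0, S2, Or]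
    ring
  r1cupN := by
    refine ⟨1, rfl, fun φ l hl => ?_⟩
    simp [act0, S2, Or]
    ring
  r1capP := by
    refine ⟨1, rfl, fun φ l hl => ?_⟩
    rcases l with _ | ⟨x, _ | ⟨y, l⟩⟩
    · simp at hl
    · simp at hl
    · cases x <;> cases y <;> simp [act0, S2, Or]
  r1capN := by
    refine ⟨1, rfl, fun φ l hl => ?_⟩
    rcases l with _ | ⟨x, _ | ⟨y, l⟩⟩
    · simp at hl
    · simp at hl
    · cases x <;> cases y <;> simp [act0, S2, Or]
  r2P := by
    refine ⟨1, rfl, fun φ l hl => ?_⟩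
    rcases l with _ | ⟨x, _ | ⟨y, l⟩⟩
    · simp at hl
    · simp at hl
    · cases x <;> cases y <;> simp [act0, S2, Or]
  r2N := by
    refine ⟨1, rfl, fun φ l hl => ?_⟩
    rcases l with _ | ⟨x, _ | ⟨y, l⟩⟩
    · simp at hl
    · simp at hl
    · cases x <;> cases y <;> simp [act0, S2, Or]
  r3P := by
    refine ⟨1, rfl, fun φ l hl => ?_⟩
    rcases l with _ | ⟨x, _ | ⟨y, _ | ⟨z, l⟩⟩⟩
    · simp at hl
    · simp at hl
    · simp at hl
    · cases x <;> cases y <;> cases z <;> simp [act0, S2, Or]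
  r3N := by
    refine ⟨1, rfl, fun φ l hl => ?_⟩
    rcases l with _ | ⟨x, _ | ⟨y, _ | ⟨z, l⟩⟩⟩
    · simp at hl
    · simp at hl
    · simp at hl
    · cases x <;> cases y <;> cases z <;> simp [act0, S2, Or]

theorem act_or (i : ℕ) (g : Gen) (φ : List Bool → R) (l : List Bool) :
    act (Or R) i g φ l = ((passes i g l).map φ).sum := by
  induction i generalizing φ l with
  | zero =>
    rcases g with _ | _ | _ | _
    · simp [act0, S2, Or, passes]
      ring
    · rcases l with _ | ⟨x, _ | ⟨y, l⟩⟩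
      · simp [act0, passes]
      · simp [act0, passes]
      · cases x <;> cases y <;> simp [act0, Or, passes]
    · rcases l with _ | ⟨x, _ | ⟨y, l⟩⟩
      · simp [act0, passes]
      · simp [act0, passes]
      · cases x <;> cases y <;> simp [act0, Or, passes, S2]
    · rcases l with _ | ⟨x, _ | ⟨y, l⟩⟩
      · simp [act0, passes]
      · simp [act0, passes]
      · cases x <;> cases y <;> simp [act0, Or, passes, S2]
  | succ i ih =>
    rcases l with _ | ⟨x, l⟩
    · simp [act, passes]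
    · rw [act_succ, ih]
      simp only [passes, List.map_map]
      rfl

theorem orients_val (w : Word) (l : List Bool) :
    (orients w l : R) = val (Or R) w (fun _ => 1) l := by
  induction w generalizing l with
  | nil => simp [orients]
  | cons s w ih =>
    obtain ⟨i, g⟩ := s
    simp only [orients, val_cons]
    rw [act_or]
    have e : val (Or R) w (fun _ => 1) = fun l => (orients w l : R) := funext fun l => (ih l).symm
    rw [e]
    generalize passes i g l = L
    induction L with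
    | nil => simp
    | cons x L ihL => simp [ihL]

theorem step_legal {m n : ℕ} {w w' : Word} (h : Step m n w w') : Legal m w n ∧ Legal m w' n := by
  obtain ⟨u, x, y, v, he, h1, h2⟩ := h
  exact ⟨h1, h2⟩

theorem iso_legal {m n : ℕ} {w w' : Word} (h : Iso m n w w') : Legal m w n ↔ Legal m w' n := by
  induction h with
  | rel w w' h => exact ⟨fun _ => (step_legal h).2, fun _ => (step_legal h).1⟩
  | refl w => exact Iff.rfl
  | symm w w' _ ih => exact ih.symm
  | trans w w' w'' _ _ ih1 ih2 => exact ih1.trans ih2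

theorem iso_orients {m n : ℕ} {w w' : Word} (h : Iso m n w w') (l : List Bool)
    (hl : l.length = m) : orients w l = orients w' l := by
  obtain ⟨c, hc, h⟩ := iso_val (good_or (R := ℤ)) h
  have h1 := h (fun _ => 1) l hl
  rw [← orients_val, ← orients_val] at h1
  rw [show c = 1 from hc, one_mul] at h1
  exact_mod_cast h1

theorem iso_isKnot {w w' : Word} (h : Iso 0 0 w w') : IsKnot w ↔ IsKnot w' := by
  unfold IsKnot
  rw [iso_legal h, iso_orients h [] rfl]

theorem isKnot_unknot : IsKnot unknot := by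
  refine ⟨?_, ?_⟩
  · simp [unknot, Legal, Gen.src, Gen.tgt]
  · simp [unknot, orients, passes]

end Pool.Agent.Helper31.Sk
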