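import Pool.Agent.Helper31.Sk.Twi

/-! Contexts as closings. -/

set_option autoImplicit false

namespace Pool.Agent.Helper31.Sk

section gen
universe u
variable {R : Type u} [CommRing R] (W : Rule R)

theorem act_rightW (i : ℕ) (g : Gen) (φ : List Bool → R) (l r : List Bool)
    (hl : i + g.src ≤ l.length) :
    act W i g φ (l ++ r) = act W i g (fun l' => φ (l' ++ r)) l := by
  induction i generalizing φ l with
  | zero =>
    rcases g with _ | _ | _ | _
    · simp [act0]
    · rcases l with _ | ⟨x, _ | ⟨y, l⟩⟩
      · simp [Gen.src] at hl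
      · simp [Gen.src] at hl
      · simp [act0]
    · rcases l with _ | ⟨x, _ | ⟨y, l⟩⟩
      · simp [Gen.src] at hl
      · simp [Gen.src] at hl
      · simp [act0]
    · rcases l with _ | ⟨x, _ | ⟨y, l⟩⟩
      · simp [Gen.src] at hl
      · simp [Gen.src] at hl
      · simp [act0]
  | succ i ih =>
    rcases l with _ | ⟨x, l⟩
    · simp at hl
    · simp only [List.cons_append, act_succ]
      exact ih _ l (by simp only [List.length_cons] at hl; omega)

theorem val_rightW (w : Word) : ∀ (m n : ℕ) (φ : List Bool → R) (l r : List Bool), Legal m w n →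
    l.length = m → val W w φ (l ++ r) = val W w (fun l' => φ (l' ++ r)) l := by
  induction w with
  | nil => intro m n φ l r _ _; rfl
  | cons s w ih =>
    intro m n φ l r h hl
    obtain ⟨i, g⟩ := s
    obtain ⟨h1, h2⟩ := h
    simp only [val_cons]
    rw [act_rightW W i g _ l r (by omega)]
    exact act_congr W i g _ _ l (by omega) fun l' hl' => ih _ n φ l' r h2 (by omega)

theorem val_shiftW (a : ℕ) (w : Word) (φ : List Bool → R) (l r : List Bool) (hl : l.length = a) :
    val W (shift a w) φ (l ++ r) = val W w (fun l' => φ (l ++ l')) r := by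
  induction a generalizing φ l with
  | zero =>
    obtain rfl : l = [] := List.length_eq_zero_iff.1 hl
    rw [shift_zero]
    rfl
  | succ a ih =>
    rcases l with _ | ⟨x, l⟩
    · simp at hl
    · rw [shift_succ, List.cons_append, val_up]
      exact ih _ l (by simpa using hl)

end gen

theorem legal_right (w : Word) : ∀ (p q m : ℕ), Legal p w q → Legal (p + m) w (q + m) := by
  induction w with
  | nil =>
    intro p q m h
    simp only [Legal] at h
    subst h
    rfl
  | cons s w ih =>
    intro p q m h
    obtain ⟨i, g⟩ := s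
    obtain ⟨h1, h2⟩ := h
    refine ⟨by omega, ?_⟩
    have e : p + m - g.src + g.tgt = (p - g.src + g.tgt) + m := by omega
    rw [e]
    exact ih _ _ _ h2

/-- move a strand from the position `p` to the position `p + q` -/
def mvR : ℕ → ℕ → Word
  | _, 0 => []
  | p, q + 1 => (p, .pos) :: mvR (p + 1) q

theorem legal_mvR (q : ℕ) : ∀ (p m : ℕ), p + q + 1 ≤ m → Legal m (mvR p q) m := by
  induction q with
  | zero => intro p m _; rfl
  | succ q ih =>
    intro p m h
    refine ⟨by simp only [Gen.src]; omega, ?_⟩
    have e : m - Gen.pos.src + Gen.pos.tgt = m := by simp only [Gen.src, Gen.tgt]; omega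
    rw [e]
    exact ih _ _ (by omega)

theorem swp_mid (l : List Bool) (x y : Bool) (r : List Bool) :
    swp l.length (l ++ x :: y :: r) = l ++ y :: x :: r := by
  induction l with
  | nil => rfl
  | cons z l ih => simp [swp, ih]

theorem or_mvR (l : List Bool) : ∀ (l1 : List Bool) (x : Bool) (r : List Bool)
    (φ : List Bool → ℤ), val (Or ℤ) (mvR l1.length l.length) φ (l1 ++ x :: (l ++ r)) =
      φ (l1 ++ l ++ x :: r) := by
  induction l with
  | nil => intro l1 x r φ; simp [mvR]
  | cons y l ih =>
    intro l1 x r φ
    simp only [List.length_cons, mvR, val_cons, List.cons_append]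
    rw [or_cross _ _ (Or.inl rfl) _ _ (by simp), swp_mid]
    have h := ih (l1 ++ [y]) x r φ
    simp only [List.length_append, List.length_cons, List.length_nil, List.append_assoc,
      List.cons_append, List.nil_append, Nat.zero_add] at h
    simp only [List.append_assoc, List.cons_append]
    exact h

/-- move the last `m` of `a + d + m` strands to the position `a` -/
def mvs (a m : ℕ) : ℕ → Word
  | 0 => []
  | d + 1 => mvR (a + d) m ++ mvs a m d

theorem legal_mvs (a m : ℕ) (d : ℕ) : ∀ k, a + d + m ≤ k → Legal k (mvs a m d) k := by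
  induction d with
  | zero => intro k _; rfl
  | succ d ih =>
    intro k h
    exact legal_append.2 ⟨k, legal_mvR _ _ _ (by omega), ih _ (by omega)⟩

theorem or_mvs (a m d : ℕ) : ∀ (l1 l2 l r : List Bool) (φ : List Bool → ℤ), l1.length = a →
    l2.length = d → l.length = m →
    val (Or ℤ) (mvs a m d) φ (l1 ++ (l2 ++ (l ++ r))) = φ (l1 ++ (l ++ (l2 ++ r))) := by
  induction d with
  | zero =>
    intro l1 l2 l r φ h1 h2 h3
    obtain rfl : l2 = [] := List.length_eq_zero_iff.1 h2
    simp [mvs]
  | succ d ih =>
    intro l1 l2 l r φ h1 h2 h3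
    obtain ⟨l2', x, rfl⟩ : ∃ l2' x, l2 = l2' ++ [x] := by
      refine ⟨l2.dropLast, l2.getLast (by intro e; simp [e] at h2), ?_⟩
      rw [List.dropLast_append_getLast]
    simp only [List.length_append, List.length_cons, List.length_nil, Nat.zero_add,
      Nat.add_right_cancel_iff] at h2
    simp only [mvs, val_append]
    have e : l1 ++ (l2' ++ [x] ++ (l ++ r)) = (l1 ++ l2') ++ x :: (l ++ r) := by simp
    have h := or_mvR l (l1 ++ l2') x r (val (Or ℤ) (mvs a m d) φ)
    rw [e]
    have e2 : (l1 ++ l2').length = a + d := by simp [h1, h2]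
    rw [e2, h3] at h
    rw [h]
    have e3 : l1 ++ l2' ++ l ++ x :: r = l1 ++ (l2' ++ (l ++ x :: r)) := by simp
    rw [e3, ih l1 l2' l (x :: r) φ h1 h2 h3]
    simp

/-- exchange of the order of the summations -/
theorem pz_val (m : ℕ) (G : List Bool → ℤ) (w : Word) : ∀ (Ψ : List Bool → List Bool → ℤ),
    pz m G (fun l => val (Or ℤ) w (fun l' => Ψ l' l) []) =
      val (Or ℤ) w (fun l' => pz m G (Ψ l')) [] := by
  induction m generalizing G with
  | zero =>
    intro Ψ
    simp only [pz]
    rw [val_smul]
  | succ m ih =>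
    intro Ψ
    simp only [pz]
    rw [ih (fun l => G (false :: l)) (fun l' l => Ψ l' (false :: l)),
      ih (fun l => G (true :: l)) (fun l' l => Ψ l' (true :: l))]
    have := val_lin (Or ℤ) w 1 1
      (fun l' => pz m (fun l => G (false :: l)) (fun l => Ψ l' (false :: l)))
      (fun l' => pz m (fun l => G (true :: l)) (fun l => Ψ l' (true :: l))) []
    simp only [one_mul] at this
    exact this.symm

/-- the closing which corresponds to a context -/
theorem ctx_word {m k a : ℕ} {u v : Word} (hu : Legal 0 u k) (hv : Legal (k + m) v 0) (ha : a ≤ k) :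
    Legal m (u ++ (mvs a m (k - a) ++ v)) 0 ∧ ∀ S, Legal 0 S m →
      oF (S ++ (u ++ (mvs a m (k - a) ++ v))) [] = oF (u ++ (shift a S ++ v)) [] := by
  constructor
  · have h1 := legal_right u 0 k m hu
    rw [Nat.zero_add] at h1
    exact legal_append.2 ⟨k + m, h1, legal_append.2 ⟨k + m, legal_mvs _ _ _ _ (by omega), hv⟩⟩
  · intro S hS
    -- the left side
    have L1 : oF (S ++ (u ++ (mvs a m (k - a) ++ v))) [] =
        val (Or ℤ) S (fun l => val (Or ℤ) u (fun l' => oF v (l'.take a ++ (l ++ l'.drop a))) []) [] := by
      rw [oF_append]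
      refine val_congr _ hS _ _ [] rfl fun l hl => ?_
      rw [oF_append]
      have e1 := val_rightW (Or ℤ) u 0 k (oF (mvs a m (k - a) ++ v)) [] l hu rfl
      rw [List.nil_append] at e1
      rw [e1]
      refine val_congr _ hu _ _ [] rfl fun l' hl' => ?_
      rw [oF_append]
      have e2 := or_mvs a m (k - a) (l'.take a) (l'.drop a) l [] (oF v) (by simp; omega)
        (by simp; omega) hl
      simp only [List.append_nil] at e2
      rw [← List.append_assoc, List.take_append_drop] at e2
      exact e2
    -- the right side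
    have R1 : oF (u ++ (shift a S ++ v)) [] =
        val (Or ℤ) u (fun l' => val (Or ℤ) S (fun l => oF v (l'.take a ++ (l ++ l'.drop a))) []) [] := by
      rw [oF_append]
      refine val_congr _ hu _ _ [] rfl fun l' hl' => ?_
      rw [oF_append]
      have e1 := val_shiftW (Or ℤ) a S (oF v) (l'.take a) (l'.drop a) (by simp; omega)
      rw [List.take_append_drop] at e1
      rw [e1]
      have e2 := val_rightW (Or ℤ) S 0 m (fun l => oF v (l'.take a ++ l)) [] (l'.drop a) hS rfl
      rw [List.nil_append] at e2
      exact e2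
    rw [L1, R1, tensor_or hS]
    have e3 := pz_val m (oF (dag S)) u (fun l' l => oF v (l'.take a ++ (l ++ l'.drop a)))
    rw [e3]
    congr 1
    funext l'
    rw [tensor_or hS]

end Pool.Agent.Helper31.Sk
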