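import Mathlib

/-!
# Knot diagrams, local moves and the invariants u, c, g (MP_c65973_gt)

Link and tangle diagrams are written as words in the elementary pieces cup, cap and the two
crossings (a diagram in general position with respect to the height function, read from the bottom
to the top).
-/

set_option autoImplicit false

namespace Pool.Agent.Helper31.Sk

/-- Elementary pieces of a diagram. `cup` is a local minimum (it creates two strands), `cap` is a
local maximum (it removes two strands), `pos` and `neg` are the two crossings (in `pos` the strand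
from the bottom left to the top right is the upper one, in `neg` the other one). -/
inductive Gen
  | cup | cap | pos | neg
  deriving DecidableEq

/-- Number of strands entering an elementary piece from below. -/
def Gen.src : Gen → ℕ
  | .cup => 0
  | _ => 2

/-- Number of strands leaving an elementary piece at the top. -/
def Gen.tgt : Gen → ℕ
  | .cap => 0
  | _ => 2

/-- Crossing change. -/
def Gen.flip : Gen → Gen
  | .pos => .neg
  | .neg => .pos
  | g => g

/-- A diagram: the list, from the bottom to the top, of its elementary pieces; `(i, g)` is the piece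
`g` with exactly `i` strands to the left of it. -/
abbrev Word := List (ℕ × Gen)

/-- `Legal m w n`: the word `w` is a tangle diagram with `m` strands at the bottom and `n` strands
at the top. -/
def Legal : ℕ → Word → ℕ → Prop
  | m, [], n => m = n
  | m, (i, g) :: w, n => i + g.src ≤ m ∧ Legal (m - g.src + g.tgt) w n

/-- Elementary isotopies: exchange of the heights of two distant pieces, the two cancellations of a
cup and a cap, the four slides of a strand over or under a maximum or a minimum, and the
Reidemeister moves. -/
inductive Elem : Word → Word → Prop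
  | comm (i j : ℕ) (g h : Gen) : Elem [(i, g), (i + g.tgt + j, h)] [(i + g.src + j, h), (i, g)]
  | zig (i : ℕ) : Elem [(i, .cup), (i + 1, .cap)] []
  | zag (i : ℕ) : Elem [(i + 1, .cup), (i, .cap)] []
  | capP (i : ℕ) : Elem [(i + 1, .pos), (i, .cap)] [(i, .neg), (i + 1, .cap)]
  | capN (i : ℕ) : Elem [(i + 1, .neg), (i, .cap)] [(i, .pos), (i + 1, .cap)]
  | cupP (i : ℕ) : Elem [(i, .cup), (i + 1, .pos)] [(i + 1, .cup), (i, .neg)]
  | cupN (i : ℕ) : Elem [(i, .cup), (i + 1, .neg)] [(i + 1, .cup), (i, .pos)]
  | r1cupP (i : ℕ) : Elem [(i, .cup), (i, .pos)] [(i, .cup)]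
  | r1cupN (i : ℕ) : Elem [(i, .cup), (i, .neg)] [(i, .cup)]
  | r1capP (i : ℕ) : Elem [(i, .pos), (i, .cap)] [(i, .cap)]
  | r1capN (i : ℕ) : Elem [(i, .neg), (i, .cap)] [(i, .cap)]
  | r2P (i : ℕ) : Elem [(i, .pos), (i, .neg)] []
  | r2N (i : ℕ) : Elem [(i, .neg), (i, .pos)] []
  | r3P (i : ℕ) : Elem [(i, .pos), (i + 1, .pos), (i, .pos)] [(i + 1, .pos), (i, .pos), (i + 1, .pos)]
  | r3N (i : ℕ) : Elem [(i, .neg), (i + 1, .neg), (i, .neg)] [(i + 1, .neg), (i, .neg), (i + 1, .neg)]

/-- One elementary isotopy inside a diagram. -/
inductive Step (m n : ℕ) : Word → Word → Prop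
  | mk (u x y v : Word) : Elem x y → Legal m (u ++ x ++ v) n → Legal m (u ++ y ++ v) n →
      Step m n (u ++ x ++ v) (u ++ y ++ v)

/-- Isotopy of tangle diagrams (planar isotopy and Reidemeister moves). -/
def Iso (m n : ℕ) : Word → Word → Prop := Relation.EqvGen (Step m n)

/-- The possible directions (`true` is up, `false` is down) of the strands above the piece `(i, g)`
of an oriented diagram, if the directions of the strands below it are `l`. At a cup or a cap one of
the two strands goes up and the other one goes down, at a crossing the two strands are exchanged. -/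
def passes : ℕ → Gen → List Bool → List (List Bool)
  | 0, .cup, l => [true :: false :: l, false :: true :: l]
  | 0, .cap, x :: y :: l => if x = y then [] else [l]
  | 0, .pos, x :: y :: l => [y :: x :: l]
  | 0, .neg, x :: y :: l => [y :: x :: l]
  | i + 1, g, x :: l => (passes i g l).map (x :: ·)
  | _, _, _ => []

/-- The number of orientations of the diagram `w` with directions `l` of the strands at the bottom. -/
def orients : Word → List Bool → ℕ
  | [], _ => 1
  | (i, g) :: w, l => ((passes i g l).map (orients w)).sum

/-- A knot diagram: a closed diagram with exactly two orientations (that is, with exactly one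
component). -/
def IsKnot (w : Word) : Prop := Legal 0 w 0 ∧ orients w [] = 2

/-- The round circle. -/
def unknot : Word := [(0, .cup), (0, .cap)]

/-- The number of crossings of a diagram. -/
def crossings (w : Word) : ℕ := (w.filter (fun s => s.2 = .pos ∨ s.2 = .neg)).length

/-- The crossing number. -/
noncomputable def cr (w : Word) : ℕ := sInf {k | ∃ w', Iso 0 0 w w' ∧ crossings w' = k}

/-- `Changes w w' k`: the diagram `w'` is obtained from `w` by changing exactly `k` crossings. -/
inductive Changes : Word → Word → ℕ → Prop
  | nil : Changes [] [] 0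
  | keep (s : ℕ × Gen) (w w' : Word) (k : ℕ) : Changes w w' k → Changes (s :: w) (s :: w') k
  | chg (i : ℕ) (g : Gen) (w w' : Word) (k : ℕ) : (g = .pos ∨ g = .neg) → Changes w w' k →
      Changes ((i, g) :: w) ((i, g.flip) :: w') (k + 1)

/-- The unknotting number. -/
noncomputable def un (w : Word) : ℕ∞ :=
  sInf {k | ∃ (j : ℕ) (w' w'' : Word), k = j ∧ Iso 0 0 w w' ∧ Changes w' w'' j ∧ Iso 0 0 w'' unknot}

/-- The boundary of a flat band along a piece of a diagram: every strand is replaced by two parallel
strands in the plane. -/
def dbl1 : ℕ × Gen → Word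
  | (i, .cup) => [(2 * i, .cup), (2 * i + 1, .cup)]
  | (i, .cap) => [(2 * i + 1, .cap), (2 * i, .cap)]
  | (i, .pos) => [(2 * i + 1, .pos), (2 * i, .pos), (2 * i + 2, .pos), (2 * i + 1, .pos)]
  | (i, .neg) => [(2 * i + 1, .neg), (2 * i, .neg), (2 * i + 2, .neg), (2 * i + 1, .neg)]

/-- Replace every strand of a diagram by two parallel strands. -/
def dbl (w : Word) : Word := w.flatMap dbl1

/-- The boundary of the surface which consists of a disk and of `2 h` flat bands, attached at `4 h`
consecutive places at the top of the disk; the cores of the bands form the tangle diagram `t`.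
(Curls of `t` produce full twists of the bands.) For `h = 0` it is the boundary of a disk. -/
def surf (h : ℕ) (t : Word) : Word :=
  if h = 0 then unknot else (0, .cup) :: (List.replicate (4 * h - 1) (1, .cup) ++ dbl t)

/-- The genus: the minimal `h` such that the knot is the boundary of a disk with `2 h` bands. -/
noncomputable def ge (w : Word) : ℕ∞ :=
  sInf {k | ∃ (h : ℕ) (t : Word), k = h ∧ Legal (4 * h) t 0 ∧ Iso 0 0 w (surf h t)}

/-- Put `a` further strands to the left of the tangle diagram. -/
def shift (a : ℕ) (w : Word) : Word := w.map (fun s => (s.1 + a, s.2))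

/-- `n` cups side by side. -/
def cups (n : ℕ) : Word := List.replicate n (0, .cup)

/-- An `n`-tangle (all `2 n` ends at the top) is trivial if it is isotopic to `n` cups side by side
followed by a braid on the `2 n` ends, in other words if it is homeomorphic to `n` unknotted
parallel arcs. -/
def Triv (n : ℕ) (t : Word) : Prop :=
  ∃ β : Word, (∀ s ∈ β, s.2 = .pos ∨ s.2 = .neg) ∧ Legal (2 * n) β (2 * n) ∧
    Iso 0 (2 * n) t (cups n ++ β)

/-- One application of a move `(n, s, t)` of `M`: a subtangle `s` of the diagram is replaced by `t`.
-/
def Applies (M : Set (ℕ × Word × Word)) (w w' : Word) : Prop :=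
  ∃ (n : ℕ) (s t u v : Word) (a : ℕ), (n, s, t) ∈ M ∧
    w = u ++ shift a s ++ v ∧ w' = u ++ shift a t ++ v

/-- `M`-equivalence of knot diagrams. -/
def Equ (M : Set (ℕ × Word × Word)) : Word → Word → Prop :=
  Relation.EqvGen (fun w w' => IsKnot w ∧ IsKnot w' ∧ (Iso 0 0 w w' ∨ Applies M w w'))

/-- The set `M` of local moves generates the invariant `I`: two knots have the same invariant if and
only if they are `M`-equivalent. -/
def Generates (M : Set (ℕ × Word × Word)) {X : Type} (I : Word → X) : Prop :=
  ∀ w w', IsKnot w → IsKnot w' → (I w = I w' ↔ Equ M w w')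

end Pool.Agent.Helper31.Sk
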