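import Pool.Agent.Helper31.Sk.Isot

/-! Mirror images; detection of the unknot by the crossing number, the unknotting number and the
genus. -/

set_option autoImplicit false

namespace Pool.Agent.Helper31.Sk

/-- the mirror image -/
def mir (w : Word) : Word := w.map (fun s => (s.1, s.2.flip))

@[simp] theorem mir_nil : mir [] = [] := rfl
@[simp] theorem mir_cons (i : ℕ) (g : Gen) (w : Word) : mir ((i, g) :: w) = (i, g.flip) :: mir w :=
  rfl
theorem mir_append (u v : Word) : mir (u ++ v) = mir u ++ mir v := by simp [mir]

theorem mir_mir (w : Word) : mir (mir w) = w := by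
  have e : ((fun s : ℕ × Gen => (s.1, s.2.flip)) ∘ fun s : ℕ × Gen => (s.1, s.2.flip)) = id := by
    funext s
    simp [flip_flip]
  simp only [mir, List.map_map]
  rw [e, List.map_id]

@[simp] theorem flip_src (g : Gen) : g.flip.src = g.src := by cases g <;> rfl
@[simp] theorem flip_tgt (g : Gen) : g.flip.tgt = g.tgt := by cases g <;> rfl

theorem mir_legal (m n : ℕ) (w : Word) : Legal m (mir w) n ↔ Legal m w n := by
  induction w generalizing m with
  | nil => rfl
  | cons s w ih =>
    obtain ⟨i, g⟩ := s
    simp only [mir_cons, Legal, flip_src, flip_tgt, ih]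

theorem passes_flip (i : ℕ) (g : Gen) (l : List Bool) : passes i g.flip l = passes i g l := by
  induction i generalizing l with
  | zero => rcases g with _ | _ | _ | _ <;> rcases l with _ | ⟨x, _ | ⟨y, l⟩⟩ <;> rfl
  | succ i ih =>
    rcases l with _ | ⟨x, l⟩
    · simp [passes]
    · simp only [passes, ih]

theorem mir_orients (w : Word) (l : List Bool) : orients (mir w) l = orients w l := by
  induction w generalizing l with
  | nil => rfl
  | cons s w ih =>
    obtain ⟨i, g⟩ := s
    simp only [mir_cons, orients, passes_flip]
    congr 1
    exact List.map_congr_left fun x _ => ih x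

theorem mir_isKnot {w : Word} : IsKnot (mir w) ↔ IsKnot w := by
  unfold IsKnot
  rw [mir_legal, mir_orients]

theorem mir_elem {x y : Word} (h : Elem x y) : Elem (mir x) (mir y) := by
  rcases h with ⟨i, j, g, h⟩ | i | i | i | i | i | i | i | i | i | i | i | i | i | i
  · have := Elem.comm i j g.flip h.flip
    simpa using this
  · exact Elem.zig i
  · exact Elem.zag i
  · exact Elem.capN i
  · exact Elem.capP i
  · exact Elem.cupN i
  · exact Elem.cupP i
  · exact Elem.r1cupN i
  · exact Elem.r1cupP i
  · exact Elem.r1capN i
  · exact Elem.r1capP i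
  · exact Elem.r2N i
  · exact Elem.r2P i
  · exact Elem.r3N i
  · exact Elem.r3P i

theorem mir_iso {m n : ℕ} {w w' : Word} (h : Iso m n w w') : Iso m n (mir w) (mir w') := by
  induction h with
  | rel w w' h =>
    obtain ⟨u, x, y, v, he, h1, h2⟩ := h
    refine Relation.EqvGen.rel _ _ ?_
    rw [mir_append, mir_append, mir_append, mir_append]
    refine ⟨mir u, mir x, mir y, mir v, mir_elem he, ?_, ?_⟩
    · rw [← mir_append, ← mir_append, mir_legal]; exact h1
    · rw [← mir_append, ← mir_append, mir_legal]; exact h2
  | refl w => exact iso_refl _ _ _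
  | symm w w' _ ih => exact iso_symm ih
  | trans w w' w'' _ _ ih1 ih2 => exact iso_trans ih1 ih2

theorem mir_iso_iff {m n : ℕ} {w w' : Word} : Iso m n (mir w) (mir w') ↔ Iso m n w w' := by
  refine ⟨fun h => ?_, mir_iso⟩
  have := mir_iso h
  rwa [mir_mir, mir_mir] at this

theorem mir_unknot : mir unknot = unknot := rfl

/-! ### crossing number -/

theorem mir_crossings (w : Word) : crossings (mir w) = crossings w := by
  induction w with
  | nil => rfl
  | cons s w ih =>
    obtain ⟨i, g⟩ := s
    unfold crossings at ih ⊢
    rcases g with _ | _ | _ | _ <;> simpa [Gen.flip] using ih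

theorem cr_set_mir (w : Word) : {k | ∃ w', Iso 0 0 (mir w) w' ∧ crossings w' = k} =
    {k | ∃ w', Iso 0 0 w w' ∧ crossings w' = k} := by
  ext k
  constructor
  · rintro ⟨w', h, rfl⟩
    refine ⟨mir w', ?_, mir_crossings w'⟩
    rw [← mir_iso_iff, mir_mir]; exact h
  · rintro ⟨w', h, rfl⟩
    exact ⟨mir w', mir_iso h, mir_crossings w'⟩

theorem cr_mir (w : Word) : cr (mir w) = cr w := by
  unfold cr
  rw [cr_set_mir]

/-! ### unknotting number -/

theorem mir_changes {w w' : Word} {k : ℕ} (h : Changes w w' k) : Changes (mir w) (mir w') k := by
  induction h with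
  | nil => exact Changes.nil
  | keep s w w' k _ ih =>
    obtain ⟨i, g⟩ := s
    exact Changes.keep _ _ _ _ ih
  | chg i g w w' k hg _ ih =>
    simp only [mir_cons]
    refine Changes.chg i g.flip _ _ _ ?_ ih
    rcases hg with rfl | rfl
    · right; rfl
    · left; rfl

theorem changes_zero {w w' : Word} {k : ℕ} (h : Changes w w' k) : k = 0 → w = w' := by
  induction h with
  | nil => intro _; rfl
  | keep s w w' k _ ih => intro hk; rw [ih hk]
  | chg i g w w' k hg _ ih => intro hk; omega

theorem changes_refl (w : Word) : Changes w w 0 := by
  induction w with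
  | nil => exact Changes.nil
  | cons s w ih => exact Changes.keep s w w 0 ih

theorem un_mir (w : Word) : un (mir w) = un w := by
  unfold un
  congr 1
  ext k
  constructor
  · rintro ⟨j, w', w'', h1, h2, h3, h4⟩
    refine ⟨j, mir w', mir w'', h1, ?_, mir_changes h3, ?_⟩
    · rw [← mir_iso_iff, mir_mir]; exact h2
    · rw [← mir_unknot, mir_iso_iff]; exact h4
  · rintro ⟨j, w', w'', h1, h2, h3, h4⟩
    refine ⟨j, mir w', mir w'', h1, mir_iso h2, mir_changes h3, ?_⟩
    rw [← mir_unknot, mir_iso_iff]; exact h4

theorem sInf_zero_mem {s : Set ℕ∞} (h : sInf s = 0) : (0 : ℕ∞) ∈ s := by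
  have hne : s.Nonempty := by
    by_contra hcon
    rw [Set.not_nonempty_iff_eq_empty] at hcon
    rw [hcon, sInf_empty] at h
    exact absurd h (by simp)
  have := csInf_mem hne
  rwa [h] at this

theorem un_detects {w : Word} (h : un w = un unknot) : Iso 0 0 w unknot := by
  have h0 : un unknot = 0 := by
    unfold un
    refine le_antisymm (sInf_le ?_) bot_le
    exact ⟨0, unknot, unknot, rfl, iso_refl _ _ _, changes_refl _, iso_refl _ _ _⟩
  rw [h0] at h
  obtain ⟨j, w', w'', h1, h2, h3, h4⟩ := sInf_zero_mem h
  have hj : j = 0 := by exact_mod_cast h1.symm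
  have := changes_zero h3 hj
  subst this
  exact iso_trans h2 h4

/-! ### genus -/

theorem mir_dbl (t : Word) : mir (dbl t) = dbl (mir t) := by
  induction t with
  | nil => rfl
  | cons s t ih =>
    obtain ⟨i, g⟩ := s
    have e : ∀ (s : ℕ × Gen) (t : Word), dbl (s :: t) = dbl1 s ++ dbl t := by
      intro s t
      simp [dbl]
    rw [e, mir_append, ih, mir_cons, e]
    congr 1
    rcases g with _ | _ | _ | _ <;> rfl

theorem mir_surf (h : ℕ) (t : Word) : mir (surf h t) = surf h (mir t) := by
  unfold surf
  split_ifs with h0
  · rfl
  · rw [mir_cons, mir_append, mir_dbl]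
    congr 1
    congr 1
    simp [mir, Gen.flip]

theorem ge_mir (w : Word) : ge (mir w) = ge w := by
  unfold ge
  congr 1
  ext k
  constructor
  · rintro ⟨h, t, h1, h2, h3⟩
    refine ⟨h, mir t, h1, (mir_legal _ _ _).2 h2, ?_⟩
    rw [← mir_surf, ← mir_iso_iff, mir_mir]; exact h3
  · rintro ⟨h, t, h1, h2, h3⟩
    refine ⟨h, mir t, h1, (mir_legal _ _ _).2 h2, ?_⟩
    rw [← mir_surf]; exact mir_iso h3

theorem ge_detects {w : Word} (h : ge w = ge unknot) : Iso 0 0 w unknot := by
  have h0 : ge unknot = 0 := by
    unfold ge
    refine le_antisymm (sInf_le ?_) bot_le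
    refine ⟨0, [], rfl, rfl, ?_⟩
    simp only [surf, if_true]
    exact iso_refl _ _ _
  rw [h0] at h
  obtain ⟨j, t, h1, h2, h3⟩ := sInf_zero_mem h
  have hj : j = 0 := by exact_mod_cast h1.symm
  subst hj
  simp only [surf, if_true] at h3
  exact h3

/-! ### diagrams without crossings -/

def NoX (w : Word) : Prop := ∀ s ∈ w, s.2 = .cup ∨ s.2 = .cap

/-- reversing all directions -/
theorem passes_not (i : ℕ) (g : Gen) (l : List Bool) (φ : List Bool → ℕ)
    (hφ : ∀ l, φ (l.map not) = φ l) :
    ((passes i g (l.map not)).map φ).sum = ((passes i g l).map φ).sum := by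
  induction i generalizing l φ with
  | zero =>
    rcases g with _ | _ | _ | _
    · have h1 := hφ (true :: false :: l)
      have h2 := hφ (false :: true :: l)
      simp only [List.map_cons, Bool.not_true, Bool.not_false] at h1 h2
      simp only [passes, List.map_cons, List.map_nil, List.sum_cons, List.sum_nil, h1, h2]
      ring
    · rcases l with _ | ⟨x, _ | ⟨y, l⟩⟩
      · rfl
      · rfl
      · cases x <;> cases y <;> simp [passes, hφ]
    · rcases l with _ | ⟨x, _ | ⟨y, l⟩⟩
      · rfl
      · rfl
      · have h1 := hφ (y :: x :: l)
        simp only [List.map_cons] at h1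
        simp [passes, h1]
    · rcases l with _ | ⟨x, _ | ⟨y, l⟩⟩
      · rfl
      · rfl
      · have h1 := hφ (y :: x :: l)
        simp only [List.map_cons] at h1
        simp [passes, h1]
  | succ i ih =>
    rcases l with _ | ⟨x, l⟩
    · rfl
    · simp only [List.map_cons, passes, List.map_map]
      have e1 : ∀ z : Bool, (φ ∘ fun x : List Bool => z :: x) = fun x => φ (z :: x) := fun z => rfl
      rw [e1, e1]
      -- compare with the symmetrized function
      have h3 : ∀ L : List (List Bool), (L.map fun x_1 => φ ((!x) :: x_1)).sum =
          ((L.map (List.map not)).map fun x_1 => φ (x :: x_1)).sum := by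
        intro L
        induction L with
        | nil => rfl
        | cons a L ihL =>
          simp only [List.map_cons, List.sum_cons, ihL]
          congr 1
          rw [← hφ ((!x) :: a)]
          simp
      rw [h3]
      have h4 : (passes i g (l.map not)).map (List.map not) =
          (passes i g (l.map not)).map (List.map not) := rfl
      -- the possible directions for the reversed list are the reversed directions
      have h5 : ∀ (i : ℕ) (g : Gen) (l : List Bool),
          ((passes i g (l.map not)).map (List.map not)).Perm (passes i g l) := by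
        intro i
        induction i with
        | zero =>
          intro g l
          rcases g with _ | _ | _ | _
          · simp only [passes, List.map_cons, List.map_nil, Bool.not_true, Bool.not_false,
              List.map_map]
            have : (not ∘ not) = id := by funext b; simp
            rw [this, List.map_id]
            exact List.Perm.swap _ _ _
          · rcases l with _ | ⟨x, _ | ⟨y, l⟩⟩
            · exact List.Perm.refl _
            · exact List.Perm.refl _
            · have : (not ∘ not) = id := by funext b; simp
              cases x <;> cases y <;> simp [passes, this]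
          · rcases l with _ | ⟨x, _ | ⟨y, l⟩⟩
            · exact List.Perm.refl _
            · exact List.Perm.refl _
            · have : (not ∘ not) = id := by funext b; simp
              simp [passes, this]
          · rcases l with _ | ⟨x, _ | ⟨y, l⟩⟩
            · exact List.Perm.refl _
            · exact List.Perm.refl _
            · have : (not ∘ not) = id := by funext b; simp
              simp [passes, this]
        | succ i ih =>
          intro g l
          rcases l with _ | ⟨x, l⟩
          · exact List.Perm.refl _
          · have h6 := (ih g l).map (x :: ·)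
            simp only [passes, List.map_cons, List.map_map] at h6 ⊢
            have e : (List.map not ∘ fun x_1 : List Bool => (!x) :: x_1) =
                ((fun x_1 : List Bool => x :: x_1) ∘ List.map not) := by
              funext z
              simp
            rw [e]
            exact h6
      exact ((h5 i g l).map _).sum_eq

theorem orients_not (w : Word) (l : List Bool) : orients w (l.map not) = orients w l := by
  induction w generalizing l with
  | nil => rfl
  | cons s w ih =>
    obtain ⟨i, g⟩ := s
    simp only [orients]
    exact passes_not i g l _ ih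

/-- a closed diagram with only one orientation is empty -/
theorem orients_one {w : Word} (h : Legal 0 w 0) (h1 : orients w [] = 1) : w = [] := by
  rcases w with _ | ⟨⟨i, g⟩, w⟩
  · rfl
  · obtain ⟨h2, h3⟩ := h
    have hi : i = 0 := by omega
    subst hi
    have hg : g = .cup := by
      rcases g with _ | _ | _ | _ <;> simp [Gen.src] at h2 ⊢
    subst hg
    have e := orients_not w [true, false]
    simp only [List.map_cons, List.map_nil, Bool.not_true, Bool.not_false] at e
    simp only [orients, passes, List.map_cons, List.map_nil, List.sum_cons, List.sum_nil, e] at h1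
    omega

theorem act_or_loop (i : ℕ) (φ : List Bool → ℤ) (l : List Bool) (hl : i ≤ l.length) :
    act (Or ℤ) i .cup (act (Or ℤ) i .cap φ) l = 2 * φ l := by
  induction i generalizing φ l with
  | zero => simp [act0, S2, Or]; ring
  | succ i ih =>
    rcases l with _ | ⟨x, l⟩
    · simp at hl
    · simp only [act_succ]
      exact ih _ l (by simpa using hl)

theorem orients_loop {m n k : ℕ} {u v : Word} {i : ℕ} (hu : Legal m u k) (hi : i ≤ k)
    (hv : Legal k v n) (l : List Bool) (hl : l.length = m) :
    orients (u ++ (i, .cup) :: (i, .cap) :: v) l = 2 * orients (u ++ v) l := by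
  have h : ((orients (u ++ (i, .cup) :: (i, .cap) :: v) l : ℕ) : ℤ) =
      2 * ((orients (u ++ v) l : ℕ) : ℤ) := by
    rw [orients_val, orients_val, val_append, val_append, ← val_smul]
    refine val_congr (Or ℤ) hu _ _ l hl fun l' hl' => ?_
    exact act_or_loop i _ l' (by omega)
  exact_mod_cast h

/-- the crossingless diagrams of a knot are diagrams of the unknot; `u` consists of cups, the next
piece is a cap -/
theorem noX_aux : ∀ (N K : ℕ) (u : Word) (j : ℕ) (v : Word), u.length + v.length ≤ N →
    u.length ≤ K → (∀ s ∈ u, s.2 = .cup) → NoX v → IsKnot (u ++ (j, .cap) :: v) →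
    Iso 0 0 (u ++ (j, .cap) :: v) unknot := by
  intro N
  induction N with
  | zero =>
    intro K u j v h1 _ _ _ hK
    have hu : u = [] := List.length_eq_zero_iff.1 (by omega)
    subst hu
    have := hK.1
    simp [Legal, Gen.src] at this
  | succ N ihN =>
    intro K
    induction K with
    | zero =>
      intro u j v _ h2 _ _ hK
      have hu : u = [] := List.length_eq_zero_iff.1 (by omega)
      subst hu
      have := hK.1
      simp [Legal, Gen.src] at this
    | succ K ihK =>
      intro u j v h1 h2 hu hv hK
      rcases List.eq_nil_or_concat u with rfl | ⟨u', s, rfl⟩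
      · have := hK.1
        simp [Legal, Gen.src] at this
      obtain ⟨i, g⟩ := s
      have hg : g = .cup := hu (i, g) (by simp)
      subst hg
      rw [List.concat_eq_append] at *
      have hu' : ∀ s ∈ u', s.2 = .cup := fun s hs => hu s (by simp [hs])
      have e0 : u' ++ [(i, Gen.cup)] ++ (j, Gen.cap) :: v = u' ++ [(i, .cup), (j, .cap)] ++ v := by
        simp
      rw [e0] at hK ⊢
      obtain ⟨hL, hO⟩ := hK
      obtain ⟨k2, hLL, hL3⟩ := legal_append.1 hL
      obtain ⟨k, hL1, hL2⟩ := legal_append.1 hLL
      have hL2' := hL2
      simp only [Legal, Gen.src, Gen.tgt] at hL2'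
      obtain ⟨a1, a2, a3⟩ := hL2'
      have a4 : k2 = k := by omega
      subst a4
      -- the result of removing both
      have hrem : Legal 0 (u' ++ v) 0 := legal_append.2 ⟨k2, hL1, hL3⟩
      have hshort : Iso 0 0 (u' ++ [(i, .cup), (j, .cap)] ++ v) (u' ++ v) →
          Iso 0 0 (u' ++ [(i, .cup), (j, .cap)] ++ v) unknot := by
        intro hiso
        have hK' : IsKnot (u' ++ v) := (iso_isKnot hiso).1 ⟨hL, hO⟩
        refine iso_trans hiso ?_
        -- find the first cap of `u' ++ v`
        have hfind : ∀ (v : Word) (u : Word), (∀ s ∈ u, s.2 = .cup) → NoX v →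
            Legal 0 (u ++ v) 0 → (u ++ v ≠ []) → ∃ (u₁ : Word) (j : ℕ) (v₁ : Word),
              u ++ v = u₁ ++ (j, .cap) :: v₁ ∧ (∀ s ∈ u₁, s.2 = .cup) ∧ NoX v₁ := by
          intro v
          induction v with
          | nil =>
            intro u hu _ hl hne
            exfalso
            rw [List.append_nil] at hl hne
            have : ∀ (u : Word) (m : ℕ), (∀ s ∈ u, s.2 = .cup) → Legal m u 0 → u = [] := by
              intro u
              induction u with
              | nil => intro _ _ _; rfl
              | cons s u ih =>
                intro m hu hl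
                obtain ⟨i, g⟩ := s
                have hg : g = .cup := hu (i, g) (by simp)
                subst hg
                have e := ih _ (fun s hs => hu s (by simp [hs])) hl.2
                subst e
                have := hl.2
                simp [Legal, Gen.src, Gen.tgt] at this
            exact hne (this u 0 hu hl)
          | cons s v ih =>
            intro u hu hv hl hne
            obtain ⟨i, g⟩ := s
            rcases hv (i, g) (by simp) with hg | hg
            · simp only at hg
              subst hg
              have e : u ++ (i, Gen.cup) :: v = (u ++ [(i, .cup)]) ++ v := by simp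
              rw [e]
              rw [e] at hl hne
              refine ih (u ++ [(i, .cup)]) ?_ (fun s hs => hv s (by simp [hs])) hl hne
              intro s hs
              rcases List.mem_append.1 hs with hs | hs
              · exact hu s hs
              · simp only [List.mem_singleton] at hs
                rw [hs]
            · simp only at hg
              subst hg
              exact ⟨u, i, v, rfl, hu, fun s hs => hv s (by simp [hs])⟩
        have hne : u' ++ v ≠ [] := by
          intro h0
          rw [h0] at hK'
          have := hK'.2
          simp [orients] at this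
        obtain ⟨u₁, j₁, v₁, e1, e2, e3⟩ := hfind v u' hu' hv hrem hne
        rw [e1] at hK' ⊢
        refine ihN u₁.length u₁ j₁ v₁ ?_ le_rfl e2 e3 hK'
        have e4 := congrArg List.length e1
        simp only [List.length_append, List.length_cons, List.length_nil] at e4 h1
        omega
      have hwr : ∀ (j' i' : ℕ), Elem [(i, .cup), (j, .cap)] [(j', .cap), (i', .cup)] ∨
          Elem [(j', .cap), (i', .cup)] [(i, .cup), (j, .cap)] →
          Legal k2 [(j', .cap), (i', .cup)] k2 →
          Iso 0 0 (u' ++ [(i, .cup), (j, .cap)] ++ v) unknot := by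
        intro j' i' he hl
        have h5 : Iso k2 k2 [(i, .cup), (j, .cap)] [(j', .cap), (i', .cup)] := by
          rcases he with he | he
          · exact iso_elem he hL2 hl
          · exact iso_symm (iso_elem he hl hL2)
        have h6 := iso_ctx h5 hL1 hL3
        refine iso_trans h6 ?_
        have e : u' ++ [(j', Gen.cap), (i', Gen.cup)] ++ v = u' ++ (j', .cap) :: ((i', .cup) :: v) := by
          simp
        have hK' := (iso_isKnot h6).1 ⟨hL, hO⟩
        rw [e] at hK' ⊢
        refine ihK u' j' ((i', .cup) :: v) ?_ ?_ hu' ?_ hK'
        · simp only [List.length_append, List.length_cons, List.length_nil] at h1 ⊢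
          omega
        · simp only [List.length_append, List.length_cons, List.length_nil] at h2
          omega
        · intro s hs
          rcases List.mem_cons.1 hs with rfl | hs
          · left; rfl
          · exact hv s hs
      rcases Nat.lt_trichotomy j i with hji | hji | hji
      · rcases Nat.eq_or_lt_of_le (Nat.succ_le_of_lt hji) with h3 | h3
        · -- zag
          refine hshort ?_
          have h4 : Iso k2 k2 [(i, .cup), (j, .cap)] [] := by
            rw [← h3] at hL2 ⊢
            exact iso_elem (Elem.zag j) hL2 rfl
          simpa using iso_ctx h4 hL1 hL3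
        · obtain ⟨t, rfl⟩ : ∃ t, i = j + 2 + t := ⟨i - (j + 2), by omega⟩
          have h4 := Elem.comm j t .cap .cup
          have e1 : j + Gen.cap.tgt + t = j + t := by simp [Gen.tgt]
          have e2 : j + Gen.cap.src + t = j + 2 + t := by simp [Gen.src]
          rw [e1, e2] at h4
          refine hwr j (j + t) (Or.inr h4) ?_
          simp only [Legal, Gen.src, Gen.tgt]
          omega
      · -- a loop
        subst hji
        have h5 := orients_loop (m := 0) (n := 0) hL1 (i := j) (by omega) hL3 [] rfl
        have e5 : u' ++ [(j, Gen.cup), (j, Gen.cap)] ++ v = u' ++ (j, .cup) :: (j, .cap) :: v := by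
          simp
        rw [e5] at hO ⊢
        rw [h5] at hO
        have h6 := orients_one hrem (by omega)
        obtain ⟨rfl, rfl⟩ := List.append_eq_nil_iff.1 h6
        simp only [Legal] at hL1
        subst hL1
        have hj : j = 0 := by omega
        subst hj
        exact iso_refl _ _ _
      · rcases Nat.eq_or_lt_of_le (Nat.succ_le_of_lt hji) with h3 | h3
        · refine hshort ?_
          have h4 : Iso k2 k2 [(i, .cup), (j, .cap)] [] := by
            rw [← h3] at hL2 ⊢
            exact iso_elem (Elem.zig i) hL2 rfl
          simpa using iso_ctx h4 hL1 hL3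
        · obtain ⟨t, rfl⟩ : ∃ t, j = i + 2 + t := ⟨j - (i + 2), by omega⟩
          have h4 := Elem.comm i t .cup .cap
          have e1 : i + Gen.cup.tgt + t = i + 2 + t := by simp [Gen.tgt]
          have e2 : i + Gen.cup.src + t = i + t := by simp [Gen.src]
          rw [e1, e2] at h4
          refine hwr (i + t) i (Or.inl h4) ?_
          simp only [Legal, Gen.src, Gen.tgt]
          omega

theorem noX_unknot {w : Word} (hw : NoX w) (hK : IsKnot w) : Iso 0 0 w unknot := by
  -- `w` starts with a cup and contains a cap
  have hfind : ∀ (v : Word) (u : Word), (∀ s ∈ u, s.2 = .cup) → NoX v →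
      Legal 0 (u ++ v) 0 → (u ++ v ≠ []) → ∃ (u₁ : Word) (j : ℕ) (v₁ : Word),
        u ++ v = u₁ ++ (j, .cap) :: v₁ ∧ (∀ s ∈ u₁, s.2 = .cup) ∧ NoX v₁ := by
    intro v
    induction v with
    | nil =>
      intro u hu _ hl hne
      exfalso
      rw [List.append_nil] at hl hne
      have : ∀ (u : Word) (m : ℕ), (∀ s ∈ u, s.2 = .cup) → Legal m u 0 → u = [] := by
        intro u
        induction u with
        | nil => intro _ _ _; rfl
        | cons s u ih =>
          intro m hu hl
          obtain ⟨i, g⟩ := s
          have hg : g = .cup := hu (i, g) (by simp)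
          subst hg
          have e := ih _ (fun s hs => hu s (by simp [hs])) hl.2
          subst e
          have := hl.2
          simp [Legal, Gen.src, Gen.tgt] at this
      exact hne (this u 0 hu hl)
    | cons s v ih =>
      intro u hu hv hl hne
      obtain ⟨i, g⟩ := s
      rcases hv (i, g) (by simp) with hg | hg
      · simp only at hg
        subst hg
        have e : u ++ (i, Gen.cup) :: v = (u ++ [(i, .cup)]) ++ v := by simp
        rw [e]
        rw [e] at hl hne
        refine ih (u ++ [(i, .cup)]) ?_ (fun s hs => hv s (by simp [hs])) hl hne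
        intro s hs
        rcases List.mem_append.1 hs with hs | hs
        · exact hu s hs
        · simp only [List.mem_singleton] at hs
          rw [hs]
      · simp only at hg
        subst hg
        exact ⟨u, i, v, rfl, hu, fun s hs => hv s (by simp [hs])⟩
  have hne : w ≠ [] := by
    intro h0
    rw [h0] at hK
    have := hK.2
    simp [orients] at this
  obtain ⟨u₁, j₁, v₁, e1, e2, e3⟩ := hfind w [] (by simp) hw (by simpa using hK.1) (by simpa using hne)
  rw [List.nil_append] at e1
  rw [e1] at hK ⊢
  exact noX_aux _ _ u₁ j₁ v₁ le_rfl le_rfl e2 e3 hK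

theorem crossings_zero {w : Word} (h : crossings w = 0) : NoX w := by
  intro s hs
  unfold crossings at h
  rw [List.length_eq_zero_iff, List.filter_eq_nil_iff] at h
  have := h s hs
  obtain ⟨i, g⟩ := s
  rcases g with _ | _ | _ | _ <;> simp at this ⊢

theorem cr_detects {w : Word} (hK : IsKnot w) (h : cr w = cr unknot) : Iso 0 0 w unknot := by
  have h0 : cr unknot = 0 := by
    unfold cr
    refine Nat.eq_zero_of_le_zero (Nat.sInf_le ?_)
    exact ⟨unknot, iso_refl _ _ _, rfl⟩
  rw [h0] at h
  have hne : {k | ∃ w', Iso 0 0 w w' ∧ crossings w' = k}.Nonempty :=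
    ⟨_, w, iso_refl _ _ _, rfl⟩
  have hm := Nat.sInf_mem hne
  unfold cr at h
  rw [h] at hm
  obtain ⟨w', h1, h2⟩ := hm
  exact iso_trans h1 (noX_unknot (crossings_zero h2) ((iso_isKnot h1).1 hK))

end Pool.Agent.Helper31.Sk
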