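import Pool.Agent.Helper31.Sk.Pair
import Pool.Agent.Helper31.Sk.Mir

/-! Moves with a trivial side. -/

set_option autoImplicit false

namespace Pool.Agent.Helper31.Sk

/-- the bracket of a closed diagram -/
def brv (w : Word) : ℚ := fC w []

theorem brv_iso {w w' : Word} (h : Iso 0 0 w w') : ∃ c, Un c ∧ brv w = c * brv w' := by
  obtain ⟨c, hc, h1⟩ := iso_val (good_br (19 : ℚ) (1 / 19) hab19) h
  exact ⟨c, hc, h1 _ [] rfl⟩

theorem brv_unknot : brv unknot = dlt := by
  have := act_loop (a := (19 : ℚ)) (b := 1 / 19) 0 (fun _ => 1) [] (by simp)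
  rw [mul_one] at this
  exact this

theorem un_mul {c d : ℚ} (hc : Un c) (hd : Un d) : Un (c * d) := isU_mul hc hd

theorem un_inv {c : ℚ} (hc : Un c) : ∃ d, Un d ∧ c * d = 1 := isU_inv hab19 hc

theorem un_one : Un 1 := isU_one _ _

/-- the key statement: a tangle which behaves like the trivial tangle `S` for a detecting
invariant has the bracket tensor of `S` up to a unit -/
theorem key {n : ℕ} {S T : Word} (hT : Legal 0 T (2 * n)) (hS : Legal 0 S (2 * n))
    (htriv : Triv n S)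
    (hST : ∀ v, Legal (2 * n) v 0 → Iso 0 0 (S ++ v) unknot → Iso 0 0 (T ++ v) unknot) :
    ∃ c, Un c ∧ ∀ φ : List Bool → ℚ, val WW T φ [] = c * val WW S φ [] := by
  obtain ⟨β, hβ, hβL, hiso⟩ := htriv
  have hβ' : IsBr β := hβ
  have hiL := legal_inv hβ' hβL
  set L : (List Bool → ℚ) → ℚ := fun φ => val WW (T ++ inv β) φ [] with hLdef
  have hTi : Legal 0 (T ++ inv β) (2 * n) := legal_append.2 ⟨2 * n, hT, hiL⟩
  have hL : Loc (2 * n) L :=
    ⟨fun α γ φ ψ => val_lin WW _ α γ φ ψ [], fun φ ψ e => val_congr WW hTi φ ψ [] rfl e⟩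
  have hunit : ∀ C, InS n C → ∃ c, Un c ∧ L (fC C) = c * dlt := by
    intro C hC
    have h1 : Iso 0 0 (S ++ (inv β ++ C)) unknot := by
      have a1 : Iso 0 0 (S ++ (inv β ++ C)) ((cups n ++ β) ++ (inv β ++ C)) :=
        iso_right hiso (legal_append.2 ⟨2 * n, hiL, hC.1⟩)
      have a2 : Iso 0 0 (cups n ++ (β ++ inv β) ++ C) (cups n ++ [] ++ C) :=
        iso_ctx (iso_inv hβ' hβL) (legal_cups n) hC.1
      have e1 : (cups n ++ β) ++ (inv β ++ C) = cups n ++ (β ++ inv β) ++ C := by simp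
      rw [e1] at a1
      rw [List.append_nil] at a2
      exact iso_trans a1 (iso_trans a2 hC.2)
    have h2 := hST _ (legal_append.2 ⟨2 * n, hiL, hC.1⟩) h1
    obtain ⟨c, hc, h3⟩ := brv_iso h2
    refine ⟨c, hc, ?_⟩
    rw [brv_unknot] at h3
    rw [← h3]
    simp only [hLdef, brv, fC]
    rw [← val_append, List.append_assoc]
  obtain ⟨c0, hc0, hmain⟩ := mainL n L hL hunit
  have hall : ∀ C, Legal (2 * n) C 0 → L (fC C) = c0 * Kf n (fC C) := by
    intro C hC
    have := allC C (2 * n) (fun φ => L φ - c0 * Kf n φ) (hL.sub (loc_K n) c0) hC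
      (fun V hV hV2 => by rw [hmain V hV hV2]; ring)
    linarith
  obtain ⟨c1, hc1, h1⟩ := iso_val (good_br (19 : ℚ) (1 / 19) hab19) (iso_inv (isBr_inv hβ') hiL)
  rw [inv_inv] at h1
  obtain ⟨c2, hc2, h2⟩ := iso_val (good_br (19 : ℚ) (1 / 19) hab19) hiso
  obtain ⟨d1, hd1, e1⟩ := un_inv hc1
  obtain ⟨d2, hd2, e2⟩ := un_inv hc2
  refine ⟨d1 * c0 * d2, un_mul (un_mul hd1 hc0) hd2, ?_⟩
  refine tensor_eq hS hT _ fun C hC => ?_
  have a1 := hall (β ++ C) (legal_append.2 ⟨2 * n, hβL, hC⟩)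
  have a2 : L (fC (β ++ C)) = c1 * val WW T (fC C) [] := by
    simp only [hLdef]
    rw [val_append]
    have e : fC (β ++ C) = val WW β (fC C) := by
      unfold fC
      rw [val_append]
    rw [e, ← val_smul]
    refine val_congr WW hT _ _ [] rfl fun l hl => ?_
    have := h1 (fC C) l hl
    rw [val_append] at this
    exact this
  have a3 : c2 * Kf n (fC (β ++ C)) = val WW S (fC C) [] := by
    rw [h2 (fC C) [] rfl]
    unfold Kf
    have e : fC (β ++ C) = val WW β (fC C) := by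
      unfold fC
      rw [val_append]
    rw [e, ← val_append]
  rw [a2] at a1
  have a4 : Kf n (fC (β ++ C)) = d2 * val WW S (fC C) [] := by
    rw [← a3, ← mul_assoc, mul_comm d2 c2, e2, one_mul]
  rw [a4] at a1
  calc val WW T (fC C) [] = (c1 * d1) * val WW T (fC C) [] := by rw [e1, one_mul]
    _ = d1 * (c1 * val WW T (fC C) []) := by ring
    _ = d1 * (c0 * (d2 * val WW S (fC C) [])) := by rw [a1]
    _ = d1 * c0 * d2 * val WW S (fC C) [] := by ring

/-- brackets of `M`-equivalent diagrams -/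
theorem equ_brv {M : Set (ℕ × Word × Word)}
    (hM : ∀ n S T, (n, S, T) ∈ M → (∃ w w', IsKnot w ∧ IsKnot w' ∧ ∃ u v a, w = u ++ shift a S ++ v ∧
      w' = u ++ shift a T ++ v) → Legal 0 S (2 * n) ∧ Legal 0 T (2 * n) ∧
      ∃ c, Un c ∧ ∀ φ : List Bool → ℚ, val WW T φ [] = c * val WW S φ [])
    {w w' : Word} (h : Equ M w w') : ∃ c, Un c ∧ brv w' = c * brv w := by
  induction h with
  | rel w w' h =>
    obtain ⟨hw, hw', h | h⟩ := h
    · obtain ⟨c, hc, h1⟩ := brv_iso h
      obtain ⟨d, hd, e⟩ := un_inv hc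
      refine ⟨d, hd, ?_⟩
      rw [h1, ← mul_assoc, mul_comm d c, e, one_mul]
    · obtain ⟨n, S, T, u, v, a, hm, rfl, rfl⟩ := h
      obtain ⟨hS, hT, c, hc, h1⟩ := hM n S T hm ⟨_, _, hw, hw', u, v, a, rfl, rfl⟩
      have g1 := hw.1
      have g2 := hw'.1
      rw [List.append_assoc] at g1 g2
      obtain ⟨k, hk, g1⟩ := legal_append.1 g1
      obtain ⟨k', hk', g2⟩ := legal_append.1 g2
      obtain rfl := legal_unique hk hk'
      by_cases hak : a ≤ k
      · refine ⟨c, hc, ?_⟩
        unfold brv fC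
        rw [List.append_assoc, List.append_assoc, val_append, val_append, val_append, val_append,
          ← val_smul]
        refine val_congr WW hk _ _ [] rfl fun l hl => ?_
        exact context hS hT c h1 a _ l (by omega)
      · -- both sides are empty
        have emp : ∀ (U : Word) (j : ℕ), Legal 0 U (2 * n) → Legal k (shift a U ++ v) j → U = [] := by
          intro U j hU hU2
          rcases U with _ | ⟨⟨i, g⟩, U⟩
          · rfl
          · exfalso
            have b1 := hU.1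
            have b2 : i + a + g.src ≤ k := hU2.1
            omega
        have eS := emp S 0 hS g1
        have eT := emp T 0 hT g2
        subst eS
        subst eT
        exact ⟨1, un_one, by rw [one_mul]⟩
  | refl w => exact ⟨1, un_one, by rw [one_mul]⟩
  | symm w w' _ ih =>
    obtain ⟨c, hc, h1⟩ := ih
    obtain ⟨d, hd, e⟩ := un_inv hc
    refine ⟨d, hd, ?_⟩
    rw [h1, ← mul_assoc, mul_comm d c, e, one_mul]
  | trans w w' w'' _ _ ih1 ih2 =>
    obtain ⟨c, hc, h1⟩ := ih1
    obtain ⟨d, hd, h2⟩ := ih2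
    exact ⟨d * c, un_mul hd hc, by rw [h2, h1, mul_assoc]⟩

/-- the trefoil -/
def tre : Word := [(0, .cup), (1, .cup), (0, .pos), (0, .pos), (0, .pos), (1, .cap), (0, .cap)]

theorem tre_knot : IsKnot tre := by
  refine ⟨?_, ?_⟩
  · simp [tre, Legal, Gen.src, Gen.tgt]
  · simp [tre, orients, passes]

theorem brv_tre : brv tre = 19 ^ 3 * (dlt ^ 2 - 1) - (1 / 19) ^ 9 := by
  simp [brv, fC, tre, act0, S2, Br, Mw, dlt]
  norm_num

theorem brv_mir_tre : brv (mir tre) = (1 / 19) ^ 3 * (dlt ^ 2 - 1) - 19 ^ 9 := by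
  simp [brv, fC, tre, act0, S2, Br, Mw, dlt, Gen.flip]
  norm_num

end Pool.Agent.Helper31.Sk
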