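import Pool.Agent.Helper31.Sk.Defs

/-! Functors on diagrams defined by local weights, and their invariance. -/

set_option autoImplicit false

namespace Pool.Agent.Helper31.Sk

universe u

variable {R : Type u} [CommRing R]

structure Rule (R : Type u) where
  cup : Bool → Bool → R
  cap : Bool → Bool → R
  pos : Bool → Bool → Bool → Bool → R
  neg : Bool → Bool → Bool → Bool → R

def S2 (f : Bool → Bool → R) : R := f false false + f false true + f true false + f true true

def act0 (W : Rule R) : Gen → (List Bool → R) → List Bool → R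
  | .cup, φ, l => S2 fun c d => W.cup c d * φ (c :: d :: l)
  | .cap, φ, x :: y :: l => W.cap x y * φ l
  | .pos, φ, x :: y :: l => S2 fun c d => W.pos x y c d * φ (c :: d :: l)
  | .neg, φ, x :: y :: l => S2 fun c d => W.neg x y c d * φ (c :: d :: l)
  | _, _, _ => 0

def act (W : Rule R) : ℕ → Gen → (List Bool → R) → List Bool → R
  | 0, g, φ, l => act0 W g φ l
  | i + 1, g, φ, x :: l => act W i g (fun l' => φ (x :: l')) l
  | _ + 1, _, _, [] => 0

def val (W : Rule R) : Word → (List Bool → R) → List Bool → R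
  | [], φ, l => φ l
  | (i, g) :: w, φ, l => act W i g (val W w φ) l

@[simp] theorem val_nil (W : Rule R) (φ : List Bool → R) (l : List Bool) : val W [] φ l = φ l := rfl

@[simp] theorem val_cons (W : Rule R) (i : ℕ) (g : Gen) (w : Word) (φ : List Bool → R)
    (l : List Bool) : val W ((i, g) :: w) φ l = act W i g (val W w φ) l := rfl

@[simp] theorem act_zero (W : Rule R) (g : Gen) (φ : List Bool → R) (l : List Bool) :
    act W 0 g φ l = act0 W g φ l := rfl

@[simp] theorem act_succ (W : Rule R) (i : ℕ) (g : Gen) (φ : List Bool → R) (x : Bool)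
    (l : List Bool) : act W (i + 1) g φ (x :: l) = act W i g (fun l' => φ (x :: l')) l := rfl

@[simp] theorem act_one (W : Rule R) (g : Gen) (φ : List Bool → R) (x : Bool)
    (l : List Bool) : act W 1 g φ (x :: l) = act0 W g (fun l' => φ (x :: l')) l := rfl

theorem val_append (W : Rule R) (u v : Word) (φ : List Bool → R) :
    val W (u ++ v) φ = val W u (val W v φ) := by
  induction u with
  | nil => rfl
  | cons s u ih =>
    obtain ⟨i, g⟩ := s
    funext l
    simp only [List.cons_append, val_cons]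
    rw [ih]

/-- linearity -/
theorem act0_lin (W : Rule R) (g : Gen) (α β : R) (φ ψ : List Bool → R) (l : List Bool) :
    act0 W g (fun l' => α * φ l' + β * ψ l') l = α * act0 W g φ l + β * act0 W g ψ l := by
  rcases g with _ | _ | _ | _ <;> rcases l with _ | ⟨x, _ | ⟨y, l⟩⟩ <;> simp [act0, S2] <;> ring

theorem act_lin (W : Rule R) (i : ℕ) (g : Gen) (α β : R) (φ ψ : List Bool → R) (l : List Bool) :
    act W i g (fun l' => α * φ l' + β * ψ l') l = α * act W i g φ l + β * act W i g ψ l := by
  induction i generalizing φ ψ l with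
  | zero => exact act0_lin W g α β φ ψ l
  | succ i ih =>
    rcases l with _ | ⟨x, l⟩
    · simp [act]
    · simp only [act_succ]
      exact ih _ _ _

theorem val_lin (W : Rule R) (w : Word) (α β : R) (φ ψ : List Bool → R) (l : List Bool) :
    val W w (fun l' => α * φ l' + β * ψ l') l = α * val W w φ l + β * val W w ψ l := by
  induction w generalizing l with
  | nil => rfl
  | cons s w ih =>
    obtain ⟨i, g⟩ := s
    have e : val W w (fun l' => α * φ l' + β * ψ l') = fun l' => α * val W w φ l' + β * val W w ψ l' :=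
      funext ih
    simp only [val_cons]
    rw [e]
    exact act_lin W i g α β _ _ l

theorem act_smul (W : Rule R) (i : ℕ) (g : Gen) (α : R) (φ : List Bool → R) (l : List Bool) :
    act W i g (fun l' => α * φ l') l = α * act W i g φ l := by
  have h := act_lin W i g α 0 φ φ l
  simpa using h

theorem val_smul (W : Rule R) (w : Word) (α : R) (φ : List Bool → R) (l : List Bool) :
    val W w (fun l' => α * φ l') l = α * val W w φ l := by
  have h := val_lin W w α 0 φ φ l
  simpa using h

theorem act_add (W : Rule R) (i : ℕ) (g : Gen) (φ ψ : List Bool → R) (l : List Bool) :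
    act W i g (fun l' => φ l' + ψ l') l = act W i g φ l + act W i g ψ l := by
  have h := act_lin W i g 1 1 φ ψ l
  simpa using h

theorem act_S2 (W : Rule R) (i : ℕ) (g : Gen) (w : Bool → Bool → R)
    (φ : Bool → Bool → List Bool → R) (l : List Bool) :
    act W i g (fun l' => S2 fun c d => w c d * φ c d l') l =
      S2 fun c d => w c d * act W i g (φ c d) l := by
  unfold S2
  rw [act_add, act_add, act_add, act_smul, act_smul, act_smul, act_smul]

/-- locality -/
theorem act0_congr (W : Rule R) (g : Gen) (φ ψ : List Bool → R) (l : List Bool)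
    (hl : g.src ≤ l.length)
    (h : ∀ l' : List Bool, l'.length = l.length - g.src + g.tgt → φ l' = ψ l') :
    act0 W g φ l = act0 W g ψ l := by
  rcases g with _ | _ | _ | _
  · simp only [act0]
    congr 1
    funext c d
    rw [h]
    simp [Gen.src, Gen.tgt]
  · rcases l with _ | ⟨x, _ | ⟨y, l⟩⟩
    · simp [act0]
    · simp [act0]
    · simp only [act0]
      rw [h]
      simp [Gen.src, Gen.tgt]
  · rcases l with _ | ⟨x, _ | ⟨y, l⟩⟩
    · simp [act0]
    · simp [act0]
    · simp only [act0]
      congr 1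
      funext c d
      rw [h]
      simp [Gen.src, Gen.tgt]
  · rcases l with _ | ⟨x, _ | ⟨y, l⟩⟩
    · simp [act0]
    · simp [act0]
    · simp only [act0]
      congr 1
      funext c d
      rw [h]
      simp [Gen.src, Gen.tgt]

theorem act_congr (W : Rule R) (i : ℕ) (g : Gen) (φ ψ : List Bool → R) (l : List Bool)
    (hl : i + g.src ≤ l.length)
    (h : ∀ l' : List Bool, l'.length = l.length - g.src + g.tgt → φ l' = ψ l') :
    act W i g φ l = act W i g ψ l := by
  induction i generalizing φ ψ l with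
  | zero => exact act0_congr W g φ ψ l (by omega) h
  | succ i ih =>
    rcases l with _ | ⟨x, l⟩
    · simp [act]
    · simp only [act_succ]
      simp only [List.length_cons] at hl h
      refine ih _ _ _ (by omega) fun l' hl' => h _ ?_
      simp only [List.length_cons]
      omega

theorem val_congr (W : Rule R) {m n : ℕ} {w : Word} (hw : Legal m w n) (φ ψ : List Bool → R)
    (l : List Bool) (hl : l.length = m)
    (h : ∀ l' : List Bool, l'.length = n → φ l' = ψ l') :
    val W w φ l = val W w ψ l := by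
  induction w generalizing m l with
  | nil =>
    simp only [Legal] at hw
    exact h l (hl.trans hw)
  | cons s w ih =>
    obtain ⟨i, g⟩ := s
    obtain ⟨h1, h2⟩ := hw
    simp only [val_cons]
    refine act_congr W i g _ _ l (by omega) fun l' hl' => ?_
    exact ih h2 l' (by omega)

/-- one more strand on the left -/
def up (w : Word) : Word := w.map (fun s => (s.1 + 1, s.2))

@[simp] theorem up_nil : up [] = [] := rfl
@[simp] theorem up_cons (i : ℕ) (g : Gen) (w : Word) : up ((i, g) :: w) = (i + 1, g) :: up w := rfl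

theorem val_up (W : Rule R) (w : Word) (φ : List Bool → R) (x : Bool) (l : List Bool) :
    val W (up w) φ (x :: l) = val W w (fun l' => φ (x :: l')) l := by
  induction w generalizing l with
  | nil => rfl
  | cons s w ih =>
    obtain ⟨i, g⟩ := s
    simp only [up_cons, val_cons, act_succ]
    congr 1
    funext l'
    exact ih l'

theorem comm_rel (W : Rule R) (i j : ℕ) (g h : Gen) (φ : List Bool → R) (l : List Bool)
    (hl : i + g.src ≤ l.length) :
    act W i g (act W (i + g.tgt + j) h φ) l = act W (i + g.src + j) h (act W i g φ) l := by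
  induction i generalizing φ l with
  | zero =>
    rcases g with _ | _ | _ | _
    · have e1 : 0 + Gen.cup.tgt + j = j + 1 + 1 := by simp [Gen.tgt]; omega
      have e2 : 0 + Gen.cup.src + j = j := by simp [Gen.src]
      rw [e1, e2]
      simp only [act_zero]
      have e3 : act W 0 Gen.cup φ = fun l => S2 fun c d => W.cup c d * φ (c :: d :: l) := by
        funext l; rfl
      rw [e3, act_S2 W j h W.cup (fun c d l' => φ (c :: d :: l'))]
      rfl
    · rcases l with _ | ⟨x, _ | ⟨y, l⟩⟩
      · simp [Gen.src] at hl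
      · simp [Gen.src] at hl
      · have e1 : 0 + Gen.cap.tgt + j = j := by simp [Gen.tgt]
        have e2 : 0 + Gen.cap.src + j = j + 1 + 1 := by simp [Gen.src]; omega
        rw [e1, e2]
        simp only [act_zero, act_succ, act0]
        rw [act_smul]
    · rcases l with _ | ⟨x, _ | ⟨y, l⟩⟩
      · simp [Gen.src] at hl
      · simp [Gen.src] at hl
      · have e1 : 0 + Gen.pos.tgt + j = j + 1 + 1 := by simp [Gen.tgt]; omega
        have e2 : 0 + Gen.pos.src + j = j + 1 + 1 := by simp [Gen.src]; omega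
        rw [e1, e2]
        simp only [act_zero, act_succ, act0]
        rw [act_S2 W j h (W.pos x y) (fun c d l' => φ (c :: d :: l'))]
    · rcases l with _ | ⟨x, _ | ⟨y, l⟩⟩
      · simp [Gen.src] at hl
      · simp [Gen.src] at hl
      · have e1 : 0 + Gen.neg.tgt + j = j + 1 + 1 := by simp [Gen.tgt]; omega
        have e2 : 0 + Gen.neg.src + j = j + 1 + 1 := by simp [Gen.src]; omega
        rw [e1, e2]
        simp only [act_zero, act_succ, act0]
        rw [act_S2 W j h (W.neg x y) (fun c d l' => φ (c :: d :: l'))]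
  | succ i ih =>
    rcases l with _ | ⟨x, l⟩
    · simp at hl
    · have e1 : i + 1 + g.tgt + j = (i + g.tgt + j) + 1 := by omega
      have e2 : i + 1 + g.src + j = (i + g.src + j) + 1 := by omega
      rw [e1, e2]
      simp only [act_succ]
      simp only [List.length_cons] at hl
      exact ih _ l (by omega)

/-- a local relation on diagrams with at least `p` strands at the bottom -/
def Rel (W : Rule R) (c : R) (x y : Word) (p : ℕ) : Prop :=
  ∀ (φ : List Bool → R) (l : List Bool), p ≤ l.length → val W x φ l = c * val W y φ l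

theorem Rel.up {W : Rule R} {c : R} {x y : Word} {p : ℕ} (h : Rel W c x y p) :
    Rel W c (Sk.up x) (Sk.up y) (p + 1) := by
  intro φ l hl
  rcases l with _ | ⟨b, l⟩
  · simp at hl
  · rw [val_up, val_up]
    exact h _ l (by simpa using hl)

/-- the rule is invariant up to factors in `P` -/
structure Good (W : Rule R) (P : R → Prop) : Prop where
  one : P 1
  mul : ∀ a b, P a → P b → P (a * b)
  inv : ∀ a, P a → ∃ b, P b ∧ a * b = 1
  zig : ∃ c, P c ∧ Rel W c [(0, .cup), (1, .cap)] [] 1
  zag : ∃ c, P c ∧ Rel W c [(1, .cup), (0, .cap)] [] 1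
  capP : ∃ c, P c ∧ Rel W c [(1, .pos), (0, .cap)] [(0, .neg), (1, .cap)] 3
  capN : ∃ c, P c ∧ Rel W c [(1, .neg), (0, .cap)] [(0, .pos), (1, .cap)] 3
  cupP : ∃ c, P c ∧ Rel W c [(0, .cup), (1, .pos)] [(1, .cup), (0, .neg)] 1
  cupN : ∃ c, P c ∧ Rel W c [(0, .cup), (1, .neg)] [(1, .cup), (0, .pos)] 1
  r1cupP : ∃ c, P c ∧ Rel W c [(0, .cup), (0, .pos)] [(0, .cup)] 0
  r1cupN : ∃ c, P c ∧ Rel W c [(0, .cup), (0, .neg)] [(0, .cup)] 0
  r1capP : ∃ c, P c ∧ Rel W c [(0, .pos), (0, .cap)] [(0, .cap)] 2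
  r1capN : ∃ c, P c ∧ Rel W c [(0, .neg), (0, .cap)] [(0, .cap)] 2
  r2P : ∃ c, P c ∧ Rel W c [(0, .pos), (0, .neg)] [] 2
  r2N : ∃ c, P c ∧ Rel W c [(0, .neg), (0, .pos)] [] 2
  r3P : ∃ c, P c ∧ Rel W c [(0, .pos), (1, .pos), (0, .pos)] [(1, .pos), (0, .pos), (1, .pos)] 3
  r3N : ∃ c, P c ∧ Rel W c [(0, .neg), (1, .neg), (0, .neg)] [(1, .neg), (0, .neg), (1, .neg)] 3

/-- a family of words obtained by shifting -/
theorem Rel.family {W : Rule R} {c : R} {p : ℕ} (x y : ℕ → Word) (h0 : Rel W c (x 0) (y 0) p)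
    (hx : ∀ i, x (i + 1) = Sk.up (x i)) (hy : ∀ i, y (i + 1) = Sk.up (y i)) (i : ℕ) :
    Rel W c (x i) (y i) (p + i) := by
  induction i with
  | zero => exact h0
  | succ i ih =>
    rw [hx, hy]
    exact ih.up

theorem elem_val {W : Rule R} {P : R → Prop} (hG : Good W P) {x y : Word} (h : Elem x y) :
    ∃ c, P c ∧ ∀ (m n : ℕ), Legal m x n → Legal m y n → ∀ (φ : List Bool → R) (l : List Bool),
      l.length = m → val W x φ l = c * val W y φ l := by
  rcases h with ⟨i, j, g, h⟩ | i | i | i | i | i | i | i | i | i | i | i | i | i | i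
  · refine ⟨1, hG.one, fun m n h1 _ φ l hl => ?_⟩
    simp only [Legal] at h1
    rw [one_mul]
    exact comm_rel W i j g h φ l (by omega)
  · obtain ⟨c, hc, hr⟩ := hG.zig
    refine ⟨c, hc, fun m n h1 _ φ l hl => ?_⟩
    simp only [Legal, Gen.src, Gen.tgt] at h1
    exact Rel.family (fun i => [(i, .cup), (i + 1, .cap)]) (fun _ => []) hr (fun _ => rfl)
      (fun _ => rfl) i φ l (by omega)
  · obtain ⟨c, hc, hr⟩ := hG.zag
    refine ⟨c, hc, fun m n h1 _ φ l hl => ?_⟩
    simp only [Legal, Gen.src, Gen.tgt] at h1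
    exact Rel.family (fun i => [(i + 1, .cup), (i, .cap)]) (fun _ => []) hr (fun _ => rfl)
      (fun _ => rfl) i φ l (by omega)
  · obtain ⟨c, hc, hr⟩ := hG.capP
    refine ⟨c, hc, fun m n h1 _ φ l hl => ?_⟩
    simp only [Legal, Gen.src, Gen.tgt] at h1
    exact Rel.family (fun i => [(i + 1, .pos), (i, .cap)]) (fun i => [(i, .neg), (i + 1, .cap)]) hr
      (fun _ => rfl) (fun _ => rfl) i φ l (by omega)
  · obtain ⟨c, hc, hr⟩ := hG.capN
    refine ⟨c, hc, fun m n h1 _ φ l hl => ?_⟩
    simp only [Legal, Gen.src, Gen.tgt] at h1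
    exact Rel.family (fun i => [(i + 1, .neg), (i, .cap)]) (fun i => [(i, .pos), (i + 1, .cap)]) hr
      (fun _ => rfl) (fun _ => rfl) i φ l (by omega)
  · obtain ⟨c, hc, hr⟩ := hG.cupP
    refine ⟨c, hc, fun m n h1 _ φ l hl => ?_⟩
    simp only [Legal, Gen.src, Gen.tgt] at h1
    exact Rel.family (fun i => [(i, .cup), (i + 1, .pos)]) (fun i => [(i + 1, .cup), (i, .neg)]) hr
      (fun _ => rfl) (fun _ => rfl) i φ l (by omega)
  · obtain ⟨c, hc, hr⟩ := hG.cupN
    refine ⟨c, hc, fun m n h1 _ φ l hl => ?_⟩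
    simp only [Legal, Gen.src, Gen.tgt] at h1
    exact Rel.family (fun i => [(i, .cup), (i + 1, .neg)]) (fun i => [(i + 1, .cup), (i, .pos)]) hr
      (fun _ => rfl) (fun _ => rfl) i φ l (by omega)
  · obtain ⟨c, hc, hr⟩ := hG.r1cupP
    refine ⟨c, hc, fun m n h1 _ φ l hl => ?_⟩
    simp only [Legal, Gen.src, Gen.tgt] at h1
    exact Rel.family (fun i => [(i, .cup), (i, .pos)]) (fun i => [(i, .cup)]) hr
      (fun _ => rfl) (fun _ => rfl) i φ l (by omega)
  · obtain ⟨c, hc, hr⟩ := hG.r1cupN
    refine ⟨c, hc, fun m n h1 _ φ l hl => ?_⟩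
    simp only [Legal, Gen.src, Gen.tgt] at h1
    exact Rel.family (fun i => [(i, .cup), (i, .neg)]) (fun i => [(i, .cup)]) hr
      (fun _ => rfl) (fun _ => rfl) i φ l (by omega)
  · obtain ⟨c, hc, hr⟩ := hG.r1capP
    refine ⟨c, hc, fun m n h1 _ φ l hl => ?_⟩
    simp only [Legal, Gen.src, Gen.tgt] at h1
    exact Rel.family (fun i => [(i, .pos), (i, .cap)]) (fun i => [(i, .cap)]) hr
      (fun _ => rfl) (fun _ => rfl) i φ l (by omega)
  · obtain ⟨c, hc, hr⟩ := hG.r1capN
    refine ⟨c, hc, fun m n h1 _ φ l hl => ?_⟩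
    simp only [Legal, Gen.src, Gen.tgt] at h1
    exact Rel.family (fun i => [(i, .neg), (i, .cap)]) (fun i => [(i, .cap)]) hr
      (fun _ => rfl) (fun _ => rfl) i φ l (by omega)
  · obtain ⟨c, hc, hr⟩ := hG.r2P
    refine ⟨c, hc, fun m n h1 _ φ l hl => ?_⟩
    simp only [Legal, Gen.src, Gen.tgt] at h1
    exact Rel.family (fun i => [(i, .pos), (i, .neg)]) (fun _ => []) hr
      (fun _ => rfl) (fun _ => rfl) i φ l (by omega)
  · obtain ⟨c, hc, hr⟩ := hG.r2N
    refine ⟨c, hc, fun m n h1 _ φ l hl => ?_⟩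
    simp only [Legal, Gen.src, Gen.tgt] at h1
    exact Rel.family (fun i => [(i, .neg), (i, .pos)]) (fun _ => []) hr
      (fun _ => rfl) (fun _ => rfl) i φ l (by omega)
  · obtain ⟨c, hc, hr⟩ := hG.r3P
    refine ⟨c, hc, fun m n h1 _ φ l hl => ?_⟩
    simp only [Legal, Gen.src, Gen.tgt] at h1
    exact Rel.family (fun i => [(i, .pos), (i + 1, .pos), (i, .pos)])
      (fun i => [(i + 1, .pos), (i, .pos), (i + 1, .pos)]) hr
      (fun _ => rfl) (fun _ => rfl) i φ l (by omega)
  · obtain ⟨c, hc, hr⟩ := hG.r3N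
    refine ⟨c, hc, fun m n h1 _ φ l hl => ?_⟩
    simp only [Legal, Gen.src, Gen.tgt] at h1
    exact Rel.family (fun i => [(i, .neg), (i + 1, .neg), (i, .neg)])
      (fun i => [(i + 1, .neg), (i, .neg), (i + 1, .neg)]) hr
      (fun _ => rfl) (fun _ => rfl) i φ l (by omega)

theorem legal_append {m n : ℕ} {u v : Word} :
    Legal m (u ++ v) n ↔ ∃ k, Legal m u k ∧ Legal k v n := by
  induction u generalizing m with
  | nil => simp [Legal]
  | cons s u ih =>
    obtain ⟨i, g⟩ := s
    simp only [List.cons_append, Legal, ih]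
    constructor
    · rintro ⟨h1, k, h2, h3⟩
      exact ⟨k, ⟨h1, h2⟩, h3⟩
    · rintro ⟨k, ⟨h1, h2⟩, h3⟩
      exact ⟨h1, k, h2, h3⟩

theorem legal_unique {m n n' : ℕ} {w : Word} (h : Legal m w n) (h' : Legal m w n') : n = n' := by
  induction w generalizing m with
  | nil => simp only [Legal] at h h'; omega
  | cons s w ih =>
    obtain ⟨i, g⟩ := s
    exact ih h.2 h'.2

/-- the change of the number of strands is the same for both sides of an elementary isotopy -/
theorem elem_legal {x y : Word} (h : Elem x y) {m n n' : ℕ} (h1 : Legal m x n)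
    (h2 : Legal m y n') : n = n' := by
  rcases h with ⟨i, j, g, h⟩ | i | i | i | i | i | i | i | i | i | i | i | i | i | i <;>
    first
    | (rcases g with _ | _ | _ | _ <;> rcases h with _ | _ | _ | _ <;>
        simp only [Legal, Gen.src, Gen.tgt] at h1 h2 <;> omega)
    | (simp only [Legal, Gen.src, Gen.tgt] at h1 h2; omega)

theorem step_val {W : Rule R} {P : R → Prop} (hG : Good W P) {m n : ℕ} {w w' : Word}
    (h : Step m n w w') : ∃ c, P c ∧ ∀ (φ : List Bool → R) (l : List Bool),
      l.length = m → val W w φ l = c * val W w' φ l := by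
  obtain ⟨u, x, y, v, he, h1, h2⟩ := h
  obtain ⟨c, hc, hv⟩ := elem_val hG he
  refine ⟨c, hc, fun φ l hl => ?_⟩
  rw [List.append_assoc] at h1 h2
  obtain ⟨k, hk, h1⟩ := legal_append.1 h1
  obtain ⟨k', hk', h2⟩ := legal_append.1 h2
  obtain rfl := legal_unique hk hk'
  obtain ⟨j, hj, h1⟩ := legal_append.1 h1
  obtain ⟨j', hj', h2⟩ := legal_append.1 h2
  obtain rfl := elem_legal he hj hj'
  rw [val_append, val_append, val_append, val_append, ← val_smul]
  exact val_congr W hk _ _ l hl fun l' hl' => hv k j hj hj' _ l' hl'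

theorem iso_val {W : Rule R} {P : R → Prop} (hG : Good W P) {m n : ℕ} {w w' : Word}
    (h : Iso m n w w') : ∃ c, P c ∧ ∀ (φ : List Bool → R) (l : List Bool),
      l.length = m → val W w φ l = c * val W w' φ l := by
  induction h with
  | rel w w' h => exact step_val hG h
  | refl w => exact ⟨1, hG.one, fun φ l _ => by rw [one_mul]⟩
  | symm w w' _ ih =>
    obtain ⟨c, hc, h⟩ := ih
    obtain ⟨d, hd, hcd⟩ := hG.inv c hc
    refine ⟨d, hd, fun φ l hl => ?_⟩
    rw [h φ l hl, ← mul_assoc, mul_comm d c, hcd, one_mul]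
  | trans w w' w'' _ _ ih1 ih2 =>
    obtain ⟨c, hc, h⟩ := ih1
    obtain ⟨d, hd, h'⟩ := ih2
    refine ⟨c * d, hG.mul c d hc hd, fun φ l hl => ?_⟩
    rw [h φ l hl, h' φ l hl, mul_assoc]

end Pool.Agent.Helper31.Sk
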