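import Pool.Agent.Helper31.Sk.Adj

/-! Closings of the trivial tangle to the unknot with a given matching. -/

set_option autoImplicit false

namespace Pool.Agent.Helper31.Sk

/-! ### the exchange of two cups -/

theorem shift_append (a : ℕ) (u v : Word) : shift a (u ++ v) = shift a u ++ shift a v := by
  simp [shift]

theorem shift_cons (a i : ℕ) (g : Gen) (w : Word) :
    shift a ((i, g) :: w) = (i + a, g) :: shift a w := by
  simp [shift]

theorem legal_shift (a : ℕ) (w : Word) : ∀ (m n : ℕ), Legal m w n →
    Legal (m + a) (shift a w) (n + a) := by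
  induction w with
  | nil =>
    intro m n h
    simp only [Legal] at h
    subst h
    rfl
  | cons s w ih =>
    intro m n h
    obtain ⟨i, g⟩ := s
    obtain ⟨h1, h2⟩ := h
    rw [shift_cons]
    refine ⟨by omega, ?_⟩
    have e : m + a - g.src + g.tgt = (m - g.src + g.tgt) + a := by omega
    rw [e]
    exact ih _ _ h2

/-- a cup on the left commutes with everything -/
theorem cup_comm (w : Word) : ∀ (m n : ℕ), Legal m w n →
    Iso m (n + 2) ((0, .cup) :: shift 2 w) (w ++ [(0, .cup)]) := by
  induction w with
  | nil =>
    intro m n h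
    exact iso_refl _ _ _
  | cons s w ih =>
    intro m n h
    obtain ⟨i, g⟩ := s
    obtain ⟨h1, h2⟩ := h
    rw [shift_cons]
    have hs := legal_shift 2 w _ _ h2
    have e0 : m - g.src + g.tgt + 2 = m + 2 - g.src + g.tgt := by omega
    have step1 : Iso m (m - g.src + g.tgt + 2) [(0, Gen.cup), (i + 2, g)] [(i, g), (0, .cup)] := by
      have h := Elem.comm 0 i .cup g
      have e1 : 0 + Gen.cup.tgt + i = i + 2 := by simp [Gen.tgt]; omega
      have e2 : 0 + Gen.cup.src + i = i := by simp [Gen.src]
      rw [e1, e2] at h
      refine iso_elem h ?_ ?_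
      · refine ⟨by simp [Gen.src], ?_⟩
        have q : m - Gen.cup.src + Gen.cup.tgt = m + 2 := rfl
        rw [q]
        refine ⟨by omega, ?_⟩
        show m + 2 - g.src + g.tgt = m - g.src + g.tgt + 2
        omega
      · refine ⟨h1, ⟨by simp [Gen.src], ?_⟩⟩
        show m - g.src + g.tgt - Gen.cup.src + Gen.cup.tgt = m - g.src + g.tgt + 2
        simp [Gen.src, Gen.tgt]
    have a1 : Iso m (n + 2) ([(0, Gen.cup), (i + 2, g)] ++ shift 2 w)
        ([(i, g), (0, .cup)] ++ shift 2 w) := iso_right step1 hs
    have a2 : Iso m (n + 2) ([(i, g)] ++ ((0, .cup) :: shift 2 w)) ([(i, g)] ++ (w ++ [(0, .cup)])) :=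
      iso_left (ih _ _ h2) ⟨h1, rfl⟩
    exact iso_trans a1 a2

/-- the exchange of the cups `j` and `j + 1` -/
def blk (j : ℕ) : Word := shift (2 * j) [(1, .pos), (0, .pos), (2, .pos), (1, .pos)]

theorem legal_blk {m j : ℕ} (h : 2 * j + 4 ≤ m) : Legal m (blk j) m := by
  simp only [blk, shift, List.map_cons, List.map_nil, Legal, Gen.src, Gen.tgt]
  omega

theorem cups_blk (n j : ℕ) (hj : j + 1 < n) : Iso 0 (2 * n) (cups n ++ blk j) (cups n) := by
  induction n generalizing j with
  | zero => omega
  | succ n ih =>
    rcases j with _ | j
    · obtain ⟨n, rfl⟩ : ∃ n', n = n' + 1 := ⟨n - 1, by omega⟩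
      have e : cups (n + 1 + 1) = cups n ++ [(0, .cup), (0, .cup)] := by
        rw [cups_succ, cups_succ]; simp
      rw [e, List.append_assoc]
      refine iso_left ?_ (legal_cups n)
      have e2 : ([(0, Gen.cup), (0, Gen.cup)] : Word) ++ blk 0 =
        [(0, .cup), (0, .cup), (1, .pos), (0, .pos), (2, .pos), (1, .pos)] := rfl
      rw [e2]
      -- the four steps
      have s1 : Iso (2 * n) (2 * (n + 1 + 1))
          [(0, Gen.cup), (0, .cup), (1, .pos), (0, .pos), (2, .pos), (1, .pos)]
          [(0, Gen.cup), (1, .cup), (0, .neg), (0, .pos), (2, .pos), (1, .pos)] := by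
        refine iso_ctx (u := [(0, .cup)]) (v := [(0, .pos), (2, .pos), (1, .pos)])
          (m := 2 * n + 2) (n := 2 * n + 4) (iso_elem (Elem.cupP 0) ?_ ?_) ?_ ?_ <;>
        simp only [Legal, Gen.src, Gen.tgt] <;> omega
      have s2 : Iso (2 * n) (2 * (n + 1 + 1))
          [(0, Gen.cup), (1, .cup), (0, .neg), (0, .pos), (2, .pos), (1, .pos)]
          [(0, Gen.cup), (1, .cup), (2, .pos), (1, .pos)] := by
        refine iso_ctx (u := [(0, .cup), (1, .cup)]) (v := [(2, .pos), (1, .pos)])
          (m := 2 * n + 4) (n := 2 * n + 4) (iso_elem (Elem.r2N 0) ?_ ?_) ?_ ?_ <;>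
        simp only [Legal, Gen.src, Gen.tgt] <;> omega
      have s3 : Iso (2 * n) (2 * (n + 1 + 1))
          [(0, Gen.cup), (1, .cup), (2, .pos), (1, .pos)]
          [(0, Gen.cup), (2, .cup), (1, .neg), (1, .pos)] := by
        refine iso_ctx (u := [(0, .cup)]) (v := [(1, .pos)])
          (m := 2 * n + 2) (n := 2 * n + 4) (iso_elem (Elem.cupP 1) ?_ ?_) ?_ ?_ <;>
        simp only [Legal, Gen.src, Gen.tgt] <;> omega
      have s4 : Iso (2 * n) (2 * (n + 1 + 1))
          [(0, Gen.cup), (2, .cup), (1, .neg), (1, .pos)]
          [(0, Gen.cup), (2, .cup)] := by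
        refine iso_ctx (u := [(0, .cup), (2, .cup)]) (v := [])
          (m := 2 * n + 4) (n := 2 * n + 4) (iso_elem (Elem.r2N 1) ?_ ?_) ?_ ?_ <;>
        simp only [Legal, Gen.src, Gen.tgt] <;> omega
      have s5 : Iso (2 * n) (2 * (n + 1 + 1)) [(0, Gen.cup), (2, .cup)] [(0, .cup), (0, .cup)] := by
        have h := Elem.comm 0 0 .cup .cup
        refine iso_elem h ?_ ?_ <;> simp only [Legal, Gen.src, Gen.tgt] <;> omega
      exact iso_trans s1 (iso_trans s2 (iso_trans s3 (iso_trans s4 s5)))
    · have e : blk (j + 1) = shift 2 (blk j) := by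
        simp only [blk, shift, List.map_cons, List.map_nil]
        congr 1
      rw [cups_succ, List.append_assoc, e]
      have h1 : Iso (2 * n) (2 * n + 2) ((0, .cup) :: shift 2 (blk j)) (blk j ++ [(0, .cup)]) :=
        cup_comm _ _ _ (legal_blk (by omega))
      have h2 := iso_left h1 (legal_cups n)
      refine iso_trans h2 ?_
      rw [← List.append_assoc]
      refine iso_right (ih j (by omega)) ?_
      simp only [Legal, Gen.src, Gen.tgt]
      omega

theorem inS_blk {n : ℕ} {C : Word} (h : InS n C) {j : ℕ} (hj : j + 1 < n) :
    InS n (blk j ++ C) := by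
  refine ⟨legal_append.2 ⟨2 * n, legal_blk (by omega), h.1⟩, ?_⟩
  have h1 := iso_right (cups_blk n j hj) h.1
  rw [List.append_assoc] at h1
  exact iso_trans h1 h.2

/-! ### the orientation tensor of the cups -/

/-- sum over the labellings compatible with the cups -/
def LU (n : ℕ) (φ : List Bool → ℤ) : ℤ := val (Or ℤ) (cups n) φ []

theorem LU_succ (n : ℕ) (φ : List Bool → ℤ) : LU (n + 1) φ = LU n (act (Or ℤ) 0 .cup φ) := by
  unfold LU
  rw [cups_succ, val_append]
  rfl

theorem LU_congr {n : ℕ} {φ ψ : List Bool → ℤ} (h : ∀ l : List Bool, l.length = 2 * n → φ l = ψ l) :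
    LU n φ = LU n ψ := val_congr (Or ℤ) (legal_cups n) φ ψ [] rfl h

theorem LU_smul (n : ℕ) (c : ℤ) (φ : List Bool → ℤ) : LU n (fun l => c * φ l) = c * LU n φ :=
  val_smul _ _ _ _ _

/-- isotopic tangles have the same orientation tensors -/
theorem or_iso {m n : ℕ} {w w' : Word} (h : Iso m n w w') (φ : List Bool → ℤ) (l : List Bool)
    (hl : l.length = m) : val (Or ℤ) w φ l = val (Or ℤ) w' φ l := by
  obtain ⟨c, hc, h⟩ := iso_val (good_or (R := ℤ)) h
  rw [h φ l hl, show c = 1 from hc, one_mul]

theorem LU_twist {n i : ℕ} (hi : i < n) (φ : List Bool → ℤ) :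
    LU n (act (Or ℤ) (2 * i) .pos φ) = LU n φ := by
  have := or_iso (cups_twist n i .pos (Or.inl rfl) hi) φ [] rfl
  rw [val_append] at this
  exact this

theorem LU_blk {n j : ℕ} (hj : j + 1 < n) (φ : List Bool → ℤ) :
    LU n (val (Or ℤ) (blk j) φ) = LU n φ := by
  have := or_iso (cups_blk n j hj) φ [] rfl
  rw [val_append] at this
  exact this

theorem LU_even {n : ℕ} (hn : 1 ≤ n) (φ : List Bool → ℤ)
    (h : ∀ l : List Bool, l.length = 2 * n → φ (l.map not) = φ l) : Even (LU n φ) := by
  obtain ⟨m, hm⟩ : ∃ m, 2 * n = m + 1 := ⟨2 * n - 1, by omega⟩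
  unfold LU
  rw [tensor_or (legal_cups n), hm]
  refine pz_even m _ _ fun l hl => ?_
  rw [oF_not, h l (by omega)]

theorem swp_swp (i : ℕ) (l : List Bool) : swp i (swp i l) = l := by
  induction i generalizing l with
  | zero => rcases l with _ | ⟨x, _ | ⟨y, l⟩⟩ <;> simp [swp]
  | succ i ih =>
    rcases l with _ | ⟨x, l⟩
    · simp [swp]
    · simp [swp, ih]

/-- exchange of two blocks of entries -/
def swb (j : ℕ) (l : List Bool) : List Bool :=
  swp (2 * j + 1) (swp (2 * j + 2) (swp (2 * j) (swp (2 * j + 1) l)))

theorem or_blk (j : ℕ) (φ : List Bool → ℤ) (l : List Bool) (h : 2 * j + 4 ≤ l.length) :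
    val (Or ℤ) (blk j) φ l = φ (swb j l) := by
  have z1 : 1 + 2 * j = 2 * j + 1 := by ring
  have z2 : 0 + 2 * j = 2 * j := by ring
  have z3 : 2 + 2 * j = 2 * j + 2 := by ring
  have e : val (Or ℤ) (blk j) φ l = act (Or ℤ) (1 + 2 * j) .pos (act (Or ℤ) (0 + 2 * j) .pos
      (act (Or ℤ) (2 + 2 * j) .pos (act (Or ℤ) (1 + 2 * j) .pos φ))) l := rfl
  rw [e, z1, z2, z3]
  rw [or_cross _ _ (Or.inl rfl) _ _ (by omega), or_cross _ _ (Or.inl rfl) _ _
      (by rw [length_swp]; omega),
    or_cross _ _ (Or.inl rfl) _ _ (by rw [length_swp, length_swp]; omega),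
    or_cross _ _ (Or.inl rfl) _ _ (by rw [length_swp, length_swp, length_swp]; omega)]
  rfl

theorem length_swb (j : ℕ) (l : List Bool) : (swb j l).length = l.length := by
  simp only [swb, length_swp]

theorem swb_succ (j : ℕ) (x y : Bool) (l : List Bool) :
    swb (j + 1) (x :: y :: l) = x :: y :: swb j l := by
  have z1 : 2 * (j + 1) + 1 = (2 * j + 1) + 1 + 1 := by ring
  have z2 : 2 * (j + 1) = (2 * j) + 1 + 1 := by ring
  have z3 : 2 * (j + 1) + 2 = (2 * j + 2) + 1 + 1 := by ring
  unfold swb
  rw [z1, z3, z2]
  simp only [swp]

theorem swb_swb (j : ℕ) (l : List Bool) (h : 2 * j + 4 ≤ l.length) : swb j (swb j l) = l := by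
  induction j generalizing l with
  | zero =>
    rcases l with _ | ⟨x, _ | ⟨y, _ | ⟨z, _ | ⟨t, l⟩⟩⟩⟩
    · simp at h
    · simp at h
    · simp at h
    · simp at h
    · simp [swb, swp]
  | succ j ih =>
    rcases l with _ | ⟨x, _ | ⟨y, l⟩⟩
    · simp at h
    · simp only [List.length_cons, List.length_nil] at h; omega
    · rw [swb_succ, swb_succ, ih l (by simp only [List.length_cons] at h; omega)]

def tr (i t : ℕ) : ℕ := if t = i then i + 1 else if t = i + 1 then i else t

theorem tr_lt {i t : ℕ} (h : t < i) : tr i t = t := by
  unfold tr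
  rw [if_neg (by omega), if_neg (by omega)]

theorem tr_gt {i t : ℕ} (h : i + 1 < t) : tr i t = t := by
  unfold tr
  rw [if_neg (by omega), if_neg (by omega)]

theorem tr_self (i : ℕ) : tr i i = i + 1 := by simp [tr]

theorem tr_succ (i : ℕ) : tr i (i + 1) = i := by simp [tr]

theorem mt_cross' {m k : ℕ} {f : ℕ → ℕ} {F : List Bool → ℤ} (h : Mt m k f F) (i : ℕ)
    (hi : i + 2 ≤ m) :
    ∃ f', Mt m k f' (act (Or ℤ) i .pos F) ∧ ∀ j, f' j = tr i (f (tr i j)) :=
  mt_cross h i .pos (Or.inl rfl) hi

theorem oF_unknot : oF unknot [] = 2 := by
  rw [oF_eq, isKnot_unknot.2]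
  norm_num

theorem nth_ext {l l' : List Bool} (h : l.length = l'.length)
    (h' : ∀ k < l.length, nth l k = nth l' k) : l = l' := by
  refine List.ext_getElem h fun k h1 h2 => ?_
  have hn : ∀ (l : List Bool) (k : ℕ) (h : k < l.length), l[k] = nth l k := by
    intro l k h
    simp [nth, h]
  rw [hn, hn]
  exact h' k h1

theorem nth_map_not (l : List Bool) (k : ℕ) (h : k < l.length) : nth (l.map not) k = !nth l k := by
  simp [nth, h]

theorem mt_not {m k : ℕ} {f : ℕ → ℕ} {F : List Bool → ℤ} (h : Mt m k f F) (l : List Bool)
    (hl : l.length = m) : F (l.map not) = F l := by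
  classical
  rw [h.v _ (by simpa using hl), h.v _ hl]
  have e : Cmp m f (nth (l.map not)) ↔ Cmp m f (nth l) := by
    constructor
    · intro hc j hj
      have := hc j hj
      rw [nth_map_not _ _ (by omega), nth_map_not _ _ (by rw [hl]; exact h.mat.lt j hj)] at this
      exact fun e => this (by rw [e])
    · intro hc j hj
      have := hc j hj
      rw [nth_map_not _ _ (by omega), nth_map_not _ _ (by rw [hl]; exact h.mat.lt j hj)]
      intro e
      apply this
      have := congrArg not e
      simpa using this
  simp only [e]

/-- the statement of the induction -/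
def Real (n : ℕ) (F : List Bool → ℤ) : Prop :=
  ∃ C, InS n C ∧ ∀ l : List Bool, l.length = 2 * n → oF C l = F l

theorem realize (n : ℕ) : ∀ (k : ℕ) (f : ℕ → ℕ) (F : List Bool → ℤ), Mt (2 * n) k f F →
    LU n F = 2 → Real n F := by
  classical
  induction n with
  | zero =>
    intro k f F hF h2
    refine ⟨unknot, inS_zero, fun l hl => ?_⟩
    obtain rfl : l = [] := List.length_eq_zero_iff.1 (by omega)
    rw [oF_unknot]
    exact h2.symm
  | succ n ih =>
    rcases Nat.eq_zero_or_pos n with rfl | hn
    · -- one cup
      intro k f F hF h2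
      have f0 : f 0 = 1 := by
        have a1 := hF.mat.lt 0 (by omega)
        have a2 := hF.mat.ne 0 (by omega)
        omega
      have f1 : f 1 = 0 := by
        have a1 := hF.mat.lt 1 (by omega)
        have a2 := hF.mat.ne 1 (by omega)
        omega
      have hv : ∀ x y : Bool, F [x, y] = if x = y then 0 else 2 ^ k := by
        intro x y
        rw [hF.v [x, y] rfl]
        have e : Cmp (2 * (0 + 1)) f (nth [x, y]) ↔ x ≠ y := by
          constructor
          · intro hc
            have := hc 0 (by omega)
            rw [f0] at this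
            exact this
          · intro hxy j hj
            rcases j with _ | _ | j
            · rw [f0]; exact hxy
            · rw [f1]; exact hxy.symm
            · omega
        by_cases hxy : x = y
        · rw [if_neg (by rw [e]; exact fun h => h hxy), if_pos hxy]
        · rw [if_pos (by rw [e]; exact hxy), if_neg hxy]
      have h3 : LU (0 + 1) F = F [false, true] + F [true, false] := by
        rw [LU_succ]
        show act (Or ℤ) 0 .cup F [] = _
        rw [or_act_cup_fun]
      rw [h3, hv, hv] at h2
      have hk : (2 : ℤ) ^ k = 1 := by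
        simp only [reduceCtorEq, if_false] at h2
        linarith
      refine ⟨[(0, .cap)], inS_one, fun l hl => ?_⟩
      obtain ⟨x, y, rfl⟩ : ∃ x y, l = [x, y] := by
        rcases l with _ | ⟨x, _ | ⟨y, _ | ⟨z, l⟩⟩⟩
        · simp at hl
        · simp at hl
        · exact ⟨x, y, rfl⟩
        · simp at hl
      rw [hv, hk]
      simp [oF, act0, Or]
    · -- several cups
      have main : ∀ p : ℕ, 2 ≤ p → ∀ (k : ℕ) (f : ℕ → ℕ) (F : List Bool → ℤ),
          Mt (2 * (n + 1)) k f F → LU (n + 1) F = 2 → f 1 = p → Real (n + 1) F := by
        intro p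
        induction p using Nat.strong_induction_on with
        | _ p ihp =>
          intro hp k f F hF h2 hfp
          have hplt : p < 2 * (n + 1) := by rw [← hfp]; exact hF.mat.lt 1 (by omega)
          rcases Nat.even_or_odd' p with ⟨i, hi | hi⟩
          · -- even
            rcases Nat.lt_or_ge i 2 with hi2 | hi2
            · -- p = 2
              obtain rfl : i = 1 := by omega
              obtain rfl : p = 2 := by omega
              have hf2 : f 2 = 1 := by rw [← hfp]; exact hF.mat.inv 1 (by omega)
              obtain ⟨k', f', hF'⟩ := mt_cup (m := 2 * n) (by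
                have e : 2 * (n + 1) = 2 * n + 2 := by ring
                rw [e] at hF
                exact hF) 0 (by omega)
              rw [LU_succ] at h2
              obtain ⟨C', hC', hC2⟩ := ih k' f' _ hF' h2
              refine ⟨(2 * 0 + 1, .cap) :: C', inS_cap hC' hn, fun l hl => ?_⟩
              rw [oF_cons, or_cap _ _ _ (by omega)]
              simp only [Nat.mul_zero, Nat.zero_add, Nat.reduceAdd]
              have hd : (del 1 l).length = 2 * n := by rw [length_del _ _ (by omega)]; omega
              rw [hC2 _ hd, or_cup 0 F _ (by omega)]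
              -- the list
              obtain ⟨a, b, c, t, rfl⟩ : ∃ a b c t, l = a :: b :: c :: t := by
                rcases l with _ | ⟨x, _ | ⟨y, _ | ⟨z, l⟩⟩⟩
                · simp at hl
                · simp at hl; omega
                · simp at hl; omega
                · exact ⟨x, y, z, l, rfl⟩
              simp only [del, ins, nth_succ, nth_zero] at hd ⊢
              have hlen : ∀ x y : Bool, (x :: y :: a :: t).length = 2 * (n + 1) := by
                intro x y
                simp only [List.length_cons] at hl ⊢
                omega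
              rw [hF.v _ (hlen _ _), hF.v _ (hlen _ _), hF.v _ hl]
              have key : ∀ x y : Bool, x ≠ y → (Cmp (2 * (n + 1)) f (nth (x :: y :: a :: t)) ↔
                  (y ≠ a ∧ ∀ j < 2 * (n + 1), j ≠ 1 → j ≠ 2 →
                    nth (a :: b :: c :: t) j ≠ nth (a :: b :: c :: t) (f j))) := by
                intro x y hxy
                have same : ∀ j, j ≠ 1 → j ≠ 2 → y ≠ a → nth (x :: y :: a :: t) j =
                    nth (a :: b :: c :: t) j := by
                  intro j h1 h2' h3
                  rcases j with _ | _ | _ | j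
                  · have : ∀ p q s : Bool, p ≠ q → q ≠ s → p = s := by decide
                    simpa using this x y a hxy h3
                  · omega
                  · omega
                  · simp
                have hfj : ∀ j < 2 * (n + 1), j ≠ 1 → j ≠ 2 → f j ≠ 1 ∧ f j ≠ 2 := by
                  intro j hj h1 h2'
                  have hinv := hF.mat.inv j hj
                  constructor
                  · intro e; rw [e, hfp] at hinv; omega
                  · intro e; rw [e, hf2] at hinv; omega
                constructor
                · intro hc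
                  have c1 := hc 1 (by omega)
                  rw [hfp] at c1
                  simp only [nth_succ, nth_zero] at c1
                  refine ⟨c1, fun j hj h1 h2' => ?_⟩
                  rw [← same j h1 h2' c1, ← same (f j) (hfj j hj h1 h2').1 (hfj j hj h1 h2').2 c1]
                  exact hc j hj
                · rintro ⟨c1, hc⟩ j hj
                  by_cases h1 : j = 1
                  · rw [h1, hfp]
                    exact c1
                  · by_cases h2' : j = 2
                    · rw [h2', hf2]
                      exact c1.symm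
                    · rw [same j h1 h2' c1, same (f j) (hfj j hj h1 h2').1 (hfj j hj h1 h2').2 c1]
                      exact hc j hj h1 h2'
              have keyl : Cmp (2 * (n + 1)) f (nth (a :: b :: c :: t)) ↔
                  (b ≠ c ∧ ∀ j < 2 * (n + 1), j ≠ 1 → j ≠ 2 →
                    nth (a :: b :: c :: t) j ≠ nth (a :: b :: c :: t) (f j)) := by
                constructor
                · intro hc
                  have c1 := hc 1 (by omega)
                  rw [hfp] at c1
                  exact ⟨c1, fun j hj _ _ => hc j hj⟩
                · rintro ⟨c1, hc⟩ j hj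
                  by_cases h1 : j = 1
                  · rw [h1, hfp]
                    exact c1
                  · by_cases h2' : j = 2
                    · rw [h2', hf2]
                      exact c1.symm
                    · exact hc j hj h1 h2'
              rw [keyl]
              simp only [key false true (by decide), key true false (by decide)]
              by_cases hbc : b = c
              · rw [if_pos hbc, if_neg (fun h => h.1 hbc)]
              · rw [if_neg hbc]
                by_cases hrest : ∀ j < 2 * (n + 1), j ≠ 1 → j ≠ 2 →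
                    nth (a :: b :: c :: t) j ≠ nth (a :: b :: c :: t) (f j)
                · cases a
                  · rw [if_pos ⟨by decide, hrest⟩, if_neg (fun h => h.1 rfl),
                      if_pos ⟨hbc, hrest⟩]
                    ring
                  · rw [if_neg (fun h => h.1 rfl), if_pos ⟨by decide, hrest⟩,
                      if_pos ⟨hbc, hrest⟩]
                    ring
                · rw [if_neg (fun h => hrest h.2), if_neg (fun h => hrest h.2),
                    if_neg (fun h => hrest h.2)]
                  ring
            · -- exchange of blocks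
              obtain ⟨j, rfl⟩ : ∃ j, i = j + 2 := ⟨i - 2, by omega⟩
              obtain ⟨f1, m1, e1⟩ := mt_cross' hF (2 * (j + 1) + 1) (by omega)
              obtain ⟨f2, m2, e2⟩ := mt_cross' m1 (2 * (j + 1) + 2) (by omega)
              obtain ⟨f3, m3, e3⟩ := mt_cross' m2 (2 * (j + 1)) (by omega)
              obtain ⟨f4, m4, e4⟩ := mt_cross' m3 (2 * (j + 1) + 1) (by omega)
              have hb : act (Or ℤ) (2 * (j + 1) + 1) .pos (act (Or ℤ) (2 * (j + 1)) .pos
                  (act (Or ℤ) (2 * (j + 1) + 2) .pos (act (Or ℤ) (2 * (j + 1) + 1) .pos F))) =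
                  val (Or ℤ) (blk (j + 1)) F := by
                funext l
                simp only [blk, shift, List.map_cons, List.map_nil, val_cons]
                have z1 : 1 + 2 * (j + 1) = 2 * (j + 1) + 1 := by ring
                have z2 : 0 + 2 * (j + 1) = 2 * (j + 1) := by ring
                have z3 : 2 + 2 * (j + 1) = 2 * (j + 1) + 2 := by ring
                rw [z1, z2, z3]
                rfl
              rw [hb] at m4
              have hf4 : f4 1 = p - 2 := by
                have q1 : f1 1 = 2 * (j + 1) + 1 := by
                  rw [e1, tr_lt (t := 1) (by omega), hfp, hi]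
                  exact tr_succ _
                have q2 : f2 1 = 2 * (j + 1) + 1 := by
                  rw [e2, tr_lt (t := 1) (by omega), q1, tr_lt (by omega)]
                have q3 : f3 1 = 2 * (j + 1) := by
                  rw [e3, tr_lt (t := 1) (by omega), q2]
                  exact tr_succ _
                rw [e4, tr_lt (t := 1) (by omega), q3, tr_lt (by omega)]
                omega
              have hj1 : j + 1 + 1 < n + 1 := by omega
              obtain ⟨C, hC, hC2⟩ := ihp (p - 2) (by omega) (by omega) k f4 _ m4
                (by rw [LU_blk hj1]; exact h2) hf4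
              refine ⟨blk (j + 1) ++ C, inS_blk hC hj1, fun l hl => ?_⟩
              rw [oF_append, or_blk _ _ _ (by omega), hC2 _ (by rw [length_swb]; exact hl),
                or_blk _ _ _ (by rw [length_swb]; omega), swb_swb _ _ (by omega)]
          · -- odd: a twist
            obtain ⟨f1, m1, e1⟩ := mt_cross' hF (2 * i) (by omega)
            have hf1 : f1 1 = p - 1 := by
              rw [e1, tr_lt (t := 1) (by omega), hfp, hi, tr_succ]
              omega
            have hin : i < n + 1 := by omega
            obtain ⟨C, hC, hC2⟩ := ihp (p - 1) (by omega) (by omega) k f1 _ m1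
              (by rw [LU_twist hin]; exact h2) hf1
            refine ⟨(2 * i, .pos) :: C, inS_twist hC hin (Or.inl rfl), fun l hl => ?_⟩
            rw [oF_cons, or_cross _ _ (Or.inl rfl) _ _ (by omega), hC2 _ (by rw [length_swp]; exact hl),
              or_cross _ _ (Or.inl rfl) _ _ (by rw [length_swp]; omega), swp_swp]
      intro k f F hF h2
      rcases Nat.lt_or_ge (f 1) 2 with hp | hp
      · exfalso
        have a2 := hF.mat.ne 1 (by omega)
        have hf1 : f 1 = 0 := by omega
        have hf0 : f 0 = 1 := by rw [← hf1]; exact hF.mat.inv 1 (by omega)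
        have hsym : ∀ l : List Bool, l.length = 2 * n →
            F (false :: true :: l) = F (true :: false :: l) := by
          intro l hl
          rw [hF.v _ (by simp only [List.length_cons]; omega),
            hF.v _ (by simp only [List.length_cons]; omega)]
          have key : ∀ x y x' y' : Bool, x ≠ y → x' ≠ y' →
              Cmp (2 * (n + 1)) f (nth (x :: y :: l)) → Cmp (2 * (n + 1)) f (nth (x' :: y' :: l)) := by
            intro x y x' y' hxy hxy' hc j hj
            rcases j with _ | _ | j
            · rw [hf0]; exact hxy'
            · rw [hf1]; exact hxy'.symm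
            · have hinv := hF.mat.inv _ hj
              obtain ⟨s, hs⟩ : ∃ s, f (j + 1 + 1) = s + 2 := by
                have b1 : f (j + 1 + 1) ≠ 0 := by
                  intro e; rw [e, hf0] at hinv; omega
                have b2 : f (j + 1 + 1) ≠ 1 := by
                  intro e; rw [e, hf1] at hinv; omega
                exact ⟨f (j + 1 + 1) - 2, by omega⟩
              have := hc (j + 1 + 1) hj
              rw [hs] at this ⊢
              exact this
          have e : Cmp (2 * (n + 1)) f (nth (false :: true :: l)) ↔
              Cmp (2 * (n + 1)) f (nth (true :: false :: l)) :=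
            ⟨key _ _ _ _ (by decide) (by decide), key _ _ _ _ (by decide) (by decide)⟩
          simp only [e]
        have h3 : LU (n + 1) F = 2 * LU n (fun l => F (false :: true :: l)) := by
          rw [LU_succ, ← LU_smul]
          refine LU_congr fun l hl => ?_
          rw [or_act_cup_fun]
          simp only
          rw [← hsym l hl]
          ring
        have h4 : Even (LU n (fun l => F (false :: true :: l))) := by
          refine LU_even hn _ fun l hl => ?_
          have := mt_not hF (true :: false :: l) (by simp only [List.length_cons]; omega)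
          simp only [List.map_cons, Bool.not_true, Bool.not_false] at this
          rw [this, hsym l hl]
        obtain ⟨z, hz⟩ := h4
        rw [h3, hz] at h2
        omega
      · exact main (f 1) hp k f F hF h2 rfl

end Pool.Agent.Helper31.Sk
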