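import Pool.Agent.Helper31.Sk.Brk

/-! Isotopies: contexts, braids, closings of the trivial tangle which give the unknot. -/

set_option autoImplicit false

namespace Pool.Agent.Helper31.Sk

theorem iso_refl (m n : ℕ) (w : Word) : Iso m n w w := Relation.EqvGen.refl w

theorem iso_symm {m n : ℕ} {w w' : Word} (h : Iso m n w w') : Iso m n w' w :=
  Relation.EqvGen.symm _ _ h

theorem iso_trans {m n : ℕ} {w w' w'' : Word} (h : Iso m n w w') (h' : Iso m n w' w'') :
    Iso m n w w'' := Relation.EqvGen.trans _ _ _ h h'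

theorem iso_ctx {k m n p : ℕ} {w w' u v : Word} (h : Iso m n w w') (hu : Legal k u m)
    (hv : Legal n v p) : Iso k p (u ++ w ++ v) (u ++ w' ++ v) := by
  induction h with
  | rel w w' h =>
    obtain ⟨u1, x, y, v1, he, h1, h2⟩ := h
    have e1 : ∀ z : Word, u ++ (u1 ++ z ++ v1) ++ v = (u ++ u1) ++ z ++ (v1 ++ v) := by
      intro z; simp
    rw [e1 x, e1 y]
    refine Relation.EqvGen.rel _ _ ⟨u ++ u1, x, y, v1 ++ v, he, ?_, ?_⟩
    · rw [← e1]
      exact legal_append.2 ⟨n, legal_append.2 ⟨m, hu, h1⟩, hv⟩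
    · rw [← e1]
      exact legal_append.2 ⟨n, legal_append.2 ⟨m, hu, h2⟩, hv⟩
  | refl w => exact iso_refl _ _ _
  | symm w w' _ ih => exact iso_symm ih
  | trans w w' w'' _ _ ih1 ih2 => exact iso_trans ih1 ih2

theorem iso_left {k m n : ℕ} {w w' u : Word} (h : Iso m n w w') (hu : Legal k u m) :
    Iso k n (u ++ w) (u ++ w') := by
  have := iso_ctx (v := []) h hu (p := n) rfl
  simpa using this

theorem iso_right {m n p : ℕ} {w w' v : Word} (h : Iso m n w w') (hv : Legal n v p) :
    Iso m p (w ++ v) (w' ++ v) := by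
  have := iso_ctx (u := []) h (k := m) rfl hv
  simpa using this

theorem iso_elem {m n : ℕ} {x y : Word} (h : Elem x y) (h1 : Legal m x n) (h2 : Legal m y n) :
    Iso m n x y := by
  have : Step m n ([] ++ x ++ []) ([] ++ y ++ []) := ⟨[], x, y, [], h, by simpa using h1,
    by simpa using h2⟩
  exact Relation.EqvGen.rel _ _ (by simpa using this)

/-! ### cups -/

theorem cups_succ (n : ℕ) : cups (n + 1) = cups n ++ [(0, .cup)] := List.replicate_succ'

theorem legal_cups (n : ℕ) : Legal 0 (cups n) (2 * n) := by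
  induction n with
  | zero => rfl
  | succ n ih =>
    rw [cups_succ]
    refine legal_append.2 ⟨2 * n, ih, ?_⟩
    simp [Legal, Gen.src, Gen.tgt]
    omega

/-- a half twist of a cup can be removed -/
theorem cups_twist (n i : ℕ) (g : Gen) (hg : g = .pos ∨ g = .neg) (hi : i < n) :
    Iso 0 (2 * n) (cups n ++ [(2 * i, g)]) (cups n) := by
  have hs : g.src = 2 := by rcases hg with rfl | rfl <;> rfl
  have ht : g.tgt = 2 := by rcases hg with rfl | rfl <;> rfl
  induction n generalizing i with
  | zero => omega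
  | succ n ih =>
    rw [cups_succ, List.append_assoc]
    rcases i with _ | i
    · refine iso_left ?_ (legal_cups n)
      have e : ([(0, Gen.cup)] : Word) ++ [(2 * 0, g)] = [(0, .cup), (0, g)] := rfl
      rw [e]
      refine iso_elem ?_ ?_ ?_
      · rcases hg with rfl | rfl
        · exact Elem.r1cupP 0
        · exact Elem.r1cupN 0
      · simp only [Legal, hs, ht]
        simp only [Gen.src, Gen.tgt]
        omega
      · simp [Legal, Gen.src, Gen.tgt]
        omega
    · have h1 : Iso (2 * n) (2 * (n + 1)) [(0, .cup), (2 * (i + 1), g)] [(2 * i, g), (0, .cup)] := by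
        have h := Elem.comm 0 (2 * i) .cup g
        have e1 : 0 + Gen.cup.tgt + 2 * i = 2 * (i + 1) := by simp [Gen.tgt]; omega
        have e2 : 0 + Gen.cup.src + 2 * i = 2 * i := by simp [Gen.src]
        rw [e1, e2] at h
        refine iso_elem h ?_ ?_
        · simp only [Legal, hs, ht]
          simp only [Gen.src, Gen.tgt]
          omega
        · simp only [Legal, hs, ht]
          simp only [Gen.src, Gen.tgt]
          omega
      have h2 := iso_left h1 (legal_cups n)
      refine iso_trans h2 ?_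
      have e3 : cups n ++ [(2 * i, g), (0, Gen.cup)] = (cups n ++ [(2 * i, g)]) ++ [(0, .cup)] := by
        simp
      rw [e3]
      refine iso_right (ih i (by omega)) ?_
      simp [Legal, Gen.src, Gen.tgt]
      omega

/-- a cap between two neighbouring cups -/
theorem cups_cap (n i : ℕ) (hi : i < n) :
    Iso 0 (2 * n) (cups (n + 1) ++ [(2 * i + 1, .cap)]) (cups n) := by
  induction n generalizing i with
  | zero => omega
  | succ n ih =>
    rw [cups_succ (n + 1), List.append_assoc]
    rcases i with _ | i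
    · have h1 : Iso (2 * (n + 1)) (2 * (n + 1)) [(0, .cup), (0 + 1, .cap)] [] := by
        refine iso_elem (Elem.zig 0) ?_ ?_
        · simp [Legal, Gen.src, Gen.tgt]
          omega
        · simp [Legal]
      have h2 := iso_left h1 (legal_cups (n + 1))
      rw [List.append_nil] at h2
      exact h2
    · have h1 : Iso (2 * (n + 1)) (2 * (n + 1)) [(0, .cup), (2 * (i + 1) + 1, .cap)]
          [(2 * i + 1, .cap), (0, .cup)] := by
        have h := Elem.comm 0 (2 * i + 1) .cup .cap
        have e1 : 0 + Gen.cup.tgt + (2 * i + 1) = 2 * (i + 1) + 1 := by simp [Gen.tgt]; omega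
        have e2 : 0 + Gen.cup.src + (2 * i + 1) = 2 * i + 1 := by simp [Gen.src]
        rw [e1, e2] at h
        refine iso_elem h ?_ ?_
        · simp only [Legal, Gen.src, Gen.tgt]
          omega
        · simp only [Legal, Gen.src, Gen.tgt]
          omega
      have h2 := iso_left h1 (legal_cups (n + 1))
      refine iso_trans h2 ?_
      have e3 : cups (n + 1) ++ [(2 * i + 1, Gen.cap), (0, Gen.cup)] =
          (cups (n + 1) ++ [(2 * i + 1, .cap)]) ++ [(0, .cup)] := by
        simp
      rw [e3]
      have h3 := iso_right (v := [(0, .cup)]) (p := 2 * (n + 1)) (ih i (by omega)) (by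
        simp [Legal, Gen.src, Gen.tgt]
        omega)
      rw [← cups_succ n] at h3
      exact h3

/-- the closings of the `n`-cups which give the unknot -/
def InS (n : ℕ) (C : Word) : Prop := Legal (2 * n) C 0 ∧ Iso 0 0 (cups n ++ C) unknot

theorem inS_twist {n : ℕ} {C : Word} (h : InS n C) {i : ℕ} (hi : i < n) {g : Gen}
    (hg : g = .pos ∨ g = .neg) : InS n ((2 * i, g) :: C) := by
  have hs : g.src = 2 := by rcases hg with rfl | rfl <;> rfl
  have ht : g.tgt = 2 := by rcases hg with rfl | rfl <;> rfl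
  refine ⟨⟨by omega, ?_⟩, ?_⟩
  · have e : 2 * n - g.src + g.tgt = 2 * n := by omega
    rw [e]
    exact h.1
  · have h1 := iso_right (cups_twist n i g hg hi) h.1
    have e : cups n ++ (2 * i, g) :: C = cups n ++ [(2 * i, g)] ++ C := by simp
    rw [e]
    exact iso_trans h1 h.2

theorem inS_cap {n : ℕ} {C : Word} (h : InS n C) {i : ℕ} (hi : i < n) :
    InS (n + 1) ((2 * i + 1, .cap) :: C) := by
  refine ⟨⟨by simp only [Gen.src]; omega, ?_⟩, ?_⟩
  · have e : 2 * (n + 1) - Gen.cap.src + Gen.cap.tgt = 2 * n := by simp only [Gen.src, Gen.tgt]; omega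
    rw [e]
    exact h.1
  · have h1 := iso_right (cups_cap n i hi) h.1
    have e : cups (n + 1) ++ (2 * i + 1, .cap) :: C = cups (n + 1) ++ [(2 * i + 1, .cap)] ++ C := by
      simp
    rw [e]
    exact iso_trans h1 h.2

theorem inS_zero : InS 0 unknot := by
  refine ⟨by simp [unknot, Legal, Gen.src, Gen.tgt], ?_⟩
  exact iso_refl _ _ _

theorem inS_one : InS 1 [(0, .cap)] := by
  refine ⟨by simp [Legal, Gen.src, Gen.tgt], ?_⟩
  exact iso_refl _ _ _

/-! ### braids -/

/-- inverse of a braid -/
def inv (β : Word) : Word := (β.map (fun s => (s.1, s.2.flip))).reverse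

def IsBr (β : Word) : Prop := ∀ s ∈ β, s.2 = .pos ∨ s.2 = .neg

theorem inv_cons (i : ℕ) (g : Gen) (β : Word) : inv ((i, g) :: β) = inv β ++ [(i, g.flip)] := by
  simp [inv]

theorem flip_flip (g : Gen) : g.flip.flip = g := by cases g <;> rfl

theorem inv_inv (β : Word) : inv (inv β) = β := by
  have e : ((fun s : ℕ × Gen => (s.1, s.2.flip)) ∘ fun s : ℕ × Gen => (s.1, s.2.flip)) = id := by
    funext s
    simp [flip_flip]
  simp only [inv, List.map_reverse, List.reverse_reverse, List.map_map]
  rw [e, List.map_id]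

theorem isBr_inv {β : Word} (h : IsBr β) : IsBr (inv β) := by
  intro s hs
  simp only [inv, List.mem_reverse, List.mem_map] at hs
  obtain ⟨t, ht, rfl⟩ := hs
  rcases h t ht with h1 | h1
  · right; simp [h1, Gen.flip]
  · left; simp [h1, Gen.flip]

theorem isBr_cons {s : ℕ × Gen} {β : Word} (h : IsBr (s :: β)) :
    (s.2 = .pos ∨ s.2 = .neg) ∧ IsBr β :=
  ⟨h s (by simp), fun t ht => h t (by simp [ht])⟩

theorem legal_br {m n : ℕ} {β : Word} (hβ : IsBr β) (h : Legal m β n) : m = n := by
  induction β generalizing m with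
  | nil => exact h
  | cons s β ih =>
    obtain ⟨i, g⟩ := s
    obtain ⟨h1, h2⟩ := h
    obtain ⟨hg, hb⟩ := isBr_cons hβ
    have := ih hb h2
    simp only at hg
    rcases hg with rfl | rfl <;> simp only [Gen.src, Gen.tgt] at * <;> omega

theorem legal_inv {m : ℕ} {β : Word} (hβ : IsBr β) (h : Legal m β m) : Legal m (inv β) m := by
  induction β with
  | nil => rfl
  | cons s β ih =>
    obtain ⟨i, g⟩ := s
    obtain ⟨h1, h2⟩ := h
    obtain ⟨hg, hb⟩ := isBr_cons hβ
    simp only at hg
    have e : m - g.src + g.tgt = m := by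
      rcases hg with rfl | rfl <;> simp only [Gen.src, Gen.tgt] at * <;> omega
    rw [e] at h2
    rw [inv_cons]
    refine legal_append.2 ⟨m, ih hb h2, ?_⟩
    rcases hg with rfl | rfl <;> simp only [Legal, Gen.flip, Gen.src, Gen.tgt] at * <;> omega

theorem iso_inv {m : ℕ} {β : Word} (hβ : IsBr β) (h : Legal m β m) : Iso m m (β ++ inv β) [] := by
  induction β with
  | nil => exact iso_refl _ _ _
  | cons s β ih =>
    obtain ⟨i, g⟩ := s
    obtain ⟨h1, h2⟩ := h
    obtain ⟨hg, hb⟩ := isBr_cons hβ
    simp only at hg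
    have e : m - g.src + g.tgt = m := by
      rcases hg with rfl | rfl <;> simp only [Gen.src, Gen.tgt] at * <;> omega
    rw [e] at h2
    rw [inv_cons]
    have e1 : (i, g) :: β ++ (inv β ++ [(i, g.flip)]) = [(i, g)] ++ (β ++ inv β) ++ [(i, g.flip)] := by
      simp
    rw [e1]
    have l1 : Legal m [(i, g)] m := by
      simp only [Legal]
      exact ⟨h1, e⟩
    have l2 : Legal m [(i, g.flip)] m := by
      rcases hg with rfl | rfl <;> simp only [Legal, Gen.flip, Gen.src, Gen.tgt] at * <;> omega
    refine iso_trans (iso_ctx (ih hb h2) l1 l2) ?_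
    rw [List.append_nil]
    rcases hg with rfl | rfl
    · exact iso_elem (Elem.r2P i) (legal_append.2 ⟨m, l1, l2⟩) rfl
    · exact iso_elem (Elem.r2N i) (legal_append.2 ⟨m, l1, l2⟩) rfl

end Pool.Agent.Helper31.Sk
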