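import Pool.Agent.Helper31.Sk.Isot

/-! Local functionals; the functionals which are units on all closings giving the unknot. -/

set_option autoImplicit false

namespace Pool.Agent.Helper31.Sk

/-! ### exact relations -/

section rel
universe u
variable {R : Type u} [CommRing R] {a b : R}

theorem act_pos (i : ℕ) (φ : List Bool → R) (l : List Bool) (hl : i + 2 ≤ l.length) :
    act (Br a b) i .pos φ l = a * φ l - b * act (Br a b) i .cap (act (Br a b) i .cup φ) l := by
  induction i generalizing φ l with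
  | zero =>
    rcases l with _ | ⟨x, _ | ⟨y, l⟩⟩
    · simp at hl
    · simp at hl
    · cases x <;> cases y <;> simp [act0, S2, Br, Mw] <;> ring
  | succ i ih =>
    rcases l with _ | ⟨x, l⟩
    · simp at hl
    · simp only [act_succ]
      exact ih _ l (by simpa using hl)

theorem act_neg (i : ℕ) (φ : List Bool → R) (l : List Bool) (hl : i + 2 ≤ l.length) :
    act (Br a b) i .neg φ l = b * φ l - a * act (Br a b) i .cap (act (Br a b) i .cup φ) l := by
  induction i generalizing φ l with
  | zero =>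
    rcases l with _ | ⟨x, _ | ⟨y, l⟩⟩
    · simp at hl
    · simp at hl
    · cases x <;> cases y <;> simp [act0, S2, Br, Mw] <;> ring
  | succ i ih =>
    rcases l with _ | ⟨x, l⟩
    · simp at hl
    · simp only [act_succ]
      exact ih _ l (by simpa using hl)

theorem act_loop (i : ℕ) (φ : List Bool → R) (l : List Bool) (hl : i ≤ l.length) :
    act (Br a b) i .cup (act (Br a b) i .cap φ) l = (a ^ 2 + b ^ 2) * φ l := by
  induction i generalizing φ l with
  | zero => simp [act0, S2, Br, Mw]; ring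
  | succ i ih =>
    rcases l with _ | ⟨x, l⟩
    · simp at hl
    · simp only [act_succ]
      exact ih _ l (by simpa using hl)

theorem act_zig (hab : a * b = 1) (i : ℕ) (φ : List Bool → R) (l : List Bool)
    (hl : i + 1 ≤ l.length) :
    act (Br a b) i .cup (act (Br a b) (i + 1) .cap φ) l = φ l := by
  induction i generalizing φ l with
  | zero =>
    rcases l with _ | ⟨x, l⟩
    · simp at hl
    · cases x <;> simp [act0, S2, Br, Mw] <;> grind
  | succ i ih =>
    rcases l with _ | ⟨x, l⟩
    · simp at hl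
    · simp only [act_succ]
      exact ih _ l (by simpa using hl)

theorem act_zag (hab : a * b = 1) (i : ℕ) (φ : List Bool → R) (l : List Bool)
    (hl : i + 1 ≤ l.length) :
    act (Br a b) (i + 1) .cup (act (Br a b) i .cap φ) l = φ l := by
  induction i generalizing φ l with
  | zero =>
    rcases l with _ | ⟨x, l⟩
    · simp at hl
    · cases x <;> simp [act0, S2, Br, Mw] <;> grind
  | succ i ih =>
    rcases l with _ | ⟨x, l⟩
    · simp at hl
    · simp only [act_succ]
      exact ih _ l (by simpa using hl)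

theorem act_r1 (hab : a * b = 1) (i : ℕ) (φ : List Bool → R) (l : List Bool)
    (hl : i ≤ l.length) :
    act (Br a b) i .cup (act (Br a b) i .pos φ) l = -b ^ 3 * act (Br a b) i .cup φ l := by
  induction i generalizing φ l with
  | zero =>
    simp [act0, S2, Br, Mw]
    grind
  | succ i ih =>
    rcases l with _ | ⟨x, l⟩
    · simp at hl
    · simp only [act_succ]
      exact ih _ l (by simpa using hl)

end rel

/-! ### the arithmetic -/

/-- the weights -/
abbrev WW : Rule ℚ := Br 19 (1 / 19)

/-- the set of factors -/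
def Un (c : ℚ) : Prop := IsU (19 : ℚ) (1 / 19) c

abbrev dlt : ℚ := 19 ^ 2 + (1 / 19) ^ 2

theorem hab19 : (19 : ℚ) * (1 / 19) = 1 := by norm_num

instance : Fact (Nat.Prime 19) := ⟨by norm_num⟩

theorem un_zpow {c : ℚ} (h : Un c) : ∃ (s : ℕ) (k : ℤ), c = (-1) ^ s * 19 ^ (3 * k) := by
  obtain ⟨s, i, j, rfl⟩ := h
  refine ⟨s, (i : ℤ) - j, ?_⟩
  rw [mul_assoc]
  congr 1
  rw [mul_sub, zpow_sub₀ (by norm_num), one_div, inv_pow, div_eq_mul_inv]
  norm_cast

theorem un_ne {c : ℚ} (h : Un c) : c ≠ 0 := by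
  obtain ⟨s, k, rfl⟩ := un_zpow h
  positivity

theorem val_neg_one_pow (s : ℕ) : padicValRat 19 ((-1) ^ s) = 0 := by
  rcases neg_one_pow_eq_or ℚ s with h | h
  · rw [h]; simp
  · rw [h]; simp

theorem val19 : padicValRat 19 (19 : ℚ) = 1 := by
  have := padicValRat.self (p := 19) (by norm_num)
  exact_mod_cast this

theorem val_un {c : ℚ} {s : ℕ} {k : ℤ} (h : c = (-1) ^ s * 19 ^ (3 * k)) :
    padicValRat 19 c = 3 * k := by
  rw [h, padicValRat.mul (by simp) (by positivity), val_neg_one_pow,
    padicValRat.zpow, val19]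
  ring

/-- the sum of two units is zero or has a valuation divisible by three -/
theorem val_add {c d : ℚ} (hc : Un c) (hd : Un d) (h : c + d ≠ 0) :
    ∃ k : ℤ, padicValRat 19 (c + d) = 3 * k := by
  obtain ⟨s, k, hk⟩ := un_zpow hc
  obtain ⟨s', k', hk'⟩ := un_zpow hd
  have v1 := val_un hk
  have v2 := val_un hk'
  rcases lt_trichotomy k k' with h1 | h1 | h1
  · exact ⟨k, by rw [padicValRat.add_eq_of_lt h (un_ne hc) (un_ne hd) (by omega), v1]⟩
  · subst h1
    have e : c = d ∨ c + d = 0 := by
      rcases neg_one_pow_eq_or ℚ s with e1 | e1 <;> rcases neg_one_pow_eq_or ℚ s' with e2 | e2 <;>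
        rw [e1] at hk <;> rw [e2] at hk'
      · left; rw [hk, hk']
      · right; rw [hk, hk']; ring
      · right; rw [hk, hk']; ring
      · left; rw [hk, hk']
    rcases e with rfl | e
    · refine ⟨k, ?_⟩
      have e2 : c + c = 2 * c := by ring
      rw [e2, padicValRat.mul (by norm_num) (un_ne hc), v1]
      have : padicValRat 19 (2 : ℚ) = 0 := by
        have h2 : padicValNat 19 2 = 0 := padicValNat.eq_zero_of_not_dvd (by norm_num)
        have := padicValRat.of_nat (p := 19) (n := 2)
        rw [h2] at this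
        exact_mod_cast this
      rw [this, zero_add]
    · exact absurd e h
  · refine ⟨k', ?_⟩
    rw [add_comm] at h ⊢
    rw [padicValRat.add_eq_of_lt h (un_ne hd) (un_ne hc) (by omega), v2]

/-- the arithmetic of three consecutive twists -/
theorem arith {x0 x1 x2 y0 : ℚ} (h0 : ∃ c, Un c ∧ x0 = c * dlt) (h1 : ∃ c, Un c ∧ x1 = c * dlt)
    (h2 : ∃ c, Un c ∧ x2 = c * dlt) (e1 : x1 = 19 * x0 - 1 / 19 * y0)
    (e2 : x2 = 19 * x1 - 1 / 19 * (-(1 / 19) ^ 3 * y0)) : y0 = dlt * x0 := by
  obtain ⟨c0, u0, r0⟩ := h0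
  obtain ⟨c1, u1, r1⟩ := h1
  obtain ⟨c2, u2, r2⟩ := h2
  have hδ : dlt ≠ 0 := by unfold dlt; norm_num
  have un3 : Un (19 ^ 3) := ⟨0, 1, 0, by norm_num⟩
  have key : (19 ^ 3 * c2 + c1) = 19 * (19 ^ 3 * c1 + c0) := by
    have : (19 ^ 3 * c2 + c1) * dlt = 19 * (19 ^ 3 * c1 + c0) * dlt := by
      have a1 : 19 ^ 3 * x2 + x1 = 19 * (19 ^ 3 * x1 + x0) := by
        rw [e2, e1]; ring
      rw [r0, r1, r2] at a1
      linarith
    exact mul_right_cancel₀ hδ this
  have hz : 19 ^ 3 * c1 + c0 = 0 := by
    by_contra hne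
    have hne2 : 19 ^ 3 * c2 + c1 ≠ 0 := by
      rw [key]
      exact mul_ne_zero (by norm_num) hne
    obtain ⟨k, hk⟩ := val_add (isU_mul un3 u2) u1 hne2
    obtain ⟨k', hk'⟩ := val_add (isU_mul un3 u1) u0 hne
    rw [key, padicValRat.mul (by norm_num) hne, hk', val19] at hk
    omega
  have hx : x0 = -19 ^ 3 * x1 := by
    rw [r0, r1]
    have : c0 = -19 ^ 3 * c1 := by linarith
    rw [this]; ring
  have e3 : y0 = 19 * (19 * x0 - x1) := by linarith
  rw [e3]
  unfold dlt
  linarith [hx]

/-! ### local functionals -/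

/-- linear functionals which depend only on the values at the lists of length `m` -/
structure Loc (m : ℕ) (L : (List Bool → ℚ) → ℚ) : Prop where
  lin : ∀ (α β : ℚ) (φ ψ : List Bool → ℚ), L (fun l => α * φ l + β * ψ l) = α * L φ + β * L ψ
  loc : ∀ φ ψ : List Bool → ℚ, (∀ l : List Bool, l.length = m → φ l = ψ l) → L φ = L ψ

theorem Loc.smul {m : ℕ} {L : (List Bool → ℚ) → ℚ} (h : Loc m L) (α : ℚ) (φ : List Bool → ℚ) :
    L (fun l => α * φ l) = α * L φ := by
  have := h.lin α 0 φ φ
  simpa using this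

theorem Loc.sub {m : ℕ} {L L' : (List Bool → ℚ) → ℚ} (h : Loc m L) (h' : Loc m L') (c : ℚ) :
    Loc m (fun φ => L φ - c * L' φ) where
  lin α β φ ψ := by
    rw [h.lin, h'.lin]; ring
  loc φ ψ e := by
    rw [h.loc φ ψ e, h'.loc φ ψ e]

theorem Loc.act {m : ℕ} {L : (List Bool → ℚ) → ℚ} (h : Loc m L) (i : ℕ) (g : Gen)
    (hi : i + g.src ≤ m) (m' : ℕ) (hm : m' = m - g.src + g.tgt) :
    Loc m' (fun φ => L (act WW i g φ)) where
  lin α β φ ψ := by
    rw [← h.lin]
    congr 1
    funext l
    exact act_lin WW i g α β φ ψ l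
  loc φ ψ e := by
    refine h.loc _ _ fun l hl => act_congr WW i g φ ψ l (by omega) fun l' hl' => e l' (by omega)

/-- the closing as a function on the labels -/
def fC (C : Word) : List Bool → ℚ := val WW C (fun _ => 1)

theorem fC_cons (i : ℕ) (g : Gen) (C : Word) : fC ((i, g) :: C) = act WW i g (fC C) := rfl

/-- evaluation on the cups -/
def Kf (n : ℕ) (φ : List Bool → ℚ) : ℚ := val WW (cups n) φ []

theorem loc_K (n : ℕ) : Loc (2 * n) (Kf n) where
  lin α β φ ψ := val_lin WW (cups n) α β φ ψ []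
  loc φ ψ e := val_congr WW (legal_cups n) φ ψ [] rfl e

theorem K_succ (n : ℕ) (φ : List Bool → ℚ) : Kf (n + 1) φ = Kf n (act WW 0 .cup φ) := by
  unfold Kf
  rw [cups_succ, val_append]
  rfl

theorem K_even (n i : ℕ) (hi : i ≤ n) (φ : List Bool → ℚ) :
    Kf (n + 1) (act WW (2 * i) .cap φ) = dlt * Kf n φ := by
  induction n generalizing i φ with
  | zero =>
    obtain rfl : i = 0 := by omega
    rw [K_succ, ← (loc_K 0).smul]
    exact (loc_K 0).loc _ _ fun l _ => act_loop 0 φ l (by omega)
  | succ n ih =>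
    rcases i with _ | i
    · rw [K_succ, ← (loc_K (n + 1)).smul]
      exact (loc_K (n + 1)).loc _ _ fun l _ => act_loop 0 φ l (by omega)
    · have e1 : Kf (n + 1 + 1) (act WW (2 * (i + 1)) .cap φ) =
          Kf (n + 1) (act WW (2 * i) .cap (act WW 0 .cup φ)) := by
        rw [K_succ]
        refine (loc_K (n + 1)).loc _ _ fun l hl => ?_
        have h := comm_rel WW 0 (2 * i) .cup .cap φ l (by simp [Gen.src])
        have e1 : 0 + Gen.cup.tgt + 2 * i = 2 * (i + 1) := by simp [Gen.tgt]; omega
        have e2 : 0 + Gen.cup.src + 2 * i = 2 * i := by simp [Gen.src]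
        rw [e1, e2] at h
        exact h
      rw [e1, ih i (by omega), K_succ]

theorem K_odd (n i : ℕ) (hi : i < n) (φ : List Bool → ℚ) :
    Kf (n + 1) (act WW (2 * i + 1) .cap φ) = Kf n φ := by
  induction n generalizing i φ with
  | zero => omega
  | succ n ih =>
    rcases i with _ | i
    · rw [K_succ]
      exact (loc_K (n + 1)).loc _ _ fun l hl => act_zig hab19 0 φ l (by omega)
    · have e1 : Kf (n + 1 + 1) (act WW (2 * (i + 1) + 1) .cap φ) =
          Kf (n + 1) (act WW (2 * i + 1) .cap (act WW 0 .cup φ)) := by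
        rw [K_succ]
        refine (loc_K (n + 1)).loc _ _ fun l hl => ?_
        have h := comm_rel WW 0 (2 * i + 1) .cup .cap φ l (by simp [Gen.src])
        have e1 : 0 + Gen.cup.tgt + (2 * i + 1) = 2 * (i + 1) + 1 := by simp [Gen.tgt]; omega
        have e2 : 0 + Gen.cup.src + (2 * i + 1) = 2 * i + 1 := by simp [Gen.src]
        rw [e1, e2] at h
        exact h
      rw [e1, ih i (by omega), K_succ]

/-- words of caps -/
def CapOnly (V : Word) : Prop := ∀ s ∈ V, s.2 = .cap

theorem exists_capOnly (n : ℕ) : ∃ V, CapOnly V ∧ Legal (2 * n) V 0 ∧ Kf n (fC V) ≠ 0 := by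
  induction n with
  | zero => exact ⟨[], by simp [CapOnly], rfl, by simp [Kf, fC, cups]⟩
  | succ n ih =>
    obtain ⟨V, h1, h2, h3⟩ := ih
    refine ⟨(2 * 0, .cap) :: V, ?_, ⟨by simp only [Gen.src]; omega, ?_⟩, ?_⟩
    · intro s hs
      rcases List.mem_cons.1 hs with rfl | hs
      · rfl
      · exact h1 s hs
    · have e : 2 * (n + 1) - Gen.cap.src + Gen.cap.tgt = 2 * n := by
        simp only [Gen.src, Gen.tgt]; omega
      rw [e]; exact h2
    · rw [fC_cons, K_even n 0 (by omega)]
      refine mul_ne_zero ?_ h3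
      unfold dlt; norm_num

/-- the value of a functional at `E f_C`, `C` in `S(n)` -/
theorem twist_zero {n : ℕ} {L : (List Bool → ℚ) → ℚ} (hL : Loc (2 * n) L)
    (h : ∀ C, InS n C → L (fC C) = 0) {C : Word} (hC : InS n C) {i : ℕ} (hi : i < n) :
    L (act WW (2 * i) .cap (act WW (2 * i) .cup (fC C))) = 0 := by
  have h0 := h C hC
  have h1 := h _ (inS_twist hC hi (g := .pos) (Or.inl rfl))
  rw [fC_cons] at h1
  have e : L (act WW (2 * i) .pos (fC C)) = L (fun l => 19 * fC C l +
      (-(1 / 19)) * act WW (2 * i) .cap (act WW (2 * i) .cup (fC C)) l) := by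
    refine hL.loc _ _ fun l hl => ?_
    rw [act_pos (2 * i) (fC C) l (by omega)]
    ring
  rw [e, hL.lin, h0] at h1
  linarith

theorem twist_unit {n : ℕ} {L : (List Bool → ℚ) → ℚ} (hL : Loc (2 * n) L)
    (h : ∀ C, InS n C → ∃ c, Un c ∧ L (fC C) = c * dlt) {C : Word} (hC : InS n C) {i : ℕ}
    (hi : i < n) :
    L (act WW (2 * i) .cap (act WW (2 * i) .cup (fC C))) = dlt * L (fC C) := by
  have hC1 := inS_twist hC hi (g := .pos) (Or.inl rfl)
  have hC2 := inS_twist hC1 hi (g := .pos) (Or.inl rfl)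
  have e : ∀ D : Word, L (fC ((2 * i, .pos) :: D)) = 19 * L (fC D) -
      1 / 19 * L (act WW (2 * i) .cap (act WW (2 * i) .cup (fC D))) := by
    intro D
    have e : L (act WW (2 * i) .pos (fC D)) = L (fun l => 19 * fC D l +
        (-(1 / 19)) * act WW (2 * i) .cap (act WW (2 * i) .cup (fC D)) l) := by
      refine hL.loc _ _ fun l hl => ?_
      rw [act_pos (2 * i) (fC D) l (by omega)]
      ring
    rw [fC_cons, e, hL.lin]
    ring
  have e2 : L (act WW (2 * i) .cap (act WW (2 * i) .cup (fC ((2 * i, .pos) :: C)))) =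
      -(1 / 19) ^ 3 * L (act WW (2 * i) .cap (act WW (2 * i) .cup (fC C))) := by
    rw [← hL.smul]
    refine hL.loc _ _ fun l hl => ?_
    rw [← act_smul]
    refine act_congr WW _ _ _ _ l (by simp only [Gen.src]; omega) fun l' hl' => ?_
    simp only [Gen.src, Gen.tgt] at hl'
    rw [fC_cons]
    exact act_r1 hab19 (2 * i) (fC C) l' (by omega)
  have x1 := e C
  have x2 := e ((2 * i, .pos) :: C)
  rw [e2] at x2
  exact arith (h C hC) (h _ hC1) (h _ hC2) x1 x2

/-- an odd neighbour of `2 i` -/
theorem nbr {n i : ℕ} (hi : i < n + 1) (hn : 1 ≤ n) : ∃ k < n, 2 * k + 1 = 2 * i + 1 ∨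
    2 * k + 1 + 1 = 2 * i := by
  rcases Nat.lt_or_ge i n with h | h
  · exact ⟨i, h, Or.inl rfl⟩
  · exact ⟨i - 1, by omega, Or.inr (by omega)⟩

theorem cup_nbr {i j : ℕ} (h : j = i + 1 ∨ j + 1 = i) (φ : List Bool → ℚ) (l : List Bool)
    (hl : i ≤ l.length) (hl2 : j ≤ l.length) : act WW i .cup (act WW j .cap φ) l = φ l := by
  rcases h with rfl | rfl
  · exact act_zig hab19 i φ l hl2
  · exact act_zag hab19 j φ l hl

theorem legal_capOnly_cons {m j : ℕ} {g : Gen} {V : Word} (hV : CapOnly ((j, g) :: V))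
    (h : Legal m ((j, g) :: V) 0) : g = .cap ∧ CapOnly V ∧ j + 2 ≤ m ∧ Legal (m - 2) V 0 := by
  have hg : g = .cap := hV (j, g) (by simp)
  subst hg
  obtain ⟨h1, h2⟩ := h
  exact ⟨rfl, fun s hs => hV s (by simp [hs]), h1, by simpa [Gen.src, Gen.tgt] using h2⟩

/-- the closings in `S(n)` span all closings by caps -/
theorem span (n : ℕ) : ∀ L : (List Bool → ℚ) → ℚ, Loc (2 * n) L →
    (∀ C, InS n C → L (fC C) = 0) → ∀ V, CapOnly V → Legal (2 * n) V 0 → L (fC V) = 0 := by
  induction n with
  | zero =>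
    intro L hL h V hV hV2
    rcases V with _ | ⟨⟨j, g⟩, V⟩
    · have h1 := h _ inS_zero
      have e : L (fC unknot) = dlt * L (fC []) := by
        rw [← hL.smul]
        refine hL.loc _ _ fun l hl => ?_
        exact act_loop 0 _ l (by omega)
      rw [e] at h1
      rcases mul_eq_zero.1 h1 with h2 | h2
      · exfalso
        unfold dlt at h2
        norm_num at h2
      · exact h2
    · obtain ⟨_, _, h1, _⟩ := legal_capOnly_cons hV hV2
      omega
  | succ n ih =>
    intro L hL h V hV hV2
    rcases V with _ | ⟨⟨j, g⟩, V⟩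
    · simp only [Legal] at hV2
      omega
    obtain ⟨rfl, hV', h1, hV3⟩ := legal_capOnly_cons hV hV2
    have e0 : 2 * (n + 1) - 2 = 2 * n := by omega
    rw [e0] at hV3
    have hL' : Loc (2 * n) (fun φ => L (act WW j .cap φ)) :=
      hL.act j .cap (by simp only [Gen.src]; omega) (2 * n) (by simp only [Gen.src, Gen.tgt]; omega)
    rw [fC_cons]
    rcases Nat.even_or_odd' j with ⟨i, rfl | rfl⟩
    · rcases Nat.eq_zero_or_pos n with rfl | hn
      · -- one strand
        rcases V with _ | ⟨⟨j, g⟩, V⟩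
        · obtain rfl : i = 0 := by omega
          exact h _ inS_one
        · obtain ⟨_, _, h1, _⟩ := legal_capOnly_cons hV' hV3
          omega
      · refine ih _ hL' (fun C hC => ?_) V hV' hV3
        obtain ⟨k, hk, hki⟩ := nbr (n := n) (i := i) (by omega) hn
        have h2 := twist_zero hL h (inS_cap hC hk) (i := i) (by omega)
        rw [← h2]
        refine hL.loc _ _ fun l hl => ?_
        refine act_congr WW _ _ _ _ l (by simp only [Gen.src]; omega) fun l' hl' => ?_
        simp only [Gen.src, Gen.tgt] at hl'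
        rw [fC_cons]
        exact (cup_nbr (by omega) (fC C) l' (by omega) (by omega)).symm
    · refine ih _ hL' (fun C hC => ?_) V hV' hV3
      exact h _ (inS_cap hC (by omega))

/-- a functional with unit values on `S(n)` is a unit times the evaluation on the cups -/
theorem mainL (n : ℕ) : ∀ L : (List Bool → ℚ) → ℚ, Loc (2 * n) L →
    (∀ C, InS n C → ∃ c, Un c ∧ L (fC C) = c * dlt) →
    ∃ c, Un c ∧ ∀ V, CapOnly V → Legal (2 * n) V 0 → L (fC V) = c * Kf n (fC V) := by
  have hδ : dlt ≠ 0 := by unfold dlt; norm_num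
  induction n with
  | zero =>
    intro L hL h
    obtain ⟨c, hc, h1⟩ := h _ inS_zero
    refine ⟨c, hc, fun V hV hV2 => ?_⟩
    rcases V with _ | ⟨⟨j, g⟩, V⟩
    · have e : L (fC unknot) = dlt * L (fC []) := by
        rw [← hL.smul]
        refine hL.loc _ _ fun l hl => ?_
        exact act_loop 0 _ l (by omega)
      rw [e] at h1
      have h2 : L (fC []) = c := by
        have : dlt * L (fC []) = dlt * c := by rw [h1]; ring
        exact mul_left_cancel₀ hδ this
      rw [h2]
      simp [Kf, fC, cups]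
    · obtain ⟨_, _, h1, _⟩ := legal_capOnly_cons hV hV2
      omega
  | succ n ih =>
    intro L hL h
    rcases Nat.eq_zero_or_pos n with rfl | hn
    · obtain ⟨c, hc, h1⟩ := h _ inS_one
      refine ⟨c, hc, fun V hV hV2 => ?_⟩
      rcases V with _ | ⟨⟨j, g⟩, V⟩
      · simp only [Legal] at hV2
        omega
      obtain ⟨rfl, hV', h2, hV3⟩ := legal_capOnly_cons hV hV2
      rcases V with _ | ⟨⟨j', g⟩, V⟩
      · obtain rfl : j = 0 := by omega
        rw [h1, fC_cons]
        have := K_even 0 0 le_rfl (fC [])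
        rw [show 2 * 0 = 0 from rfl] at this
        rw [this]
        simp [Kf, fC, cups]
      · obtain ⟨_, _, h1, _⟩ := legal_capOnly_cons hV' hV3
        omega
    · -- odd positions
      have hLo : ∀ j, j + 2 ≤ 2 * (n + 1) → Loc (2 * n) (fun φ => L (act WW j .cap φ)) := fun j hj =>
        hL.act j .cap (by simp only [Gen.src]; omega) (2 * n)
          (by simp only [Gen.src, Gen.tgt]; omega)
      have hodd : ∀ i < n, ∃ c, Un c ∧ ∀ V, CapOnly V → Legal (2 * n) V 0 →
          L (act WW (2 * i + 1) .cap (fC V)) = c * Kf n (fC V) := by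
        intro i hi
        exact ih _ (hLo _ (by omega)) fun C hC => h _ (inS_cap hC hi)
      -- even positions
      have heven : ∀ i k, i < n + 1 → k < n → (2 * k + 1 = 2 * i + 1 ∨ 2 * k + 1 + 1 = 2 * i) →
          ∀ V, CapOnly V → Legal (2 * n) V 0 →
          L (act WW (2 * i) .cap (fC V)) = dlt * L (act WW (2 * k + 1) .cap (fC V)) := by
        intro i k hi hk hik V hV hV2
        have h1 := span n (fun φ => L (act WW (2 * i) .cap φ) - dlt * L (act WW (2 * k + 1) .cap φ))
          ((hLo _ (by omega)).sub (hLo _ (by omega)) dlt) (fun C hC => ?_) V hV hV2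
        · linarith
        · have h2 := twist_unit hL h (inS_cap hC hk) hi
          rw [fC_cons] at h2
          rw [← h2]
          have e : L (act WW (2 * i) .cap (fC C)) = L (act WW (2 * i) .cap
              (act WW (2 * i) .cup (act WW (2 * k + 1) .cap (fC C)))) := by
            refine hL.loc _ _ fun l hl => ?_
            refine act_congr WW _ _ _ _ l (by simp only [Gen.src]; omega) fun l' hl' => ?_
            simp only [Gen.src, Gen.tgt] at hl'
            exact (cup_nbr (by omega) (fC C) l' (by omega) (by omega)).symm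
          rw [e]
          ring
      obtain ⟨c, hc, h0⟩ := hodd 0 hn
      have hall : ∀ i < n, ∀ V, CapOnly V → Legal (2 * n) V 0 →
          L (act WW (2 * i + 1) .cap (fC V)) = c * Kf n (fC V) := by
        intro i
        induction i with
        | zero => intro _ V hV hV2; exact h0 V hV hV2
        | succ i ihi =>
          intro hi V hV hV2
          obtain ⟨d, hd, h1⟩ := hodd (i + 1) hi
          have h2 := ihi (by omega)
          obtain ⟨V0, a1, a2, a3⟩ := exists_capOnly n
          have e1 := heven (i + 1) i (by omega) (by omega) (Or.inr (by omega)) V0 a1 a2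
          have e2 := heven (i + 1) (i + 1) (by omega) (by omega) (Or.inl rfl) V0 a1 a2
          rw [e1, h2 V0 a1 a2, h1 V0 a1 a2] at e2
          have e3 : c = d := mul_right_cancel₀ a3 (mul_left_cancel₀ hδ e2)
          rw [e3]
          exact h1 V hV hV2
      refine ⟨c, hc, fun V hV hV2 => ?_⟩
      rcases V with _ | ⟨⟨j, g⟩, V⟩
      · simp only [Legal] at hV2
        omega
      obtain ⟨rfl, hV', h1, hV3⟩ := legal_capOnly_cons hV hV2
      have e0 : 2 * (n + 1) - 2 = 2 * n := by omega
      rw [e0] at hV3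
      rw [fC_cons]
      rcases Nat.even_or_odd' j with ⟨i, rfl | rfl⟩
      · obtain ⟨k, hk, hki⟩ := nbr (n := n) (i := i) (by omega) hn
        rw [heven i k (by omega) hk (by omega) V hV' hV3, hall k hk V hV' hV3,
          K_even n i (by omega)]
        ring
      · rw [hall i (by omega) V hV' hV3, K_odd n i (by omega)]

end Pool.Agent.Helper31.Sk
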