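import Pool.Agent.Helper31.Sk.Nonv

/-! Prime divisors of the brackets of torus knots, and the main theorem. -/

set_option autoImplicit false

namespace Pool.Agent.Helper31.Sk

/-! ### arithmetic -/

theorem primes (A : ℕ) (hA : 2 ≤ A) (P : Finset ℕ) : ∃ k : ℕ, 1 ≤ k ∧ ∃ ℓ : ℕ, ℓ.Prime ∧ ℓ ∉ P ∧
    (ℓ : ℤ) ∣ (A : ℤ) ^ (2 * k) * (A ^ 2 + A + 1) - 1 ∧
    ¬ (ℓ : ℤ) ∣ (A : ℤ) ^ (2 * k + 2) - (A ^ 2 + A + 1) := by
  by_contra hcon
  push Not at hcon
  set G : ℕ := (A ^ 2 + 1) * (A + 1) ^ 2 with hG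
  set e : ℕ := A ^ 2 + A with he
  set P'' : Finset ℕ := (P ∪ G.primeFactors).filter (fun ℓ => ℓ.Prime ∧ ¬ ℓ ∣ A) with hP
  set m : ℕ := ∏ ℓ ∈ P'', ℓ ^ e with hm
  have hm0 : 0 < m := Finset.prod_pos fun ℓ hℓ => by
    have := (Finset.mem_filter.1 hℓ).2.1.pos
    positivity
  have hcop : Nat.Coprime A m := by
    refine Nat.Coprime.prod_right fun ℓ hℓ => ?_
    obtain ⟨_, h1, h2⟩ := Finset.mem_filter.1 hℓ
    exact Nat.Coprime.pow_right _ ((Nat.Prime.coprime_iff_not_dvd h1).2 h2).symm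
  have hφ : 0 < Nat.totient m := Nat.totient_pos.2 hm0
  set k : ℕ := Nat.totient m * m with hk
  have hk1 : 1 ≤ k := Nat.mul_pos hφ hm0
  have hAk : m < A ^ (2 * k) := by
    calc m < 2 ^ m := Nat.lt_two_pow_self
      _ ≤ A ^ m := Nat.pow_le_pow_left hA m
      _ ≤ A ^ (2 * k) := Nat.pow_le_pow_right (by omega) (by
        calc m ≤ Nat.totient m * m := Nat.le_mul_of_pos_left m hφ
          _ ≤ 2 * k := by omega)
  have hmod : A ^ (2 * k) ≡ 1 [MOD m] := by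
    have h1 := Nat.ModEq.pow_totient hcop
    have e1 : A ^ (2 * k) = (A ^ Nat.totient m) ^ (2 * m) := by
      rw [← pow_mul]; congr 1; rw [hk]; ring
    rw [e1]
    have := h1.pow (2 * m)
    rwa [one_pow] at this
  have hpos : 1 ≤ A ^ (2 * k) * (A ^ 2 + A + 1) := Nat.mul_pos (by positivity) (by positivity)
  obtain ⟨N, hN⟩ : ∃ N : ℕ, N + 1 = A ^ (2 * k) * (A ^ 2 + A + 1) := ⟨_, Nat.sub_add_cancel hpos⟩
  have hNm : m < N := by
    have : A ^ (2 * k) * 2 ≤ A ^ (2 * k) * (A ^ 2 + A + 1) := Nat.mul_le_mul_left _ (by nlinarith)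
    omega
  have hNz : ((A : ℤ) ^ (2 * k) * (A ^ 2 + A + 1) - 1) = (N : ℤ) := by
    have : ((N + 1 : ℕ) : ℤ) = ((A ^ (2 * k) * (A ^ 2 + A + 1) : ℕ) : ℤ) := by rw [hN]
    push_cast at this
    linarith
  -- the primes dividing `N`
  have hpr : ∀ ℓ : ℕ, ℓ.Prime → ℓ ∣ N → ℓ ∈ P'' := by
    intro ℓ hℓ hdvd
    have hA' : ¬ ℓ ∣ A := by
      intro h
      have h1 : ℓ ∣ N + 1 := by
        rw [hN]
        exact Dvd.dvd.mul_right (dvd_pow h (by omega)) _
      have h2 : ℓ ∣ 1 := (Nat.dvd_add_right hdvd).1 h1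
      exact hℓ.one_lt.ne' (Nat.dvd_one.1 h2)
    refine Finset.mem_filter.2 ⟨?_, hℓ, hA'⟩
    rw [Finset.mem_union]
    by_cases hPl : ℓ ∈ P
    · exact Or.inl hPl
    · right
      have h1 : (ℓ : ℤ) ∣ (A : ℤ) ^ (2 * k) * (A ^ 2 + A + 1) - 1 := by
        rw [hNz]; exact_mod_cast hdvd
      have h2 := hcon k hk1 ℓ hℓ hPl h1
      have h3 : (ℓ : ℤ) ∣ ((A : ℤ) ^ 2 + 1) * (A + 1) ^ 2 := by
        have e1 : ((A : ℤ) ^ 2 + 1) * (A + 1) ^ 2 =
            (A : ℤ) ^ 2 * ((A : ℤ) ^ (2 * k) * (A ^ 2 + A + 1) - 1) -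
              ((A : ℤ) ^ 2 + A + 1) * ((A : ℤ) ^ (2 * k + 2) - (A ^ 2 + A + 1)) := by
          rw [pow_add]; ring
        rw [e1]
        exact dvd_sub (Dvd.dvd.mul_left h1 _) (Dvd.dvd.mul_left h2 _)
      have h4 : ℓ ∣ G := by
        rw [hG]
        exact_mod_cast h3
      exact Nat.mem_primeFactors.2 ⟨hℓ, h4, by rw [hG]; positivity⟩
  -- `N` divides `m`
  have hdvd : N ∣ m := by
    have hN0 : N ≠ 0 := by omega
    rw [← Nat.factorization_le_iff_dvd hN0 hm0.ne']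
    intro ℓ
    by_cases hℓ : ℓ.Prime
    · by_cases hd : ℓ ∣ N
      · have hmem := hpr ℓ hℓ hd
        have h1 : ℓ ^ e ∣ m := Finset.dvd_prod_of_mem (fun ℓ => ℓ ^ e) hmem
        have h2 : e ≤ m.factorization ℓ := (hℓ.pow_dvd_iff_le_factorization hm0.ne').1 h1
        have h3 : ¬ ℓ ^ e ∣ N := by
          intro h
          have h4 : N + 1 ≡ A ^ 2 + A + 1 [MOD ℓ ^ e] := by
            rw [hN]
            have h5 : A ^ (2 * k) ≡ 1 [MOD ℓ ^ e] := hmod.of_dvd h1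
            have := h5.mul_right (A ^ 2 + A + 1)
            rwa [one_mul] at this
          have h5 : N ≡ A ^ 2 + A [MOD ℓ ^ e] := Nat.ModEq.add_right_cancel' 1 h4
          have h6 : ℓ ^ e ∣ A ^ 2 + A := (h5.dvd_iff (dvd_refl _)).1 h
          have h7 : ℓ ^ e ≤ A ^ 2 + A := Nat.le_of_dvd (by positivity) h6
          have h8 : e < 2 ^ e := Nat.lt_two_pow_self
          have h9 : 2 ^ e ≤ ℓ ^ e := Nat.pow_le_pow_left hℓ.two_le e
          omega
        have h4 : ¬ e ≤ N.factorization ℓ := by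
          rw [← hℓ.pow_dvd_iff_le_factorization hN0]; exact h3
        omega
      · rw [Nat.factorization_eq_zero_of_not_dvd hd]
        exact Nat.zero_le _
    · rw [Nat.factorization_eq_zero_of_not_prime _ hℓ]
      exact Nat.zero_le _
  have := Nat.le_of_dvd hm0 hdvd
  omega

/-! ### units outside a finite set of primes -/

def UP (P : Finset ℕ) (c : ℚ) : Prop :=
  c ≠ 0 ∧ ∀ ℓ : ℕ, ℓ.Prime → ℓ ∉ P → padicValRat ℓ c = 0

theorem up_mul {P : Finset ℕ} {c d : ℚ} (hc : UP P c) (hd : UP P d) : UP P (c * d) := by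
  refine ⟨mul_ne_zero hc.1 hd.1, fun ℓ hℓ hP => ?_⟩
  have : Fact ℓ.Prime := ⟨hℓ⟩
  rw [padicValRat.mul hc.1 hd.1, hc.2 ℓ hℓ hP, hd.2 ℓ hℓ hP, add_zero]

theorem up_inv {P : Finset ℕ} {c : ℚ} (hc : UP P c) : ∃ d, UP P d ∧ c * d = 1 := by
  refine ⟨c⁻¹, ⟨inv_ne_zero hc.1, fun ℓ hℓ hP => ?_⟩, mul_inv_cancel₀ hc.1⟩
  have : Fact ℓ.Prime := ⟨hℓ⟩
  rw [padicValRat.inv, hc.2 ℓ hℓ hP, neg_zero]

theorem val_other {ℓ : ℕ} (hℓ : ℓ.Prime) (h19 : ℓ ≠ 19) : padicValRat ℓ (19 : ℚ) = 0 := by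
  have : Fact ℓ.Prime := ⟨hℓ⟩
  have h2 : padicValNat ℓ 19 = 0 := padicValNat.eq_zero_of_not_dvd fun h =>
    h19 ((Nat.prime_dvd_prime_iff_eq hℓ (by norm_num)).1 h)
  have := padicValRat.of_nat (p := ℓ) (n := 19)
  rw [h2] at this
  exact_mod_cast this

theorem val_neg_one_pow' {ℓ : ℕ} (s : ℕ) : padicValRat ℓ ((-1) ^ s) = 0 := by
  rcases neg_one_pow_eq_or ℚ s with h | h
  · rw [h]; simp
  · rw [h]; simp

theorem up_un {P : Finset ℕ} (hP : 19 ∈ P) {c : ℚ} (hc : Un c) : UP P c := by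
  refine ⟨un_ne hc, fun ℓ hℓ hl => ?_⟩
  have : Fact ℓ.Prime := ⟨hℓ⟩
  obtain ⟨s, k, rfl⟩ := un_zpow hc
  have h19 : ℓ ≠ 19 := fun h => hl (h ▸ hP)
  rw [padicValRat.mul (by simp) (by positivity), val_neg_one_pow', padicValRat.zpow,
    val_other hℓ h19]
  ring

theorem val_inv_pow {ℓ : ℕ} (hℓ : ℓ.Prime) (h19 : ℓ ≠ 19) (j : ℕ) :
    padicValRat ℓ ((1 / 19 : ℚ) ^ j) = 0 := by
  have : Fact ℓ.Prime := ⟨hℓ⟩
  rw [one_div, inv_pow, padicValRat.inv, ← zpow_natCast, padicValRat.zpow, val_other hℓ h19]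
  ring

/-- ratio of brackets of equivalent diagrams -/
theorem equ_ratio {M : Set (ℕ × Word × Word)} {P : Finset ℕ} (hP : 19 ∈ P)
    (hM : ∀ w w', IsKnot w → IsKnot w' → Applies M w w' → ∃ c, UP P c ∧ brv w' = c * brv w)
    {w w' : Word} (h : Equ M w w') : ∃ c, UP P c ∧ brv w' = c * brv w := by
  induction h with
  | rel w w' h =>
    obtain ⟨hw, hw', h | h⟩ := h
    · obtain ⟨c, hc, h1⟩ := brv_iso h
      obtain ⟨d, hd, e⟩ := un_inv hc
      refine ⟨d, up_un hP hd, ?_⟩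
      rw [h1, ← mul_assoc, mul_comm d c, e, one_mul]
    · exact hM w w' hw hw' h
  | refl w => exact ⟨1, up_un hP un_one, by rw [one_mul]⟩
  | symm w w' _ ih =>
    obtain ⟨c, hc, h1⟩ := ih
    obtain ⟨d, hd, e⟩ := up_inv hc
    refine ⟨d, hd, ?_⟩
    rw [h1, ← mul_assoc, mul_comm d c, e, one_mul]
  | trans w w' w'' _ _ ih1 ih2 =>
    obtain ⟨c, hc, h1⟩ := ih1
    obtain ⟨d, hd, h2⟩ := ih2
    exact ⟨d * c, up_mul hd hc, by rw [h2, h1, mul_assoc]⟩

/-- proportional tangles in a context -/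
theorem ratio_ctx {n : ℕ} {S T u v : Word} {a : ℕ} {c : ℚ} (hS : Legal 0 S n) (hT : Legal 0 T n)
    (h1 : ∀ φ : List Bool → ℚ, val WW T φ [] = c * val WW S φ [])
    (hw : Legal 0 (u ++ shift a S ++ v) 0) (hw' : Legal 0 (u ++ shift a T ++ v) 0) :
    brv (u ++ shift a T ++ v) = c * brv (u ++ shift a S ++ v) := by
  rw [List.append_assoc] at hw hw'
  obtain ⟨k, hk, g1⟩ := legal_append.1 hw
  obtain ⟨k', hk', g2⟩ := legal_append.1 hw'
  obtain rfl := legal_unique hk hk'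
  by_cases hak : a ≤ k
  · unfold brv fC
    rw [List.append_assoc, List.append_assoc, val_append, val_append, val_append, val_append,
      ← val_smul]
    refine val_congr WW hk _ _ [] rfl fun l hl => ?_
    exact context hS hT c h1 a _ l (by omega)
  · have emp : ∀ (U : Word) (j : ℕ), Legal 0 U n → Legal k (shift a U ++ v) j → U = [] := by
      intro U j hU hU2
      rcases U with _ | ⟨⟨i, g⟩, U⟩
      · rfl
      · exfalso
        have b1 := hU.1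
        have b2 : i + a + g.src ≤ k := hU2.1
        omega
    have eS := emp S 0 hS g1
    have eT := emp T 0 hT g2
    subst eS
    subst eT
    have h2 := h1 (fun _ => 1)
    simp only [val_nil, mul_one] at h2
    rw [← h2, one_mul]

/-- A move has a trivial side and turns knots into knots. -/
def Good1 (m : ℕ × Word × Word) : Prop :=
  (Triv m.1 m.2.1 ∨ Triv m.1 m.2.2) ∧
    ∀ (u v : Word) (a : ℕ), IsKnot (u ++ shift a m.2.1 ++ v) ↔ IsKnot (u ++ shift a m.2.2 ++ v)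

/-- a tangle without ends is a scalar -/
theorem zero_string {S : Word} (hS : Legal 0 S 0) (φ : List Bool → ℚ) :
    val WW S φ [] = brv S * val WW [] φ [] := by
  have h1 : val WW S φ [] = val WW S (fun _ => φ [] * 1) [] :=
    val_congr WW hS _ _ [] rfl fun l hl => by
      rw [List.length_eq_zero_iff.1 hl, mul_one]
  rw [h1, val_smul, mul_comm]
  rfl

/-- the scalar of a tangle with at most two ends -/
def sca (n : ℕ) (S : Word) : ℚ := if n = 1 then sc S else brv S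

theorem few_strings {n : ℕ} (hn : n ≤ 1) {S : Word} (hS : Legal 0 S (2 * n)) (φ : List Bool → ℚ) :
    val WW S φ [] = sca n S * val WW (cups n) φ [] := by
  rcases Nat.lt_or_ge n 1 with h | h
  · obtain rfl : n = 0 := by omega
    exact zero_string hS φ
  · obtain rfl : n = 1 := by omega
    exact one_string hS φ

theorem legal_diff (W : Word) : ∀ (p q k j a : ℕ), Legal p W q → Legal k (shift a W) j → p ≤ k →
    j = k + q - p ∧ q ≤ j := by
  induction W with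
  | nil =>
    intro p q k j a h1 h2 h3
    simp only [shift, List.map_nil, Legal] at h1 h2
    omega
  | cons s W ih =>
    intro p q k j a h1 h2 h3
    obtain ⟨i, g⟩ := s
    obtain ⟨h4, h5⟩ := h1
    have h6 : Legal (k - g.src + g.tgt) (shift a W) j := h2.2
    have h7 := ih _ _ _ _ _ h5 h6 (by omega)
    omega

theorem leg_few {n : ℕ} (hn : n ≤ 1) {S u v : Word} {a : ℕ} (hS : Legal 0 S (2 * n))
    (hw : Legal 0 (u ++ shift a S ++ v) 0) : Legal 0 (u ++ shift a (cups n) ++ v) 0 := by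
  rw [List.append_assoc] at hw
  obtain ⟨k, hk, g1⟩ := legal_append.1 hw
  obtain ⟨j, hj, g2⟩ := legal_append.1 g1
  have hd := (legal_diff S 0 (2 * n) k j a hS hj (Nat.zero_le _)).1
  rw [List.append_assoc]
  refine legal_append.2 ⟨k, hk, legal_append.2 ⟨j, ?_, g2⟩⟩
  rcases Nat.lt_or_ge n 1 with h | h
  · obtain rfl : n = 0 := by omega
    simp only [cups, List.replicate_zero, shift, List.map_nil, Legal]
    omega
  · obtain rfl : n = 1 := by omega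
    rcases S with _ | ⟨⟨i, g⟩, S⟩
    · simp [Legal] at hS
    · have c1 := hS.1
      have c2 : i + a + g.src ≤ k := hj.1
      simp only [cups, List.replicate_one, shift, List.map_cons, List.map_nil, Legal, Gen.src,
        Gen.tgt]
      omega

/-- **Main theorem.** -/
theorem main {X : Type} (I : Word → X)
    (hdet : ∀ w, IsKnot w → I w = I unknot → Iso 0 0 w unknot)
    (hmir : ∀ w, IsKnot w → I (mir w) = I w)
    (M : Set (ℕ × Word × Word))
    (hM1 : ∀ m ∈ M, Legal 0 m.2.1 (2 * m.1) ∧ Legal 0 m.2.2 (2 * m.1))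
    (hM2 : ∀ m ∈ M, Good1 m ∨ m.1 ≤ 1) (hM3 : {m ∈ M | ¬ Good1 m}.Finite) :
    ¬ Generates M I := by
  intro hgen
  classical
  set κ : ℕ × Word × Word → ℚ := fun m => sca m.1 m.2.2 / sca m.1 m.2.1 with hκ
  set P : Finset ℕ := insert 19 (hM3.toFinset.biUnion fun m =>
    (κ m).num.natAbs.primeFactors ∪ (κ m).den.primeFactors) with hP
  have h19 : 19 ∈ P := Finset.mem_insert_self _ _
  -- equality of `I` for related diagrams
  have hI : ∀ w w', IsKnot w → IsKnot w' → (Iso 0 0 w w' ∨ Applies M w w') → I w = I w' :=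
    fun w w' hw hw' h => (hgen w w' hw hw').2 (Relation.EqvGen.rel _ _ ⟨hw, hw', h⟩)
  have hM : ∀ w w', IsKnot w → IsKnot w' → Applies M w w' → ∃ c, UP P c ∧ brv w' = c * brv w := by
    intro w w' hw hw' h
    obtain ⟨n, S, T, u, v, a, hm, rfl, rfl⟩ := h
    obtain ⟨hS, hT⟩ := hM1 _ hm
    simp only at hS hT
    by_cases hg : Good1 (n, S, T)
    · obtain ⟨htriv, hkn⟩ := hg
      simp only at htriv hkn
      have hkn0 : ∀ v, IsKnot (S ++ v) ↔ IsKnot (T ++ v) := by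
        intro v
        have := hkn [] v 0
        simpa [shift_zero] using this
      have happ : ∀ v, Applies M (S ++ v) (T ++ v) := by
        intro v
        exact ⟨n, S, T, [], v, 0, hm, by simp [shift_zero], by simp [shift_zero]⟩
      rcases htriv with htriv | htriv
      · obtain ⟨c, hc, h1⟩ := key hT hS htriv (fun v _ hiso => by
          have k1 : IsKnot (S ++ v) := (iso_isKnot hiso).2 isKnot_unknot
          have k2 : IsKnot (T ++ v) := (hkn0 v).1 k1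
          refine hdet _ k2 ?_
          rw [← hI _ _ k1 k2 (Or.inr (happ v))]
          exact hI _ _ k1 isKnot_unknot (Or.inl hiso))
        exact ⟨c, up_un h19 hc, ratio_ctx hS hT h1 hw.1 hw'.1⟩
      · obtain ⟨c, hc, h1⟩ := key hS hT htriv (fun v _ hiso => by
          have k1 : IsKnot (T ++ v) := (iso_isKnot hiso).2 isKnot_unknot
          have k2 : IsKnot (S ++ v) := (hkn0 v).2 k1
          refine hdet _ k2 ?_
          rw [hI _ _ k2 k1 (Or.inr (happ v))]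
          exact hI _ _ k1 isKnot_unknot (Or.inl hiso))
        obtain ⟨d, hd, e⟩ := un_inv hc
        refine ⟨d, up_un h19 hd, ?_⟩
        have h2 := ratio_ctx hT hS h1 hw'.1 hw.1
        rw [h2, ← mul_assoc, mul_comm d c, e, one_mul]
    · have hn : n ≤ 1 := (hM2 _ hm).resolve_left hg
      have b1 := brv_ne hw
      have b2 := brv_ne hw'
      have hleg := leg_few hn hS hw.1
      have r1 := ratio_ctx (legal_cups n) hS (c := sca n S) (fun φ => few_strings hn hS φ) hleg hw.1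
      have r2 := ratio_ctx (legal_cups n) hT (c := sca n T) (fun φ => few_strings hn hT φ) hleg hw'.1
      have s1 : sca n S ≠ 0 := fun h => b1 (by rw [r1, h, zero_mul])
      have s2 : sca n T ≠ 0 := fun h => b2 (by rw [r2, h, zero_mul])
      refine ⟨κ (n, S, T), ⟨div_ne_zero s2 s1, fun ℓ hℓ hl => ?_⟩, ?_⟩
      · have hmem : (n, S, T) ∈ hM3.toFinset := by
          rw [Set.Finite.mem_toFinset]
          exact ⟨hm, hg⟩
        have hnot : ℓ ∉ (κ (n, S, T)).num.natAbs.primeFactors ∧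
            ℓ ∉ (κ (n, S, T)).den.primeFactors := by
          have h3 : ℓ ∉ hM3.toFinset.biUnion fun m =>
              (κ m).num.natAbs.primeFactors ∪ (κ m).den.primeFactors := fun h =>
            hl (Finset.mem_insert_of_mem h)
          rw [Finset.mem_biUnion] at h3
          push Not at h3
          have := h3 _ hmem
          rw [Finset.mem_union] at this
          tauto
        have hκ0 : κ (n, S, T) ≠ 0 := div_ne_zero s2 s1
        have n1 : ¬ ℓ ∣ (κ (n, S, T)).num.natAbs := fun h => hnot.1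
          (Nat.mem_primeFactors.2 ⟨hℓ, h, by simpa using hκ0⟩)
        have n2 : ¬ ℓ ∣ (κ (n, S, T)).den := fun h => hnot.2
          (Nat.mem_primeFactors.2 ⟨hℓ, h, (κ (n, S, T)).den_nz⟩)
        rw [padicValRat, padicValInt, padicValNat.eq_zero_of_not_dvd n1,
          padicValNat.eq_zero_of_not_dvd n2]
        simp
      · rw [r2, r1]
        simp only [hκ]
        field_simp
  -- the torus knots
  obtain ⟨k, hk, ℓ, hℓ, hℓP, d1, d2⟩ := primes (19 ^ 4) (by norm_num) P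
  have hodd : Odd (2 * k + 1) := odd_two_mul_add_one k
  have hK := isKnot_tor hodd
  have hK' : IsKnot (mir (tor (2 * k + 1))) := mir_isKnot.2 hK
  have hE := (hgen _ _ hK' hK).1 (hmir _ hK)
  obtain ⟨c, hc, h1⟩ := equ_ratio h19 hM hE
  rw [mir_tor, tor, (tor_vals _).1, (mtor_vals _).1] at h1
  have hfact : Fact ℓ.Prime := ⟨hℓ⟩
  have hℓ19 : ℓ ≠ 19 := fun h => hℓP (h ▸ h19)
  -- `N` and `D`
  set N : ℤ := (((19 ^ 4 : ℕ) : ℤ)) ^ (2 * k) * (((19 ^ 4 : ℕ) : ℤ) ^ 2 + ((19 ^ 4 : ℕ) : ℤ) + 1) - 1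
    with hN
  set D : ℤ := (((19 ^ 4 : ℕ) : ℤ)) ^ (2 * k + 2) - (((19 ^ 4 : ℕ) : ℤ) ^ 2 + ((19 ^ 4 : ℕ) : ℤ) + 1)
    with hD
  have hA : ((19 ^ 4 : ℕ) : ℚ) = (19 : ℚ) ^ 4 := by norm_num
  have hNq : (N : ℚ) = ((19 : ℚ) ^ 4) ^ (2 * k) * (((19 : ℚ) ^ 4) ^ 2 + (19 : ℚ) ^ 4 + 1) - 1 := by
    have : ∀ A : ℕ, (((A : ℤ) ^ (2 * k) * ((A : ℤ) ^ 2 + (A : ℤ) + 1) - 1 : ℤ) : ℚ) =
        (A : ℚ) ^ (2 * k) * ((A : ℚ) ^ 2 + (A : ℚ) + 1) - 1 := by
      intro A; push_cast; ring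
    rw [hN, this, hA]
  have hDq : (D : ℚ) = ((19 : ℚ) ^ 4) ^ (2 * k + 2) - (((19 : ℚ) ^ 4) ^ 2 + (19 : ℚ) ^ 4 + 1) := by
    have : ∀ A : ℕ, (((A : ℤ) ^ (2 * k + 2) - ((A : ℤ) ^ 2 + (A : ℤ) + 1) : ℤ) : ℚ) =
        (A : ℚ) ^ (2 * k + 2) - ((A : ℚ) ^ 2 + (A : ℚ) + 1) := by
      intro A; push_cast; ring
    rw [hD, this, hA]
  have x1 : (19 : ℚ) ^ (2 * k + 1) * (dlt ^ 2 - 1) + (-(1 / 19) ^ 3) ^ (2 * k + 1) =
      (1 / 19) ^ (3 * (2 * k + 1)) * (N : ℚ) := by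
    rw [hNq]
    have e1 : (-(1 / 19 : ℚ) ^ 3) ^ (2 * k + 1) = -(1 / 19) ^ (3 * (2 * k + 1)) := by
      rw [Odd.neg_pow hodd, ← pow_mul]
    have e2 : ((19 : ℚ) ^ 4) ^ (2 * k) = 19 ^ (3 * (2 * k + 1)) * 19 ^ (2 * k + 1) / 19 ^ 4 := by
      rw [← pow_mul, ← pow_add, eq_div_iff (by norm_num), ← pow_add]
      congr 1
      ring
    have e3 : (1 / 19 : ℚ) ^ (3 * (2 * k + 1)) * 19 ^ (3 * (2 * k + 1)) = 1 := by
      rw [← mul_pow]; norm_num
    have e4 : (dlt ^ 2 - 1 : ℚ) = ((19 ^ 4) ^ 2 + 19 ^ 4 + 1) / 19 ^ 4 := by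
      unfold dlt; norm_num
    rw [e1, e2, e4]
    have e5 : (1 / 19 : ℚ) ^ (3 * (2 * k + 1)) * (19 ^ (3 * (2 * k + 1)) * 19 ^ (2 * k + 1) / 19 ^ 4 *
        ((19 ^ 4) ^ 2 + 19 ^ 4 + 1) - 1) =
        ((1 / 19 : ℚ) ^ (3 * (2 * k + 1)) * 19 ^ (3 * (2 * k + 1))) * 19 ^ (2 * k + 1) *
          (((19 ^ 4) ^ 2 + 19 ^ 4 + 1) / 19 ^ 4) - (1 / 19) ^ (3 * (2 * k + 1)) := by
      ring
    rw [e5, e3]
    ring
  have x2 : (1 / 19 : ℚ) ^ (2 * k + 1) * (dlt ^ 2 - 1) + (-19 ^ 3) ^ (2 * k + 1) =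
      -((1 / 19) ^ (2 * k + 5) * (D : ℚ)) := by
    rw [hDq]
    have e1 : (-(19 : ℚ) ^ 3) ^ (2 * k + 1) = -19 ^ (3 * (2 * k + 1)) := by
      rw [Odd.neg_pow hodd, ← pow_mul]
    have e2 : ((19 : ℚ) ^ 4) ^ (2 * k + 2) = 19 ^ (3 * (2 * k + 1)) * 19 ^ (2 * k + 5) := by
      rw [← pow_mul, ← pow_add]
      congr 1
      ring
    have e3 : (1 / 19 : ℚ) ^ (2 * k + 5) * 19 ^ (2 * k + 5) = 1 := by
      rw [← mul_pow]; norm_num
    have e4 : (dlt ^ 2 - 1 : ℚ) = ((19 ^ 4) ^ 2 + 19 ^ 4 + 1) / 19 ^ 4 := by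
      unfold dlt; norm_num
    have e6 : (1 / 19 : ℚ) ^ (2 * k + 5) = (1 / 19) ^ (2 * k + 1) * (1 / 19 ^ 4) := by
      rw [show 2 * k + 5 = (2 * k + 1) + 4 by ring, pow_add]
      norm_num
    have e7 : (1 / 19 : ℚ) ^ (2 * k + 5) * (((19 : ℚ) ^ 4) ^ (2 * k + 2) -
        ((19 ^ 4) ^ 2 + 19 ^ 4 + 1)) =
        ((1 / 19 : ℚ) ^ (2 * k + 5) * 19 ^ (2 * k + 5)) * 19 ^ (3 * (2 * k + 1)) -
          (1 / 19) ^ (2 * k + 5) * ((19 ^ 4) ^ 2 + 19 ^ 4 + 1) := by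
      rw [e2]; ring
    rw [e7, e3, e1, e4, e6]
    ring
  rw [x1, x2] at h1
  have hD0 : D ≠ 0 := fun h => d2 (by rw [h]; exact dvd_zero _)
  have hN0 : N ≠ 0 := by
    intro h
    -- the bracket of the torus knot does not vanish
    have h4 := brv_ne hK
    rw [tor, (tor_vals _).1, x1, h] at h4
    simp at h4
  have v1 : padicValRat ℓ ((1 / 19 : ℚ) ^ (3 * (2 * k + 1)) * (N : ℚ)) = padicValRat ℓ (N : ℚ) := by
    rw [padicValRat.mul (by positivity) (by exact_mod_cast hN0), val_inv_pow hℓ hℓ19, zero_add]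
  have v2 : padicValRat ℓ (-((1 / 19 : ℚ) ^ (2 * k + 5) * (D : ℚ))) = padicValRat ℓ (D : ℚ) := by
    rw [padicValRat.neg, padicValRat.mul (by positivity) (by exact_mod_cast hD0),
      val_inv_pow hℓ hℓ19, zero_add]
  have v3 : padicValRat ℓ (D : ℚ) = 0 := by
    rw [padicValRat.of_int, padicValInt.eq_zero_of_not_dvd d2]
    rfl
  have v4 : 1 ≤ padicValRat ℓ (N : ℚ) := by
    rw [padicValRat.of_int]
    have : 1 ≤ padicValInt ℓ N :=
      one_le_padicValNat_of_dvd (by simpa using hN0) (Int.natCast_dvd.1 d1)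
    exact_mod_cast this
  have hne : ((1 / 19 : ℚ) ^ (2 * k + 5) * (D : ℚ)) ≠ 0 :=
    mul_ne_zero (by positivity) (by exact_mod_cast hD0)
  have hval := congrArg (padicValRat ℓ) h1
  rw [padicValRat.mul hc.1 (neg_ne_zero.2 hne), v2, v3, hc.2 ℓ hℓ hℓP, v1] at hval
  omega

end Pool.Agent.Helper31.Sk
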