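import Pool.Agent.Helper31.Sk.Xcl

/-! The main theorem for moves with a trivial side, without the hypothesis that the moves turn knots
into knots. -/

set_option autoImplicit false

namespace Pool.Agent.Helper31.Sk

/-- One of the two sides of the move is a trivial tangle. -/
def TrivMove (m : ℕ × Word × Word) : Prop := Triv m.1 m.2.1 ∨ Triv m.1 m.2.2

/-- **Main theorem.** -/
theorem main2 {X : Type} (I : Word → X)
    (hdet : ∀ w, IsKnot w → I w = I unknot → Iso 0 0 w unknot)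
    (hmir : ∀ w, IsKnot w → I (mir w) = I w)
    (M : Set (ℕ × Word × Word))
    (hM1 : ∀ m ∈ M, Legal 0 m.2.1 (2 * m.1) ∧ Legal 0 m.2.2 (2 * m.1))
    (hM2 : ∀ m ∈ M, TrivMove m ∨ m.1 ≤ 1) (hM3 : {m ∈ M | ¬ TrivMove m}.Finite) :
    ¬ Generates M I := by
  intro hgen
  classical
  set κ : ℕ × Word × Word → ℚ := fun m => sca m.1 m.2.2 / sca m.1 m.2.1 with hκ
  set P : Finset ℕ := insert 19 (hM3.toFinset.biUnion fun m =>
    (κ m).num.natAbs.primeFactors ∪ (κ m).den.primeFactors) with hP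
  have h19 : 19 ∈ P := Finset.mem_insert_self _ _
  -- equality of `I` for related diagrams
  have hI : ∀ w w', IsKnot w → IsKnot w' → (Iso 0 0 w w' ∨ Applies M w w') → I w = I w' :=
    fun w w' hw hw' h => (hgen w w' hw hw').2 (Relation.EqvGen.rel _ _ ⟨hw, hw', h⟩)
  have hM : ∀ w w', IsKnot w → IsKnot w' → Applies M w w' → ∃ c, UP P c ∧ brv w' = c * brv w := by
    intro w w' hw hw' h
    obtain ⟨n, S, T, u, v, a, hm, rfl, rfl⟩ := h
    obtain ⟨hS, hT⟩ := hM1 _ hm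
    simp only at hS hT
    by_cases hg : TrivMove (n, S, T)
    · have htriv : Triv n S ∨ Triv n T := hg
      have happ : ∀ v, Applies M (S ++ v) (T ++ v) := by
        intro v
        exact ⟨n, S, T, [], v, 0, hm, by simp [shift_zero], by simp [shift_zero]⟩
      rcases htriv with htriv | htriv
      · obtain ⟨c, hc, h1⟩ := triv_case hT hS htriv (fun v _ hiso k2 => by
          have k1 : IsKnot (S ++ v) := (iso_isKnot hiso).2 isKnot_unknot
          refine hdet _ k2 ?_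
          rw [← hI _ _ k1 k2 (Or.inr (happ v))]
          exact hI _ _ k1 isKnot_unknot (Or.inl hiso)) hw hw'
        exact ⟨c, up_un h19 hc, ratio_ctx hS hT h1 hw.1 hw'.1⟩
      · obtain ⟨c, hc, h1⟩ := triv_case hS hT htriv (fun v _ hiso k2 => by
          have k1 : IsKnot (T ++ v) := (iso_isKnot hiso).2 isKnot_unknot
          refine hdet _ k2 ?_
          rw [hI _ _ k2 k1 (Or.inr (happ v))]
          exact hI _ _ k1 isKnot_unknot (Or.inl hiso)) hw' hw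
        obtain ⟨d, hd, e⟩ := un_inv hc
        refine ⟨d, up_un h19 hd, ?_⟩
        have h2 := ratio_ctx hT hS h1 hw'.1 hw.1
        rw [h2, ← mul_assoc, mul_comm d c, e, one_mul]
    · have hn : n ≤ 1 := (hM2 _ hm).resolve_left hg
      have b1 := brv_ne hw
      have b2 := brv_ne hw'
      have hleg := leg_few hn hS hw.1
      have r1 := ratio_ctx (legal_cups n) hS (c := sca n S) (fun φ => few_strings hn hS φ) hleg hw.1
      have r2 := ratio_ctx (legal_cups n) hT (c := sca n T) (fun φ => few_strings hn hT φ) hleg hw'.1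
      have s1 : sca n S ≠ 0 := fun h => b1 (by rw [r1, h, zero_mul])
      have s2 : sca n T ≠ 0 := fun h => b2 (by rw [r2, h, zero_mul])
      refine ⟨κ (n, S, T), ⟨div_ne_zero s2 s1, fun ℓ hℓ hl => ?_⟩, ?_⟩
      · have hmem : (n, S, T) ∈ hM3.toFinset := by
          rw [Set.Finite.mem_toFinset]
          exact ⟨hm, hg⟩
        have hnot : ℓ ∉ (κ (n, S, T)).num.natAbs.primeFactors ∧
            ℓ ∉ (κ (n, S, T)).den.primeFactors := by
          have h3 : ℓ ∉ hM3.toFinset.biUnion fun m =>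
              (κ m).num.natAbs.primeFactors ∪ (κ m).den.primeFactors := fun h =>
            hl (Finset.mem_insert_of_mem h)
          rw [Finset.mem_biUnion] at h3
          push Not at h3
          have := h3 _ hmem
          rw [Finset.mem_union] at this
          tauto
        have hκ0 : κ (n, S, T) ≠ 0 := div_ne_zero s2 s1
        have n1 : ¬ ℓ ∣ (κ (n, S, T)).num.natAbs := fun h => hnot.1
          (Nat.mem_primeFactors.2 ⟨hℓ, h, by simpa using hκ0⟩)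
        have n2 : ¬ ℓ ∣ (κ (n, S, T)).den := fun h => hnot.2
          (Nat.mem_primeFactors.2 ⟨hℓ, h, (κ (n, S, T)).den_nz⟩)
        rw [padicValRat, padicValInt, padicValNat.eq_zero_of_not_dvd n1,
          padicValNat.eq_zero_of_not_dvd n2]
        simp
      · rw [r2, r1]
        simp only [hκ]
        field_simp
  -- the torus knots
  obtain ⟨k, hk, ℓ, hℓ, hℓP, d1, d2⟩ := primes (19 ^ 4) (by norm_num) P
  have hodd : Odd (2 * k + 1) := odd_two_mul_add_one k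
  have hK := isKnot_tor hodd
  have hK' : IsKnot (mir (tor (2 * k + 1))) := mir_isKnot.2 hK
  have hE := (hgen _ _ hK' hK).1 (hmir _ hK)
  obtain ⟨c, hc, h1⟩ := equ_ratio h19 hM hE
  rw [mir_tor, tor, (tor_vals _).1, (mtor_vals _).1] at h1
  have hfact : Fact ℓ.Prime := ⟨hℓ⟩
  have hℓ19 : ℓ ≠ 19 := fun h => hℓP (h ▸ h19)
  -- `N` and `D`
  set N : ℤ := (((19 ^ 4 : ℕ) : ℤ)) ^ (2 * k) * (((19 ^ 4 : ℕ) : ℤ) ^ 2 + ((19 ^ 4 : ℕ) : ℤ) + 1) - 1
    with hN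
  set D : ℤ := (((19 ^ 4 : ℕ) : ℤ)) ^ (2 * k + 2) - (((19 ^ 4 : ℕ) : ℤ) ^ 2 + ((19 ^ 4 : ℕ) : ℤ) + 1)
    with hD
  have hA : ((19 ^ 4 : ℕ) : ℚ) = (19 : ℚ) ^ 4 := by norm_num
  have hNq : (N : ℚ) = ((19 : ℚ) ^ 4) ^ (2 * k) * (((19 : ℚ) ^ 4) ^ 2 + (19 : ℚ) ^ 4 + 1) - 1 := by
    have : ∀ A : ℕ, (((A : ℤ) ^ (2 * k) * ((A : ℤ) ^ 2 + (A : ℤ) + 1) - 1 : ℤ) : ℚ) =
        (A : ℚ) ^ (2 * k) * ((A : ℚ) ^ 2 + (A : ℚ) + 1) - 1 := by
      intro A; push_cast; ring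
    rw [hN, this, hA]
  have hDq : (D : ℚ) = ((19 : ℚ) ^ 4) ^ (2 * k + 2) - (((19 : ℚ) ^ 4) ^ 2 + (19 : ℚ) ^ 4 + 1) := by
    have : ∀ A : ℕ, (((A : ℤ) ^ (2 * k + 2) - ((A : ℤ) ^ 2 + (A : ℤ) + 1) : ℤ) : ℚ) =
        (A : ℚ) ^ (2 * k + 2) - ((A : ℚ) ^ 2 + (A : ℚ) + 1) := by
      intro A; push_cast; ring
    rw [hD, this, hA]
  have x1 : (19 : ℚ) ^ (2 * k + 1) * (dlt ^ 2 - 1) + (-(1 / 19) ^ 3) ^ (2 * k + 1) =
      (1 / 19) ^ (3 * (2 * k + 1)) * (N : ℚ) := by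
    rw [hNq]
    have e1 : (-(1 / 19 : ℚ) ^ 3) ^ (2 * k + 1) = -(1 / 19) ^ (3 * (2 * k + 1)) := by
      rw [Odd.neg_pow hodd, ← pow_mul]
    have e2 : ((19 : ℚ) ^ 4) ^ (2 * k) = 19 ^ (3 * (2 * k + 1)) * 19 ^ (2 * k + 1) / 19 ^ 4 := by
      rw [← pow_mul, ← pow_add, eq_div_iff (by norm_num), ← pow_add]
      congr 1
      ring
    have e3 : (1 / 19 : ℚ) ^ (3 * (2 * k + 1)) * 19 ^ (3 * (2 * k + 1)) = 1 := by
      rw [← mul_pow]; norm_num
    have e4 : (dlt ^ 2 - 1 : ℚ) = ((19 ^ 4) ^ 2 + 19 ^ 4 + 1) / 19 ^ 4 := by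
      unfold dlt; norm_num
    rw [e1, e2, e4]
    have e5 : (1 / 19 : ℚ) ^ (3 * (2 * k + 1)) * (19 ^ (3 * (2 * k + 1)) * 19 ^ (2 * k + 1) / 19 ^ 4 *
        ((19 ^ 4) ^ 2 + 19 ^ 4 + 1) - 1) =
        ((1 / 19 : ℚ) ^ (3 * (2 * k + 1)) * 19 ^ (3 * (2 * k + 1))) * 19 ^ (2 * k + 1) *
          (((19 ^ 4) ^ 2 + 19 ^ 4 + 1) / 19 ^ 4) - (1 / 19) ^ (3 * (2 * k + 1)) := by
      ring
    rw [e5, e3]
    ring
  have x2 : (1 / 19 : ℚ) ^ (2 * k + 1) * (dlt ^ 2 - 1) + (-19 ^ 3) ^ (2 * k + 1) =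
      -((1 / 19) ^ (2 * k + 5) * (D : ℚ)) := by
    rw [hDq]
    have e1 : (-(19 : ℚ) ^ 3) ^ (2 * k + 1) = -19 ^ (3 * (2 * k + 1)) := by
      rw [Odd.neg_pow hodd, ← pow_mul]
    have e2 : ((19 : ℚ) ^ 4) ^ (2 * k + 2) = 19 ^ (3 * (2 * k + 1)) * 19 ^ (2 * k + 5) := by
      rw [← pow_mul, ← pow_add]
      congr 1
      ring
    have e3 : (1 / 19 : ℚ) ^ (2 * k + 5) * 19 ^ (2 * k + 5) = 1 := by
      rw [← mul_pow]; norm_num
    have e4 : (dlt ^ 2 - 1 : ℚ) = ((19 ^ 4) ^ 2 + 19 ^ 4 + 1) / 19 ^ 4 := by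
      unfold dlt; norm_num
    have e6 : (1 / 19 : ℚ) ^ (2 * k + 5) = (1 / 19) ^ (2 * k + 1) * (1 / 19 ^ 4) := by
      rw [show 2 * k + 5 = (2 * k + 1) + 4 by ring, pow_add]
      norm_num
    have e7 : (1 / 19 : ℚ) ^ (2 * k + 5) * (((19 : ℚ) ^ 4) ^ (2 * k + 2) -
        ((19 ^ 4) ^ 2 + 19 ^ 4 + 1)) =
        ((1 / 19 : ℚ) ^ (2 * k + 5) * 19 ^ (2 * k + 5)) * 19 ^ (3 * (2 * k + 1)) -
          (1 / 19) ^ (2 * k + 5) * ((19 ^ 4) ^ 2 + 19 ^ 4 + 1) := by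
      rw [e2]; ring
    rw [e7, e3, e1, e4, e6]
    ring
  rw [x1, x2] at h1
  have hD0 : D ≠ 0 := fun h => d2 (by rw [h]; exact dvd_zero _)
  have hN0 : N ≠ 0 := by
    intro h
    -- the bracket of the torus knot does not vanish
    have h4 := brv_ne hK
    rw [tor, (tor_vals _).1, x1, h] at h4
    simp at h4
  have v1 : padicValRat ℓ ((1 / 19 : ℚ) ^ (3 * (2 * k + 1)) * (N : ℚ)) = padicValRat ℓ (N : ℚ) := by
    rw [padicValRat.mul (by positivity) (by exact_mod_cast hN0), val_inv_pow hℓ hℓ19, zero_add]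
  have v2 : padicValRat ℓ (-((1 / 19 : ℚ) ^ (2 * k + 5) * (D : ℚ))) = padicValRat ℓ (D : ℚ) := by
    rw [padicValRat.neg, padicValRat.mul (by positivity) (by exact_mod_cast hD0),
      val_inv_pow hℓ hℓ19, zero_add]
  have v3 : padicValRat ℓ (D : ℚ) = 0 := by
    rw [padicValRat.of_int, padicValInt.eq_zero_of_not_dvd d2]
    rfl
  have v4 : 1 ≤ padicValRat ℓ (N : ℚ) := by
    rw [padicValRat.of_int]
    have : 1 ≤ padicValInt ℓ N :=
      one_le_padicValNat_of_dvd (by simpa using hN0) (Int.natCast_dvd.1 d1)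
    exact_mod_cast this
  have hne : ((1 / 19 : ℚ) ^ (2 * k + 5) * (D : ℚ)) ≠ 0 :=
    mul_ne_zero (by positivity) (by exact_mod_cast hD0)
  have hval := congrArg (padicValRat ℓ) h1
  rw [padicValRat.mul hc.1 (neg_ne_zero.2 hne), v2, v3, hc.2 ℓ hℓ hℓP, v1] at hval
  omega

end Pool.Agent.Helper31.Sk
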