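import Pool.Agent.Helper31.Sk.Nonv

/-! The orientation functor and matchings. -/

set_option autoImplicit false

namespace Pool.Agent.Helper31.Sk

/-- exchange of the entries `i`, `i + 1` -/
def swp : ℕ → List Bool → List Bool
  | 0, x :: y :: l => y :: x :: l
  | i + 1, x :: l => x :: swp i l
  | _, l => l

/-- removal of the entries `i`, `i + 1` -/
def del : ℕ → List Bool → List Bool
  | 0, _ :: _ :: l => l
  | i + 1, x :: l => x :: del i l
  | _, l => l

/-- insertion of two entries -/
def ins : ℕ → Bool → Bool → List Bool → List Bool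
  | 0, a, b, l => a :: b :: l
  | i + 1, a, b, x :: l => x :: ins i a b l
  | _ + 1, _, _, [] => []

def nth (l : List Bool) (j : ℕ) : Bool := l.getD j false

@[simp] theorem nth_zero (x : Bool) (l : List Bool) : nth (x :: l) 0 = x := rfl
@[simp] theorem nth_succ (x : Bool) (l : List Bool) (j : ℕ) : nth (x :: l) (j + 1) = nth l j := rfl

theorem length_swp (i : ℕ) (l : List Bool) : (swp i l).length = l.length := by
  induction i generalizing l with
  | zero =>
    rcases l with _ | ⟨x, _ | ⟨y, l⟩⟩ <;> simp [swp]
  | succ i ih =>
    rcases l with _ | ⟨x, l⟩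
    · simp [swp]
    · simp [swp, ih]

theorem nth_swp (i : ℕ) (l : List Bool) (h : i + 2 ≤ l.length) (j : ℕ) :
    nth (swp i l) j = nth l (if j = i then i + 1 else if j = i + 1 then i else j) := by
  induction i generalizing l j with
  | zero =>
    rcases l with _ | ⟨x, _ | ⟨y, l⟩⟩
    · simp at h
    · simp at h
    · rcases j with _ | _ | j <;> simp [swp]
  | succ i ih =>
    rcases l with _ | ⟨x, l⟩
    · simp at h
    · rcases j with _ | j
      · simp [swp]
      · simp only [swp, nth_succ]
        rw [ih l (by simpa using h) j]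
        by_cases h1 : j = i
        · simp [h1]
        · by_cases h2 : j = i + 1
          · subst h2
            simp
          · simp [h1, h2]

theorem length_del (i : ℕ) (l : List Bool) (h : i + 2 ≤ l.length) :
    (del i l).length = l.length - 2 := by
  induction i generalizing l with
  | zero =>
    rcases l with _ | ⟨x, _ | ⟨y, l⟩⟩
    · simp at h
    · simp at h
    · simp [del]
  | succ i ih =>
    rcases l with _ | ⟨x, l⟩
    · simp at h
    · simp only [List.length_cons] at h
      simp only [del, List.length_cons]
      rw [ih l (by omega)]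
      omega

theorem nth_del (i : ℕ) (l : List Bool) (h : i + 2 ≤ l.length) (j : ℕ) :
    nth (del i l) j = nth l (if j < i then j else j + 2) := by
  induction i generalizing l j with
  | zero =>
    rcases l with _ | ⟨x, _ | ⟨y, l⟩⟩
    · simp at h
    · simp at h
    · simp [del]
  | succ i ih =>
    rcases l with _ | ⟨x, l⟩
    · simp at h
    · rcases j with _ | j
      · simp [del]
      · simp only [del, nth_succ]
        rw [ih l (by simpa using h) j]
        by_cases h1 : j < i
        · simp [h1]
        · simp [h1]

theorem length_ins (i : ℕ) (a b : Bool) (l : List Bool) (h : i ≤ l.length) :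
    (ins i a b l).length = l.length + 2 := by
  induction i generalizing l with
  | zero => simp [ins]
  | succ i ih =>
    rcases l with _ | ⟨x, l⟩
    · simp at h
    · simp only [List.length_cons] at h
      simp only [ins, List.length_cons]
      rw [ih l (by omega)]

theorem nth_ins (i : ℕ) (a b : Bool) (l : List Bool) (h : i ≤ l.length) (j : ℕ) :
    nth (ins i a b l) j =
      if j < i then nth l j else if j = i then a else if j = i + 1 then b else nth l (j - 2) := by
  induction i generalizing l j with
  | zero =>
    rcases j with _ | _ | j <;> simp [ins]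
  | succ i ih =>
    rcases l with _ | ⟨x, l⟩
    · simp at h
    · rcases j with _ | j
      · simp [ins]
      · simp only [ins, nth_succ]
        rw [ih l (by simpa using h) j]
        by_cases h1 : j < i
        · simp [h1]
        · by_cases h2 : j = i
          · simp [h2]
          · by_cases h3 : j = i + 1
            · simp [h3]
            · have e : j + 1 - 2 = (j - 2) + 1 := by omega
              simp only [h1, h2, h3, if_false, Nat.add_lt_add_iff_right, Nat.add_right_cancel_iff]
              rw [e, nth_succ]

/-! ### the orientation functor -/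

section
universe u
variable {R : Type u} [CommRing R]

theorem or_cross (i : ℕ) (g : Gen) (hg : g = .pos ∨ g = .neg) (φ : List Bool → R) (l : List Bool)
    (h : i + 2 ≤ l.length) : act (Or R) i g φ l = φ (swp i l) := by
  induction i generalizing φ l with
  | zero =>
    rcases l with _ | ⟨x, _ | ⟨y, l⟩⟩
    · simp at h
    · simp at h
    · rcases hg with rfl | rfl <;> cases x <;> cases y <;> simp [act0, S2, Or, swp]
  | succ i ih =>
    rcases l with _ | ⟨x, l⟩
    · simp at h
    · simp only [act_succ, swp]
      exact ih _ l (by simpa using h)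

theorem or_cap (i : ℕ) (φ : List Bool → R) (l : List Bool) (h : i + 2 ≤ l.length) :
    act (Or R) i .cap φ l = if nth l i = nth l (i + 1) then 0 else φ (del i l) := by
  induction i generalizing φ l with
  | zero =>
    rcases l with _ | ⟨x, _ | ⟨y, l⟩⟩
    · simp at h
    · simp at h
    · by_cases hxy : x = y <;> simp [act0, Or, del, hxy]
  | succ i ih =>
    rcases l with _ | ⟨x, l⟩
    · simp at h
    · simp only [act_succ, del, nth_succ]
      exact ih _ l (by simpa using h)

theorem or_cup (i : ℕ) (φ : List Bool → R) (l : List Bool) (h : i ≤ l.length) :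
    act (Or R) i .cup φ l = φ (ins i false true l) + φ (ins i true false l) := by
  induction i generalizing φ l with
  | zero => simp [act0, S2, Or, ins]
  | succ i ih =>
    rcases l with _ | ⟨x, l⟩
    · simp at h
    · simp only [act_succ, ins]
      exact ih _ l (by simpa using h)

end

/-! ### matchings -/

/-- a labelling is compatible with the matching `f` of the points `< m` -/
def Cmp (m : ℕ) (f : ℕ → ℕ) (X : ℕ → Bool) : Prop := ∀ j < m, X j ≠ X (f j)

/-- a perfect matching of the points `< m` -/
structure Inv (m : ℕ) (f : ℕ → ℕ) : Prop where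
  lt : ∀ j < m, f j < m
  ne : ∀ j < m, f j ≠ j
  inv : ∀ j < m, f (f j) = j

open Classical in
/-- the tensor of a matching -/
structure Mt (m k : ℕ) (f : ℕ → ℕ) (F : List Bool → ℤ) : Prop where
  mat : Inv m f
  v : ∀ l : List Bool, l.length = m → F l = if Cmp m f (nth l) then 2 ^ k else 0

theorem Mt.congr {m k : ℕ} {f : ℕ → ℕ} {F F' : List Bool → ℤ} (h : Mt m k f F)
    (h' : ∀ l : List Bool, l.length = m → F' l = F l) : Mt m k f F' :=
  ⟨h.mat, fun l hl => by rw [h' l hl, h.v l hl]⟩

theorem mt_cross {m k : ℕ} {f : ℕ → ℕ} {F : List Bool → ℤ} (h : Mt m k f F) (i : ℕ) (g : Gen)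
    (hg : g = .pos ∨ g = .neg) (hi : i + 2 ≤ m) :
    ∃ f', Mt m k f' (act (Or ℤ) i g F) ∧ ∀ j, f' j = 
      (fun t => if t = i then i + 1 else if t = i + 1 then i else t)
        (f (if j = i then i + 1 else if j = i + 1 then i else j)) := by
  classical
  set τ : ℕ → ℕ := fun t => if t = i then i + 1 else if t = i + 1 then i else t with hτ
  have ττ : ∀ t, τ (τ t) = t := by
    intro t
    simp only [hτ]
    split_ifs <;> omega
  have τlt : ∀ t < m, τ t < m := by
    intro t ht
    simp only [hτ]
    split_ifs <;> omega
  refine ⟨fun j => τ (f (τ j)), ⟨⟨?_, ?_, ?_⟩, ?_⟩, fun j => rfl⟩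
  · intro j hj
    exact τlt _ (h.mat.lt _ (τlt _ hj))
  · intro j hj e
    have := h.mat.ne _ (τlt _ hj)
    apply this
    rw [← ττ (f (τ j)), e]
  · intro j hj
    show τ (f (τ (τ (f (τ j))))) = j
    rw [ττ, h.mat.inv _ (τlt _ hj), ττ]
  · intro l hl
    rw [or_cross i g hg F l (by omega), h.v _ (by rw [length_swp, hl])]
    have e : Cmp m f (nth (swp i l)) ↔ Cmp m (fun j => τ (f (τ j))) (nth l) := by
      have hn : ∀ j, nth (swp i l) j = nth l (τ j) := nth_swp i l (by omega)
      constructor
      · intro hc j hj
        have := hc (τ j) (τlt _ hj)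
        rw [hn, hn, ττ] at this
        exact this
      · intro hc j hj
        have := hc (τ j) (τlt _ hj)
        rw [hn, hn]
        simp only [ττ] at this
        exact this
    simp only [e]

theorem mt_cap {m k : ℕ} {f : ℕ → ℕ} {F : List Bool → ℤ} (h : Mt m k f F) (i : ℕ) (hi : i ≤ m) :
    ∃ f', Mt (m + 2) k f' (act (Or ℤ) i .cap F) := by
  classical
  set s : ℕ → ℕ := fun t => if t < i then t else t + 2 with hs
  set f' : ℕ → ℕ := fun j => if j = i then i + 1 else if j = i + 1 then i else
    if j < i then s (f j) else s (f (j - 2)) with hf'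
  have f1 : f' i = i + 1 := by simp [hf']
  have f2 : f' (i + 1) = i := by simp [hf']
  have f3 : ∀ t, f' (s t) = s (f t) := by
    intro t
    simp only [hf', hs]
    by_cases h1 : t < i
    · have e1 : ¬ t = i := by omega
      have e2 : ¬ t = i + 1 := by omega
      simp [h1, e1, e2]
    · have e1 : ¬ t + 2 = i := by omega
      have e2 : ¬ t + 2 = i + 1 := by omega
      have e3 : ¬ t + 2 < i := by omega
      simp only [h1, e1, e2, e3, if_false]
      rfl
  have hcase : ∀ j < m + 2, j = i ∨ j = i + 1 ∨ ∃ t < m, j = s t := by
    intro j hj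
    by_cases h1 : j < i
    · right; right
      exact ⟨j, by omega, by simp [hs, h1]⟩
    · by_cases h2 : j = i
      · exact Or.inl h2
      · by_cases h3 : j = i + 1
        · exact Or.inr (Or.inl h3)
        · right; right
          refine ⟨j - 2, by omega, ?_⟩
          have : ¬ j - 2 < i := by omega
          simp only [hs, this, if_false]
          omega
  have slt : ∀ t < m, s t < m + 2 := by
    intro t ht
    simp only [hs]
    split_ifs <;> omega
  have sne : ∀ t, s t ≠ i ∧ s t ≠ i + 1 := by
    intro t
    simp only [hs]
    split_ifs <;> omega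
  have sinj : ∀ t t', s t = s t' → t = t' := by
    intro t t'
    simp only [hs]
    split_ifs <;> omega
  refine ⟨f', ⟨⟨?_, ?_, ?_⟩, ?_⟩⟩
  · intro j hj
    rcases hcase j hj with rfl | rfl | ⟨t, ht, rfl⟩
    · rw [f1]; omega
    · rw [f2]; omega
    · rw [f3]; exact slt _ (h.mat.lt _ ht)
  · intro j hj
    rcases hcase j hj with rfl | rfl | ⟨t, ht, rfl⟩
    · rw [f1]; omega
    · rw [f2]; omega
    · rw [f3]
      intro e
      exact h.mat.ne _ ht (sinj _ _ e)
  · intro j hj
    rcases hcase j hj with rfl | rfl | ⟨t, ht, rfl⟩
    · rw [f1, f2]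
    · rw [f2, f1]
    · rw [f3, f3, h.mat.inv _ ht]
  · intro l hl
    rw [or_cap i F l (by omega)]
    have hd : ∀ j, nth (del i l) j = nth l (s j) := nth_del i l (by omega)
    by_cases hxy : nth l i = nth l (i + 1)
    · rw [if_pos hxy, if_neg]
      intro hc
      have := hc i (by omega)
      rw [f1] at this
      exact this hxy
    · rw [if_neg hxy, h.v _ (by rw [length_del i l (by omega)]; omega)]
      have e : Cmp m f (nth (del i l)) ↔ Cmp (m + 2) f' (nth l) := by
        constructor
        · intro hc j hj
          rcases hcase j hj with rfl | rfl | ⟨t, ht, rfl⟩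
          · rw [f1]; exact hxy
          · rw [f2]; exact fun e => hxy e.symm
          · rw [f3]
            have := hc t ht
            rwa [hd, hd] at this
        · intro hc j hj
          have := hc (s j) (slt _ hj)
          rw [f3] at this
          rwa [hd, hd]
      simp only [e]

theorem mt_cup {m k : ℕ} {f : ℕ → ℕ} {F : List Bool → ℤ} (h : Mt (m + 2) k f F) (i : ℕ)
    (hi : i ≤ m) : ∃ k' f', Mt m k' f' (act (Or ℤ) i .cup F) := by
  classical
  set s : ℕ → ℕ := fun t => if t < i then t else t + 2 with hs
  set r : ℕ → ℕ := fun t => if t < i then t else t - 2 with hr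
  have rs : ∀ t, r (s t) = t := by
    intro t
    simp only [hs, hr]
    split_ifs <;> omega
  have sr : ∀ t, t ≠ i → t ≠ i + 1 → s (r t) = t := by
    intro t h1 h2
    simp only [hs, hr]
    split_ifs <;> omega
  have slt : ∀ t < m, s t < m + 2 := by
    intro t ht
    simp only [hs]
    split_ifs <;> omega
  have rlt : ∀ t < m + 2, t ≠ i → t ≠ i + 1 → r t < m := by
    intro t ht h1 h2
    simp only [hr]
    split_ifs <;> omega
  have sne : ∀ t, s t ≠ i ∧ s t ≠ i + 1 := by
    intro t
    simp only [hs]
    split_ifs <;> omega
  have sinj : ∀ t t', s t = s t' → t = t' := by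
    intro t t'
    simp only [hs]
    split_ifs <;> omega
  have hI := h.mat
  have hcase : ∀ j < m + 2, j = i ∨ j = i + 1 ∨ ∃ t < m, j = s t := by
    intro j hj
    by_cases h1 : j = i
    · exact Or.inl h1
    · by_cases h2 : j = i + 1
      · exact Or.inr (Or.inl h2)
      · exact Or.inr (Or.inr ⟨r j, rlt j hj h1 h2, (sr j h1 h2).symm⟩)
  -- values of the labelling after the insertion
  have hv : ∀ (l : List Bool) (a b : Bool), l.length = m →
      nth (ins i a b l) i = a ∧ nth (ins i a b l) (i + 1) = b ∧
        ∀ t, nth (ins i a b l) (s t) = nth l t := by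
    intro l a b hl
    have e := nth_ins i a b l (by omega)
    refine ⟨by rw [e]; simp, by rw [e]; simp, fun t => ?_⟩
    rw [e]
    simp only [hs]
    by_cases h1 : t < i
    · simp [h1]
    · have e1 : ¬ t + 2 < i := by omega
      have e2 : ¬ t + 2 = i := by omega
      have e3 : ¬ t + 2 = i + 1 := by omega
      simp only [h1, e1, e2, e3, if_false]
      rfl
  by_cases hfi : f i = i + 1
  · -- a closed component
    have hfi' : f (i + 1) = i := by rw [← hfi, hI.inv i (by omega)]
    have hf3 : ∀ t < m, f (s t) ≠ i ∧ f (s t) ≠ i + 1 := by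
      intro t ht
      constructor
      · intro e
        have := hI.inv (s t) (slt t ht)
        rw [e, hfi] at this
        exact (sne t).2 this.symm
      · intro e
        have := hI.inv (s t) (slt t ht)
        rw [e, hfi'] at this
        exact (sne t).1 this.symm
    refine ⟨k + 1, fun j => r (f (s j)), ⟨⟨?_, ?_, ?_⟩, ?_⟩⟩
    · intro j hj
      exact rlt _ (hI.lt _ (slt j hj)) (hf3 j hj).1 (hf3 j hj).2
    · intro j hj e
      have e2 : s (r (f (s j))) = s j := by rw [e]
      rw [sr _ (hf3 j hj).1 (hf3 j hj).2] at e2
      exact hI.ne _ (slt j hj) e2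
    · intro j hj
      show r (f (s (r (f (s j))))) = j
      rw [sr _ (hf3 j hj).1 (hf3 j hj).2, hI.inv _ (slt j hj), rs]
    · intro l hl
      rw [or_cup i F l (by omega)]
      have key : ∀ a b : Bool, a ≠ b → (Cmp (m + 2) f (nth (ins i a b l)) ↔
          Cmp m (fun j => r (f (s j))) (nth l)) := by
        intro a b hab
        obtain ⟨v1, v2, v3⟩ := hv l a b hl
        constructor
        · intro hc j hj
          have := hc (s j) (slt j hj)
          rw [v3] at this
          rw [← v3 (r (f (s j))), sr _ (hf3 j hj).1 (hf3 j hj).2]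
          exact this
        · intro hc j hj
          rcases hcase j hj with rfl | rfl | ⟨t, ht, rfl⟩
          · rw [hfi, v1, v2]; exact hab
          · rw [hfi', v1, v2]; exact hab.symm
          · have := hc t ht
            rw [← v3 (r (f (s t))), sr _ (hf3 t ht).1 (hf3 t ht).2] at this
            rw [v3]
            exact this
      rw [h.v _ (by rw [length_ins _ _ _ _ (by omega), hl]),
        h.v _ (by rw [length_ins _ _ _ _ (by omega), hl])]
      simp only [key false true (by decide), key true false (by decide)]
      split_ifs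
      · rw [pow_succ]; ring
      · simp
  · -- two arcs are joined
    set a : ℕ := f i with ha
    set b : ℕ := f (i + 1) with hb
    have hfa : f a = i := hI.inv i (by omega)
    have hfb : f b = i + 1 := hI.inv (i + 1) (by omega)
    have hai : a ≠ i := hI.ne i (by omega)
    have hai1 : a ≠ i + 1 := hfi
    have hbi1 : b ≠ i + 1 := hI.ne (i + 1) (by omega)
    have hbi : b ≠ i := by
      intro e
      rw [e, ← ha] at hfb
      exact hai1 hfb
    have hab : a ≠ b := by
      intro e
      rw [e, hfb] at hfa
      omega
    have halt : a < m + 2 := hI.lt i (by omega)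
    have hblt : b < m + 2 := hI.lt (i + 1) (by omega)
    set g : ℕ → ℕ := fun j => if j = a then b else if j = b then a else f j with hg
    have ga : g a = b := by simp [hg]
    have gb : g b = a := by simp [hg, hab.symm]
    have g3 : ∀ t < m, s t ≠ a → s t ≠ b → g (s t) = f (s t) ∧ f (s t) ≠ i ∧ f (s t) ≠ i + 1 ∧
        f (s t) ≠ a ∧ f (s t) ≠ b := by
      intro t ht h1 h2
      have hinv := hI.inv (s t) (slt t ht)
      refine ⟨by simp [hg, h1, h2], ?_, ?_, ?_, ?_⟩
      · intro e; rw [e] at hinv; exact h1 hinv.symm
      · intro e; rw [e] at hinv; exact h2 hinv.symm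
      · intro e; rw [e, hfa] at hinv; exact (sne t).1 hinv.symm
      · intro e; rw [e, hfb] at hinv; exact (sne t).2 hinv.symm
    have g4 : ∀ t < m, g (s t) ≠ i ∧ g (s t) ≠ i + 1 ∧ g (s t) < m + 2 ∧ g (s t) ≠ s t ∧
        g (g (s t)) = s t := by
      intro t ht
      by_cases h1 : s t = a
      · rw [h1, ga, gb]
        exact ⟨hbi, hbi1, hblt, hab.symm, rfl⟩
      · by_cases h2 : s t = b
        · rw [h2, gb, ga]
          exact ⟨hai, hai1, halt, hab, rfl⟩
        · obtain ⟨e1, e2, e3, e4, e5⟩ := g3 t ht h1 h2
          rw [e1]
          refine ⟨e2, e3, hI.lt _ (slt t ht), hI.ne _ (slt t ht), ?_⟩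
          have : g (f (s t)) = f (f (s t)) := by simp [hg, e4, e5]
          rw [this, hI.inv _ (slt t ht)]
    refine ⟨k, fun j => r (g (s j)), ⟨⟨?_, ?_, ?_⟩, ?_⟩⟩
    · intro j hj
      obtain ⟨e1, e2, e3, e4, e5⟩ := g4 j hj
      exact rlt _ e3 e1 e2
    · intro j hj e
      obtain ⟨e1, e2, e3, e4, e5⟩ := g4 j hj
      have : s (r (g (s j))) = s j := by rw [e]
      rw [sr _ e1 e2] at this
      exact e4 this
    · intro j hj
      obtain ⟨e1, e2, e3, e4, e5⟩ := g4 j hj
      show r (g (s (r (g (s j))))) = j
      rw [sr _ e1 e2, e5, rs]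
    · intro l hl
      rw [or_cup i F l (by omega)]
      -- compatibility after the insertion of x, y
      have key : ∀ x y : Bool, x ≠ y → (Cmp (m + 2) f (nth (ins i x y l)) ↔
          (Cmp m (fun j => r (g (s j))) (nth l) ∧ nth l (r a) = y)) := by
        intro x y hxy
        obtain ⟨v1, v2, v3⟩ := hv l x y hl
        have va : nth (ins i x y l) a = nth l (r a) := by
          rw [← v3 (r a), sr a hai hai1]
        have vb : nth (ins i x y l) b = nth l (r b) := by
          rw [← v3 (r b), sr b hbi hbi1]
        have bool3 : ∀ p q t : Bool, p ≠ q → t ≠ p → t = q := by decide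
        constructor
        · intro hc
          have c1 := hc a halt
          rw [hfa, va, v1] at c1
          have c2 := hc b hblt
          rw [hfb, vb, v2] at c2
          have c3 : nth l (r a) = y := bool3 x y _ hxy c1
          have c4 : nth l (r b) = x := bool3 y x _ hxy.symm c2
          refine ⟨fun j hj => ?_, c3⟩
          show nth l j ≠ nth l (r (g (s j)))
          by_cases h1 : s j = a
          · have ej : j = r a := by rw [← h1, rs]
            rw [h1, ga, ej, c3, c4]
            exact hxy.symm
          · by_cases h2 : s j = b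
            · have ej : j = r b := by rw [← h2, rs]
              rw [h2, gb, ej, c3, c4]
              exact hxy
            · obtain ⟨e1, e2, e3, e4, e5⟩ := g3 j hj h1 h2
              rw [e1]
              have := hc (s j) (slt j hj)
              rw [v3, ← sr _ e2 e3, v3] at this
              exact this
        · rintro ⟨hc, c3⟩ j hj
          have c4 : nth l (r b) = x := by
            have := hc (r a) (rlt a halt hai hai1)
            simp only [sr a hai hai1, ga] at this
            rw [c3] at this
            exact bool3 y x _ hxy.symm this.symm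
          rcases hcase j hj with rfl | rfl | ⟨t, ht, rfl⟩
          · rw [v1, ← ha, va, c3]; exact hxy
          · rw [v2, ← hb, vb, c4]; exact hxy.symm
          · by_cases h1 : s t = a
            · rw [h1, va, hfa, v1, c3]; exact hxy.symm
            · by_cases h2 : s t = b
              · rw [h2, vb, hfb, v2, c4]; exact hxy
              · obtain ⟨e1, e2, e3, e4, e5⟩ := g3 t ht h1 h2
                have := hc t ht
                simp only [e1] at this
                rw [v3, ← sr _ e2 e3, v3]
                exact this
      rw [h.v _ (by rw [length_ins _ _ _ _ (by omega), hl]),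
        h.v _ (by rw [length_ins _ _ _ _ (by omega), hl])]
      have k1 := key false true (by decide)
      have k2 := key true false (by decide)
      by_cases hc : Cmp m (fun j => r (g (s j))) (nth l)
      · rw [if_pos hc]
        cases hla : nth l (r a)
        · rw [if_neg, if_pos]
          · ring
          · rw [k2]; exact ⟨hc, hla⟩
          · rw [k1, hla]; simp
        · rw [if_pos, if_neg]
          · ring
          · rw [k2, hla]; simp
          · rw [k1]; exact ⟨hc, hla⟩
      · rw [if_neg hc, if_neg, if_neg]
        · ring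
        · rw [k2]; exact fun e => hc e.1
        · rw [k1]; exact fun e => hc e.1

/-- the orientations of a closing -/
theorem mt_word (C : Word) : ∀ m, Legal m C 0 → ∃ k f, Mt m k f (val (Or ℤ) C (fun _ => 1)) := by
  classical
  induction C with
  | nil =>
    intro m h
    obtain rfl : m = 0 := h
    refine ⟨0, id, ⟨⟨fun j hj => by omega, fun j hj => by omega, fun j hj => by omega⟩,
      fun l hl => ?_⟩⟩
    rw [if_pos (show Cmp 0 id (nth l) from fun j hj => by omega)]
    simp
  | cons s C ih =>
    intro m h
    obtain ⟨i, g⟩ := s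
    obtain ⟨h1, h2⟩ := h
    obtain ⟨k, f, hF⟩ := ih _ h2
    have e : val (Or ℤ) ((i, g) :: C) (fun _ => 1) =
      act (Or ℤ) i g (val (Or ℤ) C (fun _ => 1)) := rfl
    rw [e]
    rcases g with _ | _ | _ | _
    · simp only [Gen.src, Gen.tgt] at h1 hF
      exact mt_cup hF i (by omega)
    · simp only [Gen.src, Gen.tgt] at h1 hF
      obtain ⟨m', rfl⟩ : ∃ m', m = m' + 2 := ⟨m - 2, by omega⟩
      obtain ⟨f', h3⟩ := mt_cap (m := m') (by simpa using hF) i (by omega)
      exact ⟨k, f', h3⟩
    · simp only [Gen.src, Gen.tgt] at h1 hF
      have e1 : m - 2 + 2 = m := by omega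
      rw [e1] at hF
      obtain ⟨f', h3, _⟩ := mt_cross hF i .pos (Or.inl rfl) h1
      exact ⟨k, f', h3⟩
    · simp only [Gen.src, Gen.tgt] at h1 hF
      have e1 : m - 2 + 2 = m := by omega
      rw [e1] at hF
      obtain ⟨f', h3, _⟩ := mt_cross hF i .neg (Or.inr rfl) h1
      exact ⟨k, f', h3⟩

end Pool.Agent.Helper31.Sk
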