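import Pool.Agent.Helper31.Sk.Fin

/-! The bracket of a knot does not vanish; one-string tangles; torus knots. -/

set_option autoImplicit false

namespace Pool.Agent.Helper31.Sk

universe u v

section hom

variable {R : Type u} [CommRing R] {R' : Type v} [CommRing R'] (f : R →+* R') (a b : R)

theorem Mw_map (x y : Bool) : f (Mw a b x y) = Mw (f a) (f b) x y := by
  cases x <;> cases y <;> simp [Mw]

theorem act_map (i : ℕ) (g : Gen) (φ : List Bool → R) (l : List Bool) :
    f (act (Br a b) i g φ l) = act (Br (f a) (f b)) i g (fun l => f (φ l)) l := by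
  induction i generalizing φ l with
  | zero =>
    rcases g with _ | _ | _ | _
    · simp [act0, S2, Br, Mw_map]
    · rcases l with _ | ⟨x, _ | ⟨y, l⟩⟩
      · simp [act0]
      · simp [act0]
      · simp [act0, Br, Mw_map]
    · rcases l with _ | ⟨x, _ | ⟨y, l⟩⟩
      · simp [act0]
      · simp [act0]
      · cases x <;> cases y <;> simp [act0, Br, Mw_map, S2]
    · rcases l with _ | ⟨x, _ | ⟨y, l⟩⟩
      · simp [act0]
      · simp [act0]
      · cases x <;> cases y <;> simp [act0, Br, Mw_map, S2]
  | succ i ih =>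
    rcases l with _ | ⟨x, l⟩
    · simp [act]
    · simp only [act_succ]
      exact ih _ _

theorem val_map (w : Word) (φ : List Bool → R) (l : List Bool) :
    f (val (Br a b) w φ l) = val (Br (f a) (f b)) w (fun l => f (φ l)) l := by
  induction w generalizing l with
  | nil => rfl
  | cons s w ih =>
    obtain ⟨i, g⟩ := s
    simp only [val_cons]
    rw [act_map]
    congr 1
    funext l'
    exact ih l'

end hom

/-! ### the bracket at `1` -/

/-- `φ` is a signed version of `ψ` -/
def Dom (φ ψ : List Bool → ℤ) : Prop := ∀ l, |φ l| ≤ ψ l ∧ Even (φ l - ψ l)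

theorem dom_act (i : ℕ) (g : Gen) (φ ψ : List Bool → ℤ) (h : Dom φ ψ) :
    Dom (act (Br 1 1) i g φ) (act (Or ℤ) i g ψ) := by
  induction i generalizing φ ψ with
  | zero =>
    intro l
    rcases g with _ | _ | _ | _
    · simp only [act_zero, act0, S2, Br, Or, Mw]
      obtain ⟨h1, h2⟩ := h (false :: true :: l)
      obtain ⟨h3, h4⟩ := h (true :: false :: l)
      simp only [zero_mul, one_mul, add_zero, zero_add, if_true, reduceCtorEq, if_false]
      refine ⟨(abs_add_le _ _).trans (by linarith), ?_⟩
      have : (φ (false :: true :: l) + φ (true :: false :: l)) -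
          (ψ (false :: true :: l) + ψ (true :: false :: l)) =
          (φ (false :: true :: l) - ψ (false :: true :: l)) +
            (φ (true :: false :: l) - ψ (true :: false :: l)) := by ring
      rw [this]
      exact h2.add h4
    · rcases l with _ | ⟨x, _ | ⟨y, l⟩⟩
      · simp [act0]
      · simp [act0]
      · have := h l
        cases x <;> cases y <;> simp [act0, Br, Or, Mw, this]
    · rcases l with _ | ⟨x, _ | ⟨y, l⟩⟩
      · simp [act0]
      · simp [act0]
      · have h1 := h (y :: x :: l)
        cases x <;> cases y <;> simp only [act_zero, act0, Br, Or, Mw, S2] <;> norm_num <;>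
          refine ⟨h1.1, ?_⟩
        · exact h1.2
        · have := h1.2
          rw [Int.even_sub] at this ⊢
          rw [even_neg]; exact this
        · have := h1.2
          rw [Int.even_sub] at this ⊢
          rw [even_neg]; exact this
        · exact h1.2
    · rcases l with _ | ⟨x, _ | ⟨y, l⟩⟩
      · simp [act0]
      · simp [act0]
      · have h1 := h (y :: x :: l)
        cases x <;> cases y <;> simp only [act_zero, act0, Br, Or, Mw, S2] <;> norm_num <;>
          refine ⟨h1.1, ?_⟩
        · exact h1.2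
        · have := h1.2
          rw [Int.even_sub] at this ⊢
          rw [even_neg]; exact this
        · have := h1.2
          rw [Int.even_sub] at this ⊢
          rw [even_neg]; exact this
        · exact h1.2
  | succ i ih =>
    intro l
    rcases l with _ | ⟨x, l⟩
    · simp [act]
    · simp only [act_succ]
      exact ih (fun l' => φ (x :: l')) (fun l' => ψ (x :: l')) (fun l' => h (x :: l')) l

theorem dom_val (w : Word) (φ ψ : List Bool → ℤ) (h : Dom φ ψ) :
    Dom (val (Br 1 1) w φ) (val (Or ℤ) w ψ) := by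
  induction w with
  | nil => exact h
  | cons s w ih =>
    obtain ⟨i, g⟩ := s
    exact dom_act i g _ _ ih

theorem not_act (i : ℕ) (g : Gen) (φ : List Bool → ℤ) (l : List Bool) :
    act (Br 1 1) i g φ (l.map not) = act (Br 1 1) i g (fun l => φ (l.map not)) l := by
  induction i generalizing φ l with
  | zero =>
    rcases g with _ | _ | _ | _
    · simp [act0, S2, Br, Mw]
      ring
    · rcases l with _ | ⟨x, _ | ⟨y, l⟩⟩
      · simp [act0]
      · simp [act0]
      · cases x <;> cases y <;> simp [act0, Br, Mw]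
    · rcases l with _ | ⟨x, _ | ⟨y, l⟩⟩
      · simp [act0]
      · simp [act0]
      · cases x <;> cases y <;> simp [act0, Br, Mw, S2]
    · rcases l with _ | ⟨x, _ | ⟨y, l⟩⟩
      · simp [act0]
      · simp [act0]
      · cases x <;> cases y <;> simp [act0, Br, Mw, S2]
  | succ i ih =>
    rcases l with _ | ⟨x, l⟩
    · simp [act]
    · simp only [List.map_cons, act_succ]
      exact ih _ _

theorem not_val (w : Word) (φ : List Bool → ℤ) (l : List Bool) :
    val (Br 1 1) w φ (l.map not) = val (Br 1 1) w (fun l => φ (l.map not)) l := by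
  induction w generalizing l with
  | nil => rfl
  | cons s w ih =>
    obtain ⟨i, g⟩ := s
    simp only [val_cons]
    rw [not_act]
    congr 1
    funext l'
    exact ih l'

/-- the bracket of a knot at `1` is `± 2` -/
theorem knot_one {w : Word} (hw : IsKnot w) :
    val (Br (1 : ℤ) 1) w (fun _ => 1) [] = 2 ∨ val (Br (1 : ℤ) 1) w (fun _ => 1) [] = -2 := by
  rcases w with _ | ⟨⟨i, g⟩, w⟩
  · have := hw.2
    simp [orients] at this
  · obtain ⟨⟨h2, h3⟩, h4⟩ := hw
    have hi : i = 0 := by omega
    subst hi
    have hg : g = .cup := by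
      rcases g with _ | _ | _ | _ <;> simp [Gen.src] at h2 ⊢
    subst hg
    have e := orients_not w [true, false]
    simp only [List.map_cons, List.map_nil, Bool.not_true, Bool.not_false] at e
    simp only [orients, passes, List.map_cons, List.map_nil, List.sum_cons, List.sum_nil, e] at h4
    have e1 : orients w [true, false] = 1 := by omega
    have hd := dom_val w (fun _ => 1) (fun _ => 1) (fun l => by simp) [true, false]
    rw [← orients_val, e1] at hd
    have e2 := not_val w (fun _ => 1) [true, false]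
    simp only [List.map_cons, List.map_nil, Bool.not_true, Bool.not_false] at e2
    have e3 : val (Br (1 : ℤ) 1) ((0, Gen.cup) :: w) (fun _ => 1) [] =
        val (Br (1 : ℤ) 1) w (fun _ => 1) [false, true] +
          val (Br (1 : ℤ) 1) w (fun _ => 1) [true, false] := by
      simp [act0, S2, Br, Mw]
    rw [e3, e2]
    generalize val (Br (1 : ℤ) 1) w (fun _ => 1) [true, false] = z at hd
    obtain ⟨h5, h6⟩ := hd
    obtain ⟨k, hk⟩ := h6
    push_cast at h5 hk
    rw [abs_le] at h5
    omega

theorem z19 : ((19 : ℕ) : ZMod 3) = 1 := by decide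

theorem z2 : ¬ (2 : ZMod 3) = 0 := by decide

/-- the bracket of a knot does not vanish -/
theorem brv_ne {w : Word} (hw : IsKnot w) : brv w ≠ 0 := by
  intro h0
  -- 3-adic integers
  have : Fact (Nat.Prime 3) := ⟨by norm_num⟩
  have hu : IsUnit ((19 : ℕ) : ℤ_[3]) := by
    rw [PadicInt.isUnit_iff]
    rw [PadicInt.norm_natCast_eq_one_iff]
    norm_num
  obtain ⟨b, hb⟩ := hu.exists_right_inv
  set x : ℤ_[3] := val (Br ((19 : ℕ) : ℤ_[3]) b) w (fun _ => 1) [] with hx
  -- the image in `ℚ_[3]`
  have h1 : ((x : ℤ_[3]) : ℚ_[3]) = ((brv w : ℚ) : ℚ_[3]) := by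
    have e1 := val_map (PadicInt.Coe.ringHom (p := 3)) ((19 : ℕ) : ℤ_[3]) b w (fun _ => 1) []
    have e2 := val_map (algebraMap ℚ ℚ_[3]) (19 : ℚ) (1 / 19) w (fun _ => 1) []
    have e3 : PadicInt.Coe.ringHom (p := 3) ((19 : ℕ) : ℤ_[3]) = algebraMap ℚ ℚ_[3] 19 := by
      rw [map_natCast, show (19 : ℚ) = ((19 : ℕ) : ℚ) by norm_num, map_natCast]
    have e4 : PadicInt.Coe.ringHom (p := 3) b = algebraMap ℚ ℚ_[3] (1 / 19) := by
      have e5 := congrArg (PadicInt.Coe.ringHom (p := 3)) hb
      rw [map_mul, map_one, e3] at e5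
      have e6 : algebraMap ℚ ℚ_[3] 19 * algebraMap ℚ ℚ_[3] (1 / 19) = 1 := by
        rw [← map_mul]; norm_num
      have e7 : algebraMap ℚ ℚ_[3] 19 ≠ 0 := by
        intro h
        rw [h, zero_mul] at e6
        exact zero_ne_one e6
      exact mul_left_cancel₀ e7 (e5.trans e6.symm)
    rw [e3, e4] at e1
    simp only [map_one] at e1 e2
    exact e1.trans e2.symm
  have h2 : x = 0 := by
    rw [h0] at h1
    have : ((x : ℤ_[3]) : ℚ_[3]) = ((0 : ℤ_[3]) : ℚ_[3]) := by rw [h1]; simp
    exact Subtype.coe_injective this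
  -- the image in `ZMod 3`
  have h3 := val_map (PadicInt.toZMod (p := 3)) ((19 : ℕ) : ℤ_[3]) b w (fun _ => 1) []
  rw [← hx, h2, map_zero] at h3
  have e3 : PadicInt.toZMod (p := 3) ((19 : ℕ) : ℤ_[3]) = 1 := by
    rw [map_natCast]
    exact z19
  have e4 : PadicInt.toZMod (p := 3) b = 1 := by
    have e5 := congrArg (PadicInt.toZMod (p := 3)) hb
    rw [map_mul, map_one, e3, one_mul] at e5
    exact e5
  rw [e3, e4] at h3
  have h4 := val_map (Int.castRingHom (ZMod 3)) 1 1 w (fun _ => 1) []
  simp only [map_one] at h3 h4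
  rw [← h3] at h4
  rcases knot_one hw with h5 | h5
  · rw [h5] at h4
    simp at h4
    exact absurd h4 z2
  · rw [h5] at h4
    simp at h4
    exact absurd h4 z2

/-! ### one-string tangles -/

/-- the scalar of a one-string tangle -/
def sc (S : Word) : ℚ := fC (dag S) [false, true] / 19

theorem one_string {S : Word} (hS : Legal 0 S 2) (φ : List Bool → ℚ) :
    val WW S φ [] = sc S * val WW [(0, .cup)] φ [] := by
  have hcap : ∀ V, CapOnly V → Legal 2 V 0 → V = [(0, .cap)] := by
    intro V hV hL
    rcases V with _ | ⟨⟨j, g⟩, V⟩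
    · simp [Legal] at hL
    · obtain ⟨rfl, hV', h1, h2⟩ := legal_capOnly_cons hV hL
      obtain rfl : j = 0 := by omega
      rcases V with _ | ⟨⟨j, g⟩, V⟩
      · rfl
      · obtain ⟨_, _, h3, _⟩ := legal_capOnly_cons hV' h2
        omega
  have h1 : ∀ l : List Bool, l.length = 2 → fC (dag S) l = sc S * fC [(0, .cap)] l := by
    intro l hl
    have hloc : Loc 2 (fun ψ => fC [(0, .cap)] [false, true] * ψ l -
        ψ [false, true] * fC [(0, .cap)] l) :=
      ⟨fun α β φ ψ => by ring, fun φ ψ e => by rw [e l hl, e [false, true] rfl]⟩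
    have h2 := allC (dag S) 2 _ hloc (legal_dag S 0 2 hS) (fun V hV hL => by
      rw [hcap V hV hL]; ring)
    have h3 : fC [(0, .cap)] [false, true] = 19 := by
      simp [fC, act0, Br, Mw]
    rw [h3] at h2
    unfold sc
    linarith
  have key : ∀ (U : Word) (χ : List Bool → ℚ), Legal 0 U 2 → val WW U χ [] = pr 2 (fC (dag U)) χ := by
    intro U χ hU
    have := adj_val U 0 2 (fun _ => 1) χ hU
    simp only [pr, one_mul] at this
    exact this
  rw [key S φ hS, key [(0, .cup)] φ (by simp [Legal, Gen.src, Gen.tgt])]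
  have e : dag [(0, Gen.cup)] = [(0, .cap)] := rfl
  rw [e]
  simp only [pr]
  rw [h1 [false, false] rfl, h1 [false, true] rfl, h1 [true, false] rfl, h1 [true, true] rfl]
  ring

/-! ### torus knots -/

/-- `p` half twists -/
def tw (g : Gen) (p : ℕ) : Word := List.replicate p (0, g) ++ [(1, .cap), (0, .cap)]

/-- the torus knot of type `(2, p)` -/
def tor (p : ℕ) : Word := (0, .cup) :: (1, .cup) :: tw .pos p

theorem mir_tor (p : ℕ) : mir (tor p) = (0, .cup) :: (1, .cup) :: tw .neg p := by
  simp only [tor, mir_cons, tw, mir_append, Gen.flip]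
  simp [mir, Gen.flip]

theorem tw_succ (g : Gen) (p : ℕ) : tw g (p + 1) = (0, g) :: tw g p := by
  simp [tw, List.replicate_succ]

theorem legal_tw (p : ℕ) : Legal 4 (tw .pos p) 0 := by
  induction p with
  | zero => simp [tw, Legal, Gen.src, Gen.tgt]
  | succ p ih =>
    rw [tw_succ]
    exact ⟨by simp [Gen.src], ih⟩

/-- number of orientations of the twists -/
theorem orients_tw (p : ℕ) : ∀ x y z t : Bool, orients (tw .pos p) [x, y, z, t] =
    if Even p then (if y = z ∨ x = t then 0 else 1) else (if x = z ∨ y = t then 0 else 1) := by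
  induction p with
  | zero =>
    intro x y z t
    cases x <;> cases y <;> cases z <;> cases t <;> simp [tw, orients, passes]
  | succ p ih =>
    intro x y z t
    rw [tw_succ]
    have : orients ((0, Gen.pos) :: tw .pos p) [x, y, z, t] = orients (tw .pos p) [y, x, z, t] := by
      simp [orients, passes]
    rw [this, ih]
    rcases Nat.even_or_odd p with h | h
    · have h2 : ¬ Even (p + 1) := by rw [Nat.even_add_one]; exact not_not.2 h
      simp only [h, h2, if_true, if_false]
    · have h1 : ¬ Even p := Nat.not_even_iff_odd.2 h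
      have h2 : Even (p + 1) := by rw [Nat.even_add_one]; exact h1
      simp only [h1, h2, if_true, if_false]

theorem isKnot_tor {p : ℕ} (hp : Odd p) : IsKnot (tor p) := by
  refine ⟨⟨by simp [Gen.src], ⟨by simp [Gen.src, Gen.tgt], legal_tw p⟩⟩, ?_⟩
  have h1 : ¬ Even p := Nat.not_even_iff_odd.2 hp
  have h := orients_tw p
  simp only [h1, if_false] at h
  simp only [tor, orients, passes, List.map_cons, List.map_nil, List.sum_cons, List.sum_nil, h]
  rfl

theorem tor_vals (p : ℕ) : brv ((0, .cup) :: (1, .cup) :: tw .pos p) =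
      19 ^ p * (dlt ^ 2 - 1) + (-(1 / 19) ^ 3) ^ p ∧
    brv ((0, .cup) :: (1, .cup) :: (0, .cap) :: (0, .cup) :: tw .pos p) =
      dlt * (-(1 / 19) ^ 3) ^ p := by
  induction p with
  | zero =>
    constructor
    · simp [brv, fC, tw, act0, S2, Br, Mw, dlt]
      norm_num
    · simp [brv, fC, tw, act0, S2, Br, Mw, dlt]
      norm_num
  | succ p ih =>
    have hp : ∀ (l : List Bool), 2 ≤ l.length → fC ((0, .pos) :: tw .pos p) l =
        19 * fC (tw .pos p) l + (-(1 / 19)) * fC ((0, .cap) :: (0, .cup) :: tw .pos p) l := by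
      intro l hl
      have := act_pos (a := (19 : ℚ)) (b := 1 / 19) 0 (fC (tw .pos p)) l (by simpa using hl)
      rw [fC_cons, this]
      rw [fC_cons, fC_cons]
      ring
    have hleg : Legal 0 [(0, Gen.cup), (1, Gen.cup)] 4 := by simp [Legal, Gen.src, Gen.tgt]
    have e0 : ∀ C : Word, brv ((0, .cup) :: (1, .cup) :: C) =
        val WW [(0, .cup), (1, .cup)] (fC C) [] := fun C => rfl
    rw [tw_succ]
    constructor
    · rw [e0, val_congr WW hleg _ _ [] rfl (fun l hl => hp l (by omega)), val_lin, ← e0, ← e0,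
        ih.1, ih.2]
      unfold dlt
      ring
    · have hE : ∀ l : List Bool, fC ((0, .cup) :: (0, .pos) :: tw .pos p) l =
          -(1 / 19) ^ 3 * fC ((0, .cup) :: tw .pos p) l := by
        intro l
        exact act_r1 hab19 0 (fC (tw .pos p)) l (by omega)
      have hE2 : ∀ l : List Bool, l.length = 4 → fC ((0, .cap) :: (0, .cup) :: (0, .pos) :: tw .pos p) l =
          -(1 / 19) ^ 3 * fC ((0, .cap) :: (0, .cup) :: tw .pos p) l := by
        intro l _
        have hE' : fC ((0, .cup) :: (0, .pos) :: tw .pos p) =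
          fun l => -(1 / 19) ^ 3 * fC ((0, .cup) :: tw .pos p) l := funext hE
        calc fC ((0, .cap) :: (0, .cup) :: (0, .pos) :: tw .pos p) l =
            act WW 0 .cap (fC ((0, .cup) :: (0, .pos) :: tw .pos p)) l := rfl
          _ = _ := by
            rw [hE', act_smul]
            rfl
      rw [e0, val_congr WW hleg _ _ [] rfl hE2, val_smul, ← e0, ih.2]
      ring

theorem mtor_vals (p : ℕ) : brv ((0, .cup) :: (1, .cup) :: tw .neg p) =
      (1 / 19) ^ p * (dlt ^ 2 - 1) + (-19 ^ 3) ^ p ∧
    brv ((0, .cup) :: (1, .cup) :: (0, .cap) :: (0, .cup) :: tw .neg p) =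
      dlt * (-19 ^ 3) ^ p := by
  induction p with
  | zero =>
    constructor
    · simp [brv, fC, tw, act0, S2, Br, Mw, dlt]
      norm_num
    · simp [brv, fC, tw, act0, S2, Br, Mw, dlt]
      norm_num
  | succ p ih =>
    have hp : ∀ (l : List Bool), 2 ≤ l.length → fC ((0, .neg) :: tw .neg p) l =
        (1 / 19) * fC (tw .neg p) l + (-19) * fC ((0, .cap) :: (0, .cup) :: tw .neg p) l := by
      intro l hl
      have := act_neg (a := (19 : ℚ)) (b := 1 / 19) 0 (fC (tw .neg p)) l (by simpa using hl)
      rw [fC_cons, this]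
      rw [fC_cons, fC_cons]
      ring
    have hleg : Legal 0 [(0, Gen.cup), (1, Gen.cup)] 4 := by simp [Legal, Gen.src, Gen.tgt]
    have e0 : ∀ C : Word, brv ((0, .cup) :: (1, .cup) :: C) =
        val WW [(0, .cup), (1, .cup)] (fC C) [] := fun C => rfl
    rw [tw_succ]
    constructor
    · rw [e0, val_congr WW hleg _ _ [] rfl (fun l hl => hp l (by omega)), val_lin, ← e0, ← e0,
        ih.1, ih.2]
      unfold dlt
      ring
    · have hE : ∀ l : List Bool, fC ((0, .cup) :: (0, .neg) :: tw .neg p) l =
          -19 ^ 3 * fC ((0, .cup) :: tw .neg p) l := by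
        intro l
        rw [fC_cons, fC_cons, fC_cons]
        simp [act0, S2, Br, Mw]
        ring
      have hE2 : ∀ l : List Bool, l.length = 4 → fC ((0, .cap) :: (0, .cup) :: (0, .neg) :: tw .neg p) l =
          -19 ^ 3 * fC ((0, .cap) :: (0, .cup) :: tw .neg p) l := by
        intro l _
        have hE' : fC ((0, .cup) :: (0, .neg) :: tw .neg p) =
          fun l => -19 ^ 3 * fC ((0, .cup) :: tw .neg p) l := funext hE
        calc fC ((0, .cap) :: (0, .cup) :: (0, .neg) :: tw .neg p) l =
            act WW 0 .cap (fC ((0, .cup) :: (0, .neg) :: tw .neg p)) l := rfl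
          _ = _ := by
            rw [hE', act_smul]
            rfl
      rw [e0, val_congr WW hleg _ _ [] rfl hE2, val_smul, ← e0, ih.2]
      ring

end Pool.Agent.Helper31.Sk
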