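import Pool.Agent.Helper31.Sk.Defs

/-! Moves of oriented tangles. -/

set_option autoImplicit false

namespace Pool.Agent.Helper31.Sk

/-- `Dir l w l'`: the diagram `w` has an orientation with the directions `l` of the strands at the
bottom and the directions `l'` of the strands at the top. -/
def Dir : List Bool → Word → List Bool → Prop
  | l, [], l' => l = l'
  | l, (i, g) :: w, l' => ∃ l'' ∈ passes i g l, Dir l'' w l'

/-- One application of a move `(o, s, t)` of oriented tangles (`o` is the list of the directions of
the ends of `s` and `t`): the knot has an orientation such that a subtangle with this orientation is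
`s`, and `s` is replaced by `t` (the orientation of the rest of the knot is not changed). -/
def AppliesO (N : Set (List Bool × Word × Word)) (w w' : Word) : Prop :=
  ∃ (o : List Bool) (s t u v : Word) (l r : List Bool), (o, s, t) ∈ N ∧
    w = u ++ shift l.length s ++ v ∧ w' = u ++ shift l.length t ++ v ∧
    Dir [] u (l ++ r) ∧ Dir [] s o ∧ Dir [] t o ∧ Dir (l ++ o ++ r) v []

/-- Equivalence of knot diagrams generated by the moves `M` of unoriented tangles and the moves `N`
of oriented tangles. -/
def EquO (M : Set (ℕ × Word × Word)) (N : Set (List Bool × Word × Word)) : Word → Word → Prop :=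
  Relation.EqvGen
    (fun w w' => IsKnot w ∧ IsKnot w' ∧ (Iso 0 0 w w' ∨ Applies M w w' ∨ AppliesO N w w'))

/-- The moves `M` and `N` generate the invariant `I`: two knots have the same invariant if and only
if they are equivalent. -/
def GeneratesO (M : Set (ℕ × Word × Word)) (N : Set (List Bool × Word × Word)) {X : Type}
    (I : Word → X) : Prop :=
  ∀ w w', IsKnot w → IsKnot w' → (I w = I w' ↔ EquO M N w w')

end Pool.Agent.Helper31.Sk
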