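import Pool.Agent.Helper31.Sk.OrDefs
import Pool.Agent.Helper31.Sk.Ctx

/-! Orientations with given directions at the ends. -/

set_option autoImplicit false

namespace Pool.Agent.Helper31.Sk

theorem dir_append {l l' : List Bool} {w1 w2 : Word} :
    Dir l (w1 ++ w2) l' ↔ ∃ m, Dir l w1 m ∧ Dir m w2 l' := by
  induction w1 generalizing l with
  | nil => simp [Dir]
  | cons s w1 ih =>
    obtain ⟨i, g⟩ := s
    simp only [List.cons_append, Dir, ih]
    constructor
    · rintro ⟨l'', h1, m, h2, h3⟩
      exact ⟨m, ⟨l'', h1, h2⟩, h3⟩
    · rintro ⟨m, ⟨l'', h1, h2⟩, h3⟩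
      exact ⟨l'', h1, m, h2, h3⟩

theorem val_or_nonneg (w : Word) (φ : List Bool → ℤ) (h : ∀ x, 0 ≤ φ x) (l : List Bool) :
    0 ≤ val (Or ℤ) w φ l := by
  induction w generalizing l with
  | nil => exact h l
  | cons s w ih =>
    obtain ⟨i, g⟩ := s
    rw [val_cons, act_or]
    exact List.sum_nonneg fun x hx => by
      obtain ⟨y, _, rfl⟩ := List.mem_map.1 hx
      exact ih y

theorem dir_val {w : Word} {l l' : List Bool} (h : Dir l w l') (φ : List Bool → ℤ)
    (hφ : ∀ x, 0 ≤ φ x) : φ l' ≤ val (Or ℤ) w φ l := by
  induction w generalizing l with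
  | nil =>
    obtain rfl : l = l' := h
    exact le_refl _
  | cons s w ih =>
    obtain ⟨i, g⟩ := s
    obtain ⟨l'', h1, h2⟩ := h
    rw [val_cons, act_or]
    refine (ih h2).trans ?_
    exact List.single_le_sum (fun x hx => by
      obtain ⟨y, _, rfl⟩ := List.mem_map.1 hx
      exact val_or_nonneg w φ hφ y) _ (List.mem_map.2 ⟨l'', h1, rfl⟩)

theorem sum_np (L : List ℤ) (h : ∀ x ∈ L, x ≤ 0) : L.sum ≤ 0 := by
  induction L with
  | nil => simp
  | cons x L ih =>
    rw [List.sum_cons]
    have h1 := h x (by simp)
    have h2 := ih fun y hy => h y (by simp [hy])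
    omega

theorem val_dir {w : Word} {l : List Bool} (φ : List Bool → ℤ)
    (h : 0 < val (Or ℤ) w φ l) : ∃ l', Dir l w l' ∧ 0 < φ l' := by
  induction w generalizing l with
  | nil => exact ⟨l, rfl, h⟩
  | cons s w ih =>
    obtain ⟨i, g⟩ := s
    rw [val_cons, act_or] at h
    by_contra hcon
    push Not at hcon
    have h1 : ((passes i g l).map (val (Or ℤ) w φ)).sum ≤ 0 := by
      refine sum_np _ fun x hx => ?_
      obtain ⟨y, hy, rfl⟩ := List.mem_map.1 hx
      by_contra hpos
      obtain ⟨l', h2, h3⟩ := ih (not_le.1 hpos)
      exact absurd h3 (not_lt.2 (hcon l' ⟨y, hy, h2⟩))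
    omega

/-- the indicator function of a list -/
def ind (o : List Bool) : List Bool → ℤ := fun x => if x = o then 1 else 0

theorem ind_nonneg (o x : List Bool) : 0 ≤ ind o x := by
  unfold ind
  split_ifs <;> norm_num

theorem ind_pos {o x : List Bool} (h : 0 < ind o x) : x = o := by
  unfold ind at h
  by_contra hne
  rw [if_neg hne] at h
  exact lt_irrefl _ h

theorem dir_iff {w : Word} {l l' : List Bool} : Dir l w l' ↔ 0 < val (Or ℤ) w (ind l') l := by
  constructor
  · intro h
    have := dir_val h (ind l') (ind_nonneg l')
    have e : ind l' l' = 1 := by simp [ind]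
    omega
  · intro h
    obtain ⟨x, h1, h2⟩ := val_dir _ h
    rw [ind_pos h2] at h1
    exact h1

theorem dir_iso {m n : ℕ} {w w' : Word} (h : Iso m n w w') {l l' : List Bool} (hl : l.length = m)
    (hd : Dir l w l') : Dir l w' l' := by
  rw [dir_iff] at hd ⊢
  rw [← or_iso h (ind l') l hl]
  exact hd

theorem length_passes (i : ℕ) (g : Gen) (l l' : List Bool) (h : l' ∈ passes i g l) :
    i + g.src ≤ l.length ∧ l'.length = l.length - g.src + g.tgt := by
  induction i generalizing l l' with
  | zero =>
    rcases g with _ | _ | _ | _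
    · simp only [passes, List.mem_cons, List.not_mem_nil, or_false] at h
      rcases h with rfl | rfl <;> simp [Gen.src, Gen.tgt]
    · rcases l with _ | ⟨x, _ | ⟨y, l⟩⟩
      · simp [passes] at h
      · simp [passes] at h
      · simp only [passes] at h
        split_ifs at h
        · simp at h
        · simp only [List.mem_cons, List.not_mem_nil, or_false] at h
          subst h
          simp [Gen.src, Gen.tgt]
    · rcases l with _ | ⟨x, _ | ⟨y, l⟩⟩
      · simp [passes] at h
      · simp [passes] at h
      · simp only [passes, List.mem_cons, List.not_mem_nil, or_false] at h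
        subst h
        simp [Gen.src, Gen.tgt]
    · rcases l with _ | ⟨x, _ | ⟨y, l⟩⟩
      · simp [passes] at h
      · simp [passes] at h
      · simp only [passes, List.mem_cons, List.not_mem_nil, or_false] at h
        subst h
        simp [Gen.src, Gen.tgt]
  | succ i ih =>
    rcases l with _ | ⟨x, l⟩
    · simp [passes] at h
    · simp only [passes, List.mem_map] at h
      obtain ⟨y, hy, rfl⟩ := h
      obtain ⟨h1, h2⟩ := ih l y hy
      simp only [List.length_cons]
      omega

theorem length_dir {w : Word} : ∀ {m n : ℕ} {l l' : List Bool}, Legal m w n → l.length = m →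
    Dir l w l' → l'.length = n := by
  induction w with
  | nil =>
    intro m n l l' h hl hd
    obtain rfl : l = l' := hd
    exact hl.trans h
  | cons s w ih =>
    intro m n l l' h hl hd
    obtain ⟨i, g⟩ := s
    obtain ⟨l'', h1, h2⟩ := hd
    have := (length_passes i g l l'' h1).2
    exact ih h.2 (by rw [this, hl]) h2

theorem dir_closed {C : Word} {l : List Bool} (h : Dir l C []) : 0 < oF C l := by
  have := dir_val h (fun _ => 1) (fun _ => by norm_num)
  unfold oF
  omega

theorem closed_dir {C : Word} {m : ℕ} {l : List Bool} (hC : Legal m C 0) (hl : l.length = m)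
    (h : 0 < oF C l) : Dir l C [] := by
  obtain ⟨x, h1, _⟩ := val_dir _ h
  have := length_dir hC hl h1
  rw [List.length_eq_zero_iff.1 this] at h1
  exact h1

theorem passes_right (i : ℕ) (g : Gen) (l r l' : List Bool) (h : l' ∈ passes i g l) :
    l' ++ r ∈ passes i g (l ++ r) := by
  induction i generalizing l l' with
  | zero =>
    rcases g with _ | _ | _ | _
    · simp only [passes, List.mem_cons, List.not_mem_nil, or_false] at h
      rcases h with rfl | rfl <;> simp [passes]
    · rcases l with _ | ⟨x, _ | ⟨y, l⟩⟩
      · simp [passes] at h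
      · simp [passes] at h
      · simp only [passes] at h
        split_ifs at h with hxy
        · simp at h
        · simp only [List.mem_cons, List.not_mem_nil, or_false] at h
          subst h
          simp [passes, hxy]
    · rcases l with _ | ⟨x, _ | ⟨y, l⟩⟩
      · simp [passes] at h
      · simp [passes] at h
      · simp only [passes, List.mem_cons, List.not_mem_nil, or_false] at h
        subst h
        simp [passes]
    · rcases l with _ | ⟨x, _ | ⟨y, l⟩⟩
      · simp [passes] at h
      · simp [passes] at h
      · simp only [passes, List.mem_cons, List.not_mem_nil, or_false] at h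
        subst h
        simp [passes]
  | succ i ih =>
    rcases l with _ | ⟨x, l⟩
    · simp [passes] at h
    · simp only [passes, List.mem_map] at h
      obtain ⟨y, hy, rfl⟩ := h
      simp only [List.cons_append, passes, List.mem_map]
      exact ⟨y ++ r, ih l y hy, rfl⟩

theorem dir_right {w : Word} {l l' : List Bool} (h : Dir l w l') (r : List Bool) :
    Dir (l ++ r) w (l' ++ r) := by
  induction w generalizing l with
  | nil =>
    obtain rfl : l = l' := h
    exact rfl
  | cons s w ih =>
    obtain ⟨i, g⟩ := s
    obtain ⟨l'', h1, h2⟩ := h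
    exact ⟨l'' ++ r, passes_right i g l r l'' h1, ih h2⟩

theorem dir_mvs (l1 l2 l r : List Bool) :
    Dir (l1 ++ (l2 ++ (l ++ r))) (mvs l1.length l.length l2.length) (l1 ++ (l ++ (l2 ++ r))) := by
  rw [dir_iff, or_mvs l1.length l.length l2.length l1 l2 l r _ rfl rfl rfl]
  simp [ind]

theorem pz_ind (m : ℕ) (G : List Bool → ℤ) (o : List Bool) (ho : o.length = m) :
    pz m G (ind o) = G o := by
  induction m generalizing G o with
  | zero =>
    obtain rfl : o = [] := List.length_eq_zero_iff.1 ho
    simp [pz, ind]
  | succ m ih =>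
    rcases o with _ | ⟨x, o⟩
    · simp at ho
    · have ho' : o.length = m := by simpa using ho
      simp only [pz]
      have e1 : ∀ y : Bool, y = x → (fun l : List Bool => ind (x :: o) (y :: l)) = ind o := by
        rintro y rfl
        funext l
        simp [ind]
      have e2 : ∀ y : Bool, y ≠ x → (fun l : List Bool => ind (x :: o) (y :: l)) = fun _ => 0 := by
        intro y hy
        funext l
        simp [ind, hy]
      cases x
      · rw [e1 false rfl, e2 true (by decide), pz_zero_right, ih _ _ ho', add_zero]
      · rw [e1 true rfl, e2 false (by decide), pz_zero_right, ih _ _ ho', zero_add]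

theorem dir_tensor {m : ℕ} {S : Word} (hS : Legal 0 S m) {o : List Bool} (h : Dir [] S o) :
    0 < oF (dag S) o := by
  have ho := length_dir hS rfl h
  rw [dir_iff, tensor_or hS, pz_ind m _ o ho] at h
  exact h

/-! ### braids -/

theorem passes_back (i : ℕ) (g : Gen) (hg : g = .pos ∨ g = .neg) (l l' : List Bool)
    (h : l' ∈ passes i g l) : l ∈ passes i g.flip l' := by
  induction i generalizing l l' with
  | zero =>
    rcases hg with rfl | rfl
    · rcases l with _ | ⟨x, _ | ⟨y, l⟩⟩
      · simp [passes] at h
      · simp [passes] at h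
      · simp only [passes, List.mem_cons, List.not_mem_nil, or_false] at h
        subst h
        simp [passes, Gen.flip]
    · rcases l with _ | ⟨x, _ | ⟨y, l⟩⟩
      · simp [passes] at h
      · simp [passes] at h
      · simp only [passes, List.mem_cons, List.not_mem_nil, or_false] at h
        subst h
        simp [passes, Gen.flip]
  | succ i ih =>
    rcases l with _ | ⟨x, l⟩
    · simp [passes] at h
    · simp only [passes, List.mem_map] at h
      obtain ⟨y, hy, rfl⟩ := h
      simp only [passes, List.mem_map]
      exact ⟨l, ih l y hy, rfl⟩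

theorem dir_inv {β : Word} (hβ : IsBr β) : ∀ {l l' : List Bool}, Dir l β l' →
    Dir l' (inv β) l := by
  induction β with
  | nil =>
    intro l l' h
    exact h.symm
  | cons s β ih =>
    intro l l' h
    obtain ⟨i, g⟩ := s
    obtain ⟨l'', h1, h2⟩ := h
    have hb := isBr_cons hβ
    rw [inv_cons, dir_append]
    refine ⟨l'', ih (isBr_cons hβ).2 h2, l, passes_back i g ?_ l l'' h1, rfl⟩
    exact hβ (i, g) (by simp)

end Pool.Agent.Helper31.Sk
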