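import Pool.Agent.Helper31.Sk.OrTen

/-! The moves of oriented tangles with a trivial side. -/

set_option autoImplicit false

namespace Pool.Agent.Helper31.Sk

theorem key_o {n : ℕ} {S T β : Word} (hT : Legal 0 T (2 * n)) (hS : Legal 0 S (2 * n))
    (hβ' : IsBr β) (hβL : Legal (2 * n) β (2 * n)) (hiso : Iso 0 (2 * n) S (cups n ++ β))
    (hu : ∀ C, InSo n C → ∃ c, Un c ∧ brv ((T ++ inv β) ++ C) = c * dlt) :
    ∃ c, Un c ∧ ∀ φ : List Bool → ℚ, val WW T φ [] = c * val WW S φ [] := by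
  have hiL := legal_inv hβ' hβL
  set L : (List Bool → ℚ) → ℚ := fun φ => val WW (T ++ inv β) φ [] with hLdef
  have hTi : Legal 0 (T ++ inv β) (2 * n) := legal_append.2 ⟨2 * n, hT, hiL⟩
  have hL : Loc (2 * n) L :=
    ⟨fun α γ φ ψ => val_lin WW _ α γ φ ψ [], fun φ ψ e => val_congr WW hTi φ ψ [] rfl e⟩
  have hunit : ∀ C, InSo n C → ∃ c, Un c ∧ L (fC C) = c * dlt := by
    intro C hC
    obtain ⟨c, hc, h⟩ := hu C hC
    refine ⟨c, hc, ?_⟩
    rw [brv_app] at h
    exact h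
  obtain ⟨c0, hc0, hmain⟩ := mainL_o n L hL hunit
  have hall : ∀ C, Legal (2 * n) C 0 → L (fC C) = c0 * Kf n (fC C) := by
    intro C hC
    have := allC C (2 * n) (fun φ => L φ - c0 * Kf n φ) (hL.sub (loc_K n) c0) hC
      (fun V hV hV2 => by rw [hmain V hV hV2]; ring)
    linarith
  obtain ⟨c1, hc1, h1⟩ := iso_val (good_br (19 : ℚ) (1 / 19) hab19) (iso_inv (isBr_inv hβ') hiL)
  rw [inv_inv] at h1
  obtain ⟨c2, hc2, h2⟩ := iso_val (good_br (19 : ℚ) (1 / 19) hab19) hiso
  obtain ⟨d1, hd1, e1⟩ := un_inv hc1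
  obtain ⟨d2, hd2, e2⟩ := un_inv hc2
  refine ⟨d1 * c0 * d2, un_mul (un_mul hd1 hc0) hd2, ?_⟩
  refine tensor_eq hS hT _ fun C hC => ?_
  have a1 := hall (β ++ C) (legal_append.2 ⟨2 * n, hβL, hC⟩)
  have a2 : L (fC (β ++ C)) = c1 * val WW T (fC C) [] := by
    simp only [hLdef]
    rw [val_append]
    have e : fC (β ++ C) = val WW β (fC C) := by
      unfold fC
      rw [val_append]
    rw [e, ← val_smul]
    refine val_congr WW hT _ _ [] rfl fun l hl => ?_
    have := h1 (fC C) l hl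
    rw [val_append] at this
    exact this
  have a3 : c2 * Kf n (fC (β ++ C)) = val WW S (fC C) [] := by
    rw [h2 (fC C) [] rfl]
    unfold Kf
    have e : fC (β ++ C) = val WW β (fC C) := by
      unfold fC
      rw [val_append]
    rw [e, ← val_append]
  rw [a2] at a1
  have a4 : Kf n (fC (β ++ C)) = d2 * val WW S (fC C) [] := by
    rw [← a3, ← mul_assoc, mul_comm d2 c2, e2, one_mul]
  rw [a4] at a1
  calc val WW T (fC C) [] = (c1 * d1) * val WW T (fC C) [] := by rw [e1, one_mul]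
    _ = d1 * (c1 * val WW T (fC C) []) := by ring
    _ = d1 * (c0 * (d2 * val WW S (fC C) [])) := by rw [a1]
    _ = d1 * c0 * d2 * val WW S (fC C) [] := by ring

/-- the closing of an oriented context -/
theorem dir_ctx {u v : Word} {l r o : List Bool} (du : Dir [] u (l ++ r))
    (dv : Dir (l ++ o ++ r) v []) :
    Dir o (u ++ (mvs l.length o.length r.length ++ v)) [] := by
  rw [dir_append]
  have h1 := dir_right du o
  rw [List.nil_append] at h1
  refine ⟨_, h1, ?_⟩
  rw [dir_append]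
  have h2 := dir_mvs l r o []
  simp only [List.append_nil] at h2
  rw [List.append_assoc]
  refine ⟨_, h2, ?_⟩
  rw [List.append_assoc] at dv
  exact dv

/-- the moves of oriented tangles with a trivial side -/
theorem triv_case_o (hSp : GoalSp) {n : ℕ} {S T : Word} {o : List Bool} (hT : Legal 0 T (2 * n))
    (hS : Legal 0 S (2 * n)) (htriv : Triv n S) (dS : Dir [] S o) (dT : Dir [] T o)
    (hH : ∀ v, Legal (2 * n) v 0 → Dir o v [] → Iso 0 0 (S ++ v) unknot → IsKnot (T ++ v) →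
      Iso 0 0 (T ++ v) unknot)
    {u v : Word} {l r : List Bool} (hkS : IsKnot (u ++ shift l.length S ++ v))
    (hkT : IsKnot (u ++ shift l.length T ++ v)) (du : Dir [] u (l ++ r))
    (dv : Dir (l ++ o ++ r) v []) :
    ∃ c, Un c ∧ ∀ φ : List Bool → ℚ, val WW T φ [] = c * val WW S φ [] := by
  classical
  have hol : o.length = 2 * n := length_dir hS rfl dS
  have gS := hkS.1
  have gT := hkT.1
  rw [List.append_assoc] at gS gT
  obtain ⟨k, hk, g1⟩ := legal_append.1 gS
  obtain ⟨k', hk', g2⟩ := legal_append.1 gT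
  obtain rfl := legal_unique hk hk'
  have hlr := length_dir hk rfl du
  rw [List.length_append] at hlr
  obtain ⟨j, hj, hv⟩ := legal_append.1 g1
  have hd := (legal_diff S 0 (2 * n) k j l.length hS hj (Nat.zero_le _)).1
  have hj2 : j = k + 2 * n := by omega
  subst hj2
  have hrk : k - l.length = r.length := by omega
  obtain ⟨hCl, hC⟩ := ctx_word (m := 2 * n) (a := l.length) hk hv (by omega)
  rw [hrk] at hCl hC
  set C' := u ++ (mvs l.length (2 * n) r.length ++ v) with hC'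
  have dC' : Dir o C' [] := by
    have := dir_ctx du dv
    rw [hol] at this
    exact this
  have hSC : oF (S ++ C') [] = 2 := by
    rw [hC S hS, ← List.append_assoc]
    exact (isKnot_iff hkS.1).1 hkS
  have hTC : oF (T ++ C') [] = 2 := by
    rw [hC T hT, ← List.append_assoc]
    exact (isKnot_iff hkT.1).1 hkT
  -- normalisation
  obtain ⟨β0, hβ0, hβL0, hiso0⟩ := htriv
  have hβ0' : IsBr β0 := hβ0
  have dS1 := dir_iso hiso0 rfl dS
  obtain ⟨o1, dc, dβ0⟩ := dir_append.1 dS1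
  obtain ⟨ho1, hc1⟩ := dir_cups dc
  obtain ⟨θ, hθ, hθL, hθi, dθ⟩ := norm_alt ho1 hc1
  obtain ⟨β, hβdef⟩ : ∃ β : Word, β = θ ++ β0 := ⟨_, rfl⟩
  have hβ' : IsBr β := by
    rw [hβdef]
    intro s hs
    rcases List.mem_append.1 hs with h | h
    · exact hθ s h
    · exact hβ0' s h
  have hβL : Legal (2 * n) β (2 * n) := by
    rw [hβdef]
    exact legal_append.2 ⟨2 * n, hθL, hβL0⟩
  have hiso : Iso 0 (2 * n) S (cups n ++ β) := by
    refine iso_trans hiso0 ?_
    rw [hβdef, ← List.append_assoc]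
    exact iso_symm (iso_right hθi hβL0)
  have dβ : Dir (alt n) β o := by
    rw [hβdef]
    exact dir_append.2 ⟨o1, dθ, dβ0⟩
  have hiL := legal_inv hβ' hβL
  have hTi : Legal 0 (T ++ inv β) (2 * n) := legal_append.2 ⟨2 * n, hT, hiL⟩
  have dTi : Dir [] (T ++ inv β) (alt n) := dir_append.2 ⟨o, dT, dir_inv hβ' dβ⟩
  -- removing `inv β ++ β`
  have hrem : ∀ w, Legal (2 * n) w 0 → oF ((T ++ inv β) ++ (β ++ w)) [] = oF (T ++ w) [] := by
    intro w hw
    have e1 : (T ++ inv β) ++ (β ++ w) = T ++ (inv β ++ β) ++ w := by simp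
    have h1 := iso_inv (isBr_inv hβ') hiL
    rw [inv_inv] at h1
    have h2 := iso_ctx h1 hT hw
    rw [e1]
    have h3 := or_iso h2 (fun _ => 1) [] rfl
    rw [List.append_nil] at h3
    exact h3
  -- the trivial tangle
  have hSβ : ∀ w, Legal (2 * n) w 0 → LU n (oF (β ++ w)) = oF (S ++ w) [] := by
    intro w hw
    have h3 := or_iso (iso_right hiso hw) (fun _ => 1) [] rfl
    have h4 : oF (S ++ w) [] = oF (cups n ++ β ++ w) [] := h3
    rw [h4, List.append_assoc, oF_append (cups n) (β ++ w)]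
    rfl
  have hHX : HypO n (T ++ inv β) := by
    intro C hCS hK
    rw [List.append_assoc] at hK ⊢
    have h1 : Iso 0 0 (S ++ (inv β ++ C)) unknot := by
      have a1 : Iso 0 0 (S ++ (inv β ++ C)) ((cups n ++ β) ++ (inv β ++ C)) :=
        iso_right hiso (legal_append.2 ⟨2 * n, hiL, hCS.1.1⟩)
      have a2 : Iso 0 0 (cups n ++ (β ++ inv β) ++ C) (cups n ++ [] ++ C) :=
        iso_ctx (iso_inv hβ' hβL) (legal_cups n) hCS.1.1
      have e1 : (cups n ++ β) ++ (inv β ++ C) = cups n ++ (β ++ inv β) ++ C := by simp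
      rw [e1] at a1
      rw [List.append_nil] at a2
      exact iso_trans a1 (iso_trans a2 hCS.1.2)
    have hd : Dir o (inv β ++ C) [] :=
      dir_append.2 ⟨alt n, dir_inv hβ' dβ, closed_dir hCS.1.1 (length_alt n) hCS.2⟩
    have h2 := hH _ (legal_append.2 ⟨2 * n, hiL, hCS.1.1⟩) hd h1 hK
    obtain ⟨c, hc, h3⟩ := brv_iso h2
    exact ⟨c, hc, by rw [h3, brv_unknot]⟩
  -- a good closing
  obtain ⟨k0, f0, hM0⟩ := mt_word (β ++ C') (2 * n) (legal_append.2 ⟨2 * n, hβL, hCl⟩)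
  change Mt (2 * n) k0 f0 (oF (β ++ C')) at hM0
  obtain ⟨C, hCS, hCv⟩ := realize n k0 f0 _ hM0 (by rw [hSβ C' hCl, hSC])
  have hCo : InSo n C := ⟨hCS, by
    rw [hCv _ (length_alt n)]
    exact dir_closed (dir_append.2 ⟨o, dβ, dC'⟩)⟩
  have hKC : IsKnot ((T ++ inv β) ++ C) := by
    rw [isKnot_iff (legal_append.2 ⟨2 * n, hTi, hCS.1⟩)]
    have h1 : oF ((T ++ inv β) ++ C) [] = oF ((T ++ inv β) ++ (β ++ C')) [] := by
      rw [oF_append, oF_append (T ++ inv β) (β ++ C')]
      exact val_congr _ hTi _ _ [] rfl hCv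
    rw [h1, hrem C' hCl, hTC]
  have hten := same_tensor_o hSp hTi hHX dTi hCo hKC
  refine key_o hT hS hβ' hβL hiso fun D hD => hHX D hD ?_
  rw [isKnot_iff (legal_append.2 ⟨2 * n, hTi, hD.1.1⟩), oF_append, hten]
  have h1 : IsKnot (cups n ++ D) := (iso_isKnot hD.1.2).2 isKnot_unknot
  have h2 := (isKnot_iff h1.1).1 h1
  rw [oF_append] at h2
  exact h2

end Pool.Agent.Helper31.Sk
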