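import Pool.Agent.Helper31.Sk.Twi

/-! Closings which are compatible with the alternating orientation. -/

set_option autoImplicit false

namespace Pool.Agent.Helper31.Sk

/-- the alternating directions -/
def alt : ℕ → List Bool
  | 0 => []
  | n + 1 => true :: false :: alt n

theorem length_alt (n : ℕ) : (alt n).length = 2 * n := by
  induction n with
  | zero => rfl
  | succ n ih =>
    simp only [alt, List.length_cons, ih]
    ring

theorem nth_alt (n : ℕ) : ∀ j < 2 * n, nth (alt n) j = decide (j % 2 = 0) := by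
  induction n with
  | zero => intro j hj; omega
  | succ n ih =>
    intro j hj
    rcases j with _ | _ | j
    · rfl
    · rfl
    · simp only [alt, nth_succ]
      rw [ih j (by omega)]
      have : (j + 1 + 1) % 2 = j % 2 := by omega
      rw [this]

theorem del_alt (n i : ℕ) (hi : i < n) : del (2 * i + 1) (alt (n + 1)) = alt n := by
  have hl := length_alt (n + 1)
  have hd := length_del (2 * i + 1) (alt (n + 1)) (by omega)
  refine nth_ext (by rw [hd, hl, length_alt]; omega) fun k hk => ?_
  rw [hd, hl] at hk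
  rw [nth_del _ _ (by omega)]
  rw [nth_alt n k (by omega)]
  by_cases h : k < 2 * i + 1
  · rw [if_pos h, nth_alt (n + 1) k (by omega)]
  · rw [if_neg h, nth_alt (n + 1) (k + 2) (by omega)]
    have : (k + 2) % 2 = k % 2 := by omega
    rw [this]

/-- closings to the unknot which are compatible with the alternating orientation -/
def InSo (n : ℕ) (C : Word) : Prop := InS n C ∧ 0 < oF C (alt n)

/-- a full twist -/
abbrev pp (i : ℕ) (C : Word) : Word := (2 * i, .pos) :: (2 * i, .pos) :: C

theorem oF_pp {n i : ℕ} (hi : i < n) (C : Word) (l : List Bool) (hl : l.length = 2 * n) :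
    oF (pp i C) l = oF C l := by
  rw [oF_cons, or_cross _ _ (Or.inl rfl) _ _ (by omega), oF_cons,
    or_cross _ _ (Or.inl rfl) _ _ (by rw [length_swp]; omega), swp_swp]

theorem inSo_pp {n : ℕ} {C : Word} (h : InSo n C) {i : ℕ} (hi : i < n) : InSo n (pp i C) :=
  ⟨inS_twist (inS_twist h.1 hi (Or.inl rfl)) hi (Or.inl rfl), by
    rw [oF_pp hi C _ (length_alt n)]; exact h.2⟩

theorem inSo_cap {n : ℕ} {C : Word} (h : InSo n C) {i : ℕ} (hi : i < n) :
    InSo (n + 1) ((2 * i + 1, .cap) :: C) := by
  refine ⟨inS_cap h.1 hi, ?_⟩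
  have hl := length_alt (n + 1)
  rw [oF_cons, or_cap _ _ _ (by omega), if_neg, del_alt n i hi]
  · exact h.2
  · rw [nth_alt _ _ (by omega), nth_alt _ _ (by omega)]
    have e1 : (2 * i + 1) % 2 = 1 := by omega
    have e2 : (2 * i + 1 + 1) % 2 = 0 := by omega
    rw [e1, e2]
    decide

theorem inSo_zero : InSo 0 unknot := ⟨inS_zero, by
  show 0 < oF unknot []
  rw [oF_unknot]
  norm_num⟩

theorem inSo_one : InSo 1 [(0, .cap)] := ⟨inS_one, by
  simp [oF, act0, Or, alt]⟩

/-! ### full twists -/

theorem full1 {m : ℕ} {L : (List Bool → ℚ) → ℚ} (hL : Loc m L) {i : ℕ} (hi : i + 2 ≤ m)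
    (D : Word) : L (fC ((i, .pos) :: D)) = 19 * L (fC D) -
      1 / 19 * L (act WW i .cap (act WW i .cup (fC D))) := by
  have e : L (act WW i .pos (fC D)) = L (fun l => 19 * fC D l +
      (-(1 / 19)) * act WW i .cap (act WW i .cup (fC D)) l) := by
    refine hL.loc _ _ fun l hl => ?_
    rw [act_pos i (fC D) l (by omega)]
    ring
  rw [fC_cons, e, hL.lin]
  ring

theorem full2 {m : ℕ} {L : (List Bool → ℚ) → ℚ} (hL : Loc m L) {i : ℕ} (hi : i + 2 ≤ m)
    (D : Word) : L (act WW i .cap (act WW i .cup (fC ((i, .pos) :: D)))) =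
        -(1 / 19) ^ 3 * L (act WW i .cap (act WW i .cup (fC D))) := by
  rw [← hL.smul]
  refine hL.loc _ _ fun l hl => ?_
  rw [← act_smul]
  refine act_congr WW _ _ _ _ l (by simp only [Gen.src]; omega) fun l' hl' => ?_
  simp only [Gen.src, Gen.tgt] at hl'
  rw [fC_cons]
  exact act_r1 hab19 i (fC D) l' (by omega)

/-- three values at full twists -/
theorem unit_step {m : ℕ} {L : (List Bool → ℚ) → ℚ} (hL : Loc m L) {i : ℕ} (hi : 2 * i + 2 ≤ m)
    {C : Word} (δ : ℚ) (hδ : δ ≠ 0) (h0 : ∃ c, Un c ∧ L (fC C) = c * δ)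
    (h1 : ∃ c, Un c ∧ L (fC (pp i C)) = c * δ)
    (h2 : ∃ c, Un c ∧ L (fC (pp i (pp i C))) = c * δ) :
    L (act WW (2 * i) .cap (act WW (2 * i) .cup (fC C))) = dlt * L (fC C) := by
  have hd : dlt ≠ 0 := by unfold dlt; norm_num
  have g : ∀ x : ℚ, (∃ c, Un c ∧ x = c * δ) → ∃ c, Un c ∧ dlt / δ * x = c * dlt := by
    rintro x ⟨c, hc, rfl⟩
    exact ⟨c, hc, by field_simp⟩
  have a1 := full1 hL hi C
  have a2 := full1 hL hi ((2 * i, .pos) :: C)
  have a3 := full1 hL hi (pp i C)
  have a4 := full1 hL hi ((2 * i, .pos) :: pp i C)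
  have b1 := full2 hL hi C
  have b2 := full2 hL hi ((2 * i, .pos) :: C)
  have b3 := full2 hL hi (pp i C)
  have key := arith2 (y0 := dlt / δ * L (act WW (2 * i) .cap (act WW (2 * i) .cup (fC C))))
    (g _ h0) (g _ h1) (g _ h2) (by
      rw [a2, a1, b1]; ring) (by
      rw [a4, b3, a3, b2, b1]; ring)
  have h3 : dlt / δ ≠ 0 := div_ne_zero hd hδ
  have h4 : dlt / δ * L (act WW (2 * i) .cap (act WW (2 * i) .cup (fC C))) =
      dlt / δ * (dlt * L (fC C)) := by rw [key]; ring
  exact mul_left_cancel₀ h3 h4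

theorem twist_zero_o {n : ℕ} {L : (List Bool → ℚ) → ℚ} (hL : Loc (2 * n) L)
    (h : ∀ C, InSo n C → L (fC C) = 0) {C : Word} (hC : InSo n C) {i : ℕ} (hi : i < n) :
    L (act WW (2 * i) .cap (act WW (2 * i) .cup (fC C))) = 0 := by
  have h0 := h C hC
  have h1 := h _ (inSo_pp hC hi)
  rw [full1 hL (by omega), full1 hL (by omega), full2 hL (by omega), h0] at h1
  norm_num at h1
  linarith

theorem twist_unit_o {n : ℕ} {L : (List Bool → ℚ) → ℚ} (hL : Loc (2 * n) L)
    (h : ∀ C, InSo n C → ∃ c, Un c ∧ L (fC C) = c * dlt) {C : Word} (hC : InSo n C) {i : ℕ}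
    (hi : i < n) :
    L (act WW (2 * i) .cap (act WW (2 * i) .cup (fC C))) = dlt * L (fC C) :=
  unit_step hL (by omega) dlt (by unfold dlt; norm_num) (h C hC) (h _ (inSo_pp hC hi))
    (h _ (inSo_pp (inSo_pp hC hi) hi))

/-- the closings in `S(n)` span all closings by caps -/
theorem span_o (n : ℕ) : ∀ L : (List Bool → ℚ) → ℚ, Loc (2 * n) L →
    (∀ C, InSo n C → L (fC C) = 0) → ∀ V, CapOnly V → Legal (2 * n) V 0 → L (fC V) = 0 := by
  induction n with
  | zero =>
    intro L hL h V hV hV2
    rcases V with _ | ⟨⟨j, g⟩, V⟩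
    · have h1 := h _ inSo_zero
      have e : L (fC unknot) = dlt * L (fC []) := by
        rw [← hL.smul]
        refine hL.loc _ _ fun l hl => ?_
        exact act_loop 0 _ l (by omega)
      rw [e] at h1
      rcases mul_eq_zero.1 h1 with h2 | h2
      · exfalso
        unfold dlt at h2
        norm_num at h2
      · exact h2
    · obtain ⟨_, _, h1, _⟩ := legal_capOnly_cons hV hV2
      omega
  | succ n ih =>
    intro L hL h V hV hV2
    rcases V with _ | ⟨⟨j, g⟩, V⟩
    · simp only [Legal] at hV2
      omega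
    obtain ⟨rfl, hV', h1, hV3⟩ := legal_capOnly_cons hV hV2
    have e0 : 2 * (n + 1) - 2 = 2 * n := by omega
    rw [e0] at hV3
    have hL' : Loc (2 * n) (fun φ => L (act WW j .cap φ)) :=
      hL.act j .cap (by simp only [Gen.src]; omega) (2 * n) (by simp only [Gen.src, Gen.tgt]; omega)
    rw [fC_cons]
    rcases Nat.even_or_odd' j with ⟨i, rfl | rfl⟩
    · rcases Nat.eq_zero_or_pos n with rfl | hn
      · -- one strand
        rcases V with _ | ⟨⟨j, g⟩, V⟩
        · obtain rfl : i = 0 := by omega
          exact h _ inSo_one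
        · obtain ⟨_, _, h1, _⟩ := legal_capOnly_cons hV' hV3
          omega
      · refine ih _ hL' (fun C hC => ?_) V hV' hV3
        obtain ⟨k, hk, hki⟩ := nbr (n := n) (i := i) (by omega) hn
        have h2 := twist_zero_o hL h (inSo_cap hC hk) (i := i) (by omega)
        rw [← h2]
        refine hL.loc _ _ fun l hl => ?_
        refine act_congr WW _ _ _ _ l (by simp only [Gen.src]; omega) fun l' hl' => ?_
        simp only [Gen.src, Gen.tgt] at hl'
        rw [fC_cons]
        exact (cup_nbr (by omega) (fC C) l' (by omega) (by omega)).symm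
    · refine ih _ hL' (fun C hC => ?_) V hV' hV3
      exact h _ (inSo_cap hC (by omega))

/-- a functional with unit values on `S(n)` is a unit times the evaluation on the cups -/
theorem mainL_o (n : ℕ) : ∀ L : (List Bool → ℚ) → ℚ, Loc (2 * n) L →
    (∀ C, InSo n C → ∃ c, Un c ∧ L (fC C) = c * dlt) →
    ∃ c, Un c ∧ ∀ V, CapOnly V → Legal (2 * n) V 0 → L (fC V) = c * Kf n (fC V) := by
  have hδ : dlt ≠ 0 := by unfold dlt; norm_num
  induction n with
  | zero =>
    intro L hL h
    obtain ⟨c, hc, h1⟩ := h _ inSo_zero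
    refine ⟨c, hc, fun V hV hV2 => ?_⟩
    rcases V with _ | ⟨⟨j, g⟩, V⟩
    · have e : L (fC unknot) = dlt * L (fC []) := by
        rw [← hL.smul]
        refine hL.loc _ _ fun l hl => ?_
        exact act_loop 0 _ l (by omega)
      rw [e] at h1
      have h2 : L (fC []) = c := by
        have : dlt * L (fC []) = dlt * c := by rw [h1]; ring
        exact mul_left_cancel₀ hδ this
      rw [h2]
      simp [Kf, fC, cups]
    · obtain ⟨_, _, h1, _⟩ := legal_capOnly_cons hV hV2
      omega
  | succ n ih =>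
    intro L hL h
    rcases Nat.eq_zero_or_pos n with rfl | hn
    · obtain ⟨c, hc, h1⟩ := h _ inSo_one
      refine ⟨c, hc, fun V hV hV2 => ?_⟩
      rcases V with _ | ⟨⟨j, g⟩, V⟩
      · simp only [Legal] at hV2
        omega
      obtain ⟨rfl, hV', h2, hV3⟩ := legal_capOnly_cons hV hV2
      rcases V with _ | ⟨⟨j', g⟩, V⟩
      · obtain rfl : j = 0 := by omega
        rw [h1, fC_cons]
        have := K_even 0 0 le_rfl (fC [])
        rw [show 2 * 0 = 0 from rfl] at this
        rw [this]
        simp [Kf, fC, cups]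
      · obtain ⟨_, _, h1, _⟩ := legal_capOnly_cons hV' hV3
        omega
    · -- odd positions
      have hLo : ∀ j, j + 2 ≤ 2 * (n + 1) → Loc (2 * n) (fun φ => L (act WW j .cap φ)) := fun j hj =>
        hL.act j .cap (by simp only [Gen.src]; omega) (2 * n)
          (by simp only [Gen.src, Gen.tgt]; omega)
      have hodd : ∀ i < n, ∃ c, Un c ∧ ∀ V, CapOnly V → Legal (2 * n) V 0 →
          L (act WW (2 * i + 1) .cap (fC V)) = c * Kf n (fC V) := by
        intro i hi
        exact ih _ (hLo _ (by omega)) fun C hC => h _ (inSo_cap hC hi)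
      -- even positions
      have heven : ∀ i k, i < n + 1 → k < n → (2 * k + 1 = 2 * i + 1 ∨ 2 * k + 1 + 1 = 2 * i) →
          ∀ V, CapOnly V → Legal (2 * n) V 0 →
          L (act WW (2 * i) .cap (fC V)) = dlt * L (act WW (2 * k + 1) .cap (fC V)) := by
        intro i k hi hk hik V hV hV2
        have h1 := span_o n (fun φ => L (act WW (2 * i) .cap φ) - dlt * L (act WW (2 * k + 1) .cap φ))
          ((hLo _ (by omega)).sub (hLo _ (by omega)) dlt) (fun C hC => ?_) V hV hV2
        · linarith
        · have h2 := twist_unit_o hL h (inSo_cap hC hk) hi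
          rw [fC_cons] at h2
          rw [← h2]
          have e : L (act WW (2 * i) .cap (fC C)) = L (act WW (2 * i) .cap
              (act WW (2 * i) .cup (act WW (2 * k + 1) .cap (fC C)))) := by
            refine hL.loc _ _ fun l hl => ?_
            refine act_congr WW _ _ _ _ l (by simp only [Gen.src]; omega) fun l' hl' => ?_
            simp only [Gen.src, Gen.tgt] at hl'
            exact (cup_nbr (by omega) (fC C) l' (by omega) (by omega)).symm
          rw [e]
          ring
      obtain ⟨c, hc, h0⟩ := hodd 0 hn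
      have hall : ∀ i < n, ∀ V, CapOnly V → Legal (2 * n) V 0 →
          L (act WW (2 * i + 1) .cap (fC V)) = c * Kf n (fC V) := by
        intro i
        induction i with
        | zero => intro _ V hV hV2; exact h0 V hV hV2
        | succ i ihi =>
          intro hi V hV hV2
          obtain ⟨d, hd, h1⟩ := hodd (i + 1) hi
          have h2 := ihi (by omega)
          obtain ⟨V0, a1, a2, a3⟩ := exists_capOnly n
          have e1 := heven (i + 1) i (by omega) (by omega) (Or.inr (by omega)) V0 a1 a2
          have e2 := heven (i + 1) (i + 1) (by omega) (by omega) (Or.inl rfl) V0 a1 a2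
          rw [e1, h2 V0 a1 a2, h1 V0 a1 a2] at e2
          have e3 : c = d := mul_right_cancel₀ a3 (mul_left_cancel₀ hδ e2)
          rw [e3]
          exact h1 V hV hV2
      refine ⟨c, hc, fun V hV hV2 => ?_⟩
      rcases V with _ | ⟨⟨j, g⟩, V⟩
      · simp only [Legal] at hV2
        omega
      obtain ⟨rfl, hV', h1, hV3⟩ := legal_capOnly_cons hV hV2
      have e0 : 2 * (n + 1) - 2 = 2 * n := by omega
      rw [e0] at hV3
      rw [fC_cons]
      rcases Nat.even_or_odd' j with ⟨i, rfl | rfl⟩
      · obtain ⟨k, hk, hki⟩ := nbr (n := n) (i := i) (by omega) hn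
        rw [heven i k (by omega) hk (by omega) V hV' hV3, hall k hk V hV' hV3,
          K_even n i (by omega)]
        ring
      · rw [hall i (by omega) V hV' hV3, K_odd n i (by omega)]

end Pool.Agent.Helper31.Sk
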