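import Pool.Agent.Helper31.Sk.OrKey
import Pool.Agent.Helper31.Sk.Main2

/-! The main theorem for moves of oriented and unoriented tangles. -/

set_option autoImplicit false

namespace Pool.Agent.Helper31.Sk

/-- the torus knots and their mirror images -/
theorem final (P : Finset ℕ) (h19 : 19 ∈ P)
    (h : ∀ w, IsKnot w → IsKnot (mir w) → ∃ c, UP P c ∧ brv w = c * brv (mir w)) : False := by
  -- the torus knots
  obtain ⟨k, hk, ℓ, hℓ, hℓP, d1, d2⟩ := primes (19 ^ 4) (by norm_num) P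
  have hodd : Odd (2 * k + 1) := odd_two_mul_add_one k
  have hK := isKnot_tor hodd
  have hK' : IsKnot (mir (tor (2 * k + 1))) := mir_isKnot.2 hK
  obtain ⟨c, hc, h1⟩ := h _ hK hK'
  rw [mir_tor, tor, (tor_vals _).1, (mtor_vals _).1] at h1
  have hfact : Fact ℓ.Prime := ⟨hℓ⟩
  have hℓ19 : ℓ ≠ 19 := fun h => hℓP (h ▸ h19)
  -- `N` and `D`
  set N : ℤ := (((19 ^ 4 : ℕ) : ℤ)) ^ (2 * k) * (((19 ^ 4 : ℕ) : ℤ) ^ 2 + ((19 ^ 4 : ℕ) : ℤ) + 1) - 1
    with hN
  set D : ℤ := (((19 ^ 4 : ℕ) : ℤ)) ^ (2 * k + 2) - (((19 ^ 4 : ℕ) : ℤ) ^ 2 + ((19 ^ 4 : ℕ) : ℤ) + 1)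
    with hD
  have hA : ((19 ^ 4 : ℕ) : ℚ) = (19 : ℚ) ^ 4 := by norm_num
  have hNq : (N : ℚ) = ((19 : ℚ) ^ 4) ^ (2 * k) * (((19 : ℚ) ^ 4) ^ 2 + (19 : ℚ) ^ 4 + 1) - 1 := by
    have : ∀ A : ℕ, (((A : ℤ) ^ (2 * k) * ((A : ℤ) ^ 2 + (A : ℤ) + 1) - 1 : ℤ) : ℚ) =
        (A : ℚ) ^ (2 * k) * ((A : ℚ) ^ 2 + (A : ℚ) + 1) - 1 := by
      intro A; push_cast; ring
    rw [hN, this, hA]
  have hDq : (D : ℚ) = ((19 : ℚ) ^ 4) ^ (2 * k + 2) - (((19 : ℚ) ^ 4) ^ 2 + (19 : ℚ) ^ 4 + 1) := by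
    have : ∀ A : ℕ, (((A : ℤ) ^ (2 * k + 2) - ((A : ℤ) ^ 2 + (A : ℤ) + 1) : ℤ) : ℚ) =
        (A : ℚ) ^ (2 * k + 2) - ((A : ℚ) ^ 2 + (A : ℚ) + 1) := by
      intro A; push_cast; ring
    rw [hD, this, hA]
  have x1 : (19 : ℚ) ^ (2 * k + 1) * (dlt ^ 2 - 1) + (-(1 / 19) ^ 3) ^ (2 * k + 1) =
      (1 / 19) ^ (3 * (2 * k + 1)) * (N : ℚ) := by
    rw [hNq]
    have e1 : (-(1 / 19 : ℚ) ^ 3) ^ (2 * k + 1) = -(1 / 19) ^ (3 * (2 * k + 1)) := by
      rw [Odd.neg_pow hodd, ← pow_mul]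
    have e2 : ((19 : ℚ) ^ 4) ^ (2 * k) = 19 ^ (3 * (2 * k + 1)) * 19 ^ (2 * k + 1) / 19 ^ 4 := by
      rw [← pow_mul, ← pow_add, eq_div_iff (by norm_num), ← pow_add]
      congr 1
      ring
    have e3 : (1 / 19 : ℚ) ^ (3 * (2 * k + 1)) * 19 ^ (3 * (2 * k + 1)) = 1 := by
      rw [← mul_pow]; norm_num
    have e4 : (dlt ^ 2 - 1 : ℚ) = ((19 ^ 4) ^ 2 + 19 ^ 4 + 1) / 19 ^ 4 := by
      unfold dlt; norm_num
    rw [e1, e2, e4]
    have e5 : (1 / 19 : ℚ) ^ (3 * (2 * k + 1)) * (19 ^ (3 * (2 * k + 1)) * 19 ^ (2 * k + 1) / 19 ^ 4 *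
        ((19 ^ 4) ^ 2 + 19 ^ 4 + 1) - 1) =
        ((1 / 19 : ℚ) ^ (3 * (2 * k + 1)) * 19 ^ (3 * (2 * k + 1))) * 19 ^ (2 * k + 1) *
          (((19 ^ 4) ^ 2 + 19 ^ 4 + 1) / 19 ^ 4) - (1 / 19) ^ (3 * (2 * k + 1)) := by
      ring
    rw [e5, e3]
    ring
  have x2 : (1 / 19 : ℚ) ^ (2 * k + 1) * (dlt ^ 2 - 1) + (-19 ^ 3) ^ (2 * k + 1) =
      -((1 / 19) ^ (2 * k + 5) * (D : ℚ)) := by
    rw [hDq]
    have e1 : (-(19 : ℚ) ^ 3) ^ (2 * k + 1) = -19 ^ (3 * (2 * k + 1)) := by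
      rw [Odd.neg_pow hodd, ← pow_mul]
    have e2 : ((19 : ℚ) ^ 4) ^ (2 * k + 2) = 19 ^ (3 * (2 * k + 1)) * 19 ^ (2 * k + 5) := by
      rw [← pow_mul, ← pow_add]
      congr 1
      ring
    have e3 : (1 / 19 : ℚ) ^ (2 * k + 5) * 19 ^ (2 * k + 5) = 1 := by
      rw [← mul_pow]; norm_num
    have e4 : (dlt ^ 2 - 1 : ℚ) = ((19 ^ 4) ^ 2 + 19 ^ 4 + 1) / 19 ^ 4 := by
      unfold dlt; norm_num
    have e6 : (1 / 19 : ℚ) ^ (2 * k + 5) = (1 / 19) ^ (2 * k + 1) * (1 / 19 ^ 4) := by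
      rw [show 2 * k + 5 = (2 * k + 1) + 4 by ring, pow_add]
      norm_num
    have e7 : (1 / 19 : ℚ) ^ (2 * k + 5) * (((19 : ℚ) ^ 4) ^ (2 * k + 2) -
        ((19 ^ 4) ^ 2 + 19 ^ 4 + 1)) =
        ((1 / 19 : ℚ) ^ (2 * k + 5) * 19 ^ (2 * k + 5)) * 19 ^ (3 * (2 * k + 1)) -
          (1 / 19) ^ (2 * k + 5) * ((19 ^ 4) ^ 2 + 19 ^ 4 + 1) := by
      rw [e2]; ring
    rw [e7, e3, e1, e4, e6]
    ring
  rw [x1, x2] at h1
  have hD0 : D ≠ 0 := fun h => d2 (by rw [h]; exact dvd_zero _)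
  have hN0 : N ≠ 0 := by
    intro h
    -- the bracket of the torus knot does not vanish
    have h4 := brv_ne hK
    rw [tor, (tor_vals _).1, x1, h] at h4
    simp at h4
  have v1 : padicValRat ℓ ((1 / 19 : ℚ) ^ (3 * (2 * k + 1)) * (N : ℚ)) = padicValRat ℓ (N : ℚ) := by
    rw [padicValRat.mul (by positivity) (by exact_mod_cast hN0), val_inv_pow hℓ hℓ19, zero_add]
  have v2 : padicValRat ℓ (-((1 / 19 : ℚ) ^ (2 * k + 5) * (D : ℚ))) = padicValRat ℓ (D : ℚ) := by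
    rw [padicValRat.neg, padicValRat.mul (by positivity) (by exact_mod_cast hD0),
      val_inv_pow hℓ hℓ19, zero_add]
  have v3 : padicValRat ℓ (D : ℚ) = 0 := by
    rw [padicValRat.of_int, padicValInt.eq_zero_of_not_dvd d2]
    rfl
  have v4 : 1 ≤ padicValRat ℓ (N : ℚ) := by
    rw [padicValRat.of_int]
    have : 1 ≤ padicValInt ℓ N :=
      one_le_padicValNat_of_dvd (by simpa using hN0) (Int.natCast_dvd.1 d1)
    exact_mod_cast this
  have hne : ((1 / 19 : ℚ) ^ (2 * k + 5) * (D : ℚ)) ≠ 0 :=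
    mul_ne_zero (by positivity) (by exact_mod_cast hD0)
  have hval := congrArg (padicValRat ℓ) h1
  rw [padicValRat.mul hc.1 (neg_ne_zero.2 hne), v2, v3, hc.2 ℓ hℓ hℓP, v1] at hval
  omega


theorem eqv_ratio {R : Word → Word → Prop} {P : Finset ℕ} (hP : 19 ∈ P)
    (hR : ∀ w w', IsKnot w → IsKnot w' → R w w' → ∃ c, UP P c ∧ brv w' = c * brv w)
    {w w' : Word}
    (h : Relation.EqvGen (fun w w' => IsKnot w ∧ IsKnot w' ∧ (Iso 0 0 w w' ∨ R w w')) w w') :
    ∃ c, UP P c ∧ brv w' = c * brv w := by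
  induction h with
  | rel w w' h =>
    obtain ⟨hw, hw', h | h⟩ := h
    · obtain ⟨c, hc, h1⟩ := brv_iso h
      obtain ⟨d, hd, e⟩ := un_inv hc
      refine ⟨d, up_un hP hd, ?_⟩
      rw [h1, ← mul_assoc, mul_comm d c, e, one_mul]
    · exact hR w w' hw hw' h
  | refl w => exact ⟨1, up_un hP un_one, by rw [one_mul]⟩
  | symm w w' _ ih =>
    obtain ⟨c, hc, h1⟩ := ih
    obtain ⟨d, hd, e⟩ := up_inv hc
    refine ⟨d, hd, ?_⟩
    rw [h1, ← mul_assoc, mul_comm d c, e, one_mul]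
  | trans w w' w'' _ _ ih1 ih2 =>
    obtain ⟨c, hc, h1⟩ := ih1
    obtain ⟨d, hd, h2⟩ := ih2
    exact ⟨d * c, up_mul hd hc, by rw [h2, h1, mul_assoc]⟩

theorem legal_even (w : Word) : ∀ m n, Legal m w n → m % 2 = n % 2 := by
  induction w with
  | nil =>
    intro m n h
    simp only [Legal] at h
    rw [h]
  | cons s w ih =>
    intro m n h
    obtain ⟨i, g⟩ := s
    obtain ⟨h1, h2⟩ := h
    have h3 := ih _ _ h2
    rcases g with _ | _ | _ | _ <;> simp only [Gen.src, Gen.tgt] at h1 h3 <;> omega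

/-- the factor of a pair of tangles with at most two ends -/
def kap (m : ℕ × Word × Word) : ℚ := sca m.1 m.2.2 / sca m.1 m.2.1

/-- finitely many pairs of tangles with at most two ends -/
theorem exc {F : Set (ℕ × Word × Word)} (hF : F.Finite) :
    ∃ P : Finset ℕ, 19 ∈ P ∧ ∀ (n : ℕ) (S T u v : Word) (a : ℕ), (n, S, T) ∈ F → n ≤ 1 →
      Legal 0 S (2 * n) → Legal 0 T (2 * n) → IsKnot (u ++ shift a S ++ v) →
      IsKnot (u ++ shift a T ++ v) →
      ∃ c, UP P c ∧ brv (u ++ shift a T ++ v) = c * brv (u ++ shift a S ++ v) := by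
  classical
  refine ⟨insert 19 (hF.toFinset.biUnion fun m =>
    (kap m).num.natAbs.primeFactors ∪ (kap m).den.primeFactors), Finset.mem_insert_self _ _, ?_⟩
  intro n S T u v a hm hn hS hT hw hw'
  have b1 := brv_ne hw
  have b2 := brv_ne hw'
  have hleg := leg_few hn hS hw.1
  have r1 := ratio_ctx (legal_cups n) hS (c := sca n S) (fun φ => few_strings hn hS φ) hleg hw.1
  have r2 := ratio_ctx (legal_cups n) hT (c := sca n T) (fun φ => few_strings hn hT φ) hleg hw'.1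
  have s1 : sca n S ≠ 0 := fun h => b1 (by rw [r1, h, zero_mul])
  have s2 : sca n T ≠ 0 := fun h => b2 (by rw [r2, h, zero_mul])
  refine ⟨kap (n, S, T), ⟨div_ne_zero s2 s1, fun ℓ hℓ hl => ?_⟩, ?_⟩
  · have hmem : (n, S, T) ∈ hF.toFinset := by
      rw [Set.Finite.mem_toFinset]
      exact hm
    have hnot : ℓ ∉ (kap (n, S, T)).num.natAbs.primeFactors ∧
        ℓ ∉ (kap (n, S, T)).den.primeFactors := by
      have h3 : ℓ ∉ hF.toFinset.biUnion fun m =>
          (kap m).num.natAbs.primeFactors ∪ (kap m).den.primeFactors := fun h =>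
        hl (Finset.mem_insert_of_mem h)
      rw [Finset.mem_biUnion] at h3
      push Not at h3
      have := h3 _ hmem
      rw [Finset.mem_union] at this
      tauto
    have hκ0 : kap (n, S, T) ≠ 0 := div_ne_zero s2 s1
    have n1 : ¬ ℓ ∣ (kap (n, S, T)).num.natAbs := fun h => hnot.1
      (Nat.mem_primeFactors.2 ⟨hℓ, h, by simpa using hκ0⟩)
    have n2 : ¬ ℓ ∣ (kap (n, S, T)).den := fun h => hnot.2
      (Nat.mem_primeFactors.2 ⟨hℓ, h, (kap (n, S, T)).den_nz⟩)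
    rw [padicValRat, padicValInt, padicValNat.eq_zero_of_not_dvd n1,
      padicValNat.eq_zero_of_not_dvd n2]
    simp
  · rw [r2, r1]
    simp only [kap]
    field_simp

/-- One of the two sides of the move of oriented tangles is a trivial tangle. -/
def TrivMoveO (m : List Bool × Word × Word) : Prop :=
  Triv (m.1.length / 2) m.2.1 ∨ Triv (m.1.length / 2) m.2.2

/-- **Main theorem**, for moves of unoriented and oriented tangles. -/
theorem main3 (hSp : GoalSp) {X : Type} (I : Word → X)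
    (hdet : ∀ w, IsKnot w → I w = I unknot → Iso 0 0 w unknot)
    (hmir : ∀ w, IsKnot w → I (mir w) = I w)
    (M : Set (ℕ × Word × Word)) (N : Set (List Bool × Word × Word))
    (hM1 : ∀ m ∈ M, Legal 0 m.2.1 (2 * m.1) ∧ Legal 0 m.2.2 (2 * m.1))
    (hN1 : ∀ m ∈ N, Legal 0 m.2.1 m.1.length ∧ Legal 0 m.2.2 m.1.length)
    (hM2 : ∀ m ∈ M, TrivMove m ∨ m.1 ≤ 1) (hN2 : ∀ m ∈ N, TrivMoveO m ∨ m.1.length ≤ 2)
    (hM3 : {m ∈ M | ¬ TrivMove m}.Finite) (hN3 : {m ∈ N | ¬ TrivMoveO m}.Finite) :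
    ¬ GeneratesO M N I := by
  intro hgen
  classical
  set conv : List Bool × Word × Word → ℕ × Word × Word := fun m => (m.1.length / 2, m.2) with hconv
  obtain ⟨P, h19, hexc⟩ := exc (hM3.union (hN3.image conv))
  -- equality of `I` for related diagrams
  have hI : ∀ w w', IsKnot w → IsKnot w' → (Iso 0 0 w w' ∨ Applies M w w' ∨ AppliesO N w w') →
      I w = I w' :=
    fun w w' hw hw' h => (hgen w w' hw hw').2 (Relation.EqvGen.rel _ _ ⟨hw, hw', h⟩)
  have hR : ∀ w w', IsKnot w → IsKnot w' → (Applies M w w' ∨ AppliesO N w w') →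
      ∃ c, UP P c ∧ brv w' = c * brv w := by
    intro w w' hw hw' h
    rcases h with h | h
    · obtain ⟨n, S, T, u, v, a, hm, rfl, rfl⟩ := h
      obtain ⟨hS, hT⟩ := hM1 _ hm
      simp only at hS hT
      by_cases hg : TrivMove (n, S, T)
      · have htriv : Triv n S ∨ Triv n T := hg
        have happ : ∀ v, Applies M (S ++ v) (T ++ v) := by
          intro v
          exact ⟨n, S, T, [], v, 0, hm, by simp [shift_zero], by simp [shift_zero]⟩
        rcases htriv with htriv | htriv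
        · obtain ⟨c, hc, h1⟩ := triv_case hT hS htriv (fun v _ hiso k2 => by
            have k1 : IsKnot (S ++ v) := (iso_isKnot hiso).2 isKnot_unknot
            refine hdet _ k2 ?_
            rw [← hI _ _ k1 k2 (Or.inr (Or.inl (happ v)))]
            exact hI _ _ k1 isKnot_unknot (Or.inl hiso)) hw hw'
          exact ⟨c, up_un h19 hc, ratio_ctx hS hT h1 hw.1 hw'.1⟩
        · obtain ⟨c, hc, h1⟩ := triv_case hS hT htriv (fun v _ hiso k2 => by
            have k1 : IsKnot (T ++ v) := (iso_isKnot hiso).2 isKnot_unknot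
            refine hdet _ k2 ?_
            rw [hI _ _ k2 k1 (Or.inr (Or.inl (happ v)))]
            exact hI _ _ k1 isKnot_unknot (Or.inl hiso)) hw' hw
          obtain ⟨d, hd, e⟩ := un_inv hc
          refine ⟨d, up_un h19 hd, ?_⟩
          have h2 := ratio_ctx hT hS h1 hw'.1 hw.1
          rw [h2, ← mul_assoc, mul_comm d c, e, one_mul]
      · exact hexc n S T u v a (Or.inl ⟨hm, hg⟩) ((hM2 _ hm).resolve_left hg) hS hT hw hw'
    · obtain ⟨o, S, T, u, v, l, r, hm, rfl, rfl, du, dS, dT, dv⟩ := h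
      obtain ⟨hS, hT⟩ := hN1 _ hm
      simp only at hS hT
      have heven := legal_even S 0 _ hS
      obtain ⟨n, hn⟩ : ∃ n, o.length = 2 * n := ⟨o.length / 2, by omega⟩
      have hn2 : o.length / 2 = n := by omega
      rw [hn] at hS hT
      by_cases hg : TrivMoveO (o, S, T)
      · have htriv : Triv n S ∨ Triv n T := by
          have := hg
          unfold TrivMoveO at this
          simp only [hn2] at this
          exact this
        have happ : ∀ v, Dir o v [] → AppliesO N (S ++ v) (T ++ v) := by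
          intro v dv
          exact ⟨o, S, T, [], v, [], [], hm, by simp [shift_zero], by simp [shift_zero], rfl, dS,
            dT, by simpa using dv⟩
        rcases htriv with htriv | htriv
        · obtain ⟨c, hc, h1⟩ := triv_case_o hSp hT hS htriv dS dT (fun v _ dv' hiso k2 => by
            have k1 : IsKnot (S ++ v) := (iso_isKnot hiso).2 isKnot_unknot
            refine hdet _ k2 ?_
            rw [← hI _ _ k1 k2 (Or.inr (Or.inr (happ v dv')))]
            exact hI _ _ k1 isKnot_unknot (Or.inl hiso)) hw hw' du dv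
          exact ⟨c, up_un h19 hc, ratio_ctx hS hT h1 hw.1 hw'.1⟩
        · obtain ⟨c, hc, h1⟩ := triv_case_o hSp hS hT htriv dT dS (fun v _ dv' hiso k2 => by
            have k1 : IsKnot (T ++ v) := (iso_isKnot hiso).2 isKnot_unknot
            refine hdet _ k2 ?_
            rw [hI _ _ k2 k1 (Or.inr (Or.inr (happ v dv')))]
            exact hI _ _ k1 isKnot_unknot (Or.inl hiso)) hw' hw du dv
          obtain ⟨d, hd, e⟩ := un_inv hc
          refine ⟨d, up_un h19 hd, ?_⟩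
          have h2 := ratio_ctx hT hS h1 hw'.1 hw.1
          rw [h2, ← mul_assoc, mul_comm d c, e, one_mul]
      · have h2 := (hN2 _ hm).resolve_left hg
        simp only at h2
        exact hexc n S T u v l.length (Or.inr ⟨(o, S, T), ⟨hm, hg⟩, by simp [hconv, hn2]⟩)
          (by omega) hS hT hw hw'
  refine final P h19 fun w hw hw' => ?_
  exact eqv_ratio h19 hR ((hgen _ _ hw' hw).1 (hmir _ hw))

end Pool.Agent.Helper31.Sk
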