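import Pool.Agent.Helper31.Sk.Adj

/-! The symplectic rule. -/

set_option autoImplicit false

namespace Pool.Agent.Helper31.Sk

/-- the symplectic rule: antisymmetric cups and caps, the crossings are the exchange -/
def Sp : Rule ℤ where
  cup c d := if c = d then 0 else if d then 1 else -1
  cap x y := if x = y then 0 else if y then 1 else -1
  pos x y c d := if x = d ∧ y = c then 1 else 0
  neg x y c d := if x = d ∧ y = c then 1 else 0

/-- GOAL: the symplectic value of a link is the number of its orientations up to sign.

Proof. More generally let `C` be a word from `m` to `0`, `F = oF C` and `G = val Sp C (fun _ => 1)`.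
By `mt_word` there are `k`, `f` with `Mt m k f F` (`f` is the matching of the `m` points). Claim (by
induction on `C`, together with `Mt`):
(1) `|G l| = F l` for all `l` of length `m`;
(2) if `l'` arises from `l` by changing the entries at `p` and `f p` (for one `p < m`), then
`G l' = - G l`. (State it with `nth`: for all `j < m`, `nth l' j = if j = p ∨ j = f p then !nth l j
else nth l j`.)
Crossing at `i`: `G' l = G (swp i l)`, `f' = tr i ∘ f ∘ tr i`: clear.
Cap at `i`: `G' l = Sp.cap (nth l i) (nth l (i+1)) * G (del i l)`; the change at the pair
`{i, i + 1}` changes the sign of the cap, the changes at the other pairs are changes for `del i l`.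
Cup at `i`: `G' l = G (ins i false true l) - G (ins i true false l)`. If `f i = i + 1`, then the two
terms are opposite by (2), and everything is clear. If `f i = a ≠ i + 1` and `f (i + 1) = b`, at
most one of the two terms is nonzero (as `F (ins i x y l) ≠ 0` forces `x` to be different from the
label at `a`), this gives (1). For (2) and a pair different from `{a, b}` this is clear. The change
at the pair `{a, b}` turns a compatible `l` (with completion `x, y`) into `l'` with completion
`y, x`; `ins i y x l'` arises from `ins i x y l` by the changes at the two pairs `{i, a}` and
`{i + 1, b}`, so `G (ins i y x l') = G (ins i x y l)`, and the signs in front are opposite. -/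
def GoalSp : Prop := ∀ w : Word, Legal 0 w 0 → |val Sp w (fun _ => 1) []| = oF w []

end Pool.Agent.Helper31.Sk
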