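import Pool.Agent.Helper31.Sk.Ctx
import Pool.Agent.Helper31.Sk.Main

/-! A tangle which behaves like the trivial tangle has the same matching. -/

set_option autoImplicit false

namespace Pool.Agent.Helper31.Sk

theorem ins_del (i : ℕ) (l : List Bool) (h : i + 2 ≤ l.length) (hne : nth l i ≠ nth l (i + 1))
    (φ : List Bool → ℤ) :
    φ (ins i false true (del i l)) + φ (ins i true false (del i l)) = φ l + φ (swp i l) := by
  induction i generalizing l φ with
  | zero =>
    rcases l with _ | ⟨x, _ | ⟨y, l⟩⟩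
    · simp at h
    · simp at h
    · simp only [nth_zero, nth_succ] at hne
      simp only [del, ins, swp]
      cases x <;> cases y <;> simp at hne ⊢
      ring
  | succ i ih =>
    rcases l with _ | ⟨x, l⟩
    · simp at h
    · simp only [del, ins, swp]
      exact ih l (by simpa using h) (by simpa using hne) (fun l => φ (x :: l))

theorem swp_eq (i : ℕ) (l : List Bool) (h : i + 2 ≤ l.length) (he : nth l i = nth l (i + 1)) :
    swp i l = l := by
  induction i generalizing l with
  | zero =>
    rcases l with _ | ⟨x, _ | ⟨y, l⟩⟩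
    · simp at h
    · simp at h
    · simp only [nth_zero, nth_succ] at he
      simp [swp, he]
  | succ i ih =>
    rcases l with _ | ⟨x, l⟩
    · simp at h
    · simp only [swp]
      rw [ih l (by simpa using h) (by simpa using he)]

theorem pow_word {w : Word} (h : Legal 0 w 0) : ∃ k : ℕ, oF w [] = 2 ^ k := by
  classical
  obtain ⟨k, f, hF⟩ := mt_word w 0 h
  refine ⟨k, ?_⟩
  have := hF.v [] rfl
  rw [if_pos (show Cmp 0 f (nth []) from fun j hj => by omega)] at this
  exact this

theorem isKnot_iff {w : Word} (h : Legal 0 w 0) : IsKnot w ↔ oF w [] = 2 := by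
  unfold IsKnot
  rw [oF_eq]
  constructor
  · rintro ⟨_, h2⟩
    rw [h2]; norm_num
  · intro h2
    exact ⟨h, by exact_mod_cast h2⟩

theorem legal_twist {n i : ℕ} (hi : i < n) {C : Word} (h : Legal (2 * n) C 0) :
    Legal (2 * n) ((2 * i, .pos) :: C) 0 := by
  refine ⟨by simp only [Gen.src]; omega, ?_⟩
  have e : 2 * n - Gen.pos.src + Gen.pos.tgt = 2 * n := by simp only [Gen.src, Gen.tgt]; omega
  rw [e]; exact h

/-- the hypothesis on the tangle `S` -/
def Hyp (n : ℕ) (S : Word) : Prop :=
  ∀ C, InS n C → IsKnot (S ++ C) → ∃ c, Un c ∧ brv (S ++ C) = c * dlt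

theorem brv_app (S C : Word) : brv (S ++ C) = val WW S (fC C) [] := by
  unfold brv fC
  rw [val_append]

theorem twist_step {n : ℕ} {S C : Word} (hS : Legal 0 S (2 * n)) (hH : Hyp n S) (hC : InS n C)
    (hK : IsKnot (S ++ C)) {i : ℕ} (hi : i < n) :
    IsKnot (S ++ (2 * i, .pos) :: C) ∧
      pz (2 * n) (oF (dag S)) (fun l => if nth l (2 * i) = nth l (2 * i + 1) then oF C l else 0) = 0 := by
  classical
  set G := oF (dag S) with hG
  set F := oF C with hF
  set a := pz (2 * n) G (fun l => if nth l (2 * i) = nth l (2 * i + 1) then F l else 0) with ha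
  set b := pz (2 * n) G (fun l => if nth l (2 * i) = nth l (2 * i + 1) then 0 else F l) with hb
  set c := pz (2 * n) G (fun l => if nth l (2 * i) = nth l (2 * i + 1) then 0 else F (swp (2 * i) l))
    with hc
  have hC1 : InS n ((2 * i, .pos) :: C) := inS_twist hC hi (Or.inl rfl)
  have hE : Legal (2 * n) ((2 * i, .cap) :: (2 * i, .cup) :: C) 0 := by
    refine ⟨by simp only [Gen.src]; omega, ?_⟩
    refine ⟨by simp only [Gen.src, Gen.tgt]; omega, ?_⟩
    have e : 2 * n - Gen.cap.src + Gen.cap.tgt - Gen.cup.src + Gen.cup.tgt = 2 * n := by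
      simp only [Gen.src, Gen.tgt]; omega
    rw [e]; exact hC.1
  have L0 : Legal 0 (S ++ C) 0 := legal_append.2 ⟨_, hS, hC.1⟩
  have L1 : Legal 0 (S ++ (2 * i, .pos) :: C) 0 := legal_append.2 ⟨_, hS, hC1.1⟩
  have L2 : Legal 0 (S ++ (2 * i, .cap) :: (2 * i, .cup) :: C) 0 := legal_append.2 ⟨_, hS, hE⟩
  have hsum : ∀ D, Legal (2 * n) D 0 → oF (S ++ D) [] = pz (2 * n) G (oF D) := by
    intro D _
    rw [oF_append, tensor_or hS]
  have X1 : oF (S ++ C) [] = a + b := by
    rw [hsum _ hC.1, ha, hb, ← pz_add_right]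
    refine pz_congr _ _ _ _ _ fun l hl => ?_
    by_cases h : nth l (2 * i) = nth l (2 * i + 1) <;> simp [h, hF]
  have X2 : oF (S ++ (2 * i, .pos) :: C) [] = a + c := by
    rw [hsum _ hC1.1, ha, hc, ← pz_add_right]
    refine pz_congr _ _ _ _ _ fun l hl => ?_
    rw [oF_cons, or_cross _ _ (Or.inl rfl) _ _ (by omega)]
    by_cases h : nth l (2 * i) = nth l (2 * i + 1)
    · rw [swp_eq _ _ (by omega) h]
      simp [h, hF]
    · simp [h, hF]
  have X3 : oF (S ++ (2 * i, .cap) :: (2 * i, .cup) :: C) [] = b + c := by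
    rw [hsum _ hE, hb, hc, ← pz_add_right]
    refine pz_congr _ _ _ _ _ fun l hl => ?_
    rw [oF_cons, or_cap _ _ _ (by omega)]
    by_cases h : nth l (2 * i) = nth l (2 * i + 1)
    · simp [h]
    · rw [if_neg h, oF_cons, or_cup _ _ _ (by rw [length_del _ _ (by omega)]; omega),
        ins_del _ _ (by omega) h]
      simp [h, hF]
  -- the smoothing is not a knot
  have hne : oF (S ++ (2 * i, .cap) :: (2 * i, .cup) :: C) [] ≠ 2 := by
    rw [Ne, ← isKnot_iff L2]
    refine not_knot_of_brv hK ?_
    rw [brv_app, brv_app]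
    set L : (List Bool → ℚ) → ℚ := fun φ => val WW S φ [] with hLdef
    have hL : Loc (2 * n) L :=
      ⟨fun α γ φ ψ => val_lin WW _ α γ φ ψ [], fun φ ψ e => val_congr WW hS φ ψ [] rfl e⟩
    show L (act WW (2 * i) .cap (act WW (2 * i) .cup (fC C))) = dlt * L (fC C)
    have e : ∀ D : Word, L (fC ((2 * i, .pos) :: D)) = 19 * L (fC D) -
        1 / 19 * L (act WW (2 * i) .cap (act WW (2 * i) .cup (fC D))) := by
      intro D
      have e : L (act WW (2 * i) .pos (fC D)) = L (fun l => 19 * fC D l +
          (-(1 / 19)) * act WW (2 * i) .cap (act WW (2 * i) .cup (fC D)) l) := by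
        refine hL.loc _ _ fun l hl => ?_
        rw [act_pos (2 * i) (fC D) l (by omega)]
        ring
      rw [fC_cons, e, hL.lin]
      ring
    have e2 : ∀ D : Word, L (act WW (2 * i) .cap (act WW (2 * i) .cup (fC ((2 * i, .pos) :: D)))) =
        -(1 / 19) ^ 3 * L (act WW (2 * i) .cap (act WW (2 * i) .cup (fC D))) := by
      intro D
      rw [← hL.smul]
      refine hL.loc _ _ fun l hl => ?_
      rw [← act_smul]
      refine act_congr WW _ _ _ _ l (by simp only [Gen.src]; omega) fun l' hl' => ?_
      simp only [Gen.src, Gen.tgt] at hl'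
      rw [fC_cons]
      exact act_r1 hab19 (2 * i) (fC D) l' (by omega)
    -- full twists
    have two : ∀ D, InS n D → IsKnot (S ++ D) → InS n ((2 * i, .pos) :: (2 * i, .pos) :: D) ∧
        IsKnot (S ++ (2 * i, .pos) :: (2 * i, .pos) :: D) := by
      intro D hD hDK
      have hD2 : InS n ((2 * i, .pos) :: (2 * i, .pos) :: D) :=
        inS_twist (inS_twist hD hi (Or.inl rfl)) hi (Or.inl rfl)
      refine ⟨hD2, ?_⟩
      rw [isKnot_iff (legal_append.2 ⟨_, hS, hD2.1⟩), hsum _ hD2.1]
      rw [isKnot_iff (legal_append.2 ⟨_, hS, hD.1⟩), hsum _ hD.1] at hDK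
      rw [← hDK]
      refine pz_congr _ _ _ _ _ fun l hl => ?_
      rw [oF_cons, or_cross _ _ (Or.inl rfl) _ _ (by omega), oF_cons,
        or_cross _ _ (Or.inl rfl) _ _ (by rw [length_swp]; omega), swp_swp]
    obtain ⟨i2, k2⟩ := two C hC hK
    obtain ⟨i4, k4⟩ := two _ i2 k2
    have u0 := hH C hC hK
    have u2 := hH _ i2 k2
    have u4 := hH _ i4 k4
    rw [brv_app] at u0 u2 u4
    refine arith2 u0 u2 u4 ?_ ?_
    · show L (fC ((2 * i, .pos) :: (2 * i, .pos) :: C)) = _
      rw [e, e2, e]
      ring
    · show L (fC ((2 * i, .pos) :: (2 * i, .pos) :: (2 * i, .pos) :: (2 * i, .pos) :: C)) =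
        19 ^ 2 * L (fC ((2 * i, .pos) :: (2 * i, .pos) :: C)) - _
      rw [e, e2, e, e2, e2]
      ring
  -- numbers
  obtain ⟨p, hp⟩ := pow_word L1
  obtain ⟨q, hq⟩ := pow_word L2
  have hK2 := (isKnot_iff L0).1 hK
  have na : 0 ≤ a := pz_nonneg _ _ _ fun l _ => by
    have h1 := oF_nonneg (dag S) l
    have h2 := oF_nonneg C l
    split_ifs
    · exact mul_nonneg h1 h2
    · simp
  have nb : 0 ≤ b := pz_nonneg _ _ _ fun l _ => by
    have h1 := oF_nonneg (dag S) l
    have h2 := oF_nonneg C l
    split_ifs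
    · simp
    · exact mul_nonneg h1 h2
  have eb : Even b := by
    obtain ⟨m, hm⟩ : ∃ m, 2 * n = m + 1 := ⟨2 * n - 1, by omega⟩
    rw [hb, hm]
    refine pz_even m _ _ fun l hl => ?_
    rw [nth_map_not _ _ (by omega), nth_map_not _ _ (by omega)]
    have e1 : G (l.map not) = G l := oF_not _ _
    have e2 : F (l.map not) = F l := oF_not _ _
    rw [e1, e2]
    by_cases h : nth l (2 * i) = nth l (2 * i + 1)
    · simp [h]
    · have h' : ¬ (!nth l (2 * i)) = !nth l (2 * i + 1) := by
        intro e; apply h; simpa using e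
      simp [h, h']
  rw [X1] at hK2
  rw [X2] at hp
  rw [X3] at hq hne
  have hb2 : b = 0 ∨ b = 2 := by
    obtain ⟨t, ht⟩ := eb
    omega
  have hfinal : a = 0 ∧ c = 2 := by
    rcases hb2 with h | h
    · exfalso
      have ha2 : a = 2 := by omega
      rw [h, zero_add] at hq hne
      rw [ha2, hq] at hp
      rcases q with _ | _ | q
      · rcases p with _ | _ | p
        · norm_num at hp
        · norm_num at hp
        · rw [pow_succ, pow_succ] at hp
          have : (0 : ℤ) < 2 ^ p := by positivity
          omega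
      · rw [hq] at hne
        norm_num at hne
      · rcases p with _ | _ | p
        · have : (0 : ℤ) < 2 ^ (q + 1 + 1) := by positivity
          rw [pow_zero] at hp
          omega
        · have : (0 : ℤ) < 2 ^ (q + 1 + 1) := by positivity
          rw [zero_add, pow_one] at hp
          omega
        · rw [pow_succ, pow_succ, pow_succ (2 : ℤ) (p + 1), pow_succ (2 : ℤ) p] at hp
          omega
    · have ha0 : a = 0 := by omega
      refine ⟨ha0, ?_⟩
      rw [h] at hq
      rw [ha0, zero_add] at hp
      rw [hp] at hq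
      rcases p with _ | _ | p
      · rcases q with _ | _ | q
        · norm_num at hq
        · norm_num at hq
        · rw [pow_succ, pow_succ] at hq
          have : (0 : ℤ) < 2 ^ q := by positivity
          omega
      · rw [hp]; norm_num
      · rcases q with _ | _ | q
        · have : (0 : ℤ) < 2 ^ (p + 1 + 1) := by positivity
          rw [pow_zero] at hq
          omega
        · have : (0 : ℤ) < 2 ^ (p + 1 + 1) := by positivity
          rw [zero_add, pow_one] at hq
          omega
        · rw [pow_succ, pow_succ, pow_succ (2 : ℤ) (q + 1), pow_succ (2 : ℤ) q] at hq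
          omega
  refine ⟨?_, hfinal.1⟩
  rw [isKnot_iff L1, X2, hfinal.1, hfinal.2]
  norm_num

theorem dag_append (u v : Word) : dag (u ++ v) = dag v ++ dag u := by
  simp [dag]

open Classical in
/-- the tensor of the cups -/
theorem cups_tensor (n : ℕ) : ∀ l : List Bool, l.length = 2 * n →
    oF (dag (cups n)) l = if (∀ j < n, nth l (2 * j) ≠ nth l (2 * j + 1)) then 1 else 0 := by
  induction n with
  | zero =>
    intro l hl
    rw [if_pos (fun j hj => by omega)]
    simp [oF, dag, cups]
  | succ n ih =>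
    intro l hl
    rw [cups_succ, dag_append]
    have e : dag [(0, Gen.cup)] ++ dag (cups n) = (0, .cap) :: dag (cups n) := rfl
    rw [e, oF_cons, or_cap _ _ _ (by omega)]
    have hd := length_del 0 l (by omega)
    rw [ih _ (by omega)]
    by_cases h : nth l 0 = nth l (0 + 1)
    · rw [if_pos h, if_neg]
      intro hc
      exact hc 0 (by omega) h
    · rw [if_neg h]
      have e2 : (∀ j < n, nth (del 0 l) (2 * j) ≠ nth (del 0 l) (2 * j + 1)) ↔
          (∀ j < n + 1, nth l (2 * j) ≠ nth l (2 * j + 1)) := by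
        have hn : ∀ j, nth (del 0 l) j = nth l (j + 2) := by
          intro j
          rw [nth_del 0 l (by omega) j]
          simp
        constructor
        · intro hc j hj
          rcases j with _ | j
          · exact h
          · have := hc j (by omega)
            rw [hn, hn] at this
            exact this
        · intro hc j hj
          have := hc (j + 1) (by omega)
          rw [hn, hn]
          exact this
      simp only [e2]

/-- the tensor of a tangle which behaves like the cups -/
theorem same_tensor {n : ℕ} {S : Word} (hS : Legal 0 S (2 * n)) (hH : Hyp n S) {C0 : Word}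
    (h0 : InS n C0) (hK0 : IsKnot (S ++ C0)) (φ : List Bool → ℤ) :
    val (Or ℤ) S φ [] = LU n φ := by
  classical
  obtain ⟨kG, f, hG⟩ := mt_word (dag S) (2 * n) (legal_dag S 0 _ hS)
  change Mt (2 * n) kG f (oF (dag S)) at hG
  have hsum : ∀ D, oF (S ++ D) [] = pz (2 * n) (oF (dag S)) (oF D) := by
    intro D
    rw [oF_append, tensor_or hS]
  have hU : ∀ ψ : List Bool → ℤ, LU n ψ = pz (2 * n) (oF (dag (cups n))) ψ := fun ψ =>
    tensor_or (legal_cups n) ψ
  -- coherent orientations
  have coh : ∀ C, InS n C → IsKnot (S ++ C) → ∃ o : List Bool, o.length = 2 * n ∧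
      0 < oF (dag S) o ∧ 0 < oF C o ∧ ∀ j < n, nth o (2 * j) ≠ nth o (2 * j + 1) := by
    intro C hC hK
    have h2 := (isKnot_iff (legal_append.2 ⟨_, hS, hC.1⟩)).1 hK
    rw [hsum] at h2
    obtain ⟨o, ho, hpos⟩ := pz_pos (2 * n) (oF (dag S)) (oF C) (by omega)
    have n1 := oF_nonneg (dag S) o
    have n2 := oF_nonneg C o
    have p1 : 0 < oF (dag S) o := by
      rcases n1.lt_or_eq with h | h
      · exact h
      · rw [← h, zero_mul] at hpos; omega
    have p2 : 0 < oF C o := by
      rcases n2.lt_or_eq with h | h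
      · exact h
      · rw [← h, mul_zero] at hpos; omega
    refine ⟨o, ho, p1, p2, fun j hj he => ?_⟩
    have h3 := (twist_step hS hH hC hK hj).2
    have h4 := pz_le (2 * n) (oF (dag S))
      (fun l => if nth l (2 * j) = nth l (2 * j + 1) then oF C l else 0) (fun l _ => by
        have h1 := oF_nonneg (dag S) l
        have h2 := oF_nonneg C l
        split_ifs
        · exact mul_nonneg h1 h2
        · simp) o ho
    rw [h3] at h4
    simp only [he, if_true] at h4
    omega
  obtain ⟨o, ho, o1, o2, o3⟩ := coh C0 h0 hK0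
  -- the closing of the cups is a knot
  have hUK : pz (2 * n) (oF (dag (cups n))) (oF C0) = 2 := by
    rw [← hU]
    have h1 : IsKnot (cups n ++ C0) := (iso_isKnot h0.2).2 isKnot_unknot
    have h2 := (isKnot_iff h1.1).1 h1
    rw [oF_append] at h2
    exact h2
  have hcmp := hG.v o ho
  have hco : Cmp (2 * n) f (nth o) := by
    by_contra hcon
    rw [if_neg hcon] at hcmp
    omega
  -- the matching
  have hf : ∀ j < n, f (2 * j) = 2 * j + 1 := by
    intro j hj
    by_contra hne
    have hC1 : InS n ((2 * j, .pos) :: C0) := inS_twist h0 hj (Or.inl rfl)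
    have hK1 := (twist_step hS hH h0 hK0 hj).1
    obtain ⟨o', ho', q1, q2, q3⟩ := coh _ hC1 hK1
    rw [oF_cons, or_cross _ _ (Or.inl rfl) _ _ (by omega)] at q2
    have hcmp' := hG.v o' ho'
    have hco' : Cmp (2 * n) f (nth o') := by
      by_contra hcon
      rw [if_neg hcon] at hcmp'
      omega
    set r := swp (2 * j) o' with hr
    have hrl : r.length = 2 * n := by rw [hr, length_swp]; exact ho'
    have hrn : ∀ t, nth r t = nth o' (if t = 2 * j then 2 * j + 1 else if t = 2 * j + 1 then 2 * j
        else t) := nth_swp _ _ (by omega)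
    have hrc : ∀ j' < n, nth r (2 * j') ≠ nth r (2 * j' + 1) := by
      intro j' hj'
      rw [hrn, hrn]
      by_cases e : j' = j
      · subst e
        have := q3 j' hj'
        simp only [if_true, if_neg (show ¬ 2 * j' + 1 = 2 * j' by omega)]
        exact this.symm
      · rw [if_neg (by omega), if_neg (by omega), if_neg (by omega), if_neg (by omega)]
        exact q3 j' hj'
    -- `r` is `o` or its opposite
    have hro : r = o ∨ r = o.map not := by
      by_contra hcon
      push Not at hcon
      have hoo : o ≠ o.map not := by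
        intro e
        have e2 : nth o 0 = nth (o.map not) 0 := congrArg (fun l => nth l 0) e
        rw [nth_map_not _ _ (by omega)] at e2
        cases h : nth o 0 <;> simp [h] at e2
      have hml : (o.map not).length = 2 * n := by simpa using ho
      have hmc : ∀ j' < n, nth (o.map not) (2 * j') ≠ nth (o.map not) (2 * j' + 1) := by
        intro j' hj'
        rw [nth_map_not _ _ (by omega), nth_map_not _ _ (by omega)]
        intro e
        exact o3 j' hj' (by simpa using e)
      have hG1 : ∀ l : List Bool, l.length = 2 * n → 0 ≤ oF (dag (cups n)) l * oF C0 l := fun l _ =>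
        mul_nonneg (oF_nonneg _ _) (oF_nonneg _ _)
      have h3 := pz_three (2 * n) (oF (dag (cups n))) (oF C0) hG1 o (o.map not) r ho hml hrl hoo
        (fun e => hcon.1 e.symm) (fun e => hcon.2 e.symm)
        (by rw [cups_tensor n o ho, if_pos o3]; omega)
        (by rw [cups_tensor n _ hml, if_pos hmc, oF_not]; omega)
        (by rw [cups_tensor n r hrl, if_pos hrc]; omega)
      omega
    set t := f (2 * j) with ht
    have ht1 : t ≠ 2 * j := hG.mat.ne _ (by omega)
    have ht2 : t < 2 * n := hG.mat.lt _ (by omega)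
    have c1 := hco (2 * j) (by omega)
    have c2 := hco' (2 * j) (by omega)
    rw [← ht] at c1 c2
    have r1 : nth r (2 * j + 1) = nth o' (2 * j) := by
      rw [hrn, if_neg (by omega), if_pos rfl]
    have r2 : nth r t = nth o' t := by
      rw [hrn, if_neg ht1, if_neg hne]
    rw [← r1, ← r2] at c2
    have c3 := o3 j hj
    have b3 : ∀ x y z : Bool, x ≠ z → x ≠ y → y = z := by decide
    have c4 : nth o (2 * j + 1) = nth o t := b3 _ _ _ c1 c3
    rcases hro with e | e
    · rw [e] at c2
      exact c2 c4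
    · rw [e, nth_map_not _ _ (by omega), nth_map_not _ _ (by omega)] at c2
      exact c2 (by rw [c4])
  have hf2 : ∀ j < n, f (2 * j + 1) = 2 * j := by
    intro j hj
    rw [← hf j hj]
    exact hG.mat.inv _ (by omega)
  have hiff : ∀ l : List Bool, Cmp (2 * n) f (nth l) ↔
      (∀ j < n, nth l (2 * j) ≠ nth l (2 * j + 1)) := by
    intro l
    constructor
    · intro hc j hj
      have := hc (2 * j) (by omega)
      rwa [hf j hj] at this
    · intro hc t ht
      rcases Nat.even_or_odd' t with ⟨j, rfl | rfl⟩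
      · rw [hf j (by omega)]
        exact hc j (by omega)
      · rw [hf2 j (by omega)]
        exact (hc j (by omega)).symm
  have hval : ∀ l : List Bool, l.length = 2 * n → oF (dag S) l = 2 ^ kG * oF (dag (cups n)) l := by
    intro l hl
    rw [hG.v l hl, cups_tensor n l hl]
    simp only [hiff]
    split_ifs <;> ring
  have hk : (2 : ℤ) ^ kG = 1 := by
    have h1 := (isKnot_iff (legal_append.2 ⟨_, hS, h0.1⟩)).1 hK0
    rw [hsum] at h1
    have h2 : pz (2 * n) (oF (dag S)) (oF C0) =
        2 ^ kG * pz (2 * n) (oF (dag (cups n))) (oF C0) := by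
      rw [← pz_smul_left]
      exact pz_congr _ _ _ _ _ fun l hl => by rw [hval l hl]
    rw [h1, hUK] at h2
    omega
  rw [tensor_or hS, hU]
  exact pz_congr _ _ _ _ _ fun l hl => by rw [hval l hl, hk, one_mul]

/-- the moves with a trivial side -/
theorem triv_case {n : ℕ} {S T : Word} (hT : Legal 0 T (2 * n)) (hS : Legal 0 S (2 * n))
    (htriv : Triv n S)
    (hH : ∀ v, Legal (2 * n) v 0 → Iso 0 0 (S ++ v) unknot → IsKnot (T ++ v) →
      Iso 0 0 (T ++ v) unknot)
    {u v : Word} {a : ℕ} (hkS : IsKnot (u ++ shift a S ++ v)) (hkT : IsKnot (u ++ shift a T ++ v)) :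
    ∃ c, Un c ∧ ∀ φ : List Bool → ℚ, val WW T φ [] = c * val WW S φ [] := by
  classical
  have gS := hkS.1
  have gT := hkT.1
  rw [List.append_assoc] at gS gT
  obtain ⟨k, hk, g1⟩ := legal_append.1 gS
  obtain ⟨k', hk', g2⟩ := legal_append.1 gT
  obtain rfl := legal_unique hk hk'
  by_cases hak : a ≤ k
  · obtain ⟨j, hj, hv⟩ := legal_append.1 g1
    have hd := (legal_diff S 0 (2 * n) k j a hS hj (Nat.zero_le _)).1
    have hj2 : j = k + 2 * n := by omega
    subst hj2
    obtain ⟨hCl, hC⟩ := ctx_word (m := 2 * n) hk hv hak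
    set C' := u ++ (mvs a (2 * n) (k - a) ++ v) with hC'
    have hSC : oF (S ++ C') [] = 2 := by
      rw [hC S hS, ← List.append_assoc]
      exact (isKnot_iff hkS.1).1 hkS
    have hTC : oF (T ++ C') [] = 2 := by
      rw [hC T hT, ← List.append_assoc]
      exact (isKnot_iff hkT.1).1 hkT
    obtain ⟨β, hβ, hβL, hiso⟩ := htriv
    have hβ' : IsBr β := hβ
    have hiL := legal_inv hβ' hβL
    have hTi : Legal 0 (T ++ inv β) (2 * n) := legal_append.2 ⟨2 * n, hT, hiL⟩
    -- removing `inv β ++ β`
    have hrem : ∀ w, Legal (2 * n) w 0 → oF ((T ++ inv β) ++ (β ++ w)) [] = oF (T ++ w) [] := by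
      intro w hw
      have e1 : (T ++ inv β) ++ (β ++ w) = T ++ (inv β ++ β) ++ w := by simp
      have h1 := iso_inv (isBr_inv hβ') hiL
      rw [inv_inv] at h1
      have h2 := iso_ctx h1 hT hw
      rw [e1]
      have h3 := or_iso h2 (fun _ => 1) [] rfl
      rw [List.append_nil] at h3
      exact h3
    -- the trivial tangle
    have hSβ : ∀ w, Legal (2 * n) w 0 → LU n (oF (β ++ w)) = oF (S ++ w) [] := by
      intro w hw
      have h3 := or_iso (iso_right hiso hw) (fun _ => 1) [] rfl
      have h4 : oF (S ++ w) [] = oF (cups n ++ β ++ w) [] := h3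
      rw [h4, List.append_assoc, oF_append (cups n) (β ++ w)]
      rfl
    have hHX : Hyp n (T ++ inv β) := by
      intro C hCS hK
      rw [List.append_assoc] at hK ⊢
      have h1 : Iso 0 0 (S ++ (inv β ++ C)) unknot := by
        have a1 : Iso 0 0 (S ++ (inv β ++ C)) ((cups n ++ β) ++ (inv β ++ C)) :=
          iso_right hiso (legal_append.2 ⟨2 * n, hiL, hCS.1⟩)
        have a2 : Iso 0 0 (cups n ++ (β ++ inv β) ++ C) (cups n ++ [] ++ C) :=
          iso_ctx (iso_inv hβ' hβL) (legal_cups n) hCS.1
        have e1 : (cups n ++ β) ++ (inv β ++ C) = cups n ++ (β ++ inv β) ++ C := by simp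
        rw [e1] at a1
        rw [List.append_nil] at a2
        exact iso_trans a1 (iso_trans a2 hCS.2)
      have h2 := hH _ (legal_append.2 ⟨2 * n, hiL, hCS.1⟩) h1 hK
      obtain ⟨c, hc, h3⟩ := brv_iso h2
      exact ⟨c, hc, by rw [h3, brv_unknot]⟩
    -- a good closing
    obtain ⟨k0, f0, hM0⟩ := mt_word (β ++ C') (2 * n) (legal_append.2 ⟨2 * n, hβL, hCl⟩)
    change Mt (2 * n) k0 f0 (oF (β ++ C')) at hM0
    obtain ⟨C, hCS, hCv⟩ := realize n k0 f0 _ hM0 (by rw [hSβ C' hCl, hSC])
    have hKC : IsKnot ((T ++ inv β) ++ C) := by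
      rw [isKnot_iff (legal_append.2 ⟨2 * n, hTi, hCS.1⟩)]
      have h1 : oF ((T ++ inv β) ++ C) [] = oF ((T ++ inv β) ++ (β ++ C')) [] := by
        rw [oF_append, oF_append (T ++ inv β) (β ++ C')]
        exact val_congr _ hTi _ _ [] rfl hCv
      rw [h1, hrem C' hCl, hTC]
    have hten := same_tensor hTi hHX hCS hKC
    refine key hT hS ⟨β, hβ, hβL, hiso⟩ fun w hw hiw => ?_
    refine hH w hw hiw ?_
    have h1 : IsKnot (S ++ w) := (iso_isKnot hiw).2 isKnot_unknot
    rw [isKnot_iff (legal_append.2 ⟨2 * n, hT, hw⟩), ← hrem w hw, oF_append, hten, hSβ w hw]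
    exact (isKnot_iff h1.1).1 h1
  · -- both sides are empty
    have emp : ∀ (U : Word) (j : ℕ), Legal 0 U (2 * n) → Legal k (shift a U ++ v) j → U = [] := by
      intro U j hU hU2
      rcases U with _ | ⟨⟨i, g⟩, U⟩
      · rfl
      · exfalso
        have b1 := hU.1
        have b2 : i + a + g.src ≤ k := hU2.1
        omega
    have eS := emp S 0 hS g1
    have eT := emp T 0 hT g2
    subst eS
    subst eT
    exact ⟨1, un_one, fun φ => by rw [one_mul]⟩

end Pool.Agent.Helper31.Sk
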