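import Pool.Agent.Helper31.Sk.OrL
import Pool.Agent.Helper31.Sk.SpDef
import Pool.Agent.Helper31.Sk.Xcl

/-! Reduction modulo 181: the bracket and the number of the components. -/

set_option autoImplicit false

namespace Pool.Agent.Helper31.Sk

universe u

/-! ### the symplectic rule and the bracket -/

section
variable {R : Type u} [CommRing R]

/-- exponents -/
def gex : Gen → ℕ
  | .neg => 3
  | _ => 1

theorem act_sp (a b : R) (h1 : a * a = -1) (h2 : b = -a) (i : ℕ) (g : Gen) (φ : List Bool → ℤ)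
    (l : List Bool) : act (Br a b) i g (fun l => (φ l : R)) l =
      a ^ gex g * ((act Sp i g φ l : ℤ) : R) := by
  induction i generalizing φ l with
  | zero =>
    rcases g with _ | _ | _ | _
    · simp [act0, S2, Br, Mw, Sp, gex, h2]
      ring
    · rcases l with _ | ⟨x, _ | ⟨y, l⟩⟩
      · simp [act0]
      · simp [act0]
      · cases x <;> cases y <;> simp [act0, Br, Mw, Sp, gex, h2]
    · rcases l with _ | ⟨x, _ | ⟨y, l⟩⟩
      · simp [act0]
      · simp [act0]
      · cases x <;> cases y <;> simp [act0, Br, Mw, Sp, S2, gex, h2] <;> grind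
    · rcases l with _ | ⟨x, _ | ⟨y, l⟩⟩
      · simp [act0]
      · simp [act0]
      · cases x <;> cases y <;> simp [act0, Br, Mw, Sp, S2, gex, h2] <;> grind
  | succ i ih =>
    rcases l with _ | ⟨x, l⟩
    · simp [act]
    · simp only [act_succ]
      exact ih _ _

theorem val_sp (a b : R) (h1 : a * a = -1) (h2 : b = -a) (w : Word) : ∃ s : ℕ,
    ∀ (φ : List Bool → ℤ) (l : List Bool), val (Br a b) w (fun l => (φ l : R)) l =
      a ^ s * ((val Sp w φ l : ℤ) : R) := by
  induction w with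
  | nil => exact ⟨0, fun φ l => by simp⟩
  | cons s w ih =>
    obtain ⟨i, g⟩ := s
    obtain ⟨s, hs⟩ := ih
    refine ⟨gex g + s, fun φ l => ?_⟩
    simp only [val_cons]
    have e : val (Br a b) w (fun l => (φ l : R)) = fun l => a ^ s * ((val Sp w φ l : ℤ) : R) :=
      funext fun l => hs φ l
    rw [e, act_smul, act_sp a b h1 h2, pow_add]
    ring

end

/-- the exchange is the identity minus the smoothing -/
theorem sp_skein (i : ℕ) (φ : List Bool → ℤ) (l : List Bool) (h : i + 2 ≤ l.length) :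
    act Sp i .cap (act Sp i .cup φ) l = φ l - act Sp i .pos φ l := by
  induction i generalizing φ l with
  | zero =>
    rcases l with _ | ⟨x, _ | ⟨y, l⟩⟩
    · simp at h
    · simp at h
    · cases x <;> cases y <;> simp [act0, Sp, S2] <;> ring
  | succ i ih =>
    rcases l with _ | ⟨x, l⟩
    · simp at h
    · simp only [act_succ]
      exact ih _ l (by simpa using h)

/-- three signed powers of two with sum zero -/
theorem pow3 {p q r : ℕ} {x y z : ℤ} (hx : |x| = 2 ^ p) (hy : |y| = 2 ^ q) (hz : |z| = 2 ^ r)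
    (h : x + y + z = 0) : q ≤ p + 1 := by
  by_contra hcon
  have hq : p + 2 ≤ q := by omega
  have h1 : (2 : ℤ) ^ q = 2 ^ (q - (p + 2)) * 2 ^ (p + 2) := by
    rw [← pow_add]; congr 1; omega
  have h2 : (4 : ℤ) * 2 ^ p ≤ 2 ^ q := by
    rw [h1, pow_add 2 p 2]
    have : (1 : ℤ) ≤ 2 ^ (q - (p + 2)) := one_le_pow₀ (by norm_num)
    have h3 : (0 : ℤ) < 2 ^ p := by positivity
    nlinarith
  have h4 : (2 : ℤ) ^ q ≤ 2 ^ p + 2 ^ r := by
    rw [← hx, ← hy, ← hz]
    have : y = -(x + z) := by linarith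
    rw [this, abs_neg]
    exact abs_add_le _ _
  have hr : p + 1 ≤ r := by
    by_contra hr
    have h5 : (2 : ℤ) ^ r ≤ 2 ^ p := pow_le_pow_right₀ (by norm_num) (by omega)
    have h3 : (0 : ℤ) < 2 ^ p := by positivity
    linarith
  have d1 : (2 : ℤ) ^ (p + 1) ∣ y := by
    rw [← dvd_abs, hy]
    exact pow_dvd_pow 2 (by omega)
  have d2 : (2 : ℤ) ^ (p + 1) ∣ z := by
    rw [← dvd_abs, hz]
    exact pow_dvd_pow 2 hr
  have d3 : (2 : ℤ) ^ (p + 1) ∣ x := by
    have : x = -(y + z) := by linarith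
    rw [this]
    exact (dvd_neg.2 (dvd_add d1 d2))
  rw [← dvd_abs, hx] at d3
  have h3 : (0 : ℤ) < 2 ^ p := by positivity
  have := Int.le_of_dvd h3 d3
  rw [pow_succ] at this
  linarith

instance fact181 : Fact (Nat.Prime 181) := ⟨by norm_num⟩

theorem z181 : ((19 : ℕ) : ZMod 181) * ((19 : ℕ) : ZMod 181) = -1 := by decide

/-- reduction modulo 181 -/
theorem mod_181 (w : Word) : ∃ x : ℤ_[181], ((x : ℤ_[181]) : ℚ_[181]) = ((brv w : ℚ) : ℚ_[181]) ∧
    ∃ s : ℕ, PadicInt.toZMod x = ((19 : ℕ) : ZMod 181) ^ s *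
      ((val Sp w (fun _ => 1) [] : ℤ) : ZMod 181) := by
  have hu : IsUnit ((19 : ℕ) : ℤ_[181]) := by
    rw [PadicInt.isUnit_iff]
    rw [PadicInt.norm_natCast_eq_one_iff]
    norm_num
  obtain ⟨b, hb⟩ := hu.exists_right_inv
  refine ⟨val (Br ((19 : ℕ) : ℤ_[181]) b) w (fun _ => 1) [], ?_, ?_⟩
  · have e1 := val_map (PadicInt.Coe.ringHom (p := 181)) ((19 : ℕ) : ℤ_[181]) b w (fun _ => 1) []
    have e2 := val_map (algebraMap ℚ ℚ_[181]) (19 : ℚ) (1 / 19) w (fun _ => 1) []
    have e3 : PadicInt.Coe.ringHom (p := 181) ((19 : ℕ) : ℤ_[181]) = algebraMap ℚ ℚ_[181] 19 := by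
      rw [map_natCast, show (19 : ℚ) = ((19 : ℕ) : ℚ) by norm_num, map_natCast]
    have e4 : PadicInt.Coe.ringHom (p := 181) b = algebraMap ℚ ℚ_[181] (1 / 19) := by
      have e5 := congrArg (PadicInt.Coe.ringHom (p := 181)) hb
      rw [map_mul, map_one, e3] at e5
      have e6 : algebraMap ℚ ℚ_[181] 19 * algebraMap ℚ ℚ_[181] (1 / 19) = 1 := by
        rw [← map_mul]; norm_num
      have e7 : algebraMap ℚ ℚ_[181] 19 ≠ 0 := by
        intro h
        rw [h, zero_mul] at e6
        exact zero_ne_one e6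
      exact mul_left_cancel₀ e7 (e5.trans e6.symm)
    rw [e3, e4] at e1
    simp only [map_one] at e1 e2
    exact e1.trans e2.symm
  · have h3 := val_map (PadicInt.toZMod (p := 181)) ((19 : ℕ) : ℤ_[181]) b w (fun _ => 1) []
    have e3 : PadicInt.toZMod (p := 181) ((19 : ℕ) : ℤ_[181]) = ((19 : ℕ) : ZMod 181) := by
      rw [map_natCast]
    have e4 : PadicInt.toZMod (p := 181) b = -((19 : ℕ) : ZMod 181) := by
      have e5 := congrArg (PadicInt.toZMod (p := 181)) hb
      rw [map_mul, map_one, e3] at e5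
      have e6 : ((19 : ℕ) : ZMod 181) * -((19 : ℕ) : ZMod 181) = 1 := by
        rw [mul_neg, z181, neg_neg]
      have e7 : ((19 : ℕ) : ZMod 181) ≠ 0 := by
        intro h
        rw [h, zero_mul] at e6
        exact zero_ne_one e6
      exact mul_left_cancel₀ e7 (e5.trans e6.symm)
    rw [e3, e4] at h3
    obtain ⟨s, hs⟩ := val_sp ((19 : ℕ) : ZMod 181) (-((19 : ℕ) : ZMod 181)) z181 rfl w
    refine ⟨s, ?_⟩
    rw [h3]
    have := hs (fun _ => 1) []
    simp only [Int.cast_one] at this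
    simpa using this

theorem z181a : ((19 : ℕ) : ZMod 181) ^ 4 = 1 := by decide
theorem z181b : (2 : ZMod 181) ≠ 0 := by decide
theorem z181c : (1 : ZMod 181) ≠ 16 := by decide
theorem z181d : (1 : ZMod 181) ≠ 16 * 16 := by decide

/-- fourth powers of the symplectic values -/
theorem fourth {w w' : Word} (h : brv w' = dlt * brv w) :
    ((val Sp w' (fun _ => 1) [] : ℤ) : ZMod 181) ^ 4 =
      16 * ((val Sp w (fun _ => 1) [] : ℤ) : ZMod 181) ^ 4 := by
  obtain ⟨x, hx1, s, hx2⟩ := mod_181 w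
  obtain ⟨x', hx1', s', hx2'⟩ := mod_181 w'
  have e : ((19 : ℕ) : ℤ_[181]) ^ 2 * x' = (((19 : ℕ) : ℤ_[181]) ^ 4 + 1) * x := by
    have h1 : (((19 : ℕ) : ℚ) ^ 2) * brv w' = (((19 : ℕ) : ℚ) ^ 4 + 1) * brv w := by
      rw [h]
      unfold dlt
      push_cast
      ring
    have h2 := congrArg (algebraMap ℚ ℚ_[181]) h1
    simp only [map_mul, map_pow, map_add, map_one, map_natCast] at h2
    have h3 : ((((19 : ℕ) : ℤ_[181]) ^ 2 * x' : ℤ_[181]) : ℚ_[181]) =
        (((((19 : ℕ) : ℤ_[181]) ^ 4 + 1) * x : ℤ_[181]) : ℚ_[181]) := by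
      push_cast
      rw [hx1, hx1']
      push_cast at h2
      exact h2
    exact Subtype.coe_injective h3
  have e2 := congrArg (PadicInt.toZMod (p := 181)) e
  simp only [map_mul, map_pow, map_add, map_one, map_natCast] at e2
  rw [hx2, hx2', z181a] at e2
  have e3 := congrArg (fun z : ZMod 181 => z ^ 4) e2
  beta_reduce at e3
  have f1 : ∀ s : ℕ, (((19 : ℕ) : ZMod 181) ^ s) ^ 4 = 1 := by
    intro s
    rw [← pow_mul, mul_comm, pow_mul, z181a, one_pow]
  rw [mul_pow, mul_pow, mul_pow, mul_pow, f1, f1, f1, one_mul, one_mul, one_mul] at e3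
  rw [e3]
  norm_num

/-- a smoothing which multiplies the bracket by `dlt` increases the number of components -/
theorem stage (hSp : GoalSp) {n i : ℕ} (hi : i < n) {S C : Word} (hS : Legal 0 S (2 * n))
    (hC : Legal (2 * n) C 0)
    (h : brv (S ++ (2 * i, .cap) :: (2 * i, .cup) :: C) = dlt * brv (S ++ C)) :
    oF (S ++ (2 * i, .cap) :: (2 * i, .cup) :: C) [] = 2 * oF (S ++ C) [] := by
  have hE : Legal (2 * n) ((2 * i, .cap) :: (2 * i, .cup) :: C) 0 := by
    refine ⟨by simp only [Gen.src]; omega, ?_⟩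
    refine ⟨by simp only [Gen.src, Gen.tgt]; omega, ?_⟩
    have e : 2 * n - Gen.cap.src + Gen.cap.tgt - Gen.cup.src + Gen.cup.tgt = 2 * n := by
      simp only [Gen.src, Gen.tgt]; omega
    rw [e]; exact hC
  have hX : Legal (2 * n) ((2 * i, .pos) :: C) 0 := by
    refine ⟨by simp only [Gen.src]; omega, ?_⟩
    have e : 2 * n - Gen.pos.src + Gen.pos.tgt = 2 * n := by
      simp only [Gen.src, Gen.tgt]; omega
    rw [e]; exact hC
  have L0 : Legal 0 (S ++ C) 0 := legal_append.2 ⟨_, hS, hC⟩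
  have L1 : Legal 0 (S ++ (2 * i, .pos) :: C) 0 := legal_append.2 ⟨_, hS, hX⟩
  have L2 : Legal 0 (S ++ (2 * i, .cap) :: (2 * i, .cup) :: C) 0 := legal_append.2 ⟨_, hS, hE⟩
  obtain ⟨p, hp⟩ := pow_word L0
  obtain ⟨r, hr⟩ := pow_word L1
  obtain ⟨q, hq⟩ := pow_word L2
  have a0 := hSp _ L0
  have a1 := hSp _ L1
  have a2 := hSp _ L2
  rw [hp] at a0
  rw [hr] at a1
  rw [hq] at a2
  -- the skein relation
  have hsk : val Sp (S ++ (2 * i, .cap) :: (2 * i, .cup) :: C) (fun _ => 1) [] =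
      val Sp (S ++ C) (fun _ => 1) [] - val Sp (S ++ (2 * i, .pos) :: C) (fun _ => 1) [] := by
    rw [val_append, val_append, val_append]
    have e := val_lin Sp S 1 (-1) (val Sp C (fun _ => 1)) (val Sp ((2 * i, .pos) :: C) (fun _ => 1))
      []
    have e1 : val Sp S (val Sp ((2 * i, .cap) :: (2 * i, .cup) :: C) (fun _ => 1)) [] =
        val Sp S (fun l' => 1 * val Sp C (fun _ => 1) l' +
          -1 * val Sp ((2 * i, .pos) :: C) (fun _ => 1) l') [] := by
      refine val_congr Sp hS _ _ [] rfl fun l hl => ?_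
      have := sp_skein (2 * i) (val Sp C (fun _ => 1)) l (by omega)
      calc val Sp ((2 * i, .cap) :: (2 * i, .cup) :: C) (fun _ => 1) l =
          act Sp (2 * i) .cap (act Sp (2 * i) .cup (val Sp C (fun _ => 1))) l := rfl
        _ = val Sp C (fun _ => 1) l - act Sp (2 * i) .pos (val Sp C (fun _ => 1)) l := this
        _ = 1 * val Sp C (fun _ => 1) l + -1 * val Sp ((2 * i, .pos) :: C) (fun _ => 1) l := by
          rw [val_cons]
          ring
    rw [e1, e]
    ring
  have b1 : q ≤ p + 1 := pow3 (x := val Sp (S ++ C) (fun _ => 1) [])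
    (y := -val Sp (S ++ (2 * i, .cap) :: (2 * i, .cup) :: C) (fun _ => 1) [])
    (z := -val Sp (S ++ (2 * i, .pos) :: C) (fun _ => 1) []) a0 (by rw [abs_neg]; exact a2)
    (by rw [abs_neg]; exact a1) (by rw [hsk]; ring)
  have b2 : p ≤ q + 1 := pow3
    (x := -val Sp (S ++ (2 * i, .cap) :: (2 * i, .cup) :: C) (fun _ => 1) [])
    (y := val Sp (S ++ C) (fun _ => 1) [])
    (z := -val Sp (S ++ (2 * i, .pos) :: C) (fun _ => 1) []) (by rw [abs_neg]; exact a2) a0
    (by rw [abs_neg]; exact a1) (by rw [hsk]; ring)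
  have h4 := fourth h
  have c0 : ((val Sp (S ++ C) (fun _ => 1) [] : ℤ) : ZMod 181) ^ 4 = 16 ^ p := by
    have : (val Sp (S ++ C) (fun _ => 1) [] : ℤ) ^ 4 = 16 ^ p := by
      have e : (val Sp (S ++ C) (fun _ => 1) [] : ℤ) ^ 4 = |val Sp (S ++ C) (fun _ => 1) []| ^ 4 := by
        rw [← abs_pow, abs_of_nonneg (by positivity)]
      rw [e, a0, ← pow_mul, mul_comm, pow_mul]
      norm_num
    exact_mod_cast congrArg (Int.cast (R := ZMod 181)) this
  have c2 : ((val Sp (S ++ (2 * i, .cap) :: (2 * i, .cup) :: C) (fun _ => 1) [] : ℤ) :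
      ZMod 181) ^ 4 = 16 ^ q := by
    have : (val Sp (S ++ (2 * i, .cap) :: (2 * i, .cup) :: C) (fun _ => 1) [] : ℤ) ^ 4 = 16 ^ q := by
      have e : (val Sp (S ++ (2 * i, .cap) :: (2 * i, .cup) :: C) (fun _ => 1) [] : ℤ) ^ 4 =
          |val Sp (S ++ (2 * i, .cap) :: (2 * i, .cup) :: C) (fun _ => 1) []| ^ 4 := by
        rw [← abs_pow, abs_of_nonneg (by positivity)]
      rw [e, a2, ← pow_mul, mul_comm, pow_mul]
      norm_num
    exact_mod_cast congrArg (Int.cast (R := ZMod 181)) this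
  rw [c0, c2] at h4
  have hne : ∀ k : ℕ, (16 : ZMod 181) ^ k ≠ 0 := by
    intro k
    refine pow_ne_zero _ ?_
    have : (16 : ZMod 181) = 2 ^ 4 := by norm_num
    rw [this]
    exact pow_ne_zero _ z181b
  have hpq : q = p + 1 := by
    rcases (show q = p + 1 ∨ q = p ∨ p = q + 1 by omega) with e | e | e
    · exact e
    · exfalso
      rw [e] at h4
      have : (1 : ZMod 181) * 16 ^ p = 16 * 16 ^ p := by rw [one_mul]; exact h4
      exact z181c (mul_right_cancel₀ (hne p) this)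
    · exfalso
      rw [e, pow_succ] at h4
      have : (1 : ZMod 181) * 16 ^ q = (16 * 16) * 16 ^ q := by
        rw [one_mul]
        calc (16 : ZMod 181) ^ q = _ := h4
          _ = _ := by ring
      exact z181d (mul_right_cancel₀ (hne q) this)
  rw [hp, hq, hpq, pow_succ]
  ring

end Pool.Agent.Helper31.Sk
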