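import Pool.Agent.Helper31.Sk.OrDir
import Pool.Agent.Helper31.Sk.OrL
import Pool.Agent.Helper31.Sk.Xcl

/-! Twisting of the cups so that the orientation becomes the alternating one. -/

set_option autoImplicit false

namespace Pool.Agent.Helper31.Sk

theorem dir_cross {i : ℕ} {g : Gen} (hg : g = .pos ∨ g = .neg) (l : List Bool)
    (h : i + 2 ≤ l.length) : Dir l [(i, g)] (swp i l) := by
  rw [dir_iff, val_cons, or_cross i g hg _ _ h]
  simp [ind]

theorem dir_cups {n : ℕ} {o : List Bool} (h : Dir [] (cups n) o) :
    o.length = 2 * n ∧ ∀ j < n, nth o (2 * j) ≠ nth o (2 * j + 1) := by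
  classical
  have ho := length_dir (legal_cups n) rfl h
  refine ⟨ho, ?_⟩
  have h1 := dir_tensor (legal_cups n) h
  rw [cups_tensor n o ho] at h1
  by_contra hcon
  rw [if_neg hcon] at h1
  exact lt_irrefl _ h1

theorem norm_step {n : ℕ} {o : List Bool} (ho : o.length = 2 * n)
    (hc : ∀ j < n, nth o (2 * j) ≠ nth o (2 * j + 1)) (k : ℕ) (hk : k ≤ n) :
    ∃ (θ : Word) (x : List Bool), IsBr θ ∧ Legal (2 * n) θ (2 * n) ∧
      Iso 0 (2 * n) (cups n ++ θ) (cups n) ∧ Dir (alt n) θ x ∧ x.length = 2 * n ∧
      (∀ j < 2 * k, nth x j = nth o j) ∧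
      ∀ j < 2 * n, 2 * k ≤ j → nth x j = nth (alt n) j := by
  induction k with
  | zero =>
    exact ⟨[], alt n, by simp [IsBr], rfl, by rw [List.append_nil]; exact iso_refl _ _ _, rfl,
      length_alt n, fun j hj => by omega, fun j _ _ => rfl⟩
  | succ k ih =>
    obtain ⟨θ, x, h1, h2, h3, h4, h5, h6, h7⟩ := ih (by omega)
    have a0 : nth (alt n) (2 * k) = true := by
      rw [nth_alt _ _ (by omega)]
      have : (2 * k) % 2 = 0 := by omega
      simp [this]
    have a1 : nth (alt n) (2 * k + 1) = false := by
      rw [nth_alt _ _ (by omega)]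
      have : (2 * k + 1) % 2 = 1 := by omega
      simp [this]
    have x0 := h7 (2 * k) (by omega) (by omega)
    have x1 := h7 (2 * k + 1) (by omega) (by omega)
    rw [a0] at x0
    rw [a1] at x1
    have hk2 := hc k (by omega)
    by_cases hcase : nth o (2 * k) = true
    · refine ⟨θ, x, h1, h2, h3, h4, h5, fun j hj => ?_, fun j hj hj2 => h7 j hj (by omega)⟩
      rcases Nat.lt_or_ge j (2 * k) with h | h
      · exact h6 j h
      · rcases Nat.eq_or_lt_of_le h with e | e
        · rw [← e, x0, hcase]
        · obtain rfl : j = 2 * k + 1 := by omega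
          rw [x1]
          rw [hcase] at hk2
          revert hk2
          cases nth o (2 * k + 1) <;> simp
    · refine ⟨θ ++ [(2 * k, .pos)], swp (2 * k) x, ?_, ?_, ?_, ?_, by rw [length_swp]; exact h5,
        ?_, ?_⟩
      · intro s hs
        rcases List.mem_append.1 hs with h | h
        · exact h1 s h
        · simp only [List.mem_cons, List.not_mem_nil, or_false] at h
          subst h
          exact Or.inl rfl
      · refine legal_append.2 ⟨2 * n, h2, ?_⟩
        simp only [Legal, Gen.src, Gen.tgt]
        omega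
      · rw [← List.append_assoc]
        have g1 : Legal (2 * n) [(2 * k, Gen.pos)] (2 * n) := by
          simp only [Legal, Gen.src, Gen.tgt]
          omega
        exact iso_trans (iso_right h3 g1) (cups_twist n k .pos (Or.inl rfl) (by omega))
      · exact dir_append.2 ⟨x, h4, dir_cross (Or.inl rfl) x (by omega)⟩
      · intro j hj
        rw [nth_swp _ _ (by omega)]
        have o0 : nth o (2 * k) = false := by
          revert hcase
          cases nth o (2 * k) <;> simp
        have o1 : nth o (2 * k + 1) = true := by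
          rw [o0] at hk2
          revert hk2
          cases nth o (2 * k + 1) <;> simp
        by_cases e0 : j = 2 * k
        · rw [if_pos e0, x1, e0, o0]
        · by_cases e1 : j = 2 * k + 1
          · rw [if_neg e0, if_pos e1, x0, e1, o1]
          · rw [if_neg e0, if_neg e1]
            exact h6 j (by omega)
      · intro j hj hj2
        rw [nth_swp _ _ (by omega), if_neg (by omega), if_neg (by omega)]
        exact h7 j hj (by omega)

theorem norm_alt {n : ℕ} {o : List Bool} (ho : o.length = 2 * n)
    (hc : ∀ j < n, nth o (2 * j) ≠ nth o (2 * j + 1)) :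
    ∃ θ : Word, IsBr θ ∧ Legal (2 * n) θ (2 * n) ∧
      Iso 0 (2 * n) (cups n ++ θ) (cups n) ∧ Dir (alt n) θ o := by
  obtain ⟨θ, x, h1, h2, h3, h4, h5, h6, h7⟩ := norm_step ho hc n le_rfl
  have e : x = o := nth_ext (by rw [h5, ho]) fun k hk => h6 k (by omega)
  rw [e] at h4
  exact ⟨θ, h1, h2, h3, h4⟩

end Pool.Agent.Helper31.Sk
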