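import Pool.Agent.Helper31.Sk.OrMod
import Pool.Agent.Helper31.Sk.OrNorm

/-! A tangle which behaves like the trivial tangle for all oriented closings has the same
matching. -/

set_option autoImplicit false

namespace Pool.Agent.Helper31.Sk

/-! ### all the smoothings -/

/-- smoothings at the first `n` cups -/
def EE : ℕ → Word
  | 0 => []
  | n + 1 => EE n ++ [(2 * n, .cap), (2 * n, .cup)]

theorem EE_left (n : ℕ) : EE (n + 1) = (0, .cap) :: (0, .cup) :: shift 2 (EE n) := by
  induction n with
  | zero => rfl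
  | succ n ih =>
    calc EE (n + 1 + 1) = EE (n + 1) ++ [(2 * (n + 1), .cap), (2 * (n + 1), .cup)] := rfl
      _ = ((0, .cap) :: (0, .cup) :: shift 2 (EE n)) ++
          [(2 * (n + 1), .cap), (2 * (n + 1), .cup)] := by rw [ih]
      _ = (0, .cap) :: (0, .cup) :: (shift 2 (EE n) ++ shift 2 [(2 * n, .cap), (2 * n, .cup)]) := rfl
      _ = (0, .cap) :: (0, .cup) :: shift 2 (EE (n + 1)) := by
        rw [← shift_append]
        rfl

theorem legal_EE (n : ℕ) : ∀ m, 2 * n ≤ m → Legal m (EE n) m := by
  induction n with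
  | zero => intro m _; rfl
  | succ n ih =>
    intro m hm
    refine legal_append.2 ⟨m, ih m (by omega), ?_⟩
    simp only [Legal, Gen.src, Gen.tgt]
    omega

open Classical in
theorem EE_val (n : ℕ) : ∀ (φ : List Bool → ℤ) (l : List Bool), l.length = 2 * n →
    val (Or ℤ) (EE n) φ l =
      if (∀ j < n, nth l (2 * j) ≠ nth l (2 * j + 1)) then LU n φ else 0 := by
  induction n with
  | zero =>
    intro φ l hl
    obtain rfl : l = [] := List.length_eq_zero_iff.1 (by omega)
    rw [if_pos (fun j hj => by omega)]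
    rfl
  | succ n ih =>
    intro φ l hl
    obtain ⟨x, y, l, rfl⟩ : ∃ x y l', l = x :: y :: l' := by
      rcases l with _ | ⟨x, _ | ⟨y, l⟩⟩
      · simp at hl
      · simp at hl; omega
      · exact ⟨x, y, l, rfl⟩
    have hl' : l.length = 2 * n := by
      simp only [List.length_cons] at hl
      omega
    have hLHS : val (Or ℤ) (EE (n + 1)) φ (x :: y :: l) = if x = y then 0 else
        (val (Or ℤ) (shift 2 (EE n)) φ (false :: true :: l) +
          val (Or ℤ) (shift 2 (EE n)) φ (true :: false :: l)) := by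
      rw [EE_left, val_cons, or_cap _ _ _ (by simp)]
      show (if x = y then 0 else val (Or ℤ) ((0, .cup) :: shift 2 (EE n)) φ l) = _
      rw [val_cons, or_cup _ _ _ (by simp)]
      rfl
    have e1 : ∀ a b : Bool, val (Or ℤ) (shift 2 (EE n)) φ (a :: b :: l) =
        if (∀ j < n, nth l (2 * j) ≠ nth l (2 * j + 1)) then LU n (fun l' => φ (a :: b :: l')) else 0 := by
      intro a b
      rw [← ih (fun l' => φ (a :: b :: l')) l hl']
      have := val_shiftW (Or ℤ) 2 (EE n) φ [a, b] l rfl
      exact this
    rw [hLHS, e1, e1]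
    have e2 : (∀ j < n + 1, nth (x :: y :: l) (2 * j) ≠ nth (x :: y :: l) (2 * j + 1)) ↔
        (x ≠ y ∧ ∀ j < n, nth l (2 * j) ≠ nth l (2 * j + 1)) := by
      constructor
      · intro h
        refine ⟨h 0 (by omega), fun j hj => ?_⟩
        have := h (j + 1) (by omega)
        have e3 : 2 * (j + 1) = 2 * j + 1 + 1 := by ring
        rw [e3] at this
        exact this
      · rintro ⟨h1, h2⟩ j hj
        rcases j with _ | j
        · exact h1
        · have e3 : 2 * (j + 1) = 2 * j + 1 + 1 := by ring
          rw [e3]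
          exact h2 j (by omega)
    by_cases hxy : x = y
    · rw [if_pos hxy, if_neg (fun h => (e2.1 h).1 hxy)]
    · rw [if_neg hxy]
      by_cases h : ∀ j < n, nth l (2 * j) ≠ nth l (2 * j + 1)
      · rw [if_pos h, if_pos h, if_pos (e2.2 ⟨hxy, h⟩), LU_succ, or_act_cup_fun]
        unfold LU
        have := val_lin (Or ℤ) (cups n) 1 1 (fun l' => φ (false :: true :: l'))
          (fun l' => φ (true :: false :: l')) []
        simp only [one_mul] at this
        exact this.symm
      · rw [if_neg h, if_neg h, if_neg (fun h' => h (e2.1 h').2), add_zero]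

/-! ### maximal values -/

theorem LU_mono {n : ℕ} {φ ψ : List Bool → ℤ} (h : ∀ l : List Bool, l.length = 2 * n → φ l ≤ ψ l) :
    LU n φ ≤ LU n ψ := by
  have h1 : LU n (fun l => 1 * ψ l + (-1) * φ l) = 1 * LU n ψ + (-1) * LU n φ :=
    val_lin (Or ℤ) (cups n) 1 (-1) ψ φ []
  have h2 : 0 ≤ LU n (fun l => 1 * ψ l + (-1) * φ l) := by
    unfold LU
    rw [tensor_or (legal_cups n)]
    exact pz_nonneg _ _ _ fun l hl => mul_nonneg (oF_nonneg _ _) (by linarith [h l hl])
  linarith

theorem LU_const (n : ℕ) (B : ℤ) : LU n (fun _ => B) = 2 ^ n * B := by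
  induction n generalizing B with
  | zero => simp [LU, cups]
  | succ n ih =>
    rw [LU_succ, or_act_cup_fun]
    have e : (fun _ : List Bool => B + B) = fun _ => 2 * B := by
      funext _; ring
    rw [e, ih, pow_succ]
    ring

theorem LU_max (n : ℕ) : ∀ (G : List Bool → ℤ) (B : ℤ),
    (∀ l : List Bool, l.length = 2 * n → G l ≤ B) → LU n G = 2 ^ n * B →
    ∀ l : List Bool, l.length = 2 * n → (∀ j < n, nth l (2 * j) ≠ nth l (2 * j + 1)) → G l = B := by
  induction n with
  | zero =>
    intro G B _ h2 l hl _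
    obtain rfl : l = [] := List.length_eq_zero_iff.1 (by omega)
    have : LU 0 G = G [] := rfl
    rw [this] at h2
    rw [h2]
    ring
  | succ n ih =>
    intro G B h1 h2 l hl hc
    obtain ⟨x, y, l, rfl⟩ : ∃ x y l', l = x :: y :: l' := by
      rcases l with _ | ⟨x, _ | ⟨y, l⟩⟩
      · simp at hl
      · simp at hl; omega
      · exact ⟨x, y, l, rfl⟩
    have hl' : l.length = 2 * n := by
      simp only [List.length_cons] at hl
      omega
    rw [LU_succ, or_act_cup_fun] at h2
    have hb : ∀ (a b : Bool) (l : List Bool), l.length = 2 * n → G (a :: b :: l) ≤ B := by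
      intro a b l hl
      exact h1 _ (by simp only [List.length_cons, hl]; ring)
    have h3 := ih _ (2 * B) (fun l hl => by
      have a1 := hb false true l hl
      have a2 := hb true false l hl
      show G (false :: true :: l) + G (true :: false :: l) ≤ 2 * B
      linarith) (by rw [h2, pow_succ]; ring) l hl' (fun j hj => by
        have := hc (j + 1) (by omega)
        have e3 : 2 * (j + 1) = 2 * j + 1 + 1 := by ring
        rw [e3] at this
        exact this)
    have h3' : G (false :: true :: l) + G (true :: false :: l) = 2 * B := h3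
    have a1 := hb false true l hl'
    have a2 := hb true false l hl'
    have hxy : x ≠ y := hc 0 (by omega)
    cases x <;> cases y
    · exact absurd rfl hxy
    · linarith
    · linarith
    · exact absurd rfl hxy

theorem pz_comm (m : ℕ) (ψ φ : List Bool → ℤ) : pz m ψ φ = pz m φ ψ :=
  pz_congr m _ _ _ _ fun l _ => mul_comm _ _

theorem pz_half (m : ℕ) (ψ φ : List Bool → ℤ)
    (h : ∀ l : List Bool, l.length = m + 1 → ψ (l.map not) * φ (l.map not) = ψ l * φ l) :
    pz (m + 1) ψ φ = 2 * pz m (fun l => ψ (true :: l)) (fun l => φ (true :: l)) := by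
  simp only [pz]
  have e := pz_not m (fun l => ψ (true :: l)) (fun l => φ (true :: l))
  have e2 : pz m (fun l => ψ (true :: l.map not)) (fun l => φ (true :: l.map not)) =
      pz m (fun l => ψ (false :: l)) (fun l => φ (false :: l)) :=
    pz_congr m _ _ _ _ fun l hl => by
      have := h (false :: l) (by simp [hl])
      simpa using this
  rw [← e2, e]
  ring

/-- the hypothesis on the tangle `T`, oriented version -/
def HypO (n : ℕ) (T : Word) : Prop :=
  ∀ C, InSo n C → IsKnot (T ++ C) → ∃ c, Un c ∧ brv (T ++ C) = c * dlt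

theorem stages (hSp : GoalSp) {n : ℕ} {T : Word} (hT : Legal 0 T (2 * n)) (hH : HypO n T)
    {C0 : Word} (h0 : InSo n C0) (hK0 : IsKnot (T ++ C0)) (j : ℕ) (hj : j ≤ n) :
    (∀ C, InSo n C → (∀ l : List Bool, l.length = 2 * n → oF C l = oF C0 l) →
      ∃ c, Un c ∧ brv (T ++ EE j ++ C) = c * dlt ^ (j + 1)) ∧
    oF (T ++ EE j ++ C0) [] = 2 ^ (j + 1) := by
  have hsum : ∀ D, oF (T ++ D) [] = pz (2 * n) (oF (dag T)) (oF D) := by
    intro D
    rw [oF_append, tensor_or hT]
  induction j with
  | zero =>
    have e : ∀ C, T ++ EE 0 ++ C = T ++ C := by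
      intro C
      simp [EE]
    constructor
    · intro C hC hCC
      rw [e]
      have hk : IsKnot (T ++ C) := by
        rw [isKnot_iff (legal_append.2 ⟨_, hT, hC.1.1⟩)]
        rw [isKnot_iff (legal_append.2 ⟨_, hT, h0.1.1⟩)] at hK0
        rw [← hK0, hsum, hsum]
        exact pz_congr _ _ _ _ _ fun l hl => by rw [hCC l hl]
      obtain ⟨c, hc, h⟩ := hH C hC hk
      exact ⟨c, hc, by rw [h]; ring⟩
    · rw [e, (isKnot_iff (legal_append.2 ⟨_, hT, h0.1.1⟩)).1 hK0]
      norm_num
  | succ j ih =>
    obtain ⟨ih1, ih2⟩ := ih (by omega)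
    have hTE : Legal 0 (T ++ EE j) (2 * n) := legal_append.2 ⟨2 * n, hT, legal_EE j _ (by omega)⟩
    have e : ∀ C, T ++ EE (j + 1) ++ C = (T ++ EE j) ++ (2 * j, .cap) :: (2 * j, .cup) :: C := by
      intro C
      simp [EE]
    set L : (List Bool → ℚ) → ℚ := fun φ => val WW (T ++ EE j) φ [] with hLdef
    have hL : Loc (2 * n) L :=
      ⟨fun α γ φ ψ => val_lin WW _ α γ φ ψ [], fun φ ψ e => val_congr WW hTE φ ψ [] rfl e⟩
    have key : ∀ C, InSo n C → (∀ l : List Bool, l.length = 2 * n → oF C l = oF C0 l) →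
        brv (T ++ EE j ++ (2 * j, .cap) :: (2 * j, .cup) :: C) = dlt * brv (T ++ EE j ++ C) := by
      intro C hC hCC
      have hpp : ∀ D, InSo n D → (∀ l : List Bool, l.length = 2 * n → oF D l = oF C0 l) →
          InSo n (pp j D) ∧ ∀ l : List Bool, l.length = 2 * n → oF (pp j D) l = oF C0 l := by
        intro D hD hDD
        exact ⟨inSo_pp hD (by omega), fun l hl => by rw [oF_pp (n := n) (by omega) D l hl, hDD l hl]⟩
      have p1 := hpp C hC hCC
      have p2 := hpp _ p1.1 p1.2
      have u0 := ih1 C hC hCC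
      have u1 := ih1 _ p1.1 p1.2
      have u2 := ih1 _ p2.1 p2.2
      rw [brv_app] at u0 u1 u2
      have h := unit_step hL (by omega) (dlt ^ (j + 1)) (pow_ne_zero _ (by unfold dlt; norm_num))
        u0 u1 u2
      rw [brv_app, brv_app]
      exact h
    constructor
    · intro C hC hCC
      obtain ⟨c, hc, h⟩ := ih1 C hC hCC
      refine ⟨c, hc, ?_⟩
      rw [e, key C hC hCC, h]
      ring
    · rw [e, stage hSp (n := n) (i := j) (by omega) hTE h0.1.1 (key C0 h0 (fun l _ => rfl)), ih2]
      ring

/-- the tensor of a tangle which behaves like the cups for all oriented closings -/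
theorem same_tensor_o (hSp : GoalSp) {n : ℕ} {T : Word} (hT : Legal 0 T (2 * n)) (hH : HypO n T)
    (hD : Dir [] T (alt n)) {C0 : Word} (h0 : InSo n C0) (hK0 : IsKnot (T ++ C0))
    (φ : List Bool → ℤ) : val (Or ℤ) T φ [] = LU n φ := by
  classical
  obtain ⟨kG, f, hG⟩ := mt_word (dag T) (2 * n) (legal_dag T 0 _ hT)
  change Mt (2 * n) kG f (oF (dag T)) at hG
  set G := oF (dag T) with hGdef
  have hsum : ∀ D, oF (T ++ D) [] = pz (2 * n) G (oF D) := by
    intro D
    rw [oF_append, tensor_or hT]
  have hU : ∀ ψ : List Bool → ℤ, LU n ψ = pz (2 * n) (oF (dag (cups n))) ψ := fun ψ =>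
    tensor_or (legal_cups n) ψ
  -- the closing of the cups is a knot
  have hUK : LU n (oF C0) = 2 := by
    have h1 : IsKnot (cups n ++ C0) := (iso_isKnot h0.1.2).2 isKnot_unknot
    have h2 := (isKnot_iff h1.1).1 h1
    rw [oF_append] at h2
    exact h2
  have hTK : pz (2 * n) G (oF C0) = 2 := by
    rw [← hsum]
    exact (isKnot_iff (legal_append.2 ⟨_, hT, h0.1.1⟩)).1 hK0
  -- `kG = 0`
  have hga : 0 < G (alt n) := dir_tensor hT hD
  have hgn : ∀ l, 0 ≤ G l := fun l => oF_nonneg _ _
  have hGa : G (alt n) = 1 := by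
    rcases Nat.eq_zero_or_pos n with rfl | hn
    · have h1 : LU 0 (oF C0) = oF C0 [] := rfl
      rw [h1] at hUK
      have h2 : pz (2 * 0) G (oF C0) = G [] * oF C0 [] := rfl
      rw [h2, hUK] at hTK
      have : G (alt 0) = G [] := rfl
      rw [this]
      omega
    · obtain ⟨m, hm⟩ : ∃ m, 2 * n = m + 1 := ⟨2 * n - 1, by omega⟩
      rw [hm, pz_half m _ _ fun l _ => by
        rw [hGdef, oF_not, oF_not]] at hTK
      obtain ⟨n', rfl⟩ : ∃ n', n = n' + 1 := ⟨n - 1, by omega⟩
      have h3 := pz_le m (fun l => G (true :: l)) (fun l => oF C0 (true :: l))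
        (fun l _ => mul_nonneg (oF_nonneg _ _) (oF_nonneg _ _)) (false :: alt n') (by
          simp only [List.length_cons, length_alt]
          omega)
      have h4 : 0 < oF C0 (alt (n' + 1)) := h0.2
      simp only [alt] at h4 hga ⊢
      have h5 : pz m (fun l => G (true :: l)) (fun l => oF C0 (true :: l)) = 1 := by omega
      rw [h5] at h3
      nlinarith
  have hle : ∀ l : List Bool, l.length = 2 * n → G l ≤ 1 := by
    intro l hl
    have h1 := hG.v (alt n) (length_alt n)
    rw [hGa] at h1
    have h2 : (2 : ℤ) ^ kG = 1 := by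
      by_contra hne
      by_cases hc : Cmp (2 * n) f (nth (alt n))
      · rw [if_pos hc] at h1
        exact hne h1.symm
      · rw [if_neg hc] at h1
        norm_num at h1
    rw [hG.v l hl, h2]
    split_ifs <;> norm_num
  -- all labellings of the cups
  have hn2 := (stages hSp hT hH h0 hK0 n le_rfl).2
  rw [List.append_assoc, hsum] at hn2
  have hLG : LU n G = 2 ^ n := by
    have e1 : pz (2 * n) G (oF (EE n ++ C0)) = pz (2 * n) G (fun l =>
        2 * oF (dag (cups n)) l) := by
      refine pz_congr _ _ _ _ _ fun l hl => ?_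
      rw [oF_append, EE_val n _ l hl, cups_tensor n l hl, hUK]
      congr 1
      split_ifs <;> norm_num
    rw [e1, pz_comm, pz_smul_left, ← hU, pow_succ] at hn2
    linarith
  have hall := LU_max n G 1 hle (by rw [hLG, mul_one])
  have hnalt : ∀ j < n, nth (alt n) (2 * j) = true ∧ nth (alt n) (2 * j + 1) = false := by
    intro j hj
    rw [nth_alt _ _ (by omega), nth_alt _ _ (by omega)]
    have a1 : (2 * j) % 2 = 0 := by omega
    have a2 : (2 * j + 1) % 2 = 1 := by omega
    simp [a1, a2]
  -- the matching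
  have hf : ∀ j < n, f (2 * j) = 2 * j + 1 := by
    intro j hj
    by_contra hne
    have ht1 : f (2 * j) ≠ 2 * j := hG.mat.ne _ (by omega)
    have ht2 : f (2 * j) < 2 * n := hG.mat.lt _ (by omega)
    have hbad : ∀ l : List Bool, l.length = 2 * n →
        (∀ i < n, nth l (2 * i) ≠ nth l (2 * i + 1)) → nth l (2 * j) ≠ nth l (f (2 * j)) := by
      intro l hl hc
      have h1 := hall l hl hc
      rw [hG.v l hl] at h1
      have hcc : Cmp (2 * n) f (nth l) := by
        by_contra hcon
        rw [if_neg hcon] at h1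
        norm_num at h1
      exact hcc (2 * j) (by omega)
    rcases Nat.even_or_odd' (f (2 * j)) with ⟨t, ht | ht⟩
    · refine hbad (alt n) (length_alt n) (fun i hi => ?_) ?_
      · rw [(hnalt i hi).1, (hnalt i hi).2]
        decide
      · rw [ht, (hnalt j hj).1, (hnalt t (by omega)).1]
    · have htn : t < n := by omega
      have htj : t ≠ j := by
        intro e
        rw [e] at ht
        exact hne ht
      have hlen := length_alt n
      have hs : ∀ i, nth (swp (2 * t) (alt n)) i = nth (alt n)
          (if i = 2 * t then 2 * t + 1 else if i = 2 * t + 1 then 2 * t else i) :=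
        nth_swp _ _ (by omega)
      refine hbad (swp (2 * t) (alt n)) (by rw [length_swp]; exact hlen) (fun i hi => ?_) ?_
      · rw [hs, hs]
        by_cases e : i = t
        · subst e
          rw [if_pos rfl, if_neg (by omega), if_pos rfl, (hnalt i hi).1, (hnalt i hi).2]
          decide
        · rw [if_neg (by omega), if_neg (by omega), if_neg (by omega), if_neg (by omega),
            (hnalt i hi).1, (hnalt i hi).2]
          decide
      · rw [hs, hs, ht, if_neg (by omega), if_neg (by omega), if_neg (by omega), if_pos rfl,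
          (hnalt j hj).1, (hnalt t htn).1]
  have hf2 : ∀ j < n, f (2 * j + 1) = 2 * j := by
    intro j hj
    rw [← hf j hj]
    exact hG.mat.inv _ (by omega)
  have hiff : ∀ l : List Bool, Cmp (2 * n) f (nth l) ↔
      (∀ j < n, nth l (2 * j) ≠ nth l (2 * j + 1)) := by
    intro l
    constructor
    · intro hc j hj
      have := hc (2 * j) (by omega)
      rwa [hf j hj] at this
    · intro hc t ht
      rcases Nat.even_or_odd' t with ⟨j, rfl | rfl⟩
      · rw [hf j (by omega)]
        exact hc j (by omega)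
      · rw [hf2 j (by omega)]
        exact (hc j (by omega)).symm
  rw [tensor_or hT, hU]
  refine pz_congr _ _ _ _ _ fun l hl => ?_
  congr 1
  rw [cups_tensor n l hl]
  by_cases hc : ∀ j < n, nth l (2 * j) ≠ nth l (2 * j + 1)
  · rw [if_pos hc]
    exact hall l hl hc
  · rw [if_neg hc]
    have := hG.v l hl
    rw [if_neg (fun h => hc ((hiff l).1 h))] at this
    exact this

end Pool.Agent.Helper31.Sk
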