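import Pool.Agent.Helper31.Sk.Loc

/-! All closings; the pairing; equality of tensors. -/

set_option autoImplicit false

namespace Pool.Agent.Helper31.Sk

theorem cap_legal {m j : ℕ} {V : Word} (hj : j + 2 ≤ m) (h : Legal (m - 2) V 0) :
    Legal m ((j, .cap) :: V) 0 := by
  refine ⟨by simp only [Gen.src]; omega, ?_⟩
  simpa [Gen.src, Gen.tgt] using h

theorem capOnly_cons {j : ℕ} {V : Word} (h : CapOnly V) : CapOnly ((j, .cap) :: V) := by
  intro s hs
  rcases List.mem_cons.1 hs with rfl | hs
  · rfl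
  · exact h s hs

/-- a cup below caps can be removed -/
theorem cup_capOnly (V : Word) : ∀ (m i : ℕ), CapOnly V → Legal (m + 2) V 0 → i ≤ m →
    ∃ (κ : ℚ) (V' : Word), CapOnly V' ∧ Legal m V' 0 ∧
      ∀ l : List Bool, l.length = m → act WW i .cup (fC V) l = κ * fC V' l := by
  induction V with
  | nil => intro m i _ h _; simp [Legal] at h
  | cons s V ih =>
    intro m i hV hL hi
    obtain ⟨j, g⟩ := s
    obtain ⟨rfl, hV', h1, hV3⟩ := legal_capOnly_cons hV hL
    have e0 : m + 2 - 2 = m := by omega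
    rw [e0] at hV3
    rcases Nat.lt_trichotomy j i with hji | hji | hji
    · rcases Nat.eq_or_lt_of_le (Nat.succ_le_of_lt hji) with h2 | h2
      · refine ⟨1, V, hV', hV3, fun l hl => ?_⟩
        rw [one_mul, fC_cons]
        exact cup_nbr (Or.inr (by omega)) (fC V) l (by omega) (by omega)
      · -- far on the left
        obtain ⟨m', rfl⟩ : ∃ m', m = m' + 2 := ⟨m - 2, by omega⟩
        obtain ⟨t, rfl⟩ : ∃ t, i = j + 2 + t := ⟨i - (j + 2), by omega⟩
        obtain ⟨κ, V', a1, a2, a3⟩ := ih m' (j + t) hV' hV3 (by omega)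
        refine ⟨κ, (j, .cap) :: V', capOnly_cons a1, cap_legal (by omega) (by simpa using a2),
          fun l hl => ?_⟩
        rw [fC_cons, fC_cons, ← act_smul]
        have h3 := comm_rel WW j t .cap .cup (fC V) l (by simp only [Gen.src]; omega)
        have e1 : j + Gen.cap.tgt + t = j + t := by simp [Gen.tgt]
        have e2 : j + Gen.cap.src + t = j + 2 + t := by simp [Gen.src]
        rw [e1, e2] at h3
        rw [← h3]
        refine act_congr WW _ _ _ _ l (by simp only [Gen.src]; omega) fun l' hl' => a3 l' ?_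
        simp only [Gen.src, Gen.tgt] at hl'
        omega
    · subst hji
      refine ⟨dlt, V, hV', hV3, fun l hl => ?_⟩
      rw [fC_cons]
      exact act_loop j (fC V) l (by omega)
    · rcases Nat.eq_or_lt_of_le (Nat.succ_le_of_lt hji) with h2 | h2
      · refine ⟨1, V, hV', hV3, fun l hl => ?_⟩
        rw [one_mul, fC_cons]
        exact cup_nbr (Or.inl (by omega)) (fC V) l (by omega) (by omega)
      · obtain ⟨m', rfl⟩ : ∃ m', m = m' + 2 := ⟨m - 2, by omega⟩
        obtain ⟨t, rfl⟩ : ∃ t, j = i + 2 + t := ⟨j - (i + 2), by omega⟩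
        obtain ⟨κ, V', a1, a2, a3⟩ := ih m' i hV' hV3 (by omega)
        refine ⟨κ, (i + t, .cap) :: V', capOnly_cons a1, cap_legal (by omega) (by simpa using a2),
          fun l hl => ?_⟩
        rw [fC_cons, fC_cons, ← act_smul]
        have h3 := comm_rel WW i t .cup .cap (fC V) l (by simp only [Gen.src]; omega)
        have e1 : i + Gen.cup.tgt + t = i + 2 + t := by simp [Gen.tgt]
        have e2 : i + Gen.cup.src + t = i + t := by simp [Gen.src]
        rw [e1, e2] at h3
        rw [h3]
        refine act_congr WW _ _ _ _ l (by simp only [Gen.src]; omega) fun l' hl' => a3 l' ?_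
        simp only [Gen.src, Gen.tgt] at hl'
        omega

/-- a functional which vanishes on all closings by caps vanishes on all closings -/
theorem allC (C : Word) : ∀ (m : ℕ) (L : (List Bool → ℚ) → ℚ), Loc m L → Legal m C 0 →
    (∀ V, CapOnly V → Legal m V 0 → L (fC V) = 0) → L (fC C) = 0 := by
  induction C with
  | nil => intro m L _ h h1; exact h1 [] (by simp [CapOnly]) h
  | cons s C ih =>
    intro m L hL h h1
    obtain ⟨i, g⟩ := s
    obtain ⟨h2, h3⟩ := h
    rw [fC_cons]
    refine ih _ (fun φ => L (act WW i g φ)) (hL.act i g h2 _ rfl) h3 fun V hV hV2 => ?_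
    -- `E` of a closing by caps
    have hE : i + 2 ≤ m → Legal m V 0 → L (act WW i .cap (act WW i .cup (fC V))) = 0 := by
      intro hm hV3
      obtain ⟨m', rfl⟩ : ∃ m', m = m' + 2 := ⟨m - 2, by omega⟩
      obtain ⟨κ, V', a1, a2, a3⟩ := cup_capOnly V m' i hV hV3 (by omega)
      have e : L (act WW i .cap (act WW i .cup (fC V))) = κ * L (act WW i .cap (fC V')) := by
        rw [← hL.smul]
        refine hL.loc _ _ fun l hl => ?_
        rw [← act_smul]
        refine act_congr WW _ _ _ _ l (by simp only [Gen.src]; omega) fun l' hl' => a3 l' ?_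
        simp only [Gen.src, Gen.tgt] at hl'
        omega
      rw [e]
      have := h1 ((i, .cap) :: V') (capOnly_cons a1) (cap_legal (by omega) (by simpa using a2))
      rw [fC_cons] at this
      rw [this, mul_zero]
    rcases g with _ | _ | _ | _
    · simp only [Gen.src, Gen.tgt] at h2 hV2
      obtain ⟨κ, V', a1, a2, a3⟩ := cup_capOnly V m i hV (by simpa using hV2) (by omega)
      have e : L (act WW i .cup (fC V)) = κ * L (fC V') := by
        rw [← hL.smul]
        exact hL.loc _ _ fun l hl => a3 l hl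
      rw [e, h1 V' a1 a2, mul_zero]
    · simp only [Gen.src, Gen.tgt] at h2 hV2
      exact h1 ((i, .cap) :: V) (capOnly_cons hV) (cap_legal (by omega) (by simpa using hV2))
    · simp only [Gen.src, Gen.tgt] at h2 hV2
      have e0 : m - 2 + 2 = m := by omega
      rw [e0] at hV2
      have e : L (act WW i .pos (fC V)) = L (fun l => 19 * fC V l +
          (-(1 / 19)) * act WW i .cap (act WW i .cup (fC V)) l) := by
        refine hL.loc _ _ fun l hl => ?_
        rw [act_pos i (fC V) l (by omega)]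
        ring
      rw [e, hL.lin, h1 V hV hV2, hE h2 hV2]
      ring
    · simp only [Gen.src, Gen.tgt] at h2 hV2
      have e0 : m - 2 + 2 = m := by omega
      rw [e0] at hV2
      have e : L (act WW i .neg (fC V)) = L (fun l => (1 / 19) * fC V l +
          (-19) * act WW i .cap (act WW i .cup (fC V)) l) := by
        refine hL.loc _ _ fun l hl => ?_
        rw [act_neg i (fC V) l (by omega)]
        ring
      rw [e, hL.lin, h1 V hV hV2, hE h2 hV2]
      ring

/-! ### the pairing -/

/-- sum over the lists of length `m` -/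
def pr : ℕ → (List Bool → ℚ) → (List Bool → ℚ) → ℚ
  | 0, ψ, φ => ψ [] * φ []
  | m + 1, ψ, φ => pr m (fun l => ψ (false :: l)) (fun l => φ (false :: l)) +
      pr m (fun l => ψ (true :: l)) (fun l => φ (true :: l))

theorem pr_lin_right (m : ℕ) (α β : ℚ) (χ φ ψ : List Bool → ℚ) :
    pr m χ (fun l => α * φ l + β * ψ l) = α * pr m χ φ + β * pr m χ ψ := by
  induction m generalizing χ φ ψ with
  | zero => simp only [pr]; ring
  | succ m ih =>
    simp only [pr]
    rw [ih, ih]; ring

theorem pr_lin_left (m : ℕ) (α β : ℚ) (χ φ ψ : List Bool → ℚ) :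
    pr m (fun l => α * φ l + β * ψ l) χ = α * pr m φ χ + β * pr m ψ χ := by
  induction m generalizing χ φ ψ with
  | zero => simp only [pr]; ring
  | succ m ih =>
    simp only [pr]
    rw [ih, ih]; ring

theorem pr_nonneg (m : ℕ) (ψ : List Bool → ℚ) : 0 ≤ pr m ψ ψ := by
  induction m generalizing ψ with
  | zero => exact mul_self_nonneg _
  | succ m ih => exact add_nonneg (ih _) (ih _)

theorem pr_zero (m : ℕ) (ψ : List Bool → ℚ) (h : pr m ψ ψ = 0) (l : List Bool)
    (hl : l.length = m) : ψ l = 0 := by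
  induction m generalizing ψ l with
  | zero =>
    obtain rfl : l = [] := List.length_eq_zero_iff.1 hl
    exact mul_self_eq_zero.1 h
  | succ m ih =>
    simp only [pr] at h
    have h1 := pr_nonneg m (fun l => ψ (false :: l))
    have h2 := pr_nonneg m (fun l => ψ (true :: l))
    rcases l with _ | ⟨x, l⟩
    · simp at hl
    · cases x
      · exact ih (fun l => ψ (false :: l)) (by linarith) l (by simpa using hl)
      · exact ih (fun l => ψ (true :: l)) (by linarith) l (by simpa using hl)

def Gen.dag : Gen → Gen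
  | .cup => .cap
  | .cap => .cup
  | g => g

/-- turning a diagram upside down -/
def dag (w : Word) : Word := (w.map (fun s => (s.1, s.2.dag))).reverse

theorem dag_cons (i : ℕ) (g : Gen) (w : Word) : dag ((i, g) :: w) = dag w ++ [(i, g.dag)] := by
  simp [dag]

theorem act_cup_fun (φ : List Bool → ℚ) : act WW 0 .cup φ =
    fun l => 19 * φ (false :: true :: l) + 1 / 19 * φ (true :: false :: l) := by
  funext l
  simp [act0, S2, Br, Mw]

theorem adj_act (i : ℕ) (g : Gen) (m m' : ℕ) (ψ φ : List Bool → ℚ) (hi : i + g.src ≤ m)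
    (hm : m' = m - g.src + g.tgt) :
    pr m ψ (act WW i g φ) = pr m' (act WW i g.dag ψ) φ := by
  induction i generalizing m m' ψ φ with
  | zero =>
    rcases g with _ | _ | _ | _
    · simp only [Gen.src, Gen.tgt, Nat.sub_zero] at hi hm
      subst hm
      rw [act_cup_fun]
      simp only [pr, Gen.dag, act_zero, act0, WW, Br, Mw, zero_mul]
      have e1 : ∀ (c : ℚ) (χ φ : List Bool → ℚ), pr m (fun l => c * χ l) φ = c * pr m χ φ := by
        intro c χ φ
        have := pr_lin_left m c 0 φ χ χ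
        simpa using this
      rw [pr_lin_right]
      rw [e1, e1]
      have e2 : ∀ χ : List Bool → ℚ, pr m (fun _ => 0) χ = 0 := by
        intro χ
        have := pr_lin_left m 0 0 χ χ χ
        simpa using this
      rw [e2, e2]
      ring
    · obtain ⟨m1, rfl⟩ : ∃ m1, m = m1 + 2 := ⟨m - 2, by simp only [Gen.src] at hi; omega⟩
      simp only [Gen.src, Gen.tgt] at hi hm
      have hm' : m' = m1 := by omega
      subst hm'
      have e0 : act WW 0 Gen.cap.dag ψ = act WW 0 .cup ψ := rfl
      rw [e0, act_cup_fun]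
      simp only [pr, act_zero, act0, WW, Br, Mw, zero_mul]
      have e1 : ∀ (c : ℚ) (χ φ : List Bool → ℚ), pr m' χ (fun l => c * φ l) = c * pr m' χ φ := by
        intro c χ φ
        have := pr_lin_right m' c 0 χ φ φ
        simpa using this
      rw [pr_lin_left]
      rw [e1, e1]
      have e2 : ∀ χ : List Bool → ℚ, pr m' χ (fun _ => 0) = 0 := by
        intro χ
        have := pr_lin_right m' 0 0 χ χ χ
        simpa using this
      rw [e2, e2]
      ring
    · obtain ⟨m1, rfl⟩ : ∃ m1, m = m1 + 2 := ⟨m - 2, by simp only [Gen.src] at hi; omega⟩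
      simp only [Gen.src, Gen.tgt] at hi hm
      have hm' : m' = m1 + 2 := by omega
      subst hm'
      have f1 : ∀ (c1 c2 c3 c4 : ℚ) (χ φ1 φ2 φ3 φ4 : List Bool → ℚ),
          pr m1 χ (fun l => c1 * φ1 l + c2 * φ2 l + c3 * φ3 l + c4 * φ4 l) =
            c1 * pr m1 χ φ1 + c2 * pr m1 χ φ2 + c3 * pr m1 χ φ3 + c4 * pr m1 χ φ4 := by
        intro c1 c2 c3 c4 χ φ1 φ2 φ3 φ4
        have g1 := pr_lin_right m1 1 c4 χ (fun l => c1 * φ1 l + c2 * φ2 l + c3 * φ3 l) φ4
        have g2 := pr_lin_right m1 1 c3 χ (fun l => c1 * φ1 l + c2 * φ2 l) φ3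
        have g3 := pr_lin_right m1 c1 c2 χ φ1 φ2
        simp only [one_mul] at g1 g2
        rw [g1, g2, g3]
      have f2 : ∀ (c1 c2 c3 c4 : ℚ) (χ φ1 φ2 φ3 φ4 : List Bool → ℚ),
          pr m1 (fun l => c1 * φ1 l + c2 * φ2 l + c3 * φ3 l + c4 * φ4 l) χ =
            c1 * pr m1 φ1 χ + c2 * pr m1 φ2 χ + c3 * pr m1 φ3 χ + c4 * pr m1 φ4 χ := by
        intro c1 c2 c3 c4 χ φ1 φ2 φ3 φ4
        have g1 := pr_lin_left m1 1 c4 χ (fun l => c1 * φ1 l + c2 * φ2 l + c3 * φ3 l) φ4
        have g2 := pr_lin_left m1 1 c3 χ (fun l => c1 * φ1 l + c2 * φ2 l) φ3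
        have g3 := pr_lin_left m1 c1 c2 χ φ1 φ2
        simp only [one_mul] at g1 g2
        rw [g1, g2, g3]
      simp only [pr, Gen.dag, act_zero, act0, WW, Br, Mw, S2]
      simp only [f1, f2]
      norm_num
      ring
    · obtain ⟨m1, rfl⟩ : ∃ m1, m = m1 + 2 := ⟨m - 2, by simp only [Gen.src] at hi; omega⟩
      simp only [Gen.src, Gen.tgt] at hi hm
      have hm' : m' = m1 + 2 := by omega
      subst hm'
      have f1 : ∀ (c1 c2 c3 c4 : ℚ) (χ φ1 φ2 φ3 φ4 : List Bool → ℚ),
          pr m1 χ (fun l => c1 * φ1 l + c2 * φ2 l + c3 * φ3 l + c4 * φ4 l) =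
            c1 * pr m1 χ φ1 + c2 * pr m1 χ φ2 + c3 * pr m1 χ φ3 + c4 * pr m1 χ φ4 := by
        intro c1 c2 c3 c4 χ φ1 φ2 φ3 φ4
        have g1 := pr_lin_right m1 1 c4 χ (fun l => c1 * φ1 l + c2 * φ2 l + c3 * φ3 l) φ4
        have g2 := pr_lin_right m1 1 c3 χ (fun l => c1 * φ1 l + c2 * φ2 l) φ3
        have g3 := pr_lin_right m1 c1 c2 χ φ1 φ2
        simp only [one_mul] at g1 g2
        rw [g1, g2, g3]
      have f2 : ∀ (c1 c2 c3 c4 : ℚ) (χ φ1 φ2 φ3 φ4 : List Bool → ℚ),
          pr m1 (fun l => c1 * φ1 l + c2 * φ2 l + c3 * φ3 l + c4 * φ4 l) χ =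
            c1 * pr m1 φ1 χ + c2 * pr m1 φ2 χ + c3 * pr m1 φ3 χ + c4 * pr m1 φ4 χ := by
        intro c1 c2 c3 c4 χ φ1 φ2 φ3 φ4
        have g1 := pr_lin_left m1 1 c4 χ (fun l => c1 * φ1 l + c2 * φ2 l + c3 * φ3 l) φ4
        have g2 := pr_lin_left m1 1 c3 χ (fun l => c1 * φ1 l + c2 * φ2 l) φ3
        have g3 := pr_lin_left m1 c1 c2 χ φ1 φ2
        simp only [one_mul] at g1 g2
        rw [g1, g2, g3]
      simp only [pr, Gen.dag, act_zero, act0, WW, Br, Mw, S2]
      simp only [f1, f2]
      norm_num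
      ring
  | succ i ih =>
    obtain ⟨m1, rfl⟩ : ∃ m1, m = m1 + 1 := ⟨m - 1, by omega⟩
    obtain ⟨m2, rfl⟩ : ∃ m2, m' = m2 + 1 := ⟨m' - 1, by
      rcases g with _ | _ | _ | _ <;> simp only [Gen.src, Gen.tgt] at hi hm <;> omega⟩
    have hm2 : m2 = m1 - g.src + g.tgt := by omega
    simp only [pr, act_succ]
    rw [ih m1 m2 _ _ (by omega) hm2, ih m1 m2 _ _ (by omega) hm2]

theorem adj_val (w : Word) : ∀ (m n : ℕ) (ψ φ : List Bool → ℚ), Legal m w n →
    pr m ψ (val WW w φ) = pr n (val WW (dag w) ψ) φ := by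
  induction w with
  | nil =>
    intro m n ψ φ h
    simp only [Legal] at h
    subst h
    rfl
  | cons s w ih =>
    intro m n ψ φ h
    obtain ⟨i, g⟩ := s
    obtain ⟨h1, h2⟩ := h
    have e : val WW ((i, g) :: w) φ = act WW i g (val WW w φ) := rfl
    rw [e, adj_act i g m _ ψ _ h1 rfl, ih _ n _ _ h2, dag_cons, val_append]
    rfl

theorem legal_dag (w : Word) : ∀ (m n : ℕ), Legal m w n → Legal n (dag w) m := by
  induction w with
  | nil =>
    intro m n h
    exact h.symm
  | cons s w ih =>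
    intro m n h
    obtain ⟨i, g⟩ := s
    obtain ⟨h1, h2⟩ := h
    rw [dag_cons]
    refine legal_append.2 ⟨_, ih _ _ h2, ?_⟩
    rcases g with _ | _ | _ | _ <;> simp only [Legal, Gen.dag, Gen.src, Gen.tgt] at * <;> omega

/-- two tangles whose closings have proportional brackets are proportional -/
theorem tensor_eq {n : ℕ} {S T : Word} (hS : Legal 0 S n) (hT : Legal 0 T n) (c : ℚ)
    (h : ∀ C, Legal n C 0 → val WW T (fC C) [] = c * val WW S (fC C) []) (φ : List Bool → ℚ) :
    val WW T φ [] = c * val WW S φ [] := by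
  have key : ∀ (U : Word) (χ : List Bool → ℚ), Legal 0 U n → val WW U χ [] = pr n (fC (dag U)) χ := by
    intro U χ hU
    have := adj_val U 0 n (fun _ => 1) χ hU
    simp only [pr, one_mul] at this
    exact this
  set ψ : List Bool → ℚ := fun l => 1 * fC (dag T) l + (-c) * fC (dag S) l with hψ
  have h0 : pr n ψ ψ = 0 := by
    have e1 : pr n ψ ψ = 1 * pr n ψ (fC (dag T)) + (-c) * pr n ψ (fC (dag S)) :=
      pr_lin_right n 1 (-c) ψ _ _
    have e2 : ∀ C, Legal n C 0 → pr n ψ (fC C) = 0 := by
      intro C hC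
      rw [hψ, pr_lin_left, ← key T _ hT, ← key S _ hS, h C hC]
      ring
    rw [e1, e2 _ (legal_dag T 0 n hT), e2 _ (legal_dag S 0 n hS)]
    ring
  have h1 : ∀ l : List Bool, l.length = n → ψ l = 0 := fun l hl => pr_zero n ψ h0 l hl
  rw [key T φ hT, key S φ hS]
  have e3 : pr n ψ φ = pr n (fC (dag T)) φ - c * pr n (fC (dag S)) φ := by
    rw [hψ, pr_lin_left]; ring
  have e4 : pr n ψ φ = 0 := by
    have : ∀ (m : ℕ) (χ φ : List Bool → ℚ), (∀ l : List Bool, l.length = m → χ l = 0) →
        pr m χ φ = 0 := by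
      intro m
      induction m with
      | zero => intro χ φ h; simp only [pr]; rw [h [] rfl, zero_mul]
      | succ m ih =>
        intro χ φ h
        simp only [pr]
        rw [ih _ _ fun l hl => h _ (by simp [hl]), ih _ _ fun l hl => h _ (by simp [hl]), add_zero]
    exact this n ψ φ h1
  linarith

/-! ### more strands -/

theorem act_right (i : ℕ) (g : Gen) (φ : List Bool → ℚ) (l r : List Bool)
    (hl : i + g.src ≤ l.length) :
    act WW i g φ (l ++ r) = act WW i g (fun l' => φ (l' ++ r)) l := by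
  induction i generalizing φ l with
  | zero =>
    rcases g with _ | _ | _ | _
    · simp [act0]
    · rcases l with _ | ⟨x, _ | ⟨y, l⟩⟩
      · simp [Gen.src] at hl
      · simp [Gen.src] at hl
      · simp [act0]
    · rcases l with _ | ⟨x, _ | ⟨y, l⟩⟩
      · simp [Gen.src] at hl
      · simp [Gen.src] at hl
      · simp [act0]
    · rcases l with _ | ⟨x, _ | ⟨y, l⟩⟩
      · simp [Gen.src] at hl
      · simp [Gen.src] at hl
      · simp [act0]
  | succ i ih =>
    rcases l with _ | ⟨x, l⟩
    · simp at hl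
    · simp only [List.cons_append, act_succ]
      exact ih _ l (by simp only [List.length_cons] at hl; omega)

theorem val_right (w : Word) : ∀ (m n : ℕ) (φ : List Bool → ℚ) (l r : List Bool), Legal m w n →
    l.length = m → val WW w φ (l ++ r) = val WW w (fun l' => φ (l' ++ r)) l := by
  induction w with
  | nil => intro m n φ l r _ _; rfl
  | cons s w ih =>
    intro m n φ l r h hl
    obtain ⟨i, g⟩ := s
    obtain ⟨h1, h2⟩ := h
    simp only [val_cons]
    rw [act_right i g _ l r (by omega)]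
    exact act_congr WW i g _ _ l (by omega) fun l' hl' => ih _ n φ l' r h2 (by omega)

theorem shift_zero (w : Word) : shift 0 w = w := by
  simp [shift]

theorem shift_succ (a : ℕ) (w : Word) : shift (a + 1) w = up (shift a w) := by
  simp only [shift, up, List.map_map]
  rfl

theorem val_shift (a : ℕ) (w : Word) (φ : List Bool → ℚ) (l r : List Bool) (hl : l.length = a) :
    val WW (shift a w) φ (l ++ r) = val WW w (fun l' => φ (l ++ l')) r := by
  induction a generalizing φ l with
  | zero =>
    obtain rfl : l = [] := List.length_eq_zero_iff.1 hl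
    rw [shift_zero]
    rfl
  | succ a ih =>
    rcases l with _ | ⟨x, l⟩
    · simp at hl
    · rw [shift_succ, List.cons_append, val_up]
      exact ih _ l (by simpa using hl)

/-- proportional tangles are proportional in all contexts -/
theorem context {n : ℕ} {S T : Word} (hS : Legal 0 S n) (hT : Legal 0 T n) (c : ℚ)
    (h : ∀ φ : List Bool → ℚ, val WW T φ [] = c * val WW S φ []) (a : ℕ) (φ : List Bool → ℚ)
    (l : List Bool) (hl : a ≤ l.length) :
    val WW (shift a T) φ l = c * val WW (shift a S) φ l := by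
  obtain ⟨l1, l2, rfl, h1⟩ : ∃ l1 l2 : List Bool, l = l1 ++ l2 ∧ l1.length = a :=
    ⟨l.take a, l.drop a, (List.take_append_drop a l).symm, by simp [hl]⟩
  rw [val_shift a T φ l1 l2 h1, val_shift a S φ l1 l2 h1]
  have e1 := val_right T 0 n (fun l' => φ (l1 ++ l')) [] l2 hT rfl
  have e2 := val_right S 0 n (fun l' => φ (l1 ++ l')) [] l2 hS rfl
  rw [List.nil_append] at e1 e2
  rw [e1, e2]
  exact h _

end Pool.Agent.Helper31.Sk
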