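import Pool.Agent.Helper31.Sk.Hil

/-! Even twists: smoothings of unknotted closings are not knots. -/

set_option autoImplicit false

namespace Pool.Agent.Helper31.Sk

/-- the arithmetic of two full twists -/
theorem arith2 {x0 x1 x2 y0 : ℚ} (h0 : ∃ c, Un c ∧ x0 = c * dlt) (h1 : ∃ c, Un c ∧ x1 = c * dlt)
    (h2 : ∃ c, Un c ∧ x2 = c * dlt)
    (e1 : x1 = 19 ^ 2 * x0 - (1 - (1 / 19) ^ 4) * y0)
    (e2 : x2 = 19 ^ 2 * x1 - (1 - (1 / 19) ^ 4) * ((1 / 19) ^ 6 * y0)) : y0 = dlt * x0 := by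
  obtain ⟨c0, u0, r0⟩ := h0
  obtain ⟨c1, u1, r1⟩ := h1
  obtain ⟨c2, u2, r2⟩ := h2
  have hδ : dlt ≠ 0 := by unfold dlt; norm_num
  have un6 : Un (-(1 / 19) ^ 6) := ⟨1, 0, 2, by norm_num⟩
  have key : c2 + -(1 / 19) ^ 6 * c1 = 19 ^ 2 * (c1 + -(1 / 19) ^ 6 * c0) := by
    have : (c2 + -(1 / 19) ^ 6 * c1) * dlt = 19 ^ 2 * (c1 + -(1 / 19) ^ 6 * c0) * dlt := by
      have a1 : x2 + -(1 / 19) ^ 6 * x1 = 19 ^ 2 * (x1 + -(1 / 19) ^ 6 * x0) := by
        rw [e2]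
        have : -(1 / 19 : ℚ) ^ 6 * x1 = -(1 / 19) ^ 6 * (19 ^ 2 * x0 - (1 - (1 / 19) ^ 4) * y0) := by
          rw [e1]
        rw [this]; ring
      rw [r0, r1, r2] at a1
      linarith
    exact mul_right_cancel₀ hδ this
  have hz : c1 + -(1 / 19) ^ 6 * c0 = 0 := by
    by_contra hne
    have hne2 : c2 + -(1 / 19) ^ 6 * c1 ≠ 0 := by
      rw [key]
      exact mul_ne_zero (by norm_num) hne
    obtain ⟨k, hk⟩ := val_add u2 (isU_mul un6 u1) hne2
    obtain ⟨k', hk'⟩ := val_add u1 (isU_mul un6 u0) hne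
    have hv : padicValRat 19 ((19 : ℚ) ^ 2) = 2 := by
      have := padicValRat.zpow (p := 19) (q := 19) (k := 2)
      rw [val19] at this
      have e : ((19 : ℚ) ^ (2 : ℤ)) = 19 ^ 2 := by norm_num
      rw [e] at this
      simpa using this
    rw [key, padicValRat.mul (by norm_num) hne, hk', hv] at hk
    omega
  have hx : x1 = (1 / 19) ^ 6 * x0 := by
    rw [r0, r1]
    have : c1 = (1 / 19) ^ 6 * c0 := by linarith
    rw [this]; ring
  rw [hx] at e1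
  unfold dlt
  linarith

/-- reduction modulo 9 -/
theorem mod_nine (w : Word) : ∃ x : ℤ_[3], ((x : ℤ_[3]) : ℚ_[3]) = ((brv w : ℚ) : ℚ_[3]) ∧
    PadicInt.toZModPow 2 x = ((val (Br (1 : ℤ) 1) w (fun _ => 1) [] : ℤ) : ZMod (3 ^ 2)) := by
  have : Fact (Nat.Prime 3) := ⟨by norm_num⟩
  have hu : IsUnit ((19 : ℕ) : ℤ_[3]) := by
    rw [PadicInt.isUnit_iff]
    rw [PadicInt.norm_natCast_eq_one_iff]
    norm_num
  obtain ⟨b, hb⟩ := hu.exists_right_inv
  refine ⟨val (Br ((19 : ℕ) : ℤ_[3]) b) w (fun _ => 1) [], ?_, ?_⟩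
  · have e1 := val_map (PadicInt.Coe.ringHom (p := 3)) ((19 : ℕ) : ℤ_[3]) b w (fun _ => 1) []
    have e2 := val_map (algebraMap ℚ ℚ_[3]) (19 : ℚ) (1 / 19) w (fun _ => 1) []
    have e3 : PadicInt.Coe.ringHom (p := 3) ((19 : ℕ) : ℤ_[3]) = algebraMap ℚ ℚ_[3] 19 := by
      rw [map_natCast, show (19 : ℚ) = ((19 : ℕ) : ℚ) by norm_num, map_natCast]
    have e4 : PadicInt.Coe.ringHom (p := 3) b = algebraMap ℚ ℚ_[3] (1 / 19) := by
      have e5 := congrArg (PadicInt.Coe.ringHom (p := 3)) hb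
      rw [map_mul, map_one, e3] at e5
      have e6 : algebraMap ℚ ℚ_[3] 19 * algebraMap ℚ ℚ_[3] (1 / 19) = 1 := by
        rw [← map_mul]; norm_num
      have e7 : algebraMap ℚ ℚ_[3] 19 ≠ 0 := by
        intro h
        rw [h, zero_mul] at e6
        exact zero_ne_one e6
      exact mul_left_cancel₀ e7 (e5.trans e6.symm)
    rw [e3, e4] at e1
    simp only [map_one] at e1 e2
    exact e1.trans e2.symm
  · have h3 := val_map (PadicInt.toZModPow (p := 3) 2) ((19 : ℕ) : ℤ_[3]) b w (fun _ => 1) []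
    have e3 : PadicInt.toZModPow (p := 3) 2 ((19 : ℕ) : ℤ_[3]) = 1 := by
      rw [map_natCast]
      decide
    have e4 : PadicInt.toZModPow (p := 3) 2 b = 1 := by
      have e5 := congrArg (PadicInt.toZModPow (p := 3) 2) hb
      rw [map_mul, map_one, e3, one_mul] at e5
      exact e5
    rw [e3, e4] at h3
    have h4 := val_map (Int.castRingHom (ZMod (3 ^ 2))) 1 1 w (fun _ => 1) []
    simp only [map_one] at h3 h4
    rw [h3, ← h4]
    rfl

theorem not_knot_of_brv {w w' : Word} (hw : IsKnot w) (h : brv w' = dlt * brv w) : ¬ IsKnot w' := by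
  intro hw'
  have : Fact (Nat.Prime 3) := ⟨by norm_num⟩
  obtain ⟨x, hx1, hx2⟩ := mod_nine w
  obtain ⟨x', hx1', hx2'⟩ := mod_nine w'
  have e : ((19 : ℕ) : ℤ_[3]) ^ 2 * x' = (((19 : ℕ) : ℤ_[3]) ^ 4 + 1) * x := by
    have h1 : (((19 : ℕ) : ℚ) ^ 2) * brv w' = (((19 : ℕ) : ℚ) ^ 4 + 1) * brv w := by
      rw [h]
      unfold dlt
      push_cast
      ring
    have h2 := congrArg (algebraMap ℚ ℚ_[3]) h1
    simp only [map_mul, map_pow, map_add, map_one, map_natCast] at h2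
    have h3 : ((((19 : ℕ) : ℤ_[3]) ^ 2 * x' : ℤ_[3]) : ℚ_[3]) =
        (((((19 : ℕ) : ℤ_[3]) ^ 4 + 1) * x : ℤ_[3]) : ℚ_[3]) := by
      push_cast
      rw [hx1, hx1']
      push_cast at h2
      exact h2
    exact Subtype.coe_injective h3
  have e2 := congrArg (PadicInt.toZModPow (p := 3) 2) e
  simp only [map_mul, map_pow, map_add, map_one, map_natCast] at e2
  rw [hx2, hx2'] at e2
  rcases knot_one hw with h5 | h5 <;> rcases knot_one hw' with h6 | h6 <;>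
    rw [h5, h6] at e2 <;> revert e2 <;> decide

end Pool.Agent.Helper31.Sk
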